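import Pool.Agent.Lib.MP_219881_nt.Basic

/-!
JOB HG_Cnt.  Integer points of a box on a hyperplane (paper section 6).

`cntF`: let `lin u f = 1` and `ρ = |f j|`. For `c ∈ {0, .., ρ-1}` let `w_c : Fin (n+1) → ℤ`, `w_c i = (c * u i) % ρ ∈ [0, ρ)` for `i ≠ j`, `w_c j = 0`; then
`∑_{i ≠ j} f i * w_c i ≡ c ∑_{i≠j} f i u i = c (1 - f j u j) ≡ c mod ρ`. Let `T = {x ∈ VBox n B | lin f x = 0}`. For `x ∈ T`: `∑_{i ≠ j} f i x i = - f j x j ≡ 0 mod ρ`.
The map `(x, c) ↦ y`, `y i = x i + w_c i` for `i ≠ j`, `y j = 0`, from `T × {0..ρ-1}` to `U = {y | y j = 0, ∀ i ≠ j, -B ≤ y i < B + ρ}` (a piFinset with `(2B + ρ)^n ≤ (3B)^n`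
elements: `Fintype.card_piFinset`, one factor `1`) is injective: `∑_{i≠j} f i y i ≡ c mod ρ` determines `c`, then `x i` for `i ≠ j`, and `x j` is determined by `f j x j = -∑_{i≠j} f i x i`, `f j ≠ 0`.
So `T.card * ρ ≤ (3B)^n`.

`cntS`: the number of integer vectors `f` with all `|f i| ≤ R` weighted by `1 / (sup |f i|)`. For every nonzero `f` of the box choose `j` with `|f j|` maximal; so the sum is at most
`∑_j ∑_{ρ=1}^{R} ∑_{f : f j = ±ρ, |f i| ≤ ρ} 1/ρ = (n+1) ∑_ρ 2 (2ρ+1)^n / ρ ≤ 2 (n+1) ∑_ρ 3^n ρ^(n-1) ≤ 2 (n+1) 3^n R^n` (`n ≥ 1`). Here the statement is in the form: for every function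
`ρ : Vc n ℤ → ℕ` with `1 ≤ ρ f`, `∀ i, |f i| ≤ ρ f`, `∃ j, |f j| = ρ f` on the set of nonzero vectors of the box.
-/

namespace Pool.Agent.Lib.MP_219881_nt

open Classical

private theorem HG_Cnt_card (n : ℕ) (j : Fin (n + 1)) (S T : Finset ℤ) :
    (Fintype.piFinset fun i : Fin (n + 1) => if i = j then S else T).card = S.card * T.card ^ n := by
  rw [Fintype.card_piFinset, Fin.prod_univ_succAbove _ j, if_pos rfl]
  congr 1
  have h : ∀ i : Fin n, (if j.succAbove i = j then S else T).card = T.card := by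
    intro i
    rw [if_neg (Fin.succAbove_ne j i)]
  rw [Finset.prod_congr rfl fun i _ => h i, Finset.prod_const, Finset.card_univ, Fintype.card_fin]

private theorem HG_Cnt_mem (n B : ℕ) (x : Vc n ℤ) : x ∈ VBox n B ↔ ∀ i, |x i| ≤ (B : ℤ) := by
  unfold VBox
  rw [Fintype.mem_piFinset]
  refine forall_congr' fun i => ?_
  rw [Finset.mem_Icc, abs_le]

/-- the map of the proof -/
private def HG_Cnt_map {n : ℕ} (u : Vc n ℤ) (j : Fin (n + 1)) (ρ : ℕ) (s : Vc n ℤ × ℕ) : Vc n ℤ :=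
  fun i => if i = j then 0 else s.1 i + ((s.2 : ℤ) * u i) % (ρ : ℤ)

private theorem HG_Cnt_cong {n : ℕ} (f u : Vc n ℤ) (hu : lin u f = 1) (j : Fin (n + 1)) (ρ : ℕ)
    (hj : (ρ : ℤ) ∣ f j) (s : Vc n ℤ × ℕ) (hs : lin f s.1 = 0) :
    (ρ : ℤ) ∣ lin f (HG_Cnt_map u j ρ s) - s.2 := by
  have h1 : lin f (HG_Cnt_map u j ρ s) - s.2 =
      ∑ i, (f i * HG_Cnt_map u j ρ s i - f i * s.1 i - (s.2 : ℤ) * (u i * f i)) := by
    rw [Finset.sum_sub_distrib, Finset.sum_sub_distrib, ← Finset.mul_sum]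
    have h2 : ∑ i, f i * s.1 i = 0 := hs
    have h3 : ∑ i, u i * f i = 1 := hu
    rw [h2, h3]
    unfold lin
    ring
  rw [h1]
  refine Finset.dvd_sum fun i _ => ?_
  unfold HG_Cnt_map
  by_cases hij : i = j
  · subst hij
    rw [if_pos rfl]
    obtain ⟨k, hk⟩ := hj
    rw [hk]
    exact ⟨-(k * s.1 i) - s.2 * u i * k, by ring⟩
  · rw [if_neg hij]
    have h4 := Int.emod_add_mul_ediv ((s.2 : ℤ) * u i) (ρ : ℤ)
    refine ⟨-(f i * (((s.2 : ℤ) * u i) / (ρ : ℤ))), ?_⟩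
    linear_combination f i * h4

theorem cntF (n B : ℕ) (f : Vc n ℤ) (hf : Uni f) (j : Fin (n + 1)) (ρ : ℕ) (hρ : 1 ≤ ρ)
    (hj : |f j| = (ρ : ℤ)) (hρB : ρ ≤ B) :
    ((VBox n B).filter fun x => lin f x = 0).card * ρ ≤ (3 * B) ^ n := by
  obtain ⟨u, hu⟩ := hf
  have hdvd : (ρ : ℤ) ∣ f j := by
    rw [← hj]
    exact abs_dvd_self (f j)
  have hfj : f j ≠ 0 := by
    intro h
    rw [h, abs_zero] at hj
    omega
  have hρ0 : (0 : ℤ) < ρ := by exact_mod_cast hρ
  set U : Finset (Vc n ℤ) := Fintype.piFinset fun i : Fin (n + 1) =>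
    if i = j then {0} else Finset.Icc (-(B : ℤ)) ((B : ℤ) + ρ - 1) with hU
  have hUc : U.card ≤ (3 * B) ^ n := by
    rw [hU, HG_Cnt_card, Finset.card_singleton, one_mul, Int.card_Icc]
    refine Nat.pow_le_pow_left ?_ n
    omega
  refine le_trans ?_ hUc
  have hcard : ((VBox n B).filter fun x => lin f x = 0).card * ρ =
      (((VBox n B).filter fun x => lin f x = 0) ×ˢ Finset.range ρ).card := by
    rw [Finset.card_product, Finset.card_range]
  rw [hcard]
  refine Finset.card_le_card_of_injOn (HG_Cnt_map u j ρ) ?_ ?_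
  · rintro ⟨x, c⟩ hs
    rw [Finset.mem_coe, Finset.mem_product, Finset.mem_filter, HG_Cnt_mem, Finset.mem_range] at hs
    rw [Finset.mem_coe, hU, Fintype.mem_piFinset]
    intro i
    unfold HG_Cnt_map
    by_cases hij : i = j
    · rw [if_pos hij, if_pos hij]
      exact Finset.mem_singleton_self 0
    · rw [if_neg hij, if_neg hij, Finset.mem_Icc]
      have h1 := abs_le.mp (hs.1.1 i)
      have h2 := Int.emod_nonneg ((c : ℤ) * u i) hρ0.ne'
      have h3 := Int.emod_lt_of_pos ((c : ℤ) * u i) hρ0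
      constructor
      · linarith [h1.1]
      · linarith [h1.2]
  · rintro ⟨x, c⟩ hs ⟨x', c'⟩ hs' heq
    rw [Finset.mem_coe, Finset.mem_product, Finset.mem_filter, HG_Cnt_mem, Finset.mem_range] at hs hs'
    have h1 := HG_Cnt_cong f u hu j ρ hdvd (x, c) hs.1.2
    have h2 := HG_Cnt_cong f u hu j ρ hdvd (x', c') hs'.1.2
    rw [heq] at h1
    have h3 : (ρ : ℤ) ∣ (c : ℤ) - c' := by
      have h4 := dvd_sub h2 h1
      have h5 : lin f (HG_Cnt_map u j ρ (x', c')) - ((x', c').2 : ℕ) -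
          (lin f (HG_Cnt_map u j ρ (x', c')) - ((x, c).2 : ℕ)) = (c : ℤ) - c' := by
        ring
      rwa [h5] at h4
    have hc : c = c' := by
      have h6 : c < ρ := hs.2
      have h7 : c' < ρ := hs'.2
      obtain ⟨k, hk⟩ := h3
      have hk0 : k = 0 := by
        by_contra hne
        rcases lt_or_gt_of_ne hne with hlt | hgt
        · have : (ρ : ℤ) * k ≤ ρ * (-1) := mul_le_mul_of_nonneg_left (by omega) hρ0.le
          omega
        · have : (ρ : ℤ) * 1 ≤ ρ * k := mul_le_mul_of_nonneg_left (by omega) hρ0.le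
          omega
      rw [hk0, mul_zero] at hk
      omega
    subst hc
    have hx : ∀ i, i ≠ j → x i = x' i := by
      intro i hij
      have h8 := congrFun heq i
      unfold HG_Cnt_map at h8
      rw [if_neg hij, if_neg hij] at h8
      exact add_right_cancel h8
    have h9 : ∑ i, f i * (x i - x' i) = 0 := by
      have h10 : ∑ i, f i * x i = 0 := hs.1.2
      have h11 : ∑ i, f i * x' i = 0 := hs'.1.2
      rw [Finset.sum_congr rfl fun i _ => mul_sub (f i) (x i) (x' i), Finset.sum_sub_distrib, h10, h11,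
        sub_zero]
    rw [Finset.sum_eq_single j (fun i _ hij => by rw [hx i hij, sub_self, mul_zero])
      (fun h => absurd (Finset.mem_univ j) h)] at h9
    have hxj : x j = x' j := by
      rcases mul_eq_zero.mp h9 with h | h
      · exact absurd h hfj
      · linarith
    have hxx : x = x' := by
      funext i
      by_cases hij : i = j
      · rw [hij, hxj]
      · exact hx i hij
    rw [hxx]

theorem cntS (n R : ℕ) (hn : 1 ≤ n) (ρ : Vc n ℤ → ℕ)
    (h : ∀ f : Vc n ℤ, f ≠ 0 → 1 ≤ ρ f ∧ (∀ i, |f i| ≤ (ρ f : ℤ)) ∧ ∃ j, |f j| = (ρ f : ℤ)) :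
    ∑ f ∈ (VBox n R).filter (fun f => f ≠ 0), 1 / (ρ f : ℝ) ≤
      2 * (n + 1) * 3 ^ n * (R : ℝ) ^ n := by
  set P : Fin (n + 1) → ℕ → Finset (Vc n ℤ) := fun j r => Fintype.piFinset fun i : Fin (n + 1) =>
    if i = j then {(r : ℤ), -(r : ℤ)} else Finset.Icc (-(r : ℤ)) (r : ℤ) with hP
  have hPc : ∀ j r, 1 ≤ r → ((P j r).card : ℝ) ≤ 2 * (3 * (r : ℝ)) ^ n := by
    intro j r hr
    rw [hP]
    dsimp only
    rw [HG_Cnt_card, Int.card_Icc]
    have h1 : ({(r : ℤ), -(r : ℤ)} : Finset ℤ).card ≤ 2 := Finset.card_le_two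
    have h2 : ((r : ℤ) + 1 - -(r : ℤ)).toNat ≤ 3 * r := by omega
    have h3 := Nat.mul_le_mul h1 (Nat.pow_le_pow_left h2 n)
    exact_mod_cast h3
  have hnn : ∀ (f : Vc n ℤ) (j : Fin (n + 1)) (r : ℕ), 0 ≤ (if f ∈ P j r then 1 / (r : ℝ) else 0) := by
    intro f j r
    split_ifs
    · positivity
    · exact le_rfl
  have key : ∀ f ∈ (VBox n R).filter (fun f => f ≠ 0), 1 / (ρ f : ℝ) ≤
      ∑ j : Fin (n + 1), ∑ r ∈ Finset.Icc 1 R, (if f ∈ P j r then 1 / (r : ℝ) else 0) := by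
    intro f hf
    rw [Finset.mem_filter, HG_Cnt_mem] at hf
    obtain ⟨h1, h2, j, hj⟩ := h f hf.2
    have hR : ρ f ∈ Finset.Icc 1 R := by
      rw [Finset.mem_Icc]
      refine ⟨h1, ?_⟩
      have := hf.1 j
      rw [hj] at this
      exact_mod_cast this
    have hmem : f ∈ P j (ρ f) := by
      rw [hP]
      dsimp only
      rw [Fintype.mem_piFinset]
      intro i
      by_cases hij : i = j
      · rw [if_pos hij, Finset.mem_insert, Finset.mem_singleton, hij, ← hj]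
        rcases abs_choice (f j) with h3 | h3
        · left
          exact h3.symm
        · right
          rw [h3, neg_neg]
      · rw [if_neg hij, Finset.mem_Icc]
        exact abs_le.mp (h2 i)
    have e1 : 1 / (ρ f : ℝ) = (if f ∈ P j (ρ f) then 1 / (ρ f : ℝ) else 0) := by rw [if_pos hmem]
    calc 1 / (ρ f : ℝ) = (if f ∈ P j (ρ f) then 1 / (ρ f : ℝ) else 0) := e1
      _ ≤ ∑ r ∈ Finset.Icc 1 R, (if f ∈ P j r then 1 / (r : ℝ) else 0) :=
        Finset.single_le_sum (f := fun r : ℕ => (if f ∈ P j r then 1 / (r : ℝ) else 0))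
          (fun r _ => hnn f j r) hR
      _ ≤ ∑ j : Fin (n + 1), ∑ r ∈ Finset.Icc 1 R, (if f ∈ P j r then 1 / (r : ℝ) else 0) :=
        Finset.single_le_sum (f := fun j : Fin (n + 1) =>
          ∑ r ∈ Finset.Icc 1 R, (if f ∈ P j r then 1 / (r : ℝ) else 0))
          (fun j _ => Finset.sum_nonneg fun r _ => hnn f j r) (Finset.mem_univ j)
  refine (Finset.sum_le_sum key).trans ?_
  rw [Finset.sum_comm]
  have h5 : ∀ j : Fin (n + 1), ∑ f ∈ (VBox n R).filter (fun f => f ≠ 0),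
      ∑ r ∈ Finset.Icc 1 R, (if f ∈ P j r then 1 / (r : ℝ) else 0) ≤ 2 * 3 ^ n * (R : ℝ) ^ n := by
    intro j
    rw [Finset.sum_comm]
    have h6 : ∀ r ∈ Finset.Icc 1 R, ∑ f ∈ (VBox n R).filter (fun f => f ≠ 0),
        (if f ∈ P j r then 1 / (r : ℝ) else 0) ≤ 2 * 3 ^ n * (R : ℝ) ^ (n - 1) := by
      intro r hr
      rw [Finset.mem_Icc] at hr
      have hr0 : (0 : ℝ) < r := by exact_mod_cast hr.1
      rw [← Finset.sum_filter, Finset.sum_const, nsmul_eq_mul]
      have h7 : ((((VBox n R).filter (fun f => f ≠ 0)).filter (fun f => f ∈ P j r)).card : ℝ) ≤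
          2 * (3 * (r : ℝ)) ^ n := by
        refine le_trans ?_ (hPc j r hr.1)
        have h8 : (((VBox n R).filter (fun f => f ≠ 0)).filter (fun f => f ∈ P j r)) ⊆ P j r := by
          intro f hf
          exact (Finset.mem_filter.mp hf).2
        exact_mod_cast Finset.card_le_card h8
      calc ((((VBox n R).filter (fun f => f ≠ 0)).filter (fun f => f ∈ P j r)).card : ℝ) * (1 / (r : ℝ))
          ≤ 2 * (3 * (r : ℝ)) ^ n * (1 / (r : ℝ)) := mul_le_mul_of_nonneg_right h7 (by positivity)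
        _ = 2 * 3 ^ n * (r : ℝ) ^ (n - 1) := by
          obtain ⟨k, rfl⟩ : ∃ k, n = k + 1 := ⟨n - 1, by omega⟩
          rw [Nat.add_sub_cancel, mul_pow, pow_succ (r : ℝ) k]
          field_simp
        _ ≤ 2 * 3 ^ n * (R : ℝ) ^ (n - 1) := by
          have h9 : (r : ℝ) ≤ R := by exact_mod_cast hr.2
          exact mul_le_mul_of_nonneg_left (pow_le_pow_left₀ hr0.le h9 _) (by positivity)
    refine (Finset.sum_le_sum h6).trans (le_of_eq ?_)
    rw [Finset.sum_const, Nat.card_Icc, nsmul_eq_mul, Nat.add_sub_cancel]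
    obtain ⟨k, rfl⟩ : ∃ k, n = k + 1 := ⟨n - 1, by omega⟩
    rw [Nat.add_sub_cancel, pow_succ (R : ℝ) k]
    ring
  refine (Finset.sum_le_sum fun j _ => h5 j).trans (le_of_eq ?_)
  rw [Finset.sum_const, Finset.card_univ, Fintype.card_fin, nsmul_eq_mul]
  push_cast
  ring

end Pool.Agent.Lib.MP_219881_nt
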