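import Pool.Agent.Lib.MP_219881_nt.HG_Short
import Pool.Agent.Lib.MP_219881_nt.HG_Cnt

/-!
JOB HG_Bad.  Most vectors are `H`-good (paper section 6).

PROOF.  `R = 2^(n+1) L ≤ B`. For `x ∈ VBox n B` not `H`-good `shortF` gives `f ≠ 0`, `lin f x = 0`, `|f i| ≤ R`. Let `d` be the gcd of the coordinates of `f` (`d ≥ 1`), `f' = f / d`:
`lin f' x = 0`, `|f' i| ≤ |f i| ≤ R`, and `f'` is unimodular (Bezout: the ideal of `ℤ` generated by the `f' i` is everything; e.g. the ideal `span (range f)` of `ℤ` is principal, generated by `d`, so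
`d = ∑ u_i f_i` and `f i = d f' i`). So the set of bad `x` is contained in the union over `f ∈ F = {f ∈ VBox n R | f ≠ 0 ∧ Uni f}` of `{x ∈ VBox n B | lin f x = 0}`
(`Finset.card_biUnion_le`), and with `ρ f = sup_i |f i|` (`Finset.univ.sup (fun i => (f i).natAbs)`; attained) `cntF` bounds each cardinality by `(3B)^n / ρ f`. `cntS`:
the total is at most `(3B)^n * 2 (n+1) 3^n R^n = C B^n L^n`, `C = 3^n * 2 (n+1) 3^n * 2^((n+1) n)`.
-/

namespace Pool.Agent.Lib.MP_219881_nt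

open Classical

private theorem HG_Bad_prim {n : ℕ} (f : Vc n ℤ) (hf : f ≠ 0) :
    ∃ (d : ℤ) (g : Vc n ℤ), d ≠ 0 ∧ (∀ i, f i = d * g i) ∧ Uni g := by
  obtain ⟨d, hd⟩ : ∃ d : ℤ, Ideal.span (Set.range f) = Ideal.span {d} :=
    (IsPrincipalIdealRing.principal (Ideal.span (Set.range f))).principal
  have h1 : ∀ i, d ∣ f i := by
    intro i
    rw [← Ideal.mem_span_singleton, ← hd]
    exact Ideal.subset_span ⟨i, rfl⟩
  have hd0 : d ≠ 0 := by
    rintro rfl
    apply hf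
    funext i
    exact zero_dvd_iff.1 (h1 i)
  have h2 : d ∈ Ideal.span (Set.range f) := by
    rw [hd]
    exact Ideal.mem_span_singleton_self d
  obtain ⟨u, hu⟩ := Ideal.mem_span_range_iff_exists_fun.1 h2
  choose g hg using h1
  refine ⟨d, g, hd0, hg, u, ?_⟩
  have h3 : d * lin u g = d * 1 := by
    unfold lin
    rw [mul_one, Finset.mul_sum]
    calc ∑ i, d * (u i * g i) = ∑ i, u i * f i := by
          refine Finset.sum_congr rfl fun i _ => ?_
          rw [hg i]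
          ring
      _ = d := hu
  exact mul_left_cancel₀ hd0 h3

private theorem HG_Bad_rho {n : ℕ} (f : Vc n ℤ) (hf : f ≠ 0) :
    1 ≤ Finset.univ.sup (fun i => (f i).natAbs) ∧
      (∀ i, |f i| ≤ ((Finset.univ.sup (fun i => (f i).natAbs) : ℕ) : ℤ)) ∧
      ∃ j, |f j| = ((Finset.univ.sup (fun i => (f i).natAbs) : ℕ) : ℤ) := by
  have h1 : ∀ i, (f i).natAbs ≤ Finset.univ.sup (fun i => (f i).natAbs) := fun i =>
    Finset.le_sup (f := fun i => (f i).natAbs) (Finset.mem_univ i)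
  refine ⟨?_, ?_, ?_⟩
  · obtain ⟨i, hi⟩ := Function.ne_iff.1 hf
    have h2 : 1 ≤ (f i).natAbs := Nat.one_le_iff_ne_zero.2 (Int.natAbs_ne_zero.2 hi)
    exact h2.trans (h1 i)
  · intro i
    rw [← Int.natCast_natAbs]
    exact_mod_cast h1 i
  · obtain ⟨j, -, hj⟩ := Finset.exists_mem_eq_sup Finset.univ ⟨0, Finset.mem_univ _⟩
      (fun i => (f i).natAbs)
    refine ⟨j, ?_⟩
    rw [hj, Int.natCast_natAbs]

theorem badX (n : ℕ) (hn : 1 ≤ n) : ∃ C : ℝ, 0 < C ∧ ∀ B H L : ℕ, 1 ≤ L → L ≤ H →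
    2 ^ (n + 1) * L ≤ B → 3 ^ n * (n + 1) * B ≤ H * L ^ (n - 1) →
    (((VBox n B).filter fun x => ¬ HGood H x).card : ℝ) ≤ C * (B : ℝ) ^ n * (L : ℝ) ^ n := by
  refine ⟨3 ^ n * (2 * (n + 1) * 3 ^ n) * 2 ^ ((n + 1) * n), by positivity, ?_⟩
  intro B H L hL hLH hR hB
  obtain ⟨R, hRd⟩ : ∃ R, R = 2 ^ (n + 1) * L := ⟨_, rfl⟩
  have hR1 : 1 ≤ R := by
    rw [hRd]
    exact Nat.mul_pos (by positivity) hL
  have hRB : R ≤ B := by
    rw [hRd]
    exact hR
  have hB1 : 1 ≤ B := hR1.trans hRB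
  obtain ⟨F, hF⟩ : ∃ F, F = (VBox n R).filter (fun f => f ≠ 0 ∧ Uni f) := ⟨_, rfl⟩
  have hsub : ((VBox n B).filter fun x => ¬ HGood H x) ⊆
      F.biUnion fun f => (VBox n B).filter fun x => lin f x = 0 := by
    intro x hx
    obtain ⟨hx1, hx2⟩ := Finset.mem_filter.1 hx
    obtain ⟨f, hf0, hfx, hfi⟩ := shortF n B H L hn hB1 hL hLH hB x hx1 hx2
    obtain ⟨d, g, hd, hg, hu⟩ := HG_Bad_prim f hf0
    refine Finset.mem_biUnion.2 ⟨g, ?_, Finset.mem_filter.2 ⟨hx1, ?_⟩⟩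
    · rw [hF]
      refine Finset.mem_filter.2 ⟨mem_VBox.2 fun i => ?_, ?_, hu⟩
      · have h1 := hfi i
        rw [hg i, abs_mul, ← hRd] at h1
        have h2 : 1 ≤ |d| := Int.one_le_abs hd
        have h3 : |g i| ≤ |d| * |g i| := le_mul_of_one_le_left (abs_nonneg _) h2
        exact h3.trans h1
      · rintro rfl
        apply hf0
        funext i
        rw [hg i]
        simp
    · have h1 : d * lin g x = d * 0 := by
        rw [mul_zero, ← hfx]
        unfold lin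
        rw [Finset.mul_sum]
        refine Finset.sum_congr rfl fun i _ => ?_
        rw [hg i]
        ring
      exact mul_left_cancel₀ hd h1
  have hBR : (0 : ℝ) < B := by exact_mod_cast hB1
  have h1 : (((VBox n B).filter fun x => ¬ HGood H x).card : ℝ) ≤
      ∑ f ∈ F, (((VBox n B).filter fun x => lin f x = 0).card : ℝ) := by
    exact_mod_cast (Finset.card_le_card hsub).trans Finset.card_biUnion_le
  have h2 : ∀ f ∈ F, (((VBox n B).filter fun x => lin f x = 0).card : ℝ) ≤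
      (3 * (B : ℝ)) ^ n * (1 / ((Finset.univ.sup (fun i => (f i).natAbs) : ℕ) : ℝ)) := by
    intro f hf
    rw [hF] at hf
    obtain ⟨hf1, hf2, hf3⟩ := Finset.mem_filter.1 hf
    obtain ⟨r1, r2, j, r3⟩ := HG_Bad_rho f hf2
    have r4 : Finset.univ.sup (fun i => (f i).natAbs) ≤ B := by
      have h3 := mem_VBox.1 hf1 j
      rw [r3] at h3
      exact (by exact_mod_cast h3 : Finset.univ.sup (fun i => (f i).natAbs) ≤ R).trans hRB
    have h4 := cntF n B f hf3 j _ r1 r3 r4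
    have h5 : (((VBox n B).filter fun x => lin f x = 0).card : ℝ) *
        ((Finset.univ.sup (fun i => (f i).natAbs) : ℕ) : ℝ) ≤ (3 * (B : ℝ)) ^ n := by
      exact_mod_cast h4
    have h6 : (0 : ℝ) < ((Finset.univ.sup (fun i => (f i).natAbs) : ℕ) : ℝ) := by exact_mod_cast r1
    rw [mul_one_div, le_div_iff₀ h6]
    exact h5
  have h3 : ∑ f ∈ F, (1 / ((Finset.univ.sup (fun i => (f i).natAbs) : ℕ) : ℝ)) ≤
      2 * (n + 1) * 3 ^ n * (R : ℝ) ^ n := by
    refine le_trans ?_ (cntS n R hn (fun f => Finset.univ.sup (fun i => (f i).natAbs))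
      (fun f hf => HG_Bad_rho f hf))
    refine Finset.sum_le_sum_of_subset_of_nonneg ?_ (fun f _ _ => by positivity)
    rw [hF]
    intro f hf
    obtain ⟨hf1, hf2, -⟩ := Finset.mem_filter.1 hf
    exact Finset.mem_filter.2 ⟨hf1, hf2⟩
  calc (((VBox n B).filter fun x => ¬ HGood H x).card : ℝ)
      ≤ ∑ f ∈ F, (((VBox n B).filter fun x => lin f x = 0).card : ℝ) := h1
    _ ≤ ∑ f ∈ F, (3 * (B : ℝ)) ^ n * (1 / ((Finset.univ.sup (fun i => (f i).natAbs) : ℕ) : ℝ)) :=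
        Finset.sum_le_sum h2
    _ = (3 * (B : ℝ)) ^ n * ∑ f ∈ F, (1 / ((Finset.univ.sup (fun i => (f i).natAbs) : ℕ) : ℝ)) := by
        rw [Finset.mul_sum]
    _ ≤ (3 * (B : ℝ)) ^ n * (2 * (n + 1) * 3 ^ n * (R : ℝ) ^ n) :=
        mul_le_mul_of_nonneg_left h3 (by positivity)
    _ = 3 ^ n * (2 * (n + 1) * 3 ^ n) * 2 ^ ((n + 1) * n) * (B : ℝ) ^ n * (L : ℝ) ^ n := by
        rw [hRd]
        push_cast
        rw [mul_pow, mul_pow, ← pow_mul]
        ring

end Pool.Agent.Lib.MP_219881_nt
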