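import Pool.Agent.Lib.MP_219881_nt.Vals

/-!
JOB GGfacts.  Elementary facts about the test points.
(Cubic version with proof: /team-store/MP_1ad228_ntC_GGfacts.lean; adapt it.)

PROOF.  Unfold `GG`, `Finset.mem_filter`, `mem_VBox`. `GG_pos`: `B ≤ q * x o` with `B ≥ 1`.
`exists_Del`: the supremum of a finite nonempty family is attained (`Finset.exists_mem_eq_sup`); if
`Del o x y ≥ 1` the index is not `o` because `mn x y o o = 0`.
`Del_pos`: otherwise all `x_o y_j = x_j y_o`. With `lin u x = 1`: `x_o * lin u y = y_o`, so `x_o ∣ y_o`;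
symmetrically `y_o ∣ x_o`; both positive, so equal; then `y_j = x_j` for all `j`.
`Del_le`: `|x_o y_j - x_j y_o| ≤ 2 * B * B`.
`Dd_le_Del`, `Dd_pos`: `Dd x y` divides the nonzero minor of `exists_Del`.
`card_GG_le`: `(2*B+1)^(n+1) ≤ (3 B)^(n+1)`.
-/

namespace Pool.Agent.Lib.MP_219881_nt

open Classical

section
variable {n : ℕ} {B H q : ℕ} {o : Fin (n + 1)}

theorem GG_pos (hB : 1 ≤ B) {x : Vc n ℤ} (hx : x ∈ GG B H q o) : 0 < x o := by
  unfold GG at hx
  rw [Finset.mem_filter] at hx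
  have h1 := hx.2.1
  have h2 : (0 : ℤ) < (B : ℤ) := by exact_mod_cast hB
  have h3 : (0 : ℤ) < q * x o := lt_of_lt_of_le h2 h1
  exact pos_of_mul_pos_right h3 (by positivity)

theorem GG_le {x : Vc n ℤ} (hx : x ∈ GG B H q o) (i : Fin (n + 1)) : |x i| ≤ (B : ℤ) := by
  unfold GG at hx
  rw [Finset.mem_filter] at hx
  exact mem_VBox.mp hx.1 i

theorem GG_pivot {x : Vc n ℤ} (hx : x ∈ GG B H q o) : (B : ℤ) ≤ q * x o := by
  unfold GG at hx
  rw [Finset.mem_filter] at hx
  exact hx.2.1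

theorem GG_uni {x : Vc n ℤ} (hx : x ∈ GG B H q o) : Uni x := by
  unfold GG at hx
  rw [Finset.mem_filter] at hx
  exact hx.2.2.1

theorem GG_good {x : Vc n ℤ} (hx : x ∈ GG B H q o) : HGood H x := by
  unfold GG at hx
  rw [Finset.mem_filter] at hx
  exact hx.2.2.2

theorem Del_symm (o : Fin (n + 1)) (x y : Vc n ℤ) : Del o y x = Del o x y := by
  unfold Del
  simp only [mn_swap x y, Int.natAbs_neg]

theorem le_Del (o : Fin (n + 1)) (x y : Vc n ℤ) (j : Fin (n + 1)) :
    |mn x y o j| ≤ (Del o x y : ℤ) := by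
  rw [← Int.natCast_natAbs]
  have h : (mn x y o j).natAbs ≤ Del o x y := by
    unfold Del
    exact Finset.le_sup (f := fun j => (mn x y o j).natAbs) (Finset.mem_univ j)
  exact_mod_cast h

theorem exists_Del (o : Fin (n + 1)) (x y : Vc n ℤ) (h : 1 ≤ Del o x y) :
    ∃ j : Fin (n + 1), j ≠ o ∧ mn x y o j ≠ 0 ∧ |mn x y o j| = (Del o x y : ℤ) := by
  obtain ⟨j, -, hj⟩ := Finset.exists_mem_eq_sup (Finset.univ : Finset (Fin (n + 1))) Finset.univ_nonempty
    (fun j => (mn x y o j).natAbs)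
  have hj' : Del o x y = (mn x y o j).natAbs := hj
  have hne : mn x y o j ≠ 0 := by
    intro h0
    rw [h0, Int.natAbs_zero] at hj'
    omega
  refine ⟨j, ?_, hne, ?_⟩
  · intro hj1
    apply hne
    rw [hj1]
    simp only [mn]
    ring
  · rw [hj', Int.natCast_natAbs]

private theorem GGfacts_dvd (o : Fin (n + 1)) (x y : Vc n ℤ) (hx : Uni x) (h : ∀ j, mn x y o j = 0) :
    x o ∣ y o := by
  obtain ⟨u, hu⟩ := hx
  refine ⟨lin u y, ?_⟩
  have h1 : x o * lin u y - y o * lin u x = ∑ j, u j * mn x y o j := by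
    unfold lin mn
    rw [Finset.mul_sum, Finset.mul_sum, ← Finset.sum_sub_distrib]
    exact Finset.sum_congr rfl fun j _ => by ring
  have h2 : ∑ j, u j * mn x y o j = 0 := by
    refine Finset.sum_eq_zero fun j _ => ?_
    rw [h j, mul_zero]
  rw [h2, hu] at h1
  linarith

theorem Del_pos (hB : 1 ≤ B) {x y : Vc n ℤ} (hx : x ∈ GG B H q o) (hy : y ∈ GG B H q o)
    (h : x ≠ y) : 1 ≤ Del o x y := by
  by_contra hlt
  have h0 : Del o x y = 0 := by omega
  have hz : ∀ j, mn x y o j = 0 := by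
    intro j
    have := le_Del o x y j
    rw [h0, Nat.cast_zero, abs_nonpos_iff] at this
    exact this
  have hz' : ∀ j, mn y x o j = 0 := by
    intro j
    rw [mn_swap x y, hz j, neg_zero]
  have d1 := GGfacts_dvd o x y (GG_uni hx) hz
  have d2 := GGfacts_dvd o y x (GG_uni hy) hz'
  have p1 := GG_pos hB hx
  have p2 := GG_pos hB hy
  have e1 : x o = y o := le_antisymm (Int.le_of_dvd p2 d1) (Int.le_of_dvd p1 d2)
  apply h
  funext j
  have := hz j
  simp only [mn] at this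
  rw [e1] at this
  have h3 : y o * (y j - x j) = 0 := by linarith
  rcases mul_eq_zero.mp h3 with h4 | h4
  · exact absurd h4 p2.ne'
  · linarith

theorem Del_le {x y : Vc n ℤ} (hx : x ∈ GG B H q o) (hy : y ∈ GG B H q o) :
    Del o x y ≤ 2 * B ^ 2 := by
  unfold Del
  refine Finset.sup_le fun j _ => ?_
  have h1 : |mn x y o j| ≤ ((2 * B ^ 2 : ℕ) : ℤ) := by
    have b1 := GG_le hx o
    have b2 := GG_le hx j
    have b3 := GG_le hy o
    have b4 := GG_le hy j
    simp only [mn]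
    calc |x o * y j - x j * y o| ≤ |x o * y j| + |x j * y o| := abs_sub _ _
      _ = |x o| * |y j| + |x j| * |y o| := by rw [abs_mul, abs_mul]
      _ ≤ (B : ℤ) * (B : ℤ) + (B : ℤ) * (B : ℤ) := by gcongr
      _ = ((2 * B ^ 2 : ℕ) : ℤ) := by push_cast; ring
  rw [← Int.natCast_natAbs] at h1
  exact_mod_cast h1

theorem Dd_le_Del (o : Fin (n + 1)) (x y : Vc n ℤ) (h : 1 ≤ Del o x y) :
    Dd x y ≤ Del o x y := by
  obtain ⟨j, -, hne, hj⟩ := exists_Del o x y h
  have h1 := Dd_dvd x y o j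
  have h2 : (Dd x y : ℤ) ∣ |mn x y o j| := (dvd_abs _ _).mpr h1
  rw [hj, Int.natCast_dvd_natCast] at h2
  exact Nat.le_of_dvd (by omega) h2

theorem Dd_pos (o : Fin (n + 1)) (x y : Vc n ℤ) (h : 1 ≤ Del o x y) : 1 ≤ Dd x y := by
  obtain ⟨j, -, hne, hj⟩ := exists_Del o x y h
  have h1 := Dd_dvd x y o j
  by_contra hlt
  have h0 : Dd x y = 0 := by omega
  rw [h0, Nat.cast_zero, zero_dvd_iff] at h1
  exact hne h1

theorem card_GG_le (hB : 1 ≤ B) :
    ((GG B H q o).card : ℝ) ≤ 3 ^ (n + 1) * (B : ℝ) ^ (n + 1) := by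
  have h1 : (GG B H q o).card ≤ (2 * B + 1) ^ (n + 1) := by
    rw [← card_VBox]
    unfold GG
    exact Finset.card_filter_le _ _
  have h2 : (2 * B + 1) ^ (n + 1) ≤ 3 ^ (n + 1) * B ^ (n + 1) := by
    rw [← mul_pow]
    exact Nat.pow_le_pow_left (by omega) _
  exact_mod_cast h1.trans h2

end

end Pool.Agent.Lib.MP_219881_nt
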