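import Pool.Agent.Lib.MP_219881_nt.Basic

/-!
JOB CntPairs.  Counting integers and pairs.

PROOF.  `cntInt`: the integers of absolute value at most `⌊P⌋`: there are `2⌊P⌋+1 ≥ P` of them.
`cntT`: integers `t` with `|m1 + t D - c| ≤ R`: those with `(c - m1 - R)/D ≤ t ≤ (c - m1 + R)/D`, an
interval of length `2R/D ≥ 1`; it contains at least `⌊2R/D⌋ ≥ R/D` integers (`Finset.Icc ⌈..⌉ ⌊..⌋`).
`cntPairs`: sigma/biUnion over `m' ∈` the set of `cntInt` of the sets of `cntT`, mapped injectively to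
pairs `(m1 m' + t D, m')` (`D ≥ 1`); cardinality at least `P * (R / D)`.
-/

namespace Pool.Agent.Lib.MP_219881_nt

open Classical

theorem cntInt (P : ℝ) (hP : 0 ≤ P) :
    ∃ S : Finset ℤ, (∀ v ∈ S, |(v : ℝ)| ≤ P) ∧ P ≤ (S.card : ℝ) := by
  refine ⟨Finset.Icc (-⌊P⌋) ⌊P⌋, ?_, ?_⟩
  · intro v hv
    rw [Finset.mem_Icc] at hv
    have h1 : (⌊P⌋ : ℝ) ≤ P := Int.floor_le P
    have h2 : -(⌊P⌋ : ℝ) ≤ v := by exact_mod_cast hv.1
    have h3 : (v : ℝ) ≤ ⌊P⌋ := by exact_mod_cast hv.2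
    rw [abs_le]
    constructor
    · linarith
    · linarith
  · have h0 : 0 ≤ ⌊P⌋ := Int.floor_nonneg.2 hP
    have h1 : P < ⌊P⌋ + 1 := Int.lt_floor_add_one P
    have h2 : (((Finset.Icc (-⌊P⌋) ⌊P⌋).card : ℕ) : ℤ) = 2 * ⌊P⌋ + 1 := by
      rw [Int.card_Icc]
      omega
    have h3 : (((Finset.Icc (-⌊P⌋) ⌊P⌋).card : ℕ) : ℝ) = 2 * (⌊P⌋ : ℝ) + 1 := by
      exact_mod_cast h2
    have h4 : (0 : ℝ) ≤ ⌊P⌋ := by exact_mod_cast h0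
    rw [h3]
    linarith

theorem cntT (R c : ℝ) (m1 : ℤ) (D : ℕ) (hD : 1 ≤ D) (hR : (D : ℝ) ≤ 2 * R) :
    ∃ S : Finset ℤ, (∀ t ∈ S, |((m1 + t * D : ℤ) : ℝ) - c| ≤ R) ∧ R / D ≤ (S.card : ℝ) := by
  have hD' : (0 : ℝ) < D := by exact_mod_cast hD
  set L : ℝ := (c - m1 - R) / D with hL
  set U : ℝ := (c - m1 + R) / D with hU
  refine ⟨Finset.Icc ⌈L⌉ ⌊U⌋, ?_, ?_⟩
  · intro t ht
    rw [Finset.mem_Icc, Int.ceil_le, Int.le_floor] at ht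
    have h1 : c - m1 - R ≤ t * D := (div_le_iff₀ hD').1 ht.1
    have h2 : t * D ≤ c - m1 + R := (le_div_iff₀ hD').1 ht.2
    rw [abs_le]
    push_cast
    constructor
    · linarith
    · linarith
  · have h1 : (⌈L⌉ : ℝ) < L + 1 := Int.ceil_lt_add_one L
    have h2 : U < ⌊U⌋ + 1 := Int.lt_floor_add_one U
    have h3 : U - L = 2 * (R / D) := by
      rw [hU, hL]
      ring
    have h4 : 1 ≤ 2 * (R / D) := by
      rw [← mul_div_assoc, le_div_iff₀ hD', one_mul]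
      exact hR
    have h5 : (⌊U⌋ + 1 - ⌈L⌉ : ℤ) ≤ (((Finset.Icc ⌈L⌉ ⌊U⌋).card : ℕ) : ℤ) := by
      rw [Int.card_Icc]
      omega
    have h6 : ((⌊U⌋ : ℝ) + 1 - ⌈L⌉) ≤ (((Finset.Icc ⌈L⌉ ⌊U⌋).card : ℕ) : ℝ) := by
      exact_mod_cast h5
    rcases le_or_gt (R / D) 1 with h7 | h7
    · have h8 : (0 : ℝ) < (((Finset.Icc ⌈L⌉ ⌊U⌋).card : ℕ) : ℝ) := by linarith
      have h9 : 0 < (Finset.Icc ⌈L⌉ ⌊U⌋).card := by exact_mod_cast h8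
      have h10 : (1 : ℝ) ≤ (((Finset.Icc ⌈L⌉ ⌊U⌋).card : ℕ) : ℝ) := by exact_mod_cast h9
      linarith
    · linarith

theorem cntPairs (P R : ℝ) (hP : 0 ≤ P) (D : ℕ) (hD : 1 ≤ D) (hR : (D : ℝ) ≤ 2 * R)
    (c : ℤ → ℝ) (m1 : ℤ → ℤ) :
    ∃ S : Finset (ℤ × ℤ), (∀ v ∈ S, |(v.2 : ℝ)| ≤ P ∧ |(v.1 : ℝ) - c v.2| ≤ R ∧
        ∃ t : ℤ, v.1 = m1 v.2 + t * D) ∧ P * (R / D) ≤ (S.card : ℝ) := by
  obtain ⟨S, hS1, hS2⟩ := cntInt P hP
  choose T hT1 hT2 using fun v : ℤ => cntT R (c v) (m1 v) D hD hR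
  have hD0 : (D : ℤ) ≠ 0 := by
    have : D ≠ 0 := by omega
    exact_mod_cast this
  refine ⟨(S.sigma T).image (fun p => (m1 p.1 + p.2 * D, p.1)), ?_, ?_⟩
  · intro v hv
    rw [Finset.mem_image] at hv
    obtain ⟨⟨m, t⟩, hp, rfl⟩ := hv
    rw [Finset.mem_sigma] at hp
    exact ⟨hS1 m hp.1, hT1 m t hp.2, t, rfl⟩
  · have hinj : Set.InjOn (fun p : (_ : ℤ) × ℤ => (m1 p.1 + p.2 * D, p.1)) (S.sigma T) := by
      rintro ⟨m, t⟩ _ ⟨m', t'⟩ _ h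
      simp only [Prod.mk.injEq] at h
      obtain ⟨h1, h2⟩ := h
      subst h2
      have h3 : t * (D : ℤ) = t' * D := by linarith
      have h4 : t = t' := mul_right_cancel₀ hD0 h3
      rw [h4]
    rw [Finset.card_image_of_injOn hinj, Finset.card_sigma]
    push_cast
    have h5 : ∀ v ∈ S, R / D ≤ ((T v).card : ℝ) := fun v _ => hT2 v
    have h6 := Finset.card_nsmul_le_sum S (fun v => ((T v).card : ℝ)) (R / D) h5
    rw [nsmul_eq_mul] at h6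
    refine le_trans ?_ h6
    have h7 : 0 ≤ R / D := by
      have h8 : (0 : ℝ) ≤ D := Nat.cast_nonneg D
      exact div_nonneg (by linarith) h8
    exact mul_le_mul_of_nonneg_right hS2 h7

end Pool.Agent.Lib.MP_219881_nt
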