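import Pool.Agent.Lib.MP_219881_nt.Basic

/-!
JOB CN_Cls.  Integers of an interval in a residue class; the pigeonhole lower bound for `n1` (paper sections 7, 11).

`clsLow`: `z = x0 + t W` with `(c - r - x0)/W ≤ t ≤ (c + r - x0)/W`, an interval of length `2r/W ≥ 2`; it contains at least `2r/W - 1 ≥ r/W` integers (image of `Finset.Icc ⌈(c - r - x0)/W⌉ ⌊(c + r - x0)/W⌋`).

`clsUp`: the integers `z` with `|z| ≤ B` in a class mod `m`: `z ↦ (z + B) / m` is injective on them (`Int.ediv`, same remainder) with values in `{0, .., 2B/m}`: at most `2B/m + 1` (real division fine).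

`n1low`: `P = {a | all entries in [0, A]}` has `(A+1)^((n+1)^2)` elements, `a ↦ ev a x` maps it into `[-(n+1)^2 A B^2, (n+1)^2 A B^2]` (`ev_bound`) with `2 (n+1)^2 A B^2 + 1 ≤ 3 (n+1)^2 A B^2` elements. Some
fibre has at least `(A+1)^((n+1)^2) / (3 (n+1)^2 A B^2)` elements; subtract one of its elements: the differences are in `Box n A` and vanish at `x` (`ev_sub`).
-/

namespace Pool.Agent.Lib.MP_219881_nt

open Classical

theorem clsLow (c r : ℝ) (W : ℕ) (x0 : ℤ) (hW : 1 ≤ W) (h : (W : ℝ) ≤ r) :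
    ∃ S : Finset ℤ, (∀ z ∈ S, |(z : ℝ) - c| ≤ r ∧ (W : ℤ) ∣ z - x0) ∧ r / W ≤ (S.card : ℝ) := by
  have hW0 : (0 : ℝ) < W := by exact_mod_cast hW
  have hWz : (W : ℤ) ≠ 0 := by exact_mod_cast (show W ≠ 0 by omega)
  set a : ℝ := (c - r - x0) / W with ha
  set b : ℝ := (c + r - x0) / W with hb
  refine ⟨(Finset.Icc ⌈a⌉ ⌊b⌋).image (fun t => x0 + t * W), ?_, ?_⟩
  · intro z hz
    rw [Finset.mem_image] at hz
    obtain ⟨t, ht, rfl⟩ := hz
    rw [Finset.mem_Icc] at ht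
    have h1 : a ≤ t := Int.ceil_le.mp ht.1
    have h2 : (t : ℝ) ≤ b := Int.le_floor.mp ht.2
    rw [ha, div_le_iff₀ hW0] at h1
    rw [hb, le_div_iff₀ hW0] at h2
    refine ⟨?_, ⟨t, by ring⟩⟩
    push_cast
    rw [abs_le]
    constructor <;> linarith
  · have hinj : Function.Injective (fun t : ℤ => x0 + t * W) := by
      intro t t' htt
      have h1 : t * (W : ℤ) = t' * W := by
        simpa using htt
      exact mul_right_cancel₀ hWz h1
    rw [Finset.card_image_of_injective _ hinj, Int.card_Icc]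
    have h1 : b - 1 < ⌊b⌋ := Int.sub_one_lt_floor b
    have h2 : (⌈a⌉ : ℝ) < a + 1 := Int.ceil_lt_add_one a
    have h3 : b - a = 2 * (r / W) := by
      rw [ha, hb]
      field_simp
      ring
    have h4 : (1 : ℝ) ≤ r / W := by
      rw [le_div_iff₀ hW0, one_mul]
      exact h
    have h5 : ((⌊b⌋ + 1 - ⌈a⌉ : ℤ) : ℝ) ≤ (((⌊b⌋ + 1 - ⌈a⌉).toNat : ℤ) : ℝ) := by
      exact_mod_cast Int.self_le_toNat _
    push_cast at h5
    have h6 : ((((⌊b⌋ + 1 - ⌈a⌉).toNat : ℕ) : ℤ) : ℝ) = (((⌊b⌋ + 1 - ⌈a⌉).toNat : ℕ) : ℝ) := by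
      push_cast
      rfl
    rw [← h6]
    push_cast
    linarith

theorem clsUp (B m : ℕ) (x0 : ℤ) (hm : 1 ≤ m) (S : Finset ℤ)
    (h : ∀ z ∈ S, |z| ≤ (B : ℤ) ∧ (m : ℤ) ∣ z - x0) : (S.card : ℝ) ≤ 2 * B / m + 1 := by
  have hmz : (0 : ℤ) < m := by exact_mod_cast hm
  have hm0 : (0 : ℝ) < m := by exact_mod_cast hm
  have hmaps : ∀ z ∈ S, (z + B) / (m : ℤ) ∈ Finset.Icc (0 : ℤ) ((2 * B : ℤ) / m) := by
    intro z hz
    obtain ⟨h1, _⟩ := h z hz
    rw [abs_le] at h1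
    rw [Finset.mem_Icc]
    exact ⟨Int.ediv_nonneg (by linarith) hmz.le, Int.ediv_le_ediv hmz (by linarith)⟩
  have hinj : Set.InjOn (fun z : ℤ => (z + B) / (m : ℤ)) (S : Set ℤ) := by
    intro z hz z' hz' heq
    have heq' : (z + B) / (m : ℤ) = (z' + B) / (m : ℤ) := heq
    obtain ⟨_, h1⟩ := h z (Finset.mem_coe.mp hz)
    obtain ⟨_, h2⟩ := h z' (Finset.mem_coe.mp hz')
    have h3 : (m : ℤ) ∣ (z' + B) - (z + B) := by
      have : (z' + B) - (z + B) = (z' - x0) - (z - x0) := by ring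
      rw [this]
      exact dvd_sub h2 h1
    have h4 : (z + B) % (m : ℤ) = (z' + B) % (m : ℤ) := Int.modEq_iff_dvd.mpr h3
    have h5 := Int.mul_ediv_add_emod (z + B) m
    have h6 := Int.mul_ediv_add_emod (z' + B) m
    rw [heq', h4] at h5
    linarith
  have hcard := Finset.card_le_card_of_injOn _ hmaps hinj
  rw [Int.card_Icc] at hcard
  have h0 : (0 : ℤ) ≤ (2 * B : ℤ) / m := Int.ediv_nonneg (by positivity) hmz.le
  have h1 : ((S.card : ℤ)) ≤ (2 * B : ℤ) / m + 1 := by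
    have h2 : (((2 * B : ℤ) / m + 1 - 0).toNat : ℤ) = (2 * B : ℤ) / m + 1 := by
      rw [Int.toNat_of_nonneg (by linarith)]
      ring
    calc (S.card : ℤ) ≤ (((2 * B : ℤ) / m + 1 - 0).toNat : ℤ) := by exact_mod_cast hcard
      _ = _ := h2
  have h3 : ((2 * B : ℤ) / m) * m ≤ 2 * B := Int.ediv_mul_le _ hmz.ne'
  have h4 : (((2 * B : ℤ) / m : ℤ) : ℝ) ≤ 2 * B / m := by
    rw [le_div_iff₀ hm0]
    exact_mod_cast h3
  have h5 : (S.card : ℝ) ≤ (((2 * B : ℤ) / m : ℤ) : ℝ) + 1 := by exact_mod_cast h1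
  linarith

theorem n1low (n A B : ℕ) (hA : 1 ≤ A) (hB : 1 ≤ B) (x : Vc n ℤ) (hx : x ∈ VBox n B) :
    (A : ℝ) ^ (n + 1) ^ 2 / (3 * (n + 1) ^ 2 * A * B ^ 2) ≤ (n1 x A : ℝ) := by
  obtain ⟨M, hM⟩ : ∃ M : ℕ, M = (n + 1) ^ 2 * A * B ^ 2 := ⟨_, rfl⟩
  have hM1 : 1 ≤ M := by
    rw [hM]
    exact Nat.succ_le_of_lt (by positivity)
  obtain ⟨P, hP⟩ : ∃ P : Finset (Mt n ℤ), P = Fintype.piFinset fun _ => Fintype.piFinset fun _ =>
    Finset.Icc (0 : ℤ) (A : ℤ) := ⟨_, rfl⟩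
  have hPm : ∀ a : Mt n ℤ, a ∈ P ↔ ∀ i j, 0 ≤ a i j ∧ a i j ≤ (A : ℤ) := by
    intro a
    rw [hP]
    simp [Fintype.mem_piFinset, Finset.mem_Icc]
  have hPc : P.card = (A + 1) ^ (n + 1) ^ 2 := by
    have h : ((A : ℤ) + 1 - 0).toNat = A + 1 := by omega
    rw [hP]
    simp only [Fintype.card_piFinset, Int.card_Icc, h, Finset.prod_const, Finset.card_univ,
      Fintype.card_fin]
    rw [← pow_mul, sq]
  have hxb := mem_VBox.mp hx
  have hmaps : ∀ a ∈ P, ev a x ∈ Finset.Icc (-(M : ℤ)) (M : ℤ) := by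
    intro a ha
    have h1 : ∀ i j, |a i j| ≤ (A : ℤ) := by
      intro i j
      obtain ⟨h2, h3⟩ := (hPm a).mp ha i j
      rw [abs_of_nonneg h2]
      exact h3
    have h2 := ev_bound h1 hxb
    rw [Finset.mem_Icc, ← abs_le, hM]
    push_cast
    exact h2
  have hIc : ((Finset.Icc (-(M : ℤ)) (M : ℤ)).card : ℝ) = 2 * M + 1 := by
    rw [Int.card_Icc]
    have : ((M : ℤ) + 1 - -(M : ℤ)).toNat = 2 * M + 1 := by omega
    rw [this]
    push_cast
    ring
  have hM0 : (0 : ℝ) < 2 * M + 1 := by positivity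
  obtain ⟨v, _, hv⟩ := Finset.exists_le_card_fiber_of_nsmul_le_card_of_maps_to
    (s := P) (t := Finset.Icc (-(M : ℤ)) (M : ℤ)) (f := fun a => ev a x)
    (b := (P.card : ℝ) / (2 * M + 1)) hmaps ⟨0, by rw [Finset.mem_Icc]; constructor <;> omega⟩ (by
      rw [nsmul_eq_mul, hIc, mul_div_cancel₀ _ hM0.ne'])
  have hPpos : (0 : ℝ) < P.card := by
    rw [hPc]
    positivity
  have hFpos : (0 : ℝ) < ((P.filter fun a => ev a x = v).card : ℝ) :=
    lt_of_lt_of_le (by positivity) hv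
  have hFne : (P.filter fun a => ev a x = v).Nonempty := by
    rw [← Finset.card_pos]
    exact_mod_cast hFpos
  obtain ⟨a0, ha0⟩ := hFne
  rw [Finset.mem_filter] at ha0
  have hle : (P.filter fun a => ev a x = v).card ≤ n1 x A := by
    rw [n1]
    refine Finset.card_le_card_of_injOn (fun a => a - a0) ?_ ?_
    · intro a ha
      rw [Finset.mem_coe, Finset.mem_filter] at ha
      rw [Finset.mem_coe, Finset.mem_filter, mem_Box]
      refine ⟨?_, ?_⟩
      · intro i j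
        obtain ⟨h1, h2⟩ := (hPm a).mp ha.1 i j
        obtain ⟨h3, h4⟩ := (hPm a0).mp ha0.1 i j
        show |a i j - a0 i j| ≤ (A : ℤ)
        rw [abs_le]
        constructor <;> linarith
      · show ev (a - a0) x = 0
        rw [ev_sub, ha.2, ha0.2, sub_self]
    · intro a _ a' _ haa
      exact sub_left_injective haa
  have h1 : (A : ℝ) ^ (n + 1) ^ 2 ≤ P.card := by
    rw [hPc]
    push_cast
    exact pow_le_pow_left₀ (by positivity) (by linarith) _
  have hMr : (M : ℝ) = (n + 1) ^ 2 * A * B ^ 2 := by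
    rw [hM]
    push_cast
    ring
  have hM1r : (1 : ℝ) ≤ M := by exact_mod_cast hM1
  calc (A : ℝ) ^ (n + 1) ^ 2 / (3 * (n + 1) ^ 2 * A * B ^ 2)
      = (A : ℝ) ^ (n + 1) ^ 2 / (3 * M) := by
        rw [hMr]
        ring_nf
    _ ≤ (P.card : ℝ) / (2 * M + 1) := by
        apply div_le_div₀ (by positivity) h1 hM0
        linarith
    _ ≤ ((P.filter fun a => ev a x = v).card : ℝ) := hv
    _ ≤ (n1 x A : ℝ) := by exact_mod_cast hle

end Pool.Agent.Lib.MP_219881_nt
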