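import Pool.Agent.Lib.MP_219881_nt.CN_Cls

/-!
JOB CN_Np.  Non primitive vectors in a unimodular residue class; many primitive vectors (paper sections 7, 8).

`nonUni`: a vector `x ≠ 0` in `ℤ^(n+1)` which is not `Uni` is divisible by an integer `d ≥ 2`: all `x l = d * x' l` (the ideal generated by the coordinates is principal with generator `d`, which is not a unit because
otherwise `x` would be `Uni`, and `d ≠ 0`). One can take `d` a natural number `≥ 2`.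

`nonPrim`: let `W = WW w`. Let `x` be in the filter. By `nonUni` there is `d ≥ 2` dividing all `x l`; `d ≤ B` (some `x l ≠ 0`, `|x l| ≤ B`). `d` is coprime to `W`: a common prime `p` would divide all
`x0 l` modulo `W`, hence modulo `p`, and `Uni (cv (ZMod W) x0)`: `∑ u l x0 l = 1` in `ZMod W`; map to `ZMod p` (`ZMod.castHom`): `0 = 1`, contradiction. Every prime `p ≤ w` divides `W` (`WW`, `w ≥ 1`:
`p ∣ p^w` and `Finset.dvd_prod_of_mem`), so all prime factors of `d` are `> w` and `d > w`. So the filter is contained in the union over `d ∈ Finset.Ioc w B`, `d` coprime to `W`, of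
`X_d = {x ∈ VBox n B | ∀ l, d ∣ x l ∧ W ∣ x l - x0 l}`. By the Chinese remainder theorem the conditions on `x l` are one residue class modulo `d W` (two solutions differ by a multiple of `d W`:
`IsCoprime.mul_dvd`), so by `clsUp` each coordinate has at most `2B/(dW) + 1` values, `X_d.card ≤ (2B/(dW) + 1)^(n+1)` (it embeds in a `piFinset`; if it is nonempty use one of its elements as base point).
If `dW ≤ 2B` this is `≤ (4B/(dW))^(n+1)`, otherwise `≤ 2^(n+1)`; in all cases `≤ (4B/(dW))^(n+1) + 2^(n+1)`. Sum over `w < d ≤ B`: `∑ d^(-(n+1)) ≤ ∑_{d > w} d^(-2) ≤ 1/w` (`n ≥ 1`,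
telescoping `1/d^2 ≤ 1/(d-1) - 1/d`; Mathlib `sum_Ioc_inv_sq_le_sub`).

`manyU`: the vectors with `x o ∈ [B/2, B]` (i.e. `B ≤ 2 x o`, `x o ≤ B`) and `x l ∈ [1, B]` for `l ≠ o`: at least `B/2 * B^n`. Those which are not `Uni` have a divisor `d ∈ {2, .., B}` and for each `d` there are at most
`(B/d)^(n+1)` of them (all coordinates are positive multiples of `d` up to `B`): at most `B^(n+1) ∑_{d ≥ 2} d^(-(n+1))`, `d^(-(n+1)) ≤ d^(-6) ≤ (1/16) d^(-2)` and `∑_{d ≥ 2} d^(-2) ≤ 1`. So at least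
`(1/2 - 1/16) B^(n+1)` remain.
-/

namespace Pool.Agent.Lib.MP_219881_nt

open Classical

theorem nonUni {n : ℕ} (x : Vc n ℤ) (hx : x ≠ 0) (h : ¬ Uni x) :
    ∃ d : ℕ, 2 ≤ d ∧ ∀ l, (d : ℤ) ∣ x l := by
  obtain ⟨g, hg⟩ := (IsPrincipalIdealRing.principal (Ideal.span (Set.range x))).principal
  have hgd : ∀ l, g ∣ x l := by
    intro l
    have h1 : x l ∈ Ideal.span (Set.range x) := Ideal.subset_span ⟨l, rfl⟩
    rw [hg] at h1
    exact Ideal.mem_span_singleton.mp h1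
  have hg0 : g ≠ 0 := by
    intro h0
    apply hx
    funext l
    have h1 := hgd l
    rw [h0, zero_dvd_iff] at h1
    exact h1
  have hg1 : ¬ IsUnit g := by
    intro hu
    apply h
    have h1 : (1 : ℤ) ∈ Ideal.span (Set.range x) := by
      rw [hg]
      exact Ideal.mem_span_singleton.mpr hu.dvd
    obtain ⟨c, hc⟩ := Ideal.mem_span_range_iff_exists_fun.mp h1
    exact ⟨c, hc⟩
  refine ⟨g.natAbs, ?_, fun l => ?_⟩
  · have h1 : g.natAbs ≠ 0 := Int.natAbs_ne_zero.mpr hg0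
    have h2 : g.natAbs ≠ 1 := fun h3 => hg1 (Int.isUnit_iff_natAbs_eq.mpr h3)
    omega
  · exact (Int.natAbs_dvd.mpr (hgd l))

private theorem CN_Np_WW_pos (w : ℕ) : 0 < WW w := by
  rw [WW]
  refine Finset.prod_pos fun p hp => ?_
  rw [Finset.mem_filter] at hp
  exact pow_pos hp.2.pos _

private theorem CN_Np_dvd_WW {w p : ℕ} (hw : 1 ≤ w) (hp : p.Prime) (hpw : p ≤ w) : p ∣ WW w := by
  have h1 : p ^ w ∣ WW w := by
    rw [WW]
    exact Finset.dvd_prod_of_mem (fun p : ℕ => p ^ w)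
      (by rw [Finset.mem_filter, Finset.mem_range]; exact ⟨by omega, hp⟩)
  exact (dvd_pow_self p (by omega)).trans h1

private theorem CN_Np_coprime {n w : ℕ} (x0 : Vc n ℤ) (h0 : Uni (cv (ZMod (WW w)) x0))
    (d : ℕ) (x : Vc n ℤ) (h1 : ∀ l, ((WW w : ℕ) : ℤ) ∣ x l - x0 l) (h2 : ∀ l, (d : ℤ) ∣ x l) :
    Nat.Coprime d (WW w) := by
  by_contra hcon
  obtain ⟨p, hp, hpd, hpW⟩ := Nat.Prime.not_coprime_iff_dvd.mp hcon
  haveI : Fact p.Prime := ⟨hp⟩
  obtain ⟨u, hu⟩ := h0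
  have h3 : ∀ l, ((x0 l : ℤ) : ZMod p) = 0 := by
    intro l
    rw [ZMod.intCast_zmod_eq_zero_iff_dvd]
    have h4 : (p : ℤ) ∣ x l := (Int.natCast_dvd_natCast.mpr hpd).trans (h2 l)
    have h5 : (p : ℤ) ∣ x l - x0 l := (Int.natCast_dvd_natCast.mpr hpW).trans (h1 l)
    have h6 : x0 l = x l - (x l - x0 l) := by ring
    rw [h6]
    exact dvd_sub h4 h5
  have h7 := congrArg (ZMod.castHom hpW (ZMod p)) hu
  rw [map_one, lin, map_sum] at h7
  have h8 : ∑ i, (ZMod.castHom hpW (ZMod p)) (u i * cv (ZMod (WW w)) x0 i) = 0 := by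
    refine Finset.sum_eq_zero fun i _ => ?_
    rw [map_mul]
    have h9 : (ZMod.castHom hpW (ZMod p)) (cv (ZMod (WW w)) x0 i) = ((x0 i : ℤ) : ZMod p) :=
      map_intCast _ _
    rw [h9, h3, mul_zero]
  rw [h8] at h7
  exact zero_ne_one h7

private theorem CN_Np_pow (n : ℕ) (t : ℝ) (ht : 0 ≤ t) :
    (t + 1) ^ (n + 1) ≤ (2 * t) ^ (n + 1) + 2 ^ (n + 1) := by
  rcases le_total 1 t with h | h
  · have h1 : (t + 1) ^ (n + 1) ≤ (2 * t) ^ (n + 1) := pow_le_pow_left₀ (by linarith) (by linarith) _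
    have h2 : (0 : ℝ) ≤ 2 ^ (n + 1) := by positivity
    linarith
  · have h1 : (t + 1) ^ (n + 1) ≤ 2 ^ (n + 1) := pow_le_pow_left₀ (by linarith) (by linarith) _
    have h2 : (0 : ℝ) ≤ (2 * t) ^ (n + 1) := by positivity
    linarith

/-- the vectors of the box divisible by `d` in a residue class modulo `W` -/
private theorem CN_Np_class (n B d W : ℕ) (hd : 1 ≤ d) (hW : 1 ≤ W) (hdW : Nat.Coprime d W)
    (x0 : Vc n ℤ) :
    (((VBox n B).filter fun x => ∀ l, (d : ℤ) ∣ x l ∧ (W : ℤ) ∣ x l - x0 l).card : ℝ) ≤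
      (4 * B / (W : ℝ)) ^ (n + 1) / (d : ℝ) ^ (n + 1) + 2 ^ (n + 1) := by
  have hd0 : (0 : ℝ) < d := by exact_mod_cast hd
  have hW0 : (0 : ℝ) < W := by exact_mod_cast hW
  rcases Finset.eq_empty_or_nonempty
    ((VBox n B).filter fun x => ∀ l, (d : ℤ) ∣ x l ∧ (W : ℤ) ∣ x l - x0 l) with he | ⟨b, hb⟩
  · rw [he, Finset.card_empty, Nat.cast_zero]
    positivity
  rw [Finset.mem_filter] at hb
  have hsub : ((VBox n B).filter fun x => ∀ l, (d : ℤ) ∣ x l ∧ (W : ℤ) ∣ x l - x0 l) ⊆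
      Fintype.piFinset fun l : Fin (n + 1) =>
        (Finset.Icc (-(B : ℤ)) (B : ℤ)).filter fun z => ((d * W : ℕ) : ℤ) ∣ z - b l := by
    intro x hx
    rw [Finset.mem_filter] at hx
    rw [Fintype.mem_piFinset]
    intro l
    rw [Finset.mem_filter, Finset.mem_Icc, ← abs_le]
    refine ⟨mem_VBox.mp hx.1 l, ?_⟩
    push_cast
    refine IsCoprime.mul_dvd (Nat.isCoprime_iff_coprime.mpr hdW) ?_ ?_
    · exact dvd_sub (hx.2 l).1 (hb.2 l).1
    · have h1 : x l - b l = (x l - x0 l) - (b l - x0 l) := by ring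
      rw [h1]
      exact dvd_sub (hx.2 l).2 (hb.2 l).2
  have h1 : (((VBox n B).filter fun x => ∀ l, (d : ℤ) ∣ x l ∧ (W : ℤ) ∣ x l - x0 l).card : ℝ) ≤
      (2 * B / ((d * W : ℕ) : ℝ) + 1) ^ (n + 1) := by
    calc (((VBox n B).filter fun x => ∀ l, (d : ℤ) ∣ x l ∧ (W : ℤ) ∣ x l - x0 l).card : ℝ)
        ≤ ((Fintype.piFinset fun l : Fin (n + 1) =>
          (Finset.Icc (-(B : ℤ)) (B : ℤ)).filter fun z => ((d * W : ℕ) : ℤ) ∣ z - b l).card : ℝ) := by
          exact_mod_cast Finset.card_le_card hsub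
      _ = ∏ l : Fin (n + 1), (((Finset.Icc (-(B : ℤ)) (B : ℤ)).filter fun z =>
            ((d * W : ℕ) : ℤ) ∣ z - b l).card : ℝ) := by
          rw [Fintype.card_piFinset]
          push_cast
          rfl
      _ ≤ ∏ _l : Fin (n + 1), (2 * B / ((d * W : ℕ) : ℝ) + 1) := by
          refine Finset.prod_le_prod (fun _ _ => Nat.cast_nonneg _) fun l _ => ?_
          refine clsUp B (d * W) (b l) (Nat.mul_pos hd hW) _ fun z hz => ?_
          rw [Finset.mem_filter, Finset.mem_Icc, ← abs_le] at hz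
          exact hz
      _ = (2 * B / ((d * W : ℕ) : ℝ) + 1) ^ (n + 1) := by
          rw [Finset.prod_const, Finset.card_univ, Fintype.card_fin]
  refine h1.trans ((CN_Np_pow n _ (by positivity)).trans (le_of_eq ?_))
  rw [← div_pow]
  congr 2
  push_cast
  field_simp
  ring

theorem nonPrim (n w B : ℕ) (hn : 1 ≤ n) (hw : 1 ≤ w) (x0 : Vc n ℤ)
    (h0 : Uni (cv (ZMod (WW w)) x0)) :
    (((VBox n B).filter fun x => (∀ l, ((WW w : ℕ) : ℤ) ∣ x l - x0 l) ∧ x ≠ 0 ∧ ¬ Uni x).card : ℝ) ≤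
      (4 * B / (WW w : ℝ)) ^ (n + 1) / w + 2 ^ (n + 1) * B := by
  have hW1 : 1 ≤ WW w := CN_Np_WW_pos w
  have hW0 : (0 : ℝ) < (WW w : ℝ) := by exact_mod_cast hW1
  have hw0 : (0 : ℝ) < w := by exact_mod_cast hw
  have hsub : ((VBox n B).filter fun x => (∀ l, ((WW w : ℕ) : ℤ) ∣ x l - x0 l) ∧ x ≠ 0 ∧ ¬ Uni x) ⊆
      ((Finset.Ioc w B).filter fun d => Nat.Coprime d (WW w)).biUnion fun d =>
        (VBox n B).filter fun x => ∀ l, (d : ℤ) ∣ x l ∧ ((WW w : ℕ) : ℤ) ∣ x l - x0 l := by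
    intro x hx
    rw [Finset.mem_filter] at hx
    obtain ⟨hx1, hx2, hx3, hx4⟩ := hx
    obtain ⟨d, hd2, hd⟩ := nonUni x hx3 hx4
    have hcop := CN_Np_coprime x0 h0 d x hx2 hd
    have hdw : w < d := by
      by_contra hcon
      push Not at hcon
      have hd1 : d ≠ 1 := by omega
      have hpp := Nat.minFac_prime hd1
      have h1 : d.minFac ≤ d := Nat.minFac_le (by omega)
      have h2 : d.minFac ∣ WW w := CN_Np_dvd_WW hw hpp (h1.trans hcon)
      have h3 : d.minFac ∣ 1 := hcop ▸ Nat.dvd_gcd (Nat.minFac_dvd d) h2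
      exact hpp.one_lt.ne' (Nat.dvd_one.mp h3)
    obtain ⟨l, hl⟩ : ∃ l, x l ≠ 0 := by
      by_contra hcon
      push Not at hcon
      exact hx3 (funext hcon)
    have hdB : d ≤ B := by
      have h1 : (d : ℤ) ≤ |x l| := Int.le_of_dvd (abs_pos.mpr hl) ((dvd_abs _ _).mpr (hd l))
      have h2 := mem_VBox.mp hx1 l
      exact_mod_cast h1.trans h2
    rw [Finset.mem_biUnion]
    refine ⟨d, ?_, ?_⟩
    · rw [Finset.mem_filter, Finset.mem_Ioc]
      exact ⟨⟨hdw, hdB⟩, hcop⟩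
    · rw [Finset.mem_filter]
      exact ⟨hx1, fun l => ⟨hd l, hx2 l⟩⟩
  have h1 : (((VBox n B).filter fun x =>
      (∀ l, ((WW w : ℕ) : ℤ) ∣ x l - x0 l) ∧ x ≠ 0 ∧ ¬ Uni x).card : ℝ) ≤
      ∑ d ∈ (Finset.Ioc w B).filter fun d => Nat.Coprime d (WW w),
        (((VBox n B).filter fun x => ∀ l, (d : ℤ) ∣ x l ∧ ((WW w : ℕ) : ℤ) ∣ x l - x0 l).card : ℝ) := by
    exact_mod_cast (Finset.card_le_card hsub).trans Finset.card_biUnion_le
  have h2 : ∀ d ∈ (Finset.Ioc w B).filter fun d => Nat.Coprime d (WW w),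
      (((VBox n B).filter fun x => ∀ l, (d : ℤ) ∣ x l ∧ ((WW w : ℕ) : ℤ) ∣ x l - x0 l).card : ℝ) ≤
        (4 * B / (WW w : ℝ)) ^ (n + 1) * ((d : ℝ) ^ 2)⁻¹ + 2 ^ (n + 1) := by
    intro d hd
    rw [Finset.mem_filter, Finset.mem_Ioc] at hd
    have hd1 : 1 ≤ d := by omega
    have hd1' : (1 : ℝ) ≤ d := by exact_mod_cast hd1
    refine (CN_Np_class n B d (WW w) hd1 hW1 hd.2 x0).trans ?_
    rw [div_eq_mul_inv]
    have h3 : ((d : ℝ) ^ (n + 1))⁻¹ ≤ ((d : ℝ) ^ 2)⁻¹ := by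
      apply inv_anti₀ (by positivity)
      exact pow_le_pow_right₀ hd1' (by omega)
    have h4 : (0 : ℝ) ≤ (4 * B / (WW w : ℝ)) ^ (n + 1) := by positivity
    have h5 := mul_le_mul_of_nonneg_left h3 h4
    linarith
  have h3 : ∑ d ∈ (Finset.Ioc w B).filter (fun d => Nat.Coprime d (WW w)),
      ((4 * B / (WW w : ℝ)) ^ (n + 1) * ((d : ℝ) ^ 2)⁻¹ + 2 ^ (n + 1)) ≤
      ∑ d ∈ Finset.Ioc w B, ((4 * B / (WW w : ℝ)) ^ (n + 1) * ((d : ℝ) ^ 2)⁻¹ + 2 ^ (n + 1)) :=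
    Finset.sum_le_sum_of_subset_of_nonneg (Finset.filter_subset _ _) fun _ _ _ => by positivity
  have h4 : ∑ d ∈ Finset.Ioc w B, ((d : ℝ) ^ 2)⁻¹ ≤ (w : ℝ)⁻¹ := by
    rcases le_total w B with h | h
    · have h5 := sum_Ioc_inv_sq_le_sub (α := ℝ) (by omega : w ≠ 0) h
      have h6 : (0 : ℝ) ≤ (B : ℝ)⁻¹ := by positivity
      linarith
    · rw [Finset.Ioc_eq_empty_of_le h, Finset.sum_empty]
      positivity
  refine h1.trans ((Finset.sum_le_sum h2).trans (h3.trans ?_))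
  rw [Finset.sum_add_distrib, ← Finset.mul_sum, Finset.sum_const, Nat.card_Ioc, nsmul_eq_mul]
  have h5 : ((B - w : ℕ) : ℝ) ≤ B := by exact_mod_cast Nat.sub_le B w
  have h6 : (4 * B / (WW w : ℝ)) ^ (n + 1) * ∑ d ∈ Finset.Ioc w B, ((d : ℝ) ^ 2)⁻¹ ≤
      (4 * B / (WW w : ℝ)) ^ (n + 1) * (w : ℝ)⁻¹ :=
    mul_le_mul_of_nonneg_left h4 (by positivity)
  have h7 : ((B - w : ℕ) : ℝ) * 2 ^ (n + 1) ≤ 2 ^ (n + 1) * B := by
    rw [mul_comm]
    exact mul_le_mul_of_nonneg_left h5 (by positivity)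
  rw [div_eq_mul_inv _ (w : ℝ)]
  linarith

private theorem CN_Np_half (B : ℕ) (hB : 1 ≤ B) :
    (B : ℝ) / 2 ≤ (((Finset.Icc (1 : ℤ) (B : ℤ)).filter fun z => (B : ℤ) ≤ 2 * z).card : ℝ) := by
  have h1 : Finset.Icc (((B + 1) / 2 : ℕ) : ℤ) (B : ℤ) ⊆
      (Finset.Icc (1 : ℤ) (B : ℤ)).filter fun z => (B : ℤ) ≤ 2 * z := by
    intro z hz
    rw [Finset.mem_Icc] at hz
    rw [Finset.mem_filter, Finset.mem_Icc]
    omega
  have h2 : (Finset.Icc (((B + 1) / 2 : ℕ) : ℤ) (B : ℤ)).card = B + 1 - (B + 1) / 2 := by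
    rw [Int.card_Icc]
    omega
  have h3 : B ≤ 2 * (B + 1 - (B + 1) / 2) := by omega
  have h4 := Finset.card_le_card h1
  rw [h2] at h4
  have h5 : B ≤ 2 * ((Finset.Icc (1 : ℤ) (B : ℤ)).filter fun z => (B : ℤ) ≤ 2 * z).card := by omega
  have h6 : (B : ℝ) ≤ 2 * (((Finset.Icc (1 : ℤ) (B : ℤ)).filter
      fun z => (B : ℤ) ≤ 2 * z).card : ℝ) := by exact_mod_cast h5
  linarith

private theorem CN_Np_mult (B d : ℕ) (hd : 1 ≤ d) :
    (((Finset.Icc (1 : ℤ) (B : ℤ)).filter fun z => (d : ℤ) ∣ z).card : ℝ) ≤ (B : ℝ) / d := by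
  have hd0 : (0 : ℝ) < d := by exact_mod_cast hd
  have hdz : (0 : ℤ) < d := by exact_mod_cast hd
  have h1 : ((Finset.Icc (1 : ℤ) (B : ℤ)).filter fun z => (d : ℤ) ∣ z).card ≤
      (Finset.Icc (1 : ℤ) ((B / d : ℕ) : ℤ)).card := by
    refine Finset.card_le_card_of_injOn (fun z => z / (d : ℤ)) ?_ ?_
    · intro z hz
      rw [Finset.mem_coe, Finset.mem_filter, Finset.mem_Icc] at hz
      obtain ⟨⟨hz1, hz2⟩, t, rfl⟩ := hz
      rw [Finset.mem_coe, Finset.mem_Icc]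
      show 1 ≤ (d : ℤ) * t / d ∧ (d : ℤ) * t / d ≤ ((B / d : ℕ) : ℤ)
      rw [Int.mul_ediv_cancel_left _ hdz.ne']
      constructor
      · by_contra hcon
        push Not at hcon
        have : (d : ℤ) * t ≤ 0 := mul_nonpos_of_nonneg_of_nonpos hdz.le (by omega)
        omega
      · rw [Int.natCast_div, Int.le_ediv_iff_mul_le hdz, mul_comm]
        exact hz2
    · intro z hz z' hz' heq
      rw [Finset.mem_coe, Finset.mem_filter] at hz hz'
      obtain ⟨_, t, rfl⟩ := hz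
      obtain ⟨_, t', rfl⟩ := hz'
      have h2 : (d : ℤ) * t / d = (d : ℤ) * t' / d := heq
      rw [Int.mul_ediv_cancel_left _ hdz.ne', Int.mul_ediv_cancel_left _ hdz.ne'] at h2
      rw [h2]
  have h2 : (Finset.Icc (1 : ℤ) ((B / d : ℕ) : ℤ)).card = B / d := by
    rw [Int.card_Icc]
    generalize B / d = k
    omega
  rw [h2] at h1
  calc (((Finset.Icc (1 : ℤ) (B : ℤ)).filter fun z => (d : ℤ) ∣ z).card : ℝ)
      ≤ ((B / d : ℕ) : ℝ) := by exact_mod_cast h1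
    _ ≤ (B : ℝ) / d := Nat.cast_div_le

theorem manyU (n B : ℕ) (hn : 5 ≤ n) (o : Fin (n + 1)) :
    (B : ℝ) ^ (n + 1) / 4 ≤
      (((VBox n B).filter fun x => (B : ℤ) ≤ 2 * x o ∧ Uni x).card : ℝ) := by
  rcases Nat.eq_zero_or_pos B with hB | hB
  · rw [hB]
    simp
  have hB0 : (0 : ℝ) < B := by exact_mod_cast hB
  obtain ⟨T, hT⟩ : ∃ T : Finset (Vc n ℤ), T = Fintype.piFinset fun l : Fin (n + 1) =>
    if l = o then (Finset.Icc (1 : ℤ) (B : ℤ)).filter fun z => (B : ℤ) ≤ 2 * z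
      else Finset.Icc (1 : ℤ) (B : ℤ) := ⟨_, rfl⟩
  have hTm : ∀ x ∈ T, (∀ l, 1 ≤ x l ∧ x l ≤ (B : ℤ)) ∧ (B : ℤ) ≤ 2 * x o := by
    intro x hx
    rw [hT, Fintype.mem_piFinset] at hx
    constructor
    · intro l
      have h1 := hx l
      split_ifs at h1 with hl
      · rw [Finset.mem_filter, Finset.mem_Icc] at h1
        exact h1.1
      · rw [Finset.mem_Icc] at h1
        exact h1
    · have h1 := hx o
      rw [if_pos rfl, Finset.mem_filter] at h1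
      exact h1.2
  have hTc : (B : ℝ) ^ (n + 1) / 2 ≤ (T.card : ℝ) := by
    rw [hT, Fintype.card_piFinset]
    push_cast
    rw [← Finset.mul_prod_erase Finset.univ _ (Finset.mem_univ o), if_pos rfl]
    have h1 : ∏ l ∈ Finset.univ.erase o, (((if l = o then
        (Finset.Icc (1 : ℤ) (B : ℤ)).filter fun z => (B : ℤ) ≤ 2 * z
          else Finset.Icc (1 : ℤ) (B : ℤ)) : Finset ℤ).card : ℝ) = (B : ℝ) ^ n := by
      have h2 : ∀ l ∈ Finset.univ.erase o, (((if l = o then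
          (Finset.Icc (1 : ℤ) (B : ℤ)).filter fun z => (B : ℤ) ≤ 2 * z
            else Finset.Icc (1 : ℤ) (B : ℤ)) : Finset ℤ).card : ℝ) = (B : ℝ) := by
        intro l hl
        rw [if_neg (Finset.ne_of_mem_erase hl), Int.card_Icc]
        have : ((B : ℤ) + 1 - 1).toNat = B := by omega
        rw [this]
      rw [Finset.prod_congr rfl h2, Finset.prod_const, Finset.card_erase_of_mem (Finset.mem_univ o),
        Finset.card_univ, Fintype.card_fin, Nat.add_sub_cancel]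
    rw [h1, pow_succ]
    have h3 := CN_Np_half B hB
    have h4 : (0 : ℝ) ≤ (B : ℝ) ^ n := by positivity
    have h5 := mul_le_mul_of_nonneg_right h3 h4
    linarith
  have hsub : T ⊆ ((VBox n B).filter fun x => (B : ℤ) ≤ 2 * x o ∧ Uni x) ∪
      (Finset.Ioc 1 B).biUnion fun d => Fintype.piFinset fun _ : Fin (n + 1) =>
        (Finset.Icc (1 : ℤ) (B : ℤ)).filter fun z => (d : ℤ) ∣ z := by
    intro x hx
    obtain ⟨h1, h2⟩ := hTm x hx
    have hV : x ∈ VBox n B := by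
      rw [mem_VBox]
      intro l
      obtain ⟨h3, h4⟩ := h1 l
      rw [abs_of_nonneg (by linarith)]
      exact h4
    rw [Finset.mem_union]
    by_cases hu : Uni x
    · left
      rw [Finset.mem_filter]
      exact ⟨hV, h2, hu⟩
    · right
      have hx0 : x ≠ 0 := by
        intro h0
        have h3 := (h1 o).1
        rw [h0] at h3
        simp at h3
      obtain ⟨d, hd2, hd⟩ := nonUni x hx0 hu
      rw [Finset.mem_biUnion]
      refine ⟨d, ?_, ?_⟩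
      · rw [Finset.mem_Ioc]
        refine ⟨by omega, ?_⟩
        have h3 : (d : ℤ) ≤ x o := Int.le_of_dvd (by linarith [(h1 o).1]) (hd o)
        exact_mod_cast h3.trans (h1 o).2
      · rw [Fintype.mem_piFinset]
        intro l
        rw [Finset.mem_filter, Finset.mem_Icc]
        exact ⟨h1 l, hd l⟩
  have hcard : (T.card : ℝ) ≤ (((VBox n B).filter fun x => (B : ℤ) ≤ 2 * x o ∧ Uni x).card : ℝ) +
      ∑ d ∈ Finset.Ioc 1 B, ((Fintype.piFinset fun _ : Fin (n + 1) =>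
        (Finset.Icc (1 : ℤ) (B : ℤ)).filter fun z => (d : ℤ) ∣ z).card : ℝ) := by
    have h1 := (Finset.card_le_card hsub).trans ((Finset.card_union_le _ _).trans
      (Nat.add_le_add_left Finset.card_biUnion_le _))
    exact_mod_cast h1
  have hd : ∀ d ∈ Finset.Ioc 1 B, ((Fintype.piFinset fun _ : Fin (n + 1) =>
      (Finset.Icc (1 : ℤ) (B : ℤ)).filter fun z => (d : ℤ) ∣ z).card : ℝ) ≤
        (B : ℝ) ^ (n + 1) / 16 * ((d : ℝ) ^ 2)⁻¹ := by
    intro d hd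
    rw [Finset.mem_Ioc] at hd
    have hd2 : (2 : ℝ) ≤ d := by exact_mod_cast hd.1
    have hd0 : (0 : ℝ) < d := by linarith
    rw [Fintype.card_piFinset, Finset.prod_const, Finset.card_univ, Fintype.card_fin]
    push_cast
    have h1 := CN_Np_mult B d (by omega)
    calc (((Finset.Icc (1 : ℤ) (B : ℤ)).filter fun z => (d : ℤ) ∣ z).card : ℝ) ^ (n + 1)
        ≤ ((B : ℝ) / d) ^ (n + 1) := pow_le_pow_left₀ (Nat.cast_nonneg _) h1 _
      _ = (B : ℝ) ^ (n + 1) * ((d : ℝ) ^ (n + 1))⁻¹ := by rw [div_pow, div_eq_mul_inv]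
      _ ≤ (B : ℝ) ^ (n + 1) * (16 * (d : ℝ) ^ 2)⁻¹ := by
          apply mul_le_mul_of_nonneg_left _ (by positivity)
          apply inv_anti₀ (by positivity)
          have h2 : (16 : ℝ) ≤ (d : ℝ) ^ 4 := by
            calc (16 : ℝ) = 2 ^ 4 := by norm_num
              _ ≤ (d : ℝ) ^ 4 := pow_le_pow_left₀ (by norm_num) hd2 4
          calc 16 * (d : ℝ) ^ 2 ≤ (d : ℝ) ^ 4 * (d : ℝ) ^ 2 :=
                mul_le_mul_of_nonneg_right h2 (by positivity)
            _ = (d : ℝ) ^ 6 := by ring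
            _ ≤ (d : ℝ) ^ (n + 1) := pow_le_pow_right₀ (by linarith) (by omega)
      _ = (B : ℝ) ^ (n + 1) / 16 * ((d : ℝ) ^ 2)⁻¹ := by
          rw [mul_inv]
          ring
  have hs : ∑ d ∈ Finset.Ioc 1 B, ((d : ℝ) ^ 2)⁻¹ ≤ 1 := by
    have h5 := sum_Ioc_inv_sq_le_sub (α := ℝ) (one_ne_zero : (1 : ℕ) ≠ 0) hB
    have h6 : (0 : ℝ) ≤ (B : ℝ)⁻¹ := by positivity
    rw [Nat.cast_one, inv_one] at h5
    linarith
  have h1 := Finset.sum_le_sum hd
  rw [← Finset.mul_sum] at h1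
  have h2 : (B : ℝ) ^ (n + 1) / 16 * ∑ d ∈ Finset.Ioc 1 B, ((d : ℝ) ^ 2)⁻¹ ≤
      (B : ℝ) ^ (n + 1) / 16 * 1 := mul_le_mul_of_nonneg_left hs (by positivity)
  have h3 : (0 : ℝ) ≤ (B : ℝ) ^ (n + 1) := by positivity
  linarith

end Pool.Agent.Lib.MP_219881_nt
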