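import Pool.Agent.Lib.MP_219881_nt.CntY

/-!
JOB Beta.  Pair sum over the far points (paper section 5, beta).  (CntY is another job: use `cntY`.)

`sumTail`: `∑_{m = w+1}^{M} 1/m^3 ≤ 2/(w+1)`: `1/m^3 ≤ 1/m^2`, and `∑_{m ≥ w+1} 1/m^2 ≤ 1/(w+1)^2 + 1/(w+1)`.
`sumDyad`: `∑_{j ≤ J} 2^(j s) ≤ 2 * 2^(J s)` for `s ≥ 1` (geometric).
`beta`.  Let `Y` be the set of the sum. For `y ∈ Y` put `D = Dd x y`, `Δ = Del o x y`, `j = Nat.log 2 Δ`
(`2^j ≤ Δ < 2^(j+1)`). `D B < Δ ≤ 2 B^2` gives `D < 2 B`. Group by the pair `(m, j) = (D, log 2 Δ)`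
(`Finset.sum_fiberwise_of_maps_to`; `m ∈ Ioc w (2B)`, `j ≤ log 2 Z`). The group `(m, j)` is contained in the set
of `cntY` with `δ = 2^(j+1)` (`m B < Δ ≤ δ`; `1 ≤ y o` by `GG_pos`; divisibility by `Dd_dvd`), and each
term is at most `(m/2^j)^2`. So the group contributes at most
`3^(n+1) q^n 2^(n(j+1)) B/(B^n m^n) * m^2/4^j = 3^(n+1) q^n 2^n * 2^(j(n-2)) * (B/B^n) * m^(2-n)`, and
`m^(2-n) ≤ m^(-3)` (`n ≥ 5`). Sum over `m > w` (`sumTail`) and over `j ≤ log 2 Z` (`2^(j(n-2)) ≤ Z^(n-2)`,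
`sumDyad`): at most `3^(n+1) q^n 2^n * (2/(w+1)) * 2 * Z^(n-2) * B/B^n`; `Z^(n-2) = Z^n/Z^2` (if `Z = 0` the set
is empty). `C = 4 * 3^(n+1) * q^n * 2^n`.
-/

namespace Pool.Agent.Lib.MP_219881_nt

open Classical

theorem sumTail (w M : ℕ) : ∑ m ∈ Finset.Ioc w M, 1 / (m : ℝ) ^ 3 ≤ 2 / ((w : ℝ) + 1) := by
  rcases le_or_gt M w with h | h
  · rw [Finset.Ioc_eq_empty (not_lt.mpr h), Finset.sum_empty]
    positivity
  · have key : ∀ M : ℕ, w ≤ M → ∑ m ∈ Finset.Ioc w M, 1 / (m : ℝ) ^ 3 ≤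
        2 / ((w : ℝ) + 1) - 2 / ((M : ℝ) + 1) := by
      intro M hM
      induction M, hM using Nat.le_induction with
      | base => simp
      | succ M hM ih =>
        rw [Finset.sum_Ioc_succ_top hM]
        have hM0 : (0 : ℝ) ≤ M := Nat.cast_nonneg M
        have h1 : 1 / ((M + 1 : ℕ) : ℝ) ^ 3 ≤ 2 / ((M : ℝ) + 1) - 2 / (((M + 1 : ℕ) : ℝ) + 1) := by
          push_cast
          rw [div_sub_div _ _ (by positivity) (by positivity),
            div_le_div_iff₀ (by positivity) (by positivity)]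
          nlinarith [mul_nonneg hM0 hM0, mul_nonneg (mul_nonneg hM0 hM0) hM0]
        linarith
    have h2 := key M h.le
    have h3 : (0 : ℝ) ≤ 2 / ((M : ℝ) + 1) := by positivity
    linarith

theorem sumDyad (s J : ℕ) (hs : 1 ≤ s) :
    ∑ j ∈ Finset.range (J + 1), (2 : ℝ) ^ (j * s) ≤ 2 * (2 : ℝ) ^ (J * s) := by
  induction J with
  | zero => simp
  | succ J ih =>
    rw [Finset.sum_range_succ]
    have h1 : (2 : ℝ) ^ ((J + 1) * s) = 2 ^ (J * s) * 2 ^ s := by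
      rw [← pow_add]
      congr 1
      ring
    have h2 : (2 : ℝ) ≤ 2 ^ s := by
      calc (2 : ℝ) = 2 ^ 1 := (pow_one 2).symm
        _ ≤ 2 ^ s := pow_le_pow_right₀ (by norm_num) hs
    have h3 : (0 : ℝ) < 2 ^ (J * s) := by positivity
    have h4 : 2 ^ (J * s) * 2 ≤ (2 : ℝ) ^ (J * s) * 2 ^ s := mul_le_mul_of_nonneg_left h2 h3.le
    rw [h1]
    linarith

theorem beta (n q : ℕ) (hn : 5 ≤ n) (hq : 1 ≤ q) : ∃ C : ℝ, 0 < C ∧
    ∀ (B H w Z : ℕ) (o : Fin (n + 1)), 1 ≤ B → Z ≤ 2 * B ^ 2 → ∀ x ∈ GG B H q o,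
    ∑ y ∈ (GG B H q o).filter (fun y => y ≠ x ∧ Dd x y * B < Del o x y ∧ w < Dd x y ∧
        Del o x y ≤ Z),
      ((Dd x y : ℝ) / (Del o x y : ℝ)) ^ 2 ≤
        C * (((Z : ℝ) ^ n / (Z : ℝ) ^ 2) * ((B : ℝ) / (B : ℝ) ^ n) / (w + 1)) := by
  have hq0 : (0 : ℝ) < q := by exact_mod_cast hq
  refine ⟨4 * (3 ^ (n + 1) * (q : ℝ) ^ n * 2 ^ n), by positivity, ?_⟩
  intro B H w Z o hB hZ x hx
  have hB0 : (0 : ℝ) < B := by exact_mod_cast hB
  set Y := (GG B H q o).filter (fun y => y ≠ x ∧ Dd x y * B < Del o x y ∧ w < Dd x y ∧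
        Del o x y ≤ Z) with hY
  have hYmem : ∀ y, y ∈ Y ↔ y ∈ GG B H q o ∧ y ≠ x ∧ Dd x y * B < Del o x y ∧ w < Dd x y ∧
        Del o x y ≤ Z := fun y => by rw [hY, Finset.mem_filter]
  rcases Nat.eq_zero_or_pos Z with hZ0 | hZ0
  · have hYe : Y = ∅ := by
      rw [Finset.eq_empty_iff_forall_notMem]
      intro y hy
      obtain ⟨hyG, hyx, h1, h2, h3⟩ := (hYmem y).mp hy
      have hDel : 1 ≤ Del o x y := Del_pos hB hx hyG (Ne.symm hyx)
      omega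
    rw [hYe, Finset.sum_empty]
    positivity
  have hZ1 : (0 : ℝ) < Z := by exact_mod_cast hZ0
  set K0 : ℝ := 3 ^ (n + 1) * (q : ℝ) ^ n * 2 ^ n * ((B : ℝ) / (B : ℝ) ^ n) with hK0
  have hK0pos : 0 ≤ K0 := by positivity
  set T : Finset (ℕ × ℕ) := Finset.Ioc w (2 * B) ×ˢ Finset.range (Nat.log 2 Z + 1) with hT
  have hmaps : ∀ y ∈ Y, (fun y => (Dd x y, Nat.log 2 (Del o x y))) y ∈ T := by
    intro y hy
    obtain ⟨hyG, hyx, h1, h2, h3⟩ := (hYmem y).mp hy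
    simp only [hT, Finset.mem_product, Finset.mem_Ioc, Finset.mem_range]
    refine ⟨⟨h2, ?_⟩, Nat.lt_succ_of_le (Nat.log_mono_right h3)⟩
    have h4 := Del_le hx hyG
    have h5 : Dd x y * B < 2 * B * B := by
      calc Dd x y * B < Del o x y := h1
        _ ≤ 2 * B ^ 2 := h4
        _ = 2 * B * B := by ring
    exact (Nat.lt_of_mul_lt_mul_right h5).le
  rw [← Finset.sum_fiberwise_of_maps_to hmaps]
  have hfib : ∀ p ∈ T, ∑ y ∈ Y.filter (fun y => (Dd x y, Nat.log 2 (Del o x y)) = p),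
      ((Dd x y : ℝ) / (Del o x y : ℝ)) ^ 2 ≤
      K0 * ((1 / (p.1 : ℝ) ^ 3) * (2 : ℝ) ^ (p.2 * (n - 2))) := by
    rintro ⟨m, j⟩ hp
    simp only [hT, Finset.mem_product, Finset.mem_Ioc, Finset.mem_range] at hp
    obtain ⟨⟨hm1, hm2⟩, hj⟩ := hp
    have hm : 1 ≤ m := by omega
    have hm0 : (0 : ℝ) < m := by exact_mod_cast hm
    have hm1' : (1 : ℝ) ≤ m := by exact_mod_cast hm
    simp only
    rcases (Y.filter (fun y => (Dd x y, Nat.log 2 (Del o x y)) = (m, j))).eq_empty_or_nonempty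
      with he | ⟨y0, hy0⟩
    · rw [he, Finset.sum_empty]
      positivity
    · have hfacts : ∀ y ∈ Y.filter (fun y => (Dd x y, Nat.log 2 (Del o x y)) = (m, j)),
          y ∈ GG B H q o ∧ Dd x y = m ∧ m * B < Del o x y ∧ 2 ^ j ≤ Del o x y ∧
            Del o x y < 2 ^ (j + 1) := by
        intro y hy
        rw [Finset.mem_filter, Prod.mk.injEq] at hy
        obtain ⟨hyY, hyD, hyL⟩ := hy
        obtain ⟨hyG, hyx, h1, h2, h3⟩ := (hYmem y).mp hyY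
        have hDel : 1 ≤ Del o x y := Del_pos hB hx hyG (Ne.symm hyx)
        refine ⟨hyG, hyD, ?_, ?_, ?_⟩
        · rw [← hyD]
          exact h1
        · rw [← hyL]
          exact Nat.pow_log_le_self 2 (by omega)
        · rw [← hyL]
          exact Nat.lt_pow_succ_log_self (by norm_num) _
      obtain ⟨_, _, g3, _, g5⟩ := hfacts y0 hy0
      have hδ : m * B ≤ 2 ^ (j + 1) := by omega
      have hcard := cntY B H q o hB hq x hx m (2 ^ (j + 1)) hm hm2 hδ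
      have hsub : Y.filter (fun y => (Dd x y, Nat.log 2 (Del o x y)) = (m, j)) ⊆
          (VBox n B).filter fun y => 1 ≤ y o ∧ (∀ i j, (m : ℤ) ∣ mn x y i j) ∧
            Del o x y ≤ 2 ^ (j + 1) := by
        intro y hy
        obtain ⟨k1, k2, k3, k4, k5⟩ := hfacts y hy
        rw [Finset.mem_filter]
        refine ⟨?_, GG_pos hB k1, ?_, k5.le⟩
        · unfold GG at k1
          exact (Finset.mem_filter.mp k1).1
        · intro i j'
          rw [← k2]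
          exact Dd_dvd x y i j'
      have hcard2 : ((Y.filter (fun y => (Dd x y, Nat.log 2 (Del o x y)) = (m, j))).card : ℝ) ≤
          3 ^ (n + 1) * (q : ℝ) ^ n * ((2 ^ (j + 1) : ℕ) : ℝ) ^ n * (B : ℝ) /
            ((B : ℝ) ^ n * (m : ℝ) ^ n) :=
        (Nat.cast_le.mpr (Finset.card_le_card hsub)).trans hcard
      have hterm : ∀ y ∈ Y.filter (fun y => (Dd x y, Nat.log 2 (Del o x y)) = (m, j)),
          ((Dd x y : ℝ) / (Del o x y : ℝ)) ^ 2 ≤ ((m : ℝ) / 2 ^ j) ^ 2 := by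
        intro y hy
        obtain ⟨k1, k2, k3, k4, k5⟩ := hfacts y hy
        rw [k2]
        have k6 : (2 : ℝ) ^ j ≤ (Del o x y : ℝ) := by exact_mod_cast k4
        refine pow_le_pow_left₀ (by positivity) ?_ 2
        exact div_le_div_of_nonneg_left hm0.le (by positivity) k6
      refine (Finset.sum_le_card_nsmul _ _ _ hterm).trans ?_
      rw [nsmul_eq_mul]
      refine (mul_le_mul_of_nonneg_right hcard2 (by positivity)).trans ?_
      obtain ⟨r, rfl⟩ : ∃ r, n = r + 5 := ⟨n - 5, by omega⟩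
      have e0 : r + 5 - 2 = r + 3 := by omega
      have hmr : (1 : ℝ) ≤ (m : ℝ) ^ r := one_le_pow₀ hm1'
      have e1 : 3 ^ (r + 5 + 1) * (q : ℝ) ^ (r + 5) * ((2 ^ (j + 1) : ℕ) : ℝ) ^ (r + 5) * (B : ℝ) /
            ((B : ℝ) ^ (r + 5) * (m : ℝ) ^ (r + 5)) * ((m : ℝ) / 2 ^ j) ^ 2 =
          K0 * ((1 / (m : ℝ) ^ 3) * (2 : ℝ) ^ (j * (r + 3))) * (1 / (m : ℝ) ^ r) := by
        have e2 : ((2 ^ (j + 1) : ℕ) : ℝ) ^ (r + 5) =
            2 ^ (r + 5) * ((2 : ℝ) ^ (j * (r + 3)) * (2 ^ j) ^ 2) := by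
          push_cast
          rw [pow_succ (2 : ℝ) j, mul_pow, mul_comm, ← pow_mul, ← pow_mul, ← pow_add]
          ring
        have e3 : (m : ℝ) ^ (r + 5) = (m : ℝ) ^ r * (m : ℝ) ^ 5 := pow_add _ _ _
        rw [e2, e3, hK0]
        have p1 : (2 : ℝ) ^ j ≠ 0 := by positivity
        have p2 : (m : ℝ) ^ r ≠ 0 := by positivity
        have p3 : (B : ℝ) ^ (r + 5) ≠ 0 := by positivity
        generalize (2 : ℝ) ^ j = u1 at p1
        generalize (m : ℝ) ^ r = u2 at p2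
        generalize (B : ℝ) ^ (r + 5) = u3 at p3
        generalize (2 : ℝ) ^ (j * (r + 3)) = u4
        generalize (3 : ℝ) ^ (r + 5 + 1) = u5
        generalize (q : ℝ) ^ (r + 5) = u6
        generalize (2 : ℝ) ^ (r + 5) = u7
        field_simp
      rw [e1, e0]
      have h8 : (1 : ℝ) / (m : ℝ) ^ r ≤ 1 := by
        rw [div_le_one (by positivity)]
        exact hmr
      exact mul_le_of_le_one_right (by positivity) h8
  refine (Finset.sum_le_sum hfib).trans ?_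
  rw [← Finset.mul_sum, hT, Finset.sum_product]
  have e5 : ∑ m ∈ Finset.Ioc w (2 * B), ∑ j ∈ Finset.range (Nat.log 2 Z + 1),
      1 / (m : ℝ) ^ 3 * (2 : ℝ) ^ (j * (n - 2)) =
      (∑ m ∈ Finset.Ioc w (2 * B), 1 / (m : ℝ) ^ 3) *
        ∑ j ∈ Finset.range (Nat.log 2 Z + 1), (2 : ℝ) ^ (j * (n - 2)) := by
    rw [Finset.sum_mul]
    refine Finset.sum_congr rfl fun m _ => ?_
    rw [Finset.mul_sum]
  rw [e5]
  have h10 := sumTail w (2 * B)
  have h11 := sumDyad (n - 2) (Nat.log 2 Z) (by omega)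
  have h12 : (2 : ℝ) ^ (Nat.log 2 Z * (n - 2)) ≤ (Z : ℝ) ^ n / (Z : ℝ) ^ 2 := by
    have h13 : (2 : ℝ) ^ (Nat.log 2 Z) ≤ Z := by
      exact_mod_cast Nat.pow_log_le_self 2 (by omega)
    have h14 : (Z : ℝ) ^ n / (Z : ℝ) ^ 2 = (Z : ℝ) ^ (n - 2) := by
      rw [div_eq_iff (by positivity), ← pow_add]
      congr 1
      omega
    rw [h14, pow_mul]
    exact pow_le_pow_left₀ (by positivity) h13 _
  have h15 : 0 ≤ ∑ j ∈ Finset.range (Nat.log 2 Z + 1), (2 : ℝ) ^ (j * (n - 2)) :=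
    Finset.sum_nonneg fun j _ => by positivity
  have h16 : (∑ m ∈ Finset.Ioc w (2 * B), 1 / (m : ℝ) ^ 3) *
        ∑ j ∈ Finset.range (Nat.log 2 Z + 1), (2 : ℝ) ^ (j * (n - 2)) ≤
        (2 / ((w : ℝ) + 1)) * (2 * ((Z : ℝ) ^ n / (Z : ℝ) ^ 2)) := by
    refine mul_le_mul h10 ?_ h15 (by positivity)
    linarith
  refine (mul_le_mul_of_nonneg_left h16 hK0pos).trans (le_of_eq ?_)
  rw [hK0]
  ring

end Pool.Agent.Lib.MP_219881_nt
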