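import Pool.Agent.Lib.MP_219881_nt.Basic

/-!
JOB PerpSpan.  `n` independent integer vectors orthogonal to `x ≠ 0` span the orthogonal
complement of `x` over the rationals.  (Cubic version, `n = 3`, with proof:
/team-store/MP_1ad228_ntC_PerpSpan.lean; adapt it.)
-/

namespace Pool.Agent.Lib.MP_219881_nt

open Classical

/-- The cast as a linear map over the integers. -/
private noncomputable def perpSpanCast (n : ℕ) : Vc n ℤ →ₗ[ℤ] Vc n ℚ where
  toFun x := fun i => (x i : ℚ)
  map_add' x y := by
    funext i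
    simp
  map_smul' c x := by
    funext i
    simp

/-- The linear functional `u ↦ lin u y`. -/
private noncomputable def perpSpanFun {n : ℕ} (y : Vc n ℚ) : Vc n ℚ →ₗ[ℚ] ℚ where
  toFun u := lin u y
  map_add' u v := lin_add u v y
  map_smul' c u := by
    rw [lin_smul]
    rfl

theorem perpSpan {n : ℕ} (x : Vc n ℤ) (hx : x ≠ 0) (f : Fin n → Vc n ℤ)
    (hf : LinearIndependent ℤ f) (h0 : ∀ s, lin (f s) x = 0) (u : Vc n ℚ)
    (hu : lin u (cv ℚ x) = 0) : ∃ t : Fin n → ℚ, ∀ i, u i = ∑ s, t s * (f s i : ℚ) := by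
  have hinj : LinearMap.ker (perpSpanCast n) = ⊥ := by
    rw [LinearMap.ker_eq_bot]
    intro a b hab
    funext i
    have := congrFun hab i
    exact Int.cast_injective this
  have h1 : LinearIndependent ℤ (perpSpanCast n ∘ f) := hf.map' (perpSpanCast n) hinj
  have h2 : LinearIndependent ℚ (perpSpanCast n ∘ f) :=
    (LinearIndependent.iff_fractionRing ℤ ℚ).mp h1
  -- the vectors lie in the kernel
  have hker : ∀ s, (perpSpanCast n ∘ f) s ∈ LinearMap.ker (perpSpanFun (cv ℚ x)) := by
    intro s
    rw [LinearMap.mem_ker]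
    change lin (fun i => (f s i : ℚ)) (cv ℚ x) = 0
    have := h0 s
    have h3 : ((lin (f s) x : ℤ) : ℚ) = 0 := by rw [this]; simp
    rw [← lin_cv] at h3
    exact h3
  -- dimension of the kernel
  have hne : perpSpanFun (cv ℚ x) ≠ 0 := by
    intro h
    apply hx
    funext i
    have h4 : perpSpanFun (cv ℚ x) (Pi.single i 1) = 0 := by rw [h]; rfl
    change lin (Pi.single i 1) (cv ℚ x) = 0 at h4
    rw [lin_single] at h4
    have h5 : x i = 0 := by simpa [cv] using h4
    exact h5
  have hrange : Module.finrank ℚ (LinearMap.range (perpSpanFun (cv ℚ x))) = 1 := by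
    have : LinearMap.range (perpSpanFun (cv ℚ x)) = ⊤ :=
      LinearMap.range_eq_top.mpr (LinearMap.surjective hne)
    rw [this]
    simp
  have hdim : Module.finrank ℚ (LinearMap.ker (perpSpanFun (cv ℚ x))) = n := by
    have := LinearMap.finrank_range_add_finrank_ker (perpSpanFun (cv ℚ x))
    rw [hrange] at this
    simp at this
    omega
  have hle : Submodule.span ℚ (Set.range (perpSpanCast n ∘ f)) ≤
      LinearMap.ker (perpSpanFun (cv ℚ x)) := by
    rw [Submodule.span_le]
    rintro _ ⟨s, rfl⟩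
    exact hker s
  have heq : Submodule.span ℚ (Set.range (perpSpanCast n ∘ f)) =
      LinearMap.ker (perpSpanFun (cv ℚ x)) := by
    apply Submodule.eq_of_le_of_finrank_eq hle
    rw [hdim, finrank_span_eq_card h2]
    simp
  have hmem : u ∈ Submodule.span ℚ (Set.range (perpSpanCast n ∘ f)) := by
    rw [heq, LinearMap.mem_ker]
    exact hu
  rw [Submodule.mem_span_range_iff_exists_fun] at hmem
  obtain ⟨t, ht⟩ := hmem
  refine ⟨t, fun i => ?_⟩
  rw [← ht, Finset.sum_apply]
  refine Finset.sum_congr rfl fun s _ => ?_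
  rfl

end Pool.Agent.Lib.MP_219881_nt
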