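import Pool.Agent.Lib.MP_219881_nt.GGfacts
import Pool.Agent.Lib.MP_219881_nt.PerpSpan

/-!
JOB AlphaPt.  One pair of test points (paper section 5, alpha).

`apDvd`: `lamLem x y` gives `l` with `m ∣ y j - l * x j` for all `j` whenever `m` divides all minors; take
`m = Dd x y` (`Dd_dvd`). `lin f y = lin f (y - l • x) + l * lin f x` and `lin f x = 0`.
`apBd`: `x o * lin f y = ∑ j, f j * (x o * y j - y o * x j) + y o * lin f x = ∑ j, f j * mn x y o j`, so
`x o * |lin f y| ≤ (n+1) * H * Del o x y` (`le_Del`), and `B ≤ q * x o` (`GG_pivot`).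
`apNe`: if all `lin (f s) y = 0` then `y` and `x` are both orthogonal to the `n` independent vectors `f s`.
Then `y` is proportional to `x`: e.g. for every `j` the rational vector `u = y_j... `: apply `perpSpan` to
`u = x_o e_j - x_j e_o` (`lin u x = 0`), so `u = ∑ t_s f_s` and `lin u y = ∑ t_s lin (f_s) y = 0`, i.e.
`x_o y_j - x_j y_o = 0` for all `j`; hence `Del o x y = 0` (all `mn x y o j = 0`), contradicting `Del_pos`.
`apFib`: `y, y'` test points with `lin (f s) y = lin (f s) y'` for all `s`. As in `apNe`,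
`x_o (y - y')_j = x_j (y - y')_o` for all `j`. With `lin u x = 1`: `(y - y')_o = lin u (y - y') * x_o`, so with
`c = lin u (y - y')`: `y j - y' j = c * x j` for all `j` (`x_o ≠ 0`).
-/

namespace Pool.Agent.Lib.MP_219881_nt

open Classical

/-- a vector orthogonal to the `f s` is proportional to `x` -/
private theorem alphapt_prop {n : ℕ} (x z : Vc n ℤ) (hx : x ≠ 0) (f : Fin n → Vc n ℤ)
    (hf : LinearIndependent ℤ f) (h0 : ∀ s, lin (f s) x = 0) (hz : ∀ s, lin (f s) z = 0)
    (o j : Fin (n + 1)) : x o * z j = x j * z o := by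
  obtain ⟨u, hu⟩ : ∃ u : Vc n ℚ, u = (x o : ℚ) • (Pi.single j 1 : Vc n ℚ) -
      (x j : ℚ) • (Pi.single o 1 : Vc n ℚ) := ⟨_, rfl⟩
  have hlin : ∀ w : Vc n ℤ, lin u (cv ℚ w) = (x o : ℚ) * w j - (x j : ℚ) * w o := by
    intro w
    rw [hu, lin_sub, lin_smul, lin_smul, lin_single, lin_single]
    rfl
  have h1 : lin u (cv ℚ x) = 0 := by
    rw [hlin]
    ring
  obtain ⟨t, ht⟩ := perpSpan x hx f hf h0 u h1
  have h2 : lin u (cv ℚ z) = ∑ s, t s * ((lin (f s) z : ℤ) : ℚ) := by
    unfold lin cv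
    have h3 : ∀ s : Fin n, t s * ((∑ i, f s i * z i : ℤ) : ℚ) =
        ∑ i, t s * (f s i : ℚ) * (z i : ℚ) := by
      intro s
      rw [Int.cast_sum, Finset.mul_sum]
      refine Finset.sum_congr rfl fun i _ => ?_
      rw [Int.cast_mul, mul_assoc]
    rw [Finset.sum_congr rfl fun s _ => h3 s, Finset.sum_comm]
    refine Finset.sum_congr rfl fun i _ => ?_
    rw [ht i, Finset.sum_mul]
  have h4 : ∑ s, t s * ((lin (f s) z : ℤ) : ℚ) = 0 := by
    refine Finset.sum_eq_zero fun s _ => ?_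
    rw [hz s, Int.cast_zero, mul_zero]
  rw [h4, hlin, sub_eq_zero] at h2
  exact_mod_cast h2

theorem apDvd {n : ℕ} (x y : Vc n ℤ) (hx : Uni x) (f : Vc n ℤ) (h0 : lin f x = 0) :
    (Dd x y : ℤ) ∣ lin f y := by
  obtain ⟨l, hl⟩ := lamLem x y hx
  have h1 := hl (Dd x y : ℤ) (Dd_dvd x y)
  have h2 : lin f y = ∑ j, f j * (y j - l * x j) := by
    have h3 : ∑ j, f j * (y j - l * x j) = lin f y - l * lin f x := by
      unfold lin
      rw [Finset.mul_sum, ← Finset.sum_sub_distrib]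
      refine Finset.sum_congr rfl fun j _ => ?_
      ring
    rw [h3, h0, mul_zero, sub_zero]
  rw [h2]
  exact Finset.dvd_sum fun j _ => dvd_mul_of_dvd_right (h1 j) _

theorem apBd {n : ℕ} (B H q : ℕ) (o : Fin (n + 1)) (hB : 1 ≤ B) (x y : Vc n ℤ)
    (hx : x ∈ GG B H q o) (f : Vc n ℤ) (h0 : lin f x = 0) (hf : ∀ i, |f i| ≤ (H : ℤ)) :
    (B : ℤ) * |lin f y| ≤ (n + 1) * H * q * Del o x y := by
  have hpos : 0 < x o := GG_pos hB hx
  have hpiv : (B : ℤ) ≤ q * x o := GG_pivot hx
  have h2 : x o * lin f y = ∑ j, f j * mn x y o j := by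
    have h3 : ∑ j, f j * mn x y o j = x o * lin f y - y o * lin f x := by
      unfold lin mn
      rw [Finset.mul_sum, Finset.mul_sum, ← Finset.sum_sub_distrib]
      refine Finset.sum_congr rfl fun j _ => ?_
      ring
    rw [h3, h0, mul_zero, sub_zero]
  have h4 : x o * |lin f y| ≤ (n + 1) * (H * Del o x y) := by
    have h5 : x o * |lin f y| = |∑ j, f j * mn x y o j| := by
      rw [← h2, abs_mul, abs_of_pos hpos]
    rw [h5]
    calc |∑ j, f j * mn x y o j| ≤ ∑ j, |f j * mn x y o j| := Finset.abs_sum_le_sum_abs _ _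
      _ ≤ ∑ _j : Fin (n + 1), ((H : ℤ) * Del o x y) := by
          refine Finset.sum_le_sum fun j _ => ?_
          rw [abs_mul]
          exact mul_le_mul (hf j) (le_Del o x y j) (abs_nonneg _) (Int.natCast_nonneg _)
      _ = (n + 1) * (H * Del o x y) := by
          rw [Finset.sum_const, Finset.card_univ, Fintype.card_fin, nsmul_eq_mul]
          push_cast
          ring
  calc (B : ℤ) * |lin f y| ≤ (q * x o) * |lin f y| :=
        mul_le_mul_of_nonneg_right hpiv (abs_nonneg _)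
    _ = q * (x o * |lin f y|) := by ring
    _ ≤ q * ((n + 1) * (H * Del o x y)) := mul_le_mul_of_nonneg_left h4 (Int.natCast_nonneg _)
    _ = (n + 1) * H * q * Del o x y := by ring

theorem apNe {n : ℕ} (B H q : ℕ) (o : Fin (n + 1)) (hB : 1 ≤ B) (x y : Vc n ℤ)
    (hx : x ∈ GG B H q o) (hy : y ∈ GG B H q o) (hxy : y ≠ x) (f : Fin n → Vc n ℤ)
    (hf : LinearIndependent ℤ f) (h0 : ∀ s, lin (f s) x = 0) : ∃ s, lin (f s) y ≠ 0 := by
  by_contra hcon
  push Not at hcon
  have hx0 : x ≠ 0 := by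
    intro h
    have h1 := GG_pos hB hx
    rw [h] at h1
    exact lt_irrefl _ h1
  obtain ⟨j, _, hj, _⟩ := exists_Del o x y (Del_pos hB hx hy (Ne.symm hxy))
  apply hj
  unfold mn
  rw [sub_eq_zero]
  exact alphapt_prop x y hx0 f hf h0 hcon o j

theorem apFib {n : ℕ} (B H q : ℕ) (o : Fin (n + 1)) (hB : 1 ≤ B) (x y y' : Vc n ℤ)
    (hx : x ∈ GG B H q o) (f : Fin n → Vc n ℤ) (hf : LinearIndependent ℤ f)
    (h0 : ∀ s, lin (f s) x = 0) (he : ∀ s, lin (f s) y = lin (f s) y') :
    ∃ c : ℤ, ∀ j, y j - y' j = c * x j := by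
  have hpos : 0 < x o := GG_pos hB hx
  have hx0 : x ≠ 0 := by
    intro h
    rw [h] at hpos
    exact lt_irrefl _ hpos
  have hz : ∀ s, lin (f s) (y - y') = 0 := by
    intro s
    rw [lin_sub_right, he s, sub_self]
  have hp := alphapt_prop x (y - y') hx0 f hf h0 hz o
  obtain ⟨u, hu⟩ := GG_uni hx
  have h1 : x o * lin u (y - y') = (y - y') o := by
    have h2 : x o * lin u (y - y') = lin u x * (y - y') o := by
      unfold lin
      rw [Finset.mul_sum, Finset.sum_mul]
      refine Finset.sum_congr rfl fun j _ => ?_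
      linear_combination u j * hp j
    rw [h2, hu, one_mul]
  refine ⟨lin u (y - y'), fun j => ?_⟩
  have h3 : x o * (y j - y' j) = x o * (lin u (y - y') * x j) := by
    have h4 : x o * (y j - y' j) = x j * (y - y') o := hp j
    rw [h4, ← h1]
    ring
  exact mul_left_cancel₀ hpos.ne' h3

end Pool.Agent.Lib.MP_219881_nt
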