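import Pool.Agent.Lib.MP_219881_nt.GGfacts

/-!
JOB CntY.  Counting for beta (paper section 5).

`cntProg`: integers `t` in an interval `[a, a + L]` (real endpoints) with `m ∣ t - r` : at most `L/m + 1`
(injective `t ↦ (t - r)/m`, the values lie in an interval of length `L/m`).
`cntY`.  `lamLem x y` gives for every `y` with `m ∣` all minors an integer `l` with
`m ∣ y j - l * x j` for all `j`; only `l mod m` matters: `l ∈ {0, ..., m-1}`. So the set is contained in the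
union over `l ∈ range m` of `Y_l = {y | 1 ≤ y o ≤ B, ∀ j, m ∣ y j - l x j, ∀ j, |x_o y_j - x_j y_o| ≤ δ}`.
In `Y_l`: `y o` has at most `B/m + 1 ≤ 3 B/m` values (`m ≤ 2B`). Given `y o`, for `j ≠ o`:
`|y_j - x_j y_o/x_o| ≤ δ/x_o ≤ δ q/B` and `y_j ≡ l x_j mod m`: at most `2 δ q/(B m) + 1 ≤ 3 δ q/(B m)` values
(`δ q/(B m) ≥ 1` because `m B ≤ δ`, `q ≥ 1`). There are `n` such `j`. So
`card ≤ m * (3B/m) * (3 q δ/(B m))^n = 3^(n+1) q^n δ^n B/(B^n m^n)`.
(Cardinality of `Y_l`: it injects into the sigma set over the values of `y o` of a product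
`Fintype.piFinset` over `{j // j ≠ o}` or over all `j` with the set for `j = o` a singleton: given `y o = z` the
vectors `y` lie in `Fintype.piFinset (fun j => if j = o then {z} else T_j z)`, with
`∏_j card = ∏_{j ≠ o} card (T_j z) ≤ (3 q δ/(B m))^n`: `Finset.prod_erase`/`Finset.mul_prod_erase`,
`Finset.prod_le_pow_card`.)
-/

namespace Pool.Agent.Lib.MP_219881_nt

open Classical

theorem cntProg (a L : ℝ) (hL : 0 ≤ L) (m : ℕ) (hm : 1 ≤ m) (r : ℤ) (S : Finset ℤ)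
    (hS : ∀ t ∈ S, a ≤ (t : ℝ) ∧ (t : ℝ) ≤ a + L ∧ (m : ℤ) ∣ t - r) :
    (S.card : ℝ) ≤ L / m + 1 := by
  have hm' : (0 : ℝ) < m := by exact_mod_cast hm
  have hm0 : (m : ℤ) ≠ 0 := by
    have : m ≠ 0 := by omega
    exact_mod_cast this
  set U : ℝ := (a + L - r) / m with hU
  set V : ℝ := (a - r) / m with hV
  have hdiv : ∀ t ∈ S, (m : ℤ) * ((t - r) / m) = t - r := fun t ht =>
    Int.mul_ediv_cancel' (hS t ht).2.2
  have hmap : ∀ t ∈ S, (t - r) / (m : ℤ) ∈ Finset.Icc ⌈V⌉ ⌊U⌋ := by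
    intro t ht
    obtain ⟨h1, h2, _⟩ := hS t ht
    have h3 := hdiv t ht
    have h4 : (m : ℝ) * (((t - r) / (m : ℤ) : ℤ) : ℝ) = t - r := by exact_mod_cast h3
    rw [Finset.mem_Icc, Int.ceil_le, Int.le_floor, hU, hV, div_le_iff₀ hm', le_div_iff₀ hm']
    constructor
    · linarith
    · linarith
  have hinj : Set.InjOn (fun t : ℤ => (t - r) / (m : ℤ)) S := by
    intro t ht t' ht' h
    have h1 := hdiv t ht
    have h2 := hdiv t' ht'
    simp only at h
    rw [h, h2] at h1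
    linarith
  have hcard : S.card ≤ (Finset.Icc ⌈V⌉ ⌊U⌋).card :=
    Finset.card_le_card_of_injOn _ hmap hinj
  have hUV : U - V = L / m := by
    rw [hU, hV, ← sub_div]
    congr 1
    ring
  have hLm : 0 ≤ L / m := by positivity
  have h1 : V ≤ ⌈V⌉ := Int.le_ceil V
  have h2 : (⌊U⌋ : ℝ) ≤ U := Int.floor_le U
  have h3 : ((Finset.Icc ⌈V⌉ ⌊U⌋).card : ℝ) ≤ L / m + 1 := by
    rw [Int.card_Icc]
    rcases le_or_gt 0 (⌊U⌋ + 1 - ⌈V⌉) with h4 | h4
    · have h5 : (((⌊U⌋ + 1 - ⌈V⌉).toNat : ℕ) : ℤ) = ⌊U⌋ + 1 - ⌈V⌉ := Int.toNat_of_nonneg h4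
      have h6 : (((⌊U⌋ + 1 - ⌈V⌉).toNat : ℕ) : ℝ) = (⌊U⌋ : ℝ) + 1 - ⌈V⌉ := by exact_mod_cast h5
      rw [h6]
      linarith
    · have h5 : (⌊U⌋ + 1 - ⌈V⌉).toNat = 0 := Int.toNat_of_nonpos h4.le
      rw [h5]
      push_cast
      linarith
  have h4 : (S.card : ℝ) ≤ ((Finset.Icc ⌈V⌉ ⌊U⌋).card : ℝ) := by exact_mod_cast hcard
  linarith

/-- one class of the multiplier -/
private theorem cnty_class {n : ℕ} (B H q : ℕ) (o : Fin (n + 1)) (hB : 1 ≤ B) (hq : 1 ≤ q)
    (x : Vc n ℤ) (hx : x ∈ GG B H q o) (m δ : ℕ) (hm : 1 ≤ m) (hm2 : m ≤ 2 * B)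
    (hδ : m * B ≤ δ) (l : ℤ) :
    (((VBox n B).filter fun y => 1 ≤ y o ∧ (∀ j, (m : ℤ) ∣ y j - l * x j) ∧
        Del o x y ≤ δ).card : ℝ) ≤
      3 * (B : ℝ) / m * (3 * q * δ / (B * m)) ^ n := by
  have bR : (0 : ℝ) < (B : ℝ) := by exact_mod_cast hB
  have qR : (1 : ℝ) ≤ (q : ℝ) := by exact_mod_cast hq
  have mR : (0 : ℝ) < (m : ℝ) := by exact_mod_cast hm
  have hx0 : 0 < x o := GG_pos hB hx
  have hx0R : (0 : ℝ) < (x o : ℝ) := by exact_mod_cast hx0
  have hpiv : (B : ℝ) ≤ q * (x o : ℝ) := by exact_mod_cast GG_pivot hx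
  have hδR : (m : ℝ) * B ≤ δ := by exact_mod_cast hδ
  have hδ0 : (0 : ℝ) < δ := lt_of_lt_of_le (by positivity) hδR
  have hM1 : (1 : ℝ) ≤ (q : ℝ) * δ / (B * m) := by
    rw [le_div_iff₀ (by positivity), one_mul]
    have h1 : (1 : ℝ) * δ ≤ q * δ := mul_le_mul_of_nonneg_right qR hδ0.le
    linarith
  set Z : Finset ℤ := (Finset.Icc (1 : ℤ) B).filter fun z => (m : ℤ) ∣ z - l * x o with hZ
  set T : Fin (n + 1) → ℤ → Finset ℤ := fun j z =>
    (Finset.Icc (-(B : ℤ)) B).filter fun t => (m : ℤ) ∣ t - l * x j ∧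
      |x o * t - x j * z| ≤ (δ : ℤ) with hT
  have hZc : (Z.card : ℝ) ≤ 3 * (B : ℝ) / m := by
    have h1 := cntProg 0 B bR.le m hm (l * x o) Z (by
      intro t ht
      rw [hZ, Finset.mem_filter, Finset.mem_Icc] at ht
      obtain ⟨⟨h1, h2⟩, h3⟩ := ht
      refine ⟨?_, ?_, h3⟩
      · have : (1 : ℝ) ≤ t := by exact_mod_cast h1
        linarith
      · have : (t : ℝ) ≤ B := by exact_mod_cast h2
        linarith)
    have h2 : (1 : ℝ) ≤ 2 * B / m := by
      rw [le_div_iff₀ mR, one_mul]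
      exact_mod_cast hm2
    have h3 : 3 * (B : ℝ) / m = B / m + 2 * B / m := by ring
    rw [h3]
    linarith
  have hTc : ∀ j z, ((T j z).card : ℝ) ≤ 3 * q * δ / (B * m) := by
    intro j z
    have h1 := cntProg ((x j * z - δ) / x o) (2 * δ / x o) (by positivity) m hm (l * x j) (T j z) (by
      intro t ht
      rw [hT] at ht
      simp only [Finset.mem_filter, Finset.mem_Icc] at ht
      obtain ⟨_, h3, h4⟩ := ht
      have h5 : |(x o : ℝ) * t - x j * z| ≤ δ := by exact_mod_cast h4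
      rw [abs_le] at h5
      refine ⟨?_, ?_, h3⟩
      · rw [div_le_iff₀ hx0R]
        linarith [h5.1]
      · rw [← add_div, le_div_iff₀ hx0R]
        linarith [h5.2])
    have h2 : 2 * (δ : ℝ) / x o / m ≤ 2 * q * δ / (B * m) := by
      rw [div_div, div_le_div_iff₀ (by positivity) (by positivity)]
      have h3 : (B : ℝ) * (2 * δ * m) ≤ q * x o * (2 * δ * m) :=
        mul_le_mul_of_nonneg_right hpiv (by positivity)
      linarith
    have h3 : 3 * (q : ℝ) * δ / (B * m) = 2 * q * δ / (B * m) + q * δ / (B * m) := by ring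
    rw [h3]
    linarith
  -- the fibres
  set Y := (VBox n B).filter fun y => 1 ≤ y o ∧ (∀ j, (m : ℤ) ∣ y j - l * x j) ∧
        Del o x y ≤ δ with hY
  have hYZ : ∀ y ∈ Y, y o ∈ Z := by
    intro y hy
    rw [hY, Finset.mem_filter, mem_VBox] at hy
    rw [hZ, Finset.mem_filter, Finset.mem_Icc]
    exact ⟨⟨hy.2.1, (abs_le.1 (hy.1 o)).2⟩, hy.2.2.1 o⟩
  have hfib : ∀ z ∈ Z, ((Y.filter fun y => y o = z).card : ℝ) ≤
      (3 * q * δ / (B * m)) ^ n := by
    intro z _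
    have h1 : (Y.filter fun y => y o = z) ⊆
        Fintype.piFinset fun j => if j = o then {z} else T j z := by
      intro y hy
      rw [Finset.mem_filter, hY, Finset.mem_filter, mem_VBox] at hy
      obtain ⟨⟨h2, h3, h4, h5⟩, h6⟩ := hy
      rw [Fintype.mem_piFinset]
      intro j
      by_cases hj : j = o
      · rw [if_pos hj, Finset.mem_singleton, hj, h6]
      · rw [if_neg hj]
        simp only [hT, Finset.mem_filter, Finset.mem_Icc]
        refine ⟨abs_le.1 (h2 j), h4 j, ?_⟩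
        have h7 := le_Del o x y j
        have h8 : (Del o x y : ℤ) ≤ δ := by exact_mod_cast h5
        have h9 : mn x y o j = x o * y j - x j * z := by
          rw [mn, h6]
        rw [← h9]
        exact h7.trans h8
    have h2 : ((Y.filter fun y => y o = z).card : ℝ) ≤
        ∏ j, (((if j = o then {z} else T j z) : Finset ℤ).card : ℝ) := by
      have h3 := Finset.card_le_card h1
      rw [Fintype.card_piFinset] at h3
      exact_mod_cast h3
    refine h2.trans ?_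
    rw [← Finset.mul_prod_erase Finset.univ _ (Finset.mem_univ o), if_pos rfl,
      Finset.card_singleton, Nat.cast_one, one_mul]
    have h3 : ∏ j ∈ Finset.univ.erase o, (((if j = o then {z} else T j z) : Finset ℤ).card : ℝ) ≤
        ∏ j ∈ Finset.univ.erase o, 3 * (q : ℝ) * δ / (B * m) := by
      refine Finset.prod_le_prod (fun _ _ => Nat.cast_nonneg _) fun j hj => ?_
      rw [if_neg (Finset.ne_of_mem_erase hj)]
      exact hTc j z
    refine h3.trans (le_of_eq ?_)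
    rw [Finset.prod_const, Finset.card_erase_of_mem (Finset.mem_univ o), Finset.card_univ,
      Fintype.card_fin, Nat.add_sub_cancel]
  have hsum : (Y.card : ℝ) = ∑ z ∈ Z, ((Y.filter fun y => y o = z).card : ℝ) := by
    rw [Finset.card_eq_sum_card_fiberwise (f := fun y : Vc n ℤ => y o) (t := Z)
      (fun y hy => hYZ y hy)]
    push_cast
    rfl
  rw [hsum]
  refine (Finset.sum_le_sum hfib).trans ?_
  rw [Finset.sum_const, nsmul_eq_mul]
  exact mul_le_mul_of_nonneg_right hZc (by positivity)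

theorem cntY {n : ℕ} (B H q : ℕ) (o : Fin (n + 1)) (hB : 1 ≤ B) (hq : 1 ≤ q) (x : Vc n ℤ)
    (hx : x ∈ GG B H q o) (m δ : ℕ) (hm : 1 ≤ m) (hm2 : m ≤ 2 * B) (hδ : m * B ≤ δ) :
    (((VBox n B).filter fun y => 1 ≤ y o ∧ (∀ i j, (m : ℤ) ∣ mn x y i j) ∧
        Del o x y ≤ δ).card : ℝ) ≤
      3 ^ (n + 1) * (q : ℝ) ^ n * (δ : ℝ) ^ n * (B : ℝ) / ((B : ℝ) ^ n * (m : ℝ) ^ n) := by
  have bR : (0 : ℝ) < (B : ℝ) := by exact_mod_cast hB
  have mR : (0 : ℝ) < (m : ℝ) := by exact_mod_cast hm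
  have hmZ : (0 : ℤ) < m := by exact_mod_cast hm
  have hsub : ((VBox n B).filter fun y => 1 ≤ y o ∧ (∀ i j, (m : ℤ) ∣ mn x y i j) ∧
        Del o x y ≤ δ) ⊆ (Finset.range m).biUnion fun l =>
        (VBox n B).filter fun y => 1 ≤ y o ∧ (∀ j, (m : ℤ) ∣ y j - (l : ℤ) * x j) ∧
        Del o x y ≤ δ := by
    intro y hy
    rw [Finset.mem_filter] at hy
    obtain ⟨h1, h2, h3, h4⟩ := hy
    obtain ⟨l, hl⟩ := lamLem x y (GG_uni hx)
    have h5 := hl m h3
    have h6 : 0 ≤ l % m := Int.emod_nonneg l hmZ.ne'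
    have h7 : l % m < m := Int.emod_lt_of_pos l hmZ
    rw [Finset.mem_biUnion]
    refine ⟨(l % m).toNat, ?_, ?_⟩
    · rw [Finset.mem_range]
      omega
    · rw [Finset.mem_filter]
      refine ⟨h1, h2, fun j => ?_, h4⟩
      rw [Int.toNat_of_nonneg h6]
      have h8 : y j - l % m * x j = (y j - l * x j) + m * (l / m * x j) := by
        have h9 := Int.emod_add_mul_ediv l m
        linear_combination (-x j) * h9
      rw [h8]
      exact Dvd.dvd.add (h5 j) (dvd_mul_right _ _)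
  have h1 : (((VBox n B).filter fun y => 1 ≤ y o ∧ (∀ i j, (m : ℤ) ∣ mn x y i j) ∧
        Del o x y ≤ δ).card : ℝ) ≤ ∑ l ∈ Finset.range m,
        (((VBox n B).filter fun y => 1 ≤ y o ∧ (∀ j, (m : ℤ) ∣ y j - (l : ℤ) * x j) ∧
        Del o x y ≤ δ).card : ℝ) := by
    have h2 := (Finset.card_le_card hsub).trans Finset.card_biUnion_le
    exact_mod_cast h2
  have h3 : ∀ l ∈ Finset.range m,
        (((VBox n B).filter fun y => 1 ≤ y o ∧ (∀ j, (m : ℤ) ∣ y j - (l : ℤ) * x j) ∧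
        Del o x y ≤ δ).card : ℝ) ≤ 3 * (B : ℝ) / m * (3 * q * δ / (B * m)) ^ n :=
    fun l _ => cnty_class B H q o hB hq x hx m δ hm hm2 hδ (l : ℤ)
  refine h1.trans ((Finset.sum_le_sum h3).trans (le_of_eq ?_))
  rw [Finset.sum_const, Finset.card_range, nsmul_eq_mul, div_pow, mul_pow, mul_pow, mul_pow,
    pow_succ]
  field_simp

end Pool.Agent.Lib.MP_219881_nt
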