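import Pool.Agent.Lib.MP_219881_nt.Basic

/-! MP_219881_nt stream Q, local densities (paper section 10): one definition. -/

namespace Pool.Agent.Lib.MP_219881_nt

open Classical

/-- Ideal generated by the 2 x 2 minors of `(x, y)`. -/
def II {n : ℕ} {R : Type*} [CommRing R] (x y : Vc n R) : Ideal R :=
  Ideal.span (Set.range fun s : Fin (n + 1) × Fin (n + 1) => mn x y s.1 s.2)

theorem mn_mem_II {n : ℕ} {R : Type*} [CommRing R] (x y : Vc n R) (i j : Fin (n + 1)) :
    mn x y i j ∈ II x y := Ideal.subset_span ⟨(i, j), rfl⟩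

end Pool.Agent.Lib.MP_219881_nt
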