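import Pool.Agent.Lib.MP_219881_nt.LD_Base

/-!
JOB LD_Cnt.  (Cubic version with proof: /team-store/MP_1ad228_ntC_LD_Cnt.lean; adapt it.)

LD_cnty.  The map `{y} × T → ZMod m × (Fin (n+1) → T)`, `(y, t) ↦ (lin u y + t, y - (lin u y + t) • x)` is
injective (`T = {t | c * t = 0}`, `c` elements), so `#{y} * c ≤ m * c ^ (n+1)`.
-/

namespace Pool.Agent.Lib.MP_219881_nt

open Classical

theorem LD_tors (m : ℕ) [NeZero m] (c : ℕ) (hc : c ∣ m) :
    Nat.card {t : ZMod m // (c : ZMod m) * t = 0} = c := by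
  obtain ⟨d, hd⟩ := hc
  have hm0 : m ≠ 0 := NeZero.ne m
  have hc0 : 0 < c := Nat.pos_of_ne_zero (by rintro rfl; simp at hd; exact hm0 hd)
  have hd0 : 0 < d := Nat.pos_of_ne_zero (by rintro rfl; simp at hd; exact hm0 hd)
  have key : ∀ t : ZMod m, (c : ZMod m) * t = 0 ↔ d ∣ t.val := by
    intro t
    have h1 : (c : ZMod m) * t = ((c * t.val : ℕ) : ZMod m) := by
      rw [Nat.cast_mul, ZMod.natCast_zmod_val]
    rw [h1, ZMod.natCast_eq_zero_iff]
    constructor
    · intro h
      have h2 : c * d ∣ c * t.val := by rw [← hd]; exact h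
      exact Nat.dvd_of_mul_dvd_mul_left hc0 h2
    · intro h
      have h2 : c * d ∣ c * t.val := Nat.mul_dvd_mul_left c h
      rw [← hd] at h2; exact h2
  have hlt : ∀ s : Fin c, d * (s : ℕ) < m := by
    intro s
    rw [hd, mul_comm c d]
    exact Nat.mul_lt_mul_of_pos_left s.2 hd0
  have hval : ∀ s : Fin c, (((d * (s : ℕ) : ℕ) : ZMod m)).val = d * (s : ℕ) := fun s =>
    ZMod.val_cast_of_lt (hlt s)
  let f : Fin c → {t : ZMod m // (c : ZMod m) * t = 0} := fun s =>
    ⟨((d * (s : ℕ) : ℕ) : ZMod m), (key _).2 (by rw [hval]; exact Dvd.intro _ rfl)⟩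
  have hf : Function.Bijective f := by
    constructor
    · intro s s' h
      have h1 : ((d * (s : ℕ) : ℕ) : ZMod m) = ((d * (s' : ℕ) : ℕ) : ZMod m) :=
        congrArg Subtype.val h
      have h2 := congrArg ZMod.val h1
      rw [hval, hval] at h2
      exact Fin.ext (Nat.eq_of_mul_eq_mul_left hd0 h2)
    · rintro ⟨t, ht⟩
      obtain ⟨s, hs⟩ := (key t).1 ht
      have hs' : s < c := by
        have h3 : t.val < m := ZMod.val_lt t
        rw [hs, hd, mul_comm c d] at h3
        exact Nat.lt_of_mul_lt_mul_left h3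
      refine ⟨⟨s, hs'⟩, Subtype.ext ?_⟩
      show ((d * s : ℕ) : ZMod m) = t
      rw [← hs, ZMod.natCast_zmod_val]
  have h := Nat.card_eq_of_bijective f hf
  rw [← h, Nat.card_eq_fintype_card, Fintype.card_fin]

theorem LD_cardI (m : ℕ) [NeZero m] (I : Ideal (ZMod m)) :
    Nat.card I ∣ m ∧ ∀ t ∈ I, ((Nat.card I : ℕ) : ZMod m) * t = 0 := by
  constructor
  · have h := AddSubgroup.card_addSubgroup_dvd_card (Submodule.toAddSubgroup I)
    rw [Nat.card_zmod] at h
    exact h
  · intro t ht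
    have h : Nat.card I • (⟨t, ht⟩ : I) = 0 := card_nsmul_eq_zero'
    have h2 := congrArg Subtype.val h
    rw [← nsmul_eq_mul]
    exact h2

theorem LD_cnty {n : ℕ} (m : ℕ) [NeZero m] (x : Vc n (ZMod m)) (hx : Uni x) (c : ℕ)
    (hc : c ∣ m) : Nat.card {y : Vc n (ZMod m) // Nat.card (II x y) = c} ≤ m * c ^ n := by
  obtain ⟨u, hu⟩ := hx
  have hm0 : m ≠ 0 := NeZero.ne m
  have hc0 : 0 < c := Nat.pos_of_ne_zero (by rintro rfl; exact hm0 (zero_dvd_iff.1 hc))
  have hT := LD_tors m c hc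
  have hw : ∀ y : Vc n (ZMod m), Nat.card (II x y) = c → ∀ j,
      (c : ZMod m) * (y j - lin u y * x j) = 0 := by
    intro y hy j
    have h1 : y j - lin u y * x j = ∑ i, u i * mn x y i j := by
      have h2 : y j = lin u x * y j := by rw [hu, one_mul]
      calc y j - lin u y * x j = lin u x * y j - lin u y * x j := by rw [← h2]
        _ = ∑ i, u i * mn x y i j := by
          simp only [lin, mn, Finset.sum_mul, mul_sub, Finset.sum_sub_distrib]
          refine congrArg₂ (· - ·) (Finset.sum_congr rfl fun i _ => by ring)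
            (Finset.sum_congr rfl fun i _ => by ring)
    rw [h1, Finset.mul_sum]
    refine Finset.sum_eq_zero fun i _ => ?_
    have h3 := (LD_cardI m (II x y)).2 (mn x y i j) (mn_mem_II x y i j)
    rw [hy] at h3
    calc (c : ZMod m) * (u i * mn x y i j) = u i * ((c : ZMod m) * mn x y i j) := by ring
      _ = 0 := by rw [h3, mul_zero]
  let T := {t : ZMod m // (c : ZMod m) * t = 0}
  let Y := {y : Vc n (ZMod m) // Nat.card (II x y) = c}
  let Φ : Y × T → ZMod m × (Fin (n + 1) → T) := fun q =>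
    (lin u q.1.1 + q.2.1, fun j => ⟨q.1.1 j - (lin u q.1.1 + q.2.1) * x j, by
      have h1 := hw q.1.1 q.1.2 j
      have h2 := q.2.2
      calc (c : ZMod m) * (q.1.1 j - (lin u q.1.1 + q.2.1) * x j)
          = (c : ZMod m) * (q.1.1 j - lin u q.1.1 * x j) - ((c : ZMod m) * q.2.1) * x j := by ring
        _ = 0 := by rw [h1, h2]; ring⟩)
  have hΦ : Function.Injective Φ := by
    rintro ⟨⟨y, hy⟩, ⟨t, ht⟩⟩ ⟨⟨y', hy'⟩, ⟨t', ht'⟩⟩ h
    have h1 : lin u y + t = lin u y' + t' := congrArg Prod.fst h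
    have h2 : ∀ j, y j - (lin u y + t) * x j = y' j - (lin u y' + t') * x j := by
      intro j
      have h3 := congrFun (congrArg Prod.snd h) j
      exact congrArg Subtype.val h3
    have h4 : y = y' := by
      funext j
      have := h2 j
      rw [h1] at this
      exact sub_left_injective this
    subst h4
    have h5 : t = t' := add_left_cancel h1
    subst h5
    rfl
  have hcard := Nat.card_le_card_of_injective Φ hΦ
  rw [Nat.card_prod, Nat.card_prod, Nat.card_zmod, Nat.card_fun, hT,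
    Nat.card_eq_fintype_card (α := Fin (n + 1)), Fintype.card_fin] at hcard
  have h6 : Nat.card Y * c ≤ (m * c ^ n) * c := by
    calc Nat.card Y * c ≤ m * c ^ (n + 1) := hcard
      _ = (m * c ^ n) * c := by ring
  exact Nat.le_of_mul_le_mul_right h6 hc0

end Pool.Agent.Lib.MP_219881_nt
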