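import Pool.Agent.Lib.MP_219881_nt.LD_Base

/-!
JOB LD_Equi.  (Cubic version with proof: /team-store/MP_1ad228_ntC_LD_Equi.lean; adapt it to pairs.)

`V = (n+1)^2`.  LD_cls: in `[-A, A]` there are at most `(2A+1)/m + 1` integers of a given class mod `m`; a pair of
matrices has `2 V` entries.
LD_equi.  `(2A+1)/m + 1 ≤ (2A+1)/m * (1 + m/(2A+1))` (real division), and
`(1 + m/(2A+1))^(2V) ≤ 2` as soon as `A` is large (e.g. `m/(2A+1) ≤ 1/(4V)` : `(1 + t)^N ≤ exp (N t)`,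
`exp (1/2) ≤ 2`; or Bernoulli; or continuity/`tendsto`).
-/

namespace Pool.Agent.Lib.MP_219881_nt

open Classical

theorem LD_Equi_one (m : ℕ) [NeZero m] (A : ℕ) (c : ZMod m) :
    ((Finset.Icc (-(A : ℤ)) (A : ℤ)).filter fun z : ℤ => (z : ZMod m) = c).card ≤
      (2 * A + 1) / m + 1 := by
  have hm : (0 : ℤ) < (m : ℤ) := by
    have := NeZero.pos m
    exact_mod_cast this
  rw [← Finset.card_range ((2 * A + 1) / m + 1)]
  refine Finset.card_le_card_of_injOn (fun z => ((z + A) / (m : ℤ)).toNat) ?_ ?_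
  · intro z hz
    have hz' := Finset.mem_filter.1 (Finset.mem_coe.1 hz)
    have hz1 := Finset.mem_Icc.1 hz'.1
    rw [Finset.mem_coe, Finset.mem_range, Nat.lt_succ_iff]
    have h1 : (z + A) / (m : ℤ) ≤ ((2 * A + 1 : ℕ) : ℤ) / (m : ℤ) := by
      apply Int.ediv_le_ediv hm
      push_cast
      linarith [hz1.2]
    have h2 : ((2 * A + 1 : ℕ) : ℤ) / (m : ℤ) = (((2 * A + 1) / m : ℕ) : ℤ) := by
      rw [Int.natCast_div]
    rw [h2] at h1
    exact Int.toNat_le.2 h1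
  · intro z hz w hw hzw
    have hz' := Finset.mem_filter.1 (Finset.mem_coe.1 hz)
    have hw' := Finset.mem_filter.1 (Finset.mem_coe.1 hw)
    have hz1 := Finset.mem_Icc.1 hz'.1
    have hw1 := Finset.mem_Icc.1 hw'.1
    have h0z : 0 ≤ (z + A) / (m : ℤ) := Int.ediv_nonneg (by linarith [hz1.1]) hm.le
    have h0w : 0 ≤ (w + A) / (m : ℤ) := Int.ediv_nonneg (by linarith [hw1.1]) hm.le
    have h3 : (z + A) / (m : ℤ) = (w + A) / (m : ℤ) := by
      have h4 : ((z + A) / (m : ℤ)).toNat = ((w + A) / (m : ℤ)).toNat := hzw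
      have h5 : (((z + A) / (m : ℤ)).toNat : ℤ) = (((w + A) / (m : ℤ)).toNat : ℤ) := by rw [h4]
      rwa [Int.toNat_of_nonneg h0z, Int.toNat_of_nonneg h0w] at h5
    have h6 : ((z : ZMod m)) = ((w : ZMod m)) := by rw [hz'.2, hw'.2]
    have h7 : z ≡ w [ZMOD (m : ℤ)] := (ZMod.intCast_eq_intCast_iff z w m).1 h6
    have h8 : (z + A) % (m : ℤ) = (w + A) % (m : ℤ) := h7.add_right _
    have h9 := Int.emod_add_mul_ediv (z + A) (m : ℤ)
    have h10 := Int.emod_add_mul_ediv (w + A) (m : ℤ)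
    rw [h3, h8] at h9
    linarith

theorem LD_Equi_ten (n m : ℕ) [NeZero m] (A : ℕ) (r : Mt n (ZMod m)) :
    ((Box n A).filter fun a => cm (ZMod m) a = r).card ≤
      ((2 * A + 1) / m + 1) ^ (n + 1) ^ 2 := by
  have hsub : ((Box n A).filter fun a => cm (ZMod m) a = r) ⊆
      Fintype.piFinset fun i => Fintype.piFinset fun j =>
        (Finset.Icc (-(A : ℤ)) (A : ℤ)).filter fun z : ℤ => (z : ZMod m) = r i j := by
    intro a ha
    have ha' := Finset.mem_filter.1 ha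
    have ha1 := mem_Box.1 ha'.1
    simp only [Fintype.mem_piFinset]
    intro i j
    rw [Finset.mem_filter, Finset.mem_Icc]
    refine ⟨abs_le.1 (ha1 i j), ?_⟩
    exact congrFun (congrFun ha'.2 i) j
  refine (Finset.card_le_card hsub).trans ?_
  simp only [Fintype.card_piFinset]
  calc ∏ i : Fin (n + 1), ∏ j : Fin (n + 1),
        ((Finset.Icc (-(A : ℤ)) (A : ℤ)).filter fun z : ℤ => (z : ZMod m) = r i j).card
      ≤ ∏ _i : Fin (n + 1), ∏ _j : Fin (n + 1), ((2 * A + 1) / m + 1) :=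
        Finset.prod_le_prod' fun i _ => Finset.prod_le_prod' fun j _ => LD_Equi_one m A (r i j)
    _ = ((2 * A + 1) / m + 1) ^ (n + 1) ^ 2 := by
        simp only [Finset.prod_const, Finset.card_univ, Fintype.card_fin]
        rw [← pow_mul, ← sq]

theorem LD_cls (n m : ℕ) [NeZero m] (A : ℕ) (S : Finset (Mt n (ZMod m) × Mt n (ZMod m))) :
    (((Box n A) ×ˢ (Box n A)).filter fun ab => (cm (ZMod m) ab.1, cm (ZMod m) ab.2) ∈ S).card ≤
      S.card * (((2 * A + 1) / m + 1) ^ (n + 1) ^ 2) ^ 2 := by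
  have hsub : (((Box n A) ×ˢ (Box n A)).filter fun ab =>
      (cm (ZMod m) ab.1, cm (ZMod m) ab.2) ∈ S) ⊆
      S.biUnion fun r => ((Box n A).filter fun a => cm (ZMod m) a = r.1) ×ˢ
        ((Box n A).filter fun a => cm (ZMod m) a = r.2) := by
    intro ab hab
    have ha' := Finset.mem_filter.1 hab
    have ha1 := Finset.mem_product.1 ha'.1
    rw [Finset.mem_biUnion]
    exact ⟨(cm (ZMod m) ab.1, cm (ZMod m) ab.2), ha'.2,
      Finset.mem_product.2 ⟨Finset.mem_filter.2 ⟨ha1.1, rfl⟩, Finset.mem_filter.2 ⟨ha1.2, rfl⟩⟩⟩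
  refine (Finset.card_le_card hsub).trans (Finset.card_biUnion_le.trans ?_)
  have h1 : ∀ r ∈ S, (((Box n A).filter fun a => cm (ZMod m) a = r.1) ×ˢ
        ((Box n A).filter fun a => cm (ZMod m) a = r.2)).card ≤
        (((2 * A + 1) / m + 1) ^ (n + 1) ^ 2) ^ 2 := by
    intro r _
    rw [Finset.card_product, sq]
    exact Nat.mul_le_mul (LD_Equi_ten n m A r.1) (LD_Equi_ten n m A r.2)
  refine (Finset.sum_le_sum h1).trans ?_
  rw [Finset.sum_const, smul_eq_mul]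

theorem LD_equi (n m : ℕ) [NeZero m] : ∃ A0 : ℕ, ∀ A ≥ A0,
    ∀ S : Finset (Mt n (ZMod m) × Mt n (ZMod m)),
    ((((Box n A) ×ˢ (Box n A)).filter fun ab =>
        (cm (ZMod m) ab.1, cm (ZMod m) ab.2) ∈ S).card : ℝ) ≤
      2 * ((S.card : ℝ) / ((m : ℝ) ^ (n + 1) ^ 2) ^ 2) * ((2 * A + 1 : ℝ) ^ (n + 1) ^ 2) ^ 2 := by
  refine ⟨2 * (n + 1) ^ 2 * m, fun A hA S => ?_⟩
  have hm : (0 : ℝ) < (m : ℝ) := by
    have := NeZero.pos m
    exact_mod_cast this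
  have hV : (0 : ℝ) < ((n : ℝ) + 1) ^ 2 := by positivity
  set V : ℕ := (n + 1) ^ 2 with hVdef
  have hVR : (V : ℝ) = ((n : ℝ) + 1) ^ 2 := by
    rw [hVdef]
    push_cast
    ring
  have hV0 : (0 : ℝ) < (V : ℝ) := by
    rw [hVR]
    exact hV
  have h1 : ((((Box n A) ×ˢ (Box n A)).filter fun ab =>
        (cm (ZMod m) ab.1, cm (ZMod m) ab.2) ∈ S).card : ℝ) ≤
      (S.card : ℝ) * (((((2 * A + 1) / m : ℕ) : ℝ) + 1) ^ V) ^ 2 := by
    exact_mod_cast LD_cls n m A S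
  have h2 : (((2 * A + 1) / m : ℕ) : ℝ) ≤ ((2 * A + 1 : ℝ)) / (m : ℝ) := by
    have := @Nat.cast_div_le ℝ _ _ _ (2 * A + 1) m
    push_cast at this
    exact this
  have hA' : 2 * (V : ℝ) * m ≤ A := by exact_mod_cast hA
  have h3 : (1 : ℝ) ≤ (1 / (4 * V)) * ((2 * A + 1 : ℝ) / (m : ℝ)) := by
    rw [div_mul_div_comm, le_div_iff₀ (by positivity)]
    linarith
  have h4 : (((2 * A + 1) / m : ℕ) : ℝ) + 1 ≤
      (1 / (4 * V) + 1) * ((2 * A + 1 : ℝ) / (m : ℝ)) := by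
    linarith
  have h5 : (((((2 * A + 1) / m : ℕ) : ℝ) + 1) ^ V) ^ 2 ≤
      (((1 / (4 * V) + 1) * ((2 * A + 1 : ℝ) / (m : ℝ))) ^ V) ^ 2 :=
    pow_le_pow_left₀ (by positivity) (pow_le_pow_left₀ (by positivity) h4 V) 2
  have h6 : (((1 / (4 * (V : ℝ)) + 1) * ((2 * A + 1 : ℝ) / (m : ℝ))) ^ V) ^ 2 ≤
      2 * (((2 * A + 1 : ℝ) ^ V) ^ 2 / ((m : ℝ) ^ V) ^ 2) := by
    have h7 : ((1 / (4 * (V : ℝ)) + 1) ^ V) ^ 2 ≤ 2 := by
      have h9 : 1 / (4 * (V : ℝ)) + 1 ≤ Real.exp (1 / (4 * (V : ℝ))) :=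
        Real.add_one_le_exp _
      have h10 : ((1 / (4 * (V : ℝ)) + 1) ^ V) ^ 2 ≤ ((Real.exp (1 / (4 * (V : ℝ)))) ^ V) ^ 2 :=
        pow_le_pow_left₀ (by positivity) (pow_le_pow_left₀ (by positivity) h9 V) 2
      have h11 : ((Real.exp (1 / (4 * (V : ℝ)))) ^ V) ^ 2 = Real.exp (1 / 2) := by
        rw [← Real.exp_nat_mul, ← Real.exp_nat_mul]
        congr 1
        push_cast
        field_simp
        norm_num
      have h12 : Real.exp (1 / 2) ≤ 2 := by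
        rw [← Real.le_log_iff_exp_le (by norm_num)]
        have := Real.log_two_gt_d9
        linarith
      linarith
    have h8 : (0 : ℝ) ≤ ((2 * A + 1 : ℝ) ^ V) ^ 2 / ((m : ℝ) ^ V) ^ 2 := by positivity
    rw [mul_pow, mul_pow, div_pow (2 * A + 1 : ℝ), div_pow]
    exact mul_le_mul_of_nonneg_right h7 h8
  calc ((((Box n A) ×ˢ (Box n A)).filter fun ab =>
        (cm (ZMod m) ab.1, cm (ZMod m) ab.2) ∈ S).card : ℝ)
      ≤ (S.card : ℝ) * (((((2 * A + 1) / m : ℕ) : ℝ) + 1) ^ V) ^ 2 := h1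
    _ ≤ (S.card : ℝ) * (2 * (((2 * A + 1 : ℝ) ^ V) ^ 2 / ((m : ℝ) ^ V) ^ 2)) :=
        mul_le_mul_of_nonneg_left (h5.trans h6) (by positivity)
    _ = 2 * ((S.card : ℝ) / ((m : ℝ) ^ V) ^ 2) * ((2 * A + 1 : ℝ) ^ V) ^ 2 := by ring

end Pool.Agent.Lib.MP_219881_nt
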