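import Mathlib

/-!
JOB RP_Cont.  A compact null set has few lattice points near it after scaling (paper section 9 (c)).

PROOF.  Outer regularity: `Set.exists_isOpen_lt_of_lt` gives an open `O' ⊇ Z` with `volume O' < ε` (as `ENNReal.ofReal ε`).
`Z` compact, `O'` open: there is `r > 0` with `Metric.thickening r Z ⊆ O'` (`IsCompact.exists_thickening_subset_open`). Let
`O = Metric.thickening (r / 2) Z` and `A0` a natural number with `1 ≤ A0`, `1 / A0 < r / 2`.
For `A ≥ A0` and integer points `z ∈ S` the boxes `Q_z = {u | ∀ i, z i / A ≤ u i < (z i + 1) / A}` = `Set.pi univ (fun i => Ico (z i / A) ((z i + 1) / A))`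
are pairwise disjoint (for `z ≠ z'` some coordinate differs, `⌊A * u i⌋ = z i` on `Q_z`), each has volume `(1 / A)^card` (`Real.volume_pi_Ico` or
`MeasureTheory.volume_pi_pi`, `Real.volume_Ico`), and `Q_z ⊆ O'`: a point of `Q_z` is at sup distance at most `1 / A < r / 2` from `z / A ∈ O`, so it lies in
`thickening r Z`. Hence `S.card * (1 / A)^card ≤ volume O' < ε` (`MeasureTheory.measure_biUnion_finset`, monotonicity), so `S.card ≤ ε A^card`.
(If `κ` is empty the statement still holds: then `Z` null means `Z = ∅`, `O = ∅`, `S = ∅`; the general proof works too.)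
-/

namespace Pool.Agent.Lib.MP_219881_nt

open Classical

theorem content {κ : Type} [Fintype κ] (Z : Set (κ → ℝ)) (hZ : IsCompact Z)
    (h0 : MeasureTheory.volume Z = 0) (ε : ℝ) (hε : 0 < ε) :
    ∃ O : Set (κ → ℝ), IsOpen O ∧ Z ⊆ O ∧ ∃ A0 : ℕ, 1 ≤ A0 ∧ ∀ A : ℕ, A0 ≤ A →
      ∀ S : Finset (κ → ℤ), (∀ z ∈ S, (fun i => (z i : ℝ) / A) ∈ O) →
        (S.card : ℝ) ≤ ε * (A : ℝ) ^ Fintype.card κ := by
  obtain ⟨O', hZO', hO'open, hO'lt⟩ := Set.exists_isOpen_lt_of_lt Z (ENNReal.ofReal ε) (by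
    rw [h0]
    exact ENNReal.ofReal_pos.mpr hε)
  obtain ⟨r, hr, hthick⟩ := hZ.exists_thickening_subset_open hO'open hZO'
  refine ⟨Metric.thickening (r / 2) Z, Metric.isOpen_thickening,
    Metric.self_subset_thickening (by linarith) Z, ?_⟩
  obtain ⟨n, hn⟩ := exists_nat_one_div_lt (half_pos hr)
  refine ⟨n + 1, by omega, fun A hA S hS => ?_⟩
  have hA1 : ((n : ℝ) + 1) ≤ A := by exact_mod_cast hA
  have hn0 : (0 : ℝ) < (n : ℝ) + 1 := by positivity
  have hApos : (0 : ℝ) < A := lt_of_lt_of_le hn0 hA1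
  have hAr : 1 / (A : ℝ) < r / 2 := lt_of_le_of_lt (one_div_le_one_div_of_le hn0 hA1) hn
  set Q : (κ → ℤ) → Set (κ → ℝ) := fun z =>
    Set.pi Set.univ (fun i => Set.Ico ((z i : ℝ) / A) (((z i : ℝ) + 1) / A)) with hQ
  have hmemQ : ∀ (z : κ → ℤ) (u : κ → ℝ), u ∈ Q z → ∀ i, (z i : ℝ) ≤ A * u i ∧ A * u i < (z i : ℝ) + 1 := by
    intro z u hu i
    have h1 := hu i (Set.mem_univ i)
    rw [Set.mem_Ico, div_le_iff₀ hApos, lt_div_iff₀ hApos] at h1
    constructor
    · linarith [h1.1, mul_comm (u i) (A : ℝ)]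
    · linarith [h1.2, mul_comm (u i) (A : ℝ)]
  have hvol : ∀ z, MeasureTheory.volume (Q z) = ENNReal.ofReal ((1 / (A : ℝ)) ^ Fintype.card κ) := by
    intro z
    rw [hQ, Real.volume_pi_Ico]
    have h1 : ∀ i : κ, ENNReal.ofReal (((z i : ℝ) + 1) / A - (z i : ℝ) / A) = ENNReal.ofReal (1 / (A : ℝ)) := by
      intro i
      congr 1
      field_simp
      ring
    rw [Finset.prod_congr rfl fun i _ => h1 i, Finset.prod_const, Finset.card_univ,
      ← ENNReal.ofReal_pow (by positivity)]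
  have hdisj : Set.PairwiseDisjoint (↑S) Q := by
    intro z _ z' _ hne
    rw [Function.onFun, Set.disjoint_left]
    intro u hu hu'
    apply hne
    funext i
    have h1 := hmemQ z u hu i
    have h2 := hmemQ z' u hu' i
    have h3 : (z i : ℝ) < (z' i : ℝ) + 1 := lt_of_le_of_lt h1.1 h2.2
    have h4 : (z' i : ℝ) < (z i : ℝ) + 1 := lt_of_le_of_lt h2.1 h1.2
    have h5 : z i < z' i + 1 := by exact_mod_cast h3
    have h6 : z' i < z i + 1 := by exact_mod_cast h4
    omega
  have hmeas : ∀ z, MeasurableSet (Q z) := fun z => MeasurableSet.univ_pi (fun i => measurableSet_Ico)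
  have hsub : ∀ z ∈ S, Q z ⊆ O' := by
    intro z hz u hu
    apply hthick
    have h1 := hS z hz
    rw [Metric.mem_thickening_iff] at h1 ⊢
    obtain ⟨w, hw, hdw⟩ := h1
    refine ⟨w, hw, ?_⟩
    have h2 : dist u (fun i => (z i : ℝ) / A) ≤ 1 / (A : ℝ) := by
      refine (dist_pi_le_iff (by positivity)).mpr fun i => ?_
      have h3 := hu i (Set.mem_univ i)
      rw [Set.mem_Ico] at h3
      rw [Real.dist_eq, abs_le]
      have h4 : ((z i : ℝ) + 1) / A = (z i : ℝ) / A + 1 / A := by ring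
      rw [h4] at h3
      have h5 : (0 : ℝ) ≤ 1 / A := by positivity
      constructor <;> linarith [h3.1, h3.2]
    calc dist u w ≤ dist u (fun i => (z i : ℝ) / A) + dist (fun i => (z i : ℝ) / A) w := dist_triangle _ _ _
      _ < r / 2 + r / 2 := add_lt_add (lt_of_le_of_lt h2 hAr) hdw
      _ = r := by ring
  have hle : MeasureTheory.volume (⋃ z ∈ S, Q z) ≤ ENNReal.ofReal ε :=
    (MeasureTheory.measure_mono (Set.iUnion₂_subset hsub)).trans hO'lt.le
  rw [MeasureTheory.measure_biUnion_finset hdisj (fun z _ => hmeas z),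
    Finset.sum_congr rfl fun z _ => hvol z, Finset.sum_const, nsmul_eq_mul, ← ENNReal.ofReal_natCast,
    ← ENNReal.ofReal_mul (by positivity), ENNReal.ofReal_le_ofReal_iff hε.le] at hle
  rw [one_div, inv_pow, ← div_eq_mul_inv, div_le_iff₀ (by positivity)] at hle
  exact hle

end Pool.Agent.Lib.MP_219881_nt
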