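import Pool.Agent.Lib.MP_219881_nt.Basic

/-!
JOB MN_Par.  Choice of the parameter `g` and some elementary facts (paper section 11).

`gpar`: let `D = (3n+1)(n-3) ≥ 32` (`n ≥ 5`). For given `A` let `g` be the largest natural number with `(g^(3n+1))^(n-3) ≤ M A^2` (`Nat.findGreatest`, or `Nat.nthRoot`-free: the set of such `g` contains `1`
when `M A^2 ≥ 1` and is bounded by `M A^2`). Then `(g+1)^D > M A^2` and `g + 1 ≤ 2 g`, so `2^D g^D ≥ M A^2`.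
`g0 ≤ g` if `M A^2 ≥ g0^D` (true for `A ≥ A0`, `M ≥ 1`). `(g^10)^3 = g^30 ≤ g^D ≤ M A^2` (`g ≥ 1`), and `c^3 M A^2 ≤ A^3` for `A ≥ c^3 M`, so `(c g^10)^3 ≤ A^3`, `c g^10 ≤ A`.
Here `(g^5)^2 = g^10`.

`EEq`: `B^(n+1)/(A^2 B^4) = B^(n-3)/A^2` for `B ≥ 1`, `A ≥ 1`, `n ≥ 5` (`pow_sub₀`, or `n = m + 5`).

`Hpow`: `B = g^(3n+1)`, `H = g^5`: `H^(n+3) B^3 / B^(n+1) ≤ 1/g`: exponents `5 (n+3) + 3 (3n+1) + 1 ≤ (3n+1)(n+1)`, i.e. `14 n + 19 ≤ 3 n^2 + 4 n + 1`, i.e. `10 n + 18 ≤ 3 n^2`, true for `n ≥ 5` (`68 ≤ 75`).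

`WWdvd`: every `m` with `1 ≤ m ≤ w` divides `WW w`: for every prime `p ∣ m`, `p ≤ w` and the exponent of `p` in `m` is at most `w` (`p^e ≤ m ≤ w < 2^w ≤ p^w`). `Nat.factorization_le_iff_dvd` or
`m = ∏ p ∈ m.primeFactors, p^(m.factorization p)` and divisibility of each coprime factor. `WWpos`: a product of positive numbers.
-/

namespace Pool.Agent.Lib.MP_219881_nt

open Classical

theorem gpar (n : ℕ) (hn : 5 ≤ n) (M : ℕ) (hM : 1 ≤ M) (g0 c : ℕ) : ∃ A0 : ℕ, ∀ A ≥ A0, ∃ g : ℕ,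
    1 ≤ g ∧ g0 ≤ g ∧ 1 ≤ A ∧ (g ^ (3 * n + 1)) ^ (n - 3) ≤ M * A ^ 2 ∧
      M * A ^ 2 ≤ 2 ^ ((3 * n + 1) * (n - 3)) * (g ^ (3 * n + 1)) ^ (n - 3) ∧
      c * (g ^ 5) ^ 2 ≤ A := by
  set D := (3 * n + 1) * (n - 3) with hD
  have hD32 : 32 ≤ D := by
    rw [hD]
    calc 32 = 16 * 2 := by norm_num
      _ ≤ (3 * n + 1) * (n - 3) := Nat.mul_le_mul (by omega) (by omega)
  refine ⟨c ^ 3 * M + g0 ^ D + 1, fun A hA => ?_⟩
  have hA1 : 1 ≤ A := by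
    have h := Nat.zero_le (c ^ 3 * M + g0 ^ D)
    omega
  have hAg : g0 ^ D ≤ A := by
    have h := Nat.zero_le (c ^ 3 * M)
    omega
  have hAc : c ^ 3 * M ≤ A := by
    have h := Nat.zero_le (g0 ^ D)
    omega
  have hAA : A ≤ M * A ^ 2 := by
    calc A = 1 * A := (one_mul A).symm
      _ ≤ (M * A) * A := Nat.mul_le_mul (Nat.mul_pos hM hA1) le_rfl
      _ = M * A ^ 2 := by ring
  have hMA : 1 ≤ M * A ^ 2 := hA1.trans hAA
  have hP1 : (1 : ℕ) ^ D ≤ M * A ^ 2 := by rw [one_pow]; exact hMA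
  set g := Nat.findGreatest (fun g => g ^ D ≤ M * A ^ 2) (M * A ^ 2) with hg
  have hgs : g ^ D ≤ M * A ^ 2 :=
    Nat.findGreatest_spec (P := fun g => g ^ D ≤ M * A ^ 2) hMA hP1
  have hg1 : 1 ≤ g := Nat.le_findGreatest (P := fun g => g ^ D ≤ M * A ^ 2) hMA hP1
  have hD0 : D ≠ 0 := by omega
  have hg0 : g0 ≤ g := by
    have h2 : g0 ^ D ≤ M * A ^ 2 := hAg.trans hAA
    exact Nat.le_findGreatest (P := fun g => g ^ D ≤ M * A ^ 2)
      ((Nat.le_self_pow hD0 g0).trans h2) h2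
  have hg2 : M * A ^ 2 < (g + 1) ^ D := by
    by_contra hcon
    have h2 : (g + 1) ^ D ≤ M * A ^ 2 := not_lt.mp hcon
    have h3 : g + 1 ≤ g := Nat.le_findGreatest (P := fun g => g ^ D ≤ M * A ^ 2)
      ((Nat.le_self_pow hD0 (g + 1)).trans h2) h2
    omega
  have hpow : ∀ a : ℕ, (a ^ (3 * n + 1)) ^ (n - 3) = a ^ D := fun a => by rw [← pow_mul]
  refine ⟨g, hg1, hg0, hA1, ?_, ?_, ?_⟩
  · rw [hpow]; exact hgs
  · rw [hpow, ← mul_pow]
    exact hg2.le.trans (Nat.pow_le_pow_left (by omega) D)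
  · have h3 : (c * (g ^ 5) ^ 2) ^ 3 ≤ A ^ 3 := by
      calc (c * (g ^ 5) ^ 2) ^ 3 = c ^ 3 * g ^ 30 := by ring
        _ ≤ c ^ 3 * g ^ D := Nat.mul_le_mul le_rfl (Nat.pow_le_pow_right hg1 (by omega))
        _ ≤ c ^ 3 * (M * A ^ 2) := Nat.mul_le_mul le_rfl hgs
        _ = (c ^ 3 * M) * A ^ 2 := by ring
        _ ≤ A * A ^ 2 := Nat.mul_le_mul hAc le_rfl
        _ = A ^ 3 := by ring
    exact (Nat.pow_le_pow_iff_left (by norm_num)).mp h3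

theorem EEq (n A B : ℕ) (hn : 5 ≤ n) (hA : 1 ≤ A) (hB : 1 ≤ B) :
    (B : ℝ) ^ (n + 1) / (A ^ 2 * B ^ 4) = (B : ℝ) ^ (n - 3) / A ^ 2 := by
  have hA' : (A : ℝ) ≠ 0 := by
    have : A ≠ 0 := by omega
    exact_mod_cast this
  have hB' : (B : ℝ) ≠ 0 := by
    have : B ≠ 0 := by omega
    exact_mod_cast this
  obtain ⟨k, rfl⟩ : ∃ k, n = k + 3 := ⟨n - 3, by omega⟩
  rw [Nat.add_sub_cancel, div_eq_div_iff (by positivity) (by positivity)]
  ring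

theorem Hpow (n g B H : ℕ) (hn : 5 ≤ n) (hg : 1 ≤ g) (hB : B = g ^ (3 * n + 1)) (hH : H = g ^ 5) :
    (H : ℝ) ^ (n + 3) * B ^ 3 / (B : ℝ) ^ (n + 1) ≤ 1 / g := by
  have hg' : (1 : ℝ) ≤ (g : ℝ) := by exact_mod_cast hg
  have hg0 : (0 : ℝ) < (g : ℝ) := by linarith
  subst hB hH
  push_cast
  rw [div_le_div_iff₀ (by positivity) hg0, one_mul]
  have h1 : ((g : ℝ) ^ 5) ^ (n + 3) * ((g : ℝ) ^ (3 * n + 1)) ^ 3 * g =
      (g : ℝ) ^ (5 * (n + 3) + (3 * n + 1) * 3 + 1) := by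
    rw [← pow_mul, ← pow_mul, ← pow_add, ← pow_succ]
  have h2 : ((g : ℝ) ^ (3 * n + 1)) ^ (n + 1) = (g : ℝ) ^ ((3 * n + 1) * (n + 1)) := by
    rw [← pow_mul]
  rw [h1, h2]
  refine pow_le_pow_right₀ hg' ?_
  nlinarith

theorem WWpos (w : ℕ) : 1 ≤ WW w := by
  have h : 0 < ∏ p ∈ (Finset.range (w + 1)).filter Nat.Prime, p ^ w := by
    refine Finset.prod_pos fun p hp => ?_
    have hp' : p.Prime := (Finset.mem_filter.mp hp).2
    exact pow_pos hp'.pos w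
  exact h

theorem WWdvd (w m : ℕ) (h1 : 1 ≤ m) (h2 : m ≤ w) : m ∣ WW w := by
  have hm0 : m ≠ 0 := by omega
  have hW0 : WW w ≠ 0 := by
    have := WWpos w
    omega
  rw [← Nat.factorization_le_iff_dvd hm0 hW0]
  intro p
  by_cases hp : p.Prime
  · by_cases hpm : p ∣ m
    · have hpw : p ≤ w := (Nat.le_of_dvd (by omega) hpm).trans h2
      have h3 : m.factorization p ≤ w := by
        have h4 : p ^ m.factorization p ≤ m := Nat.ordProj_le p hm0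
        have h5 : m.factorization p < p ^ m.factorization p :=
          Nat.lt_pow_self hp.one_lt
        omega
      refine h3.trans ?_
      have h6 : p ^ w ∣ WW w := by
        unfold WW
        exact Finset.dvd_prod_of_mem (fun p => p ^ w)
          (Finset.mem_filter.mpr ⟨Finset.mem_range.mpr (by omega), hp⟩)
      exact (hp.pow_dvd_iff_le_factorization hW0).mp h6
    · rw [Nat.factorization_eq_zero_of_not_dvd hpm]
      exact Nat.zero_le _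
  · rw [Nat.factorization_eq_zero_of_not_prime m hp]
    exact Nat.zero_le _

end Pool.Agent.Lib.MP_219881_nt
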