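import Mathlib

/-!
JOB HG_Coord.  A subspace of dimension `d` is controlled by `d` coordinates (paper section 6, COORD LEMMA).

PROOF.  Induction on `d`. `d = 0`: `M = ⊥`, `J = ∅`. Step: `finrank M = d + 1`, so there is `v0 ≠ 0` in `M`; let `i0` maximise `|v0 i|`
(`Finite.exists_max` or `Finset.exists_max_image`), `v0 i0 ≠ 0`. `M' = M ⊓ ker (proj i0)` (`LinearMap.proj i0`) has dimension `d`: the functional
`proj i0` restricted to `M` is nonzero (value at `v0`), so its range is one dimensional (`LinearMap.finrank_range_add_finrank_ker` on `M`, or: `M = M' ⊕ span v0`).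
Induction gives `J'`; `J = insert i0 J'`. For `v ∈ M` with `|v j| ≤ t` on `J` put `c = v i0 / v0 i0`, `w = v - c • v0 ∈ M'`; `|c * v0 i| ≤ |c| |v0 i0| = |v i0| ≤ t` for all `i`,
so `|w j| ≤ 2 t` for `j ∈ J'`, hence `|w i| ≤ (2^d - 1) (2 t)` and `|v i| ≤ |w i| + t ≤ (2^(d+1) - 1) t`.
(If it is easier, prove only `Module.finrank ℚ M ≤ d` style induction: the statement for all `M` with `finrank ℚ M ≤ d` also suffices, because for `finrank M = d` it is the same.)
-/

namespace Pool.Agent.Lib.MP_219881_nt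

open Classical

theorem coordJ (N : ℕ) : ∀ (d : ℕ) (M : Submodule ℚ (Fin N → ℚ)), Module.finrank ℚ M ≤ d →
    ∃ J : Finset (Fin N), J.card ≤ d ∧ ∀ v ∈ M, ∀ t : ℚ, 0 ≤ t → (∀ j ∈ J, |v j| ≤ t) →
      ∀ i, |v i| ≤ (2 ^ d - 1) * t := by
  intro d
  induction d with
  | zero =>
    intro M hM
    have h0 : M = ⊥ := Submodule.finrank_eq_zero.mp (by omega)
    refine ⟨∅, by simp, ?_⟩
    intro v hv t ht _ i
    rw [h0, Submodule.mem_bot] at hv
    simp [hv]
  | succ d ih =>
    intro M hM
    by_cases hb : M = ⊥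
    · refine ⟨∅, by simp, ?_⟩
      intro v hv t ht _ i
      rw [hb, Submodule.mem_bot] at hv
      rw [hv]
      have h1 : (1 : ℚ) ≤ 2 ^ (d + 1) := one_le_pow₀ (by norm_num)
      rw [Pi.zero_apply, abs_zero]
      exact mul_nonneg (by linarith) ht
    · obtain ⟨v0, hv0, hne⟩ := Submodule.exists_mem_ne_zero_of_ne_bot hb
      have hnon : Nonempty (Fin N) := by
        by_contra hc
        rw [not_nonempty_iff] at hc
        exact hne (Subsingleton.elim _ _)
      obtain ⟨i0, hi0⟩ := Finite.exists_max (fun i => |v0 i|)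
      have hi0' : v0 i0 ≠ 0 := by
        intro hz
        apply hne
        funext i
        have h1 := hi0 i
        rw [hz, abs_zero] at h1
        exact abs_eq_zero.mp (le_antisymm h1 (abs_nonneg _))
      have hlt : M ⊓ LinearMap.ker (LinearMap.proj i0 : (Fin N → ℚ) →ₗ[ℚ] ℚ) < M := by
        refine lt_of_le_of_ne inf_le_left ?_
        intro he
        have h1 : v0 ∈ M ⊓ LinearMap.ker (LinearMap.proj i0 : (Fin N → ℚ) →ₗ[ℚ] ℚ) := by
          rw [he]; exact hv0
        exact hi0' h1.2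
      have hfr : Module.finrank ℚ
          (M ⊓ LinearMap.ker (LinearMap.proj i0 : (Fin N → ℚ) →ₗ[ℚ] ℚ) : Submodule ℚ (Fin N → ℚ)) ≤ d := by
        have h1 := Submodule.finrank_lt_finrank_of_lt hlt
        omega
      obtain ⟨J', hJc, hJ⟩ := ih _ hfr
      refine ⟨insert i0 J', (Finset.card_insert_le _ _).trans (by omega), ?_⟩
      intro v hv t ht hvt i
      have hvi0 : |v i0| ≤ t := hvt i0 (Finset.mem_insert_self _ _)
      have hc : ∀ k, |v i0 / v0 i0 * v0 k| ≤ t := by
        intro k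
        rw [abs_mul, abs_div]
        have h1 : |v0 k| ≤ |v0 i0| := hi0 k
        have h2 : 0 < |v0 i0| := abs_pos.mpr hi0'
        calc |v i0| / |v0 i0| * |v0 k| ≤ |v i0| / |v0 i0| * |v0 i0| :=
              mul_le_mul_of_nonneg_left h1 (by positivity)
          _ = |v i0| := by field_simp
          _ ≤ t := hvi0
      have hw : v - (v i0 / v0 i0) • v0 ∈
          M ⊓ LinearMap.ker (LinearMap.proj i0 : (Fin N → ℚ) →ₗ[ℚ] ℚ) := by
        refine ⟨M.sub_mem hv (M.smul_mem _ hv0), ?_⟩
        show v i0 - (v i0 / v0 i0) * v0 i0 = 0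
        field_simp
        ring
      have hwk : ∀ k, (v - (v i0 / v0 i0) • v0) k = v k - v i0 / v0 i0 * v0 k := fun k => rfl
      have hwJ : ∀ j ∈ J', |(v - (v i0 / v0 i0) • v0) j| ≤ 2 * t := by
        intro j hj
        rw [hwk]
        have h1 := hvt j (Finset.mem_insert_of_mem hj)
        have h2 := hc j
        have h3 := abs_sub (v j) (v i0 / v0 i0 * v0 j)
        linarith
      have h4 := hJ _ hw (2 * t) (by linarith) hwJ i
      rw [hwk] at h4
      have h5 := hc i
      have h6 : |v i| ≤ |v i - v i0 / v0 i0 * v0 i| + |v i0 / v0 i0 * v0 i| := by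
        have h7 := abs_add_le (v i - v i0 / v0 i0 * v0 i) (v i0 / v0 i0 * v0 i)
        rwa [sub_add_cancel] at h7
      calc |v i| ≤ (2 ^ d - 1) * (2 * t) + t := by linarith
        _ = (2 ^ (d + 1) - 1) * t := by ring

end Pool.Agent.Lib.MP_219881_nt
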