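import Pool.Agent.Lib.MP_219881_nt.AlphaPt

/-!
JOB Alpha.  Pair sum over the near points (paper section 5, alpha).  (AlphaPt is another job: use its
theorems `apDvd, apBd, apNe, apFib`.)

PROOF.  Fix `x`, let `f` be its short vectors (`GG_good hx`). `c := (n+1) * H * q` (natural number, `≥ 1`).
Let `Y` be the set of the sum. For `y ∈ Y`: `D = Dd x y ≥ 1`, `Δ = Del o x y ≥ 1` (`Del_pos`, `Dd_pos`),
`D ∣ U_s := lin (f s) y`, `B |U_s| ≤ c Δ`, some `U_s ≠ 0`, so `D ≤ |U_s|` and `B D ≤ c Δ ≤ c * 2 B^2`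
(`Del_le`): `D ≤ 2 c B`, and `D/Δ ≤ c/B`. Also `B |U_s| ≤ c Δ ≤ c D B`, so `|U_s / D| ≤ c`.
Map `φ : y ↦ (D, s ↦ U_s / D)` from `Y` to `Icc 1 (2 c B) × piFinset (fun _ : Fin n => Icc (-c) c)`, a set with
`(2 c B) * (2 c + 1)^n` elements. Fibres have at most `q + 1` elements: if `y, y'` are in the same fibre then
`U_s(y) = U_s(y')` for all `s`, so by `apFib` `y' = y + t x` with an integer `t`; all `y'_o` lie in `[1, B]`
(`GG_pos`, `GG_le`) and `q x_o ≥ B`; so fixing one element `y` of the fibre with the smallest `y_o`, `t ≥ 0` and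
`t x_o < B ≤ q x_o`, `t < q` (injective map `y' ↦ t` into `range (q+1)`); or: the map `y' ↦ q * y'_o / B`
(natural division; values in `[0, q]`) is injective on a fibre because consecutive `y'_o` differ by at least
`x_o ≥ B/q`. So `card Y ≤ 2 c B (2c+1)^n (q+1)` (`Finset.card_le_mul_card_image`) and the sum is at most
`card Y * (c/B)^2 ≤ 2 c (2c+1)^n (q+1) c^2 / B ≤ C H^(n+3)/B` with
`C = 2 * 3^n * ((n+1) q)^(n+3) * (q+1)` (`2c+1 ≤ 3c`).
-/

namespace Pool.Agent.Lib.MP_219881_nt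

open Classical

private theorem Alpha_facts {n : ℕ} {B H q : ℕ} {o : Fin (n + 1)} (hB : 1 ≤ B) {x y : Vc n ℤ}
    (hx : x ∈ GG B H q o) (hy : y ∈ GG B H q o) (hxy : y ≠ x) (hd : Del o x y ≤ Dd x y * B)
    (f : Fin n → Vc n ℤ) (hf : LinearIndependent ℤ f) (h0 : ∀ s, lin (f s) x = 0)
    (hb : ∀ s i, |f s i| ≤ (H : ℤ)) :
    1 ≤ Del o x y ∧ 1 ≤ Dd x y ∧ B * Dd x y ≤ (n + 1) * H * q * Del o x y ∧
      Dd x y ≤ 2 * ((n + 1) * H * q) * B ∧
      ∀ s, ∃ k : ℤ, lin (f s) y = Dd x y * k ∧ |k| ≤ (((n + 1) * H * q : ℕ) : ℤ) := by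
  have hΔ : 1 ≤ Del o x y := Del_pos hB hx hy (Ne.symm hxy)
  have hD : 1 ≤ Dd x y := Dd_pos o x y hΔ
  have hdvd : ∀ s, (Dd x y : ℤ) ∣ lin (f s) y := fun s => apDvd x y (GG_uni hx) (f s) (h0 s)
  have hbd : ∀ s, (B : ℤ) * |lin (f s) y| ≤ (n + 1) * H * q * Del o x y :=
    fun s => apBd B H q o hB x y hx (f s) (h0 s) (hb s)
  obtain ⟨s, hs⟩ := apNe B H q o hB x y hx hy hxy f hf h0
  have hDpos : (0 : ℤ) < Dd x y := by exact_mod_cast hD
  have hBpos : (0 : ℤ) < B := by exact_mod_cast hB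
  have h1 : B * Dd x y ≤ (n + 1) * H * q * Del o x y := by
    have h2 : (Dd x y : ℤ) ≤ |lin (f s) y| :=
      Int.le_of_dvd (abs_pos.2 hs) ((dvd_abs _ _).2 (hdvd s))
    have h3 : (B : ℤ) * Dd x y ≤ (n + 1) * H * q * Del o x y :=
      (mul_le_mul_of_nonneg_left h2 hBpos.le).trans (hbd s)
    exact_mod_cast h3
  refine ⟨hΔ, hD, h1, ?_, ?_⟩
  · have h2 : Del o x y ≤ 2 * B ^ 2 := Del_le hx hy
    have h3 : B * Dd x y ≤ B * (2 * ((n + 1) * H * q) * B) := by
      calc B * Dd x y ≤ (n + 1) * H * q * Del o x y := h1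
        _ ≤ (n + 1) * H * q * (2 * B ^ 2) := Nat.mul_le_mul_left _ h2
        _ = B * (2 * ((n + 1) * H * q) * B) := by ring
    exact Nat.le_of_mul_le_mul_left h3 hB
  · intro s
    obtain ⟨k, hk⟩ := hdvd s
    refine ⟨k, hk, ?_⟩
    have h2 := hbd s
    rw [hk, abs_mul, abs_of_pos hDpos] at h2
    have hd' : (Del o x y : ℤ) ≤ Dd x y * B := by exact_mod_cast hd
    have h3 : (B : ℤ) * (Dd x y * |k|) ≤ ((n + 1) * H * q) * (Dd x y * B) :=
      h2.trans (mul_le_mul_of_nonneg_left hd' (by positivity))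
    have h4 : ((B : ℤ) * Dd x y) * |k| ≤ ((B : ℤ) * Dd x y) * ((n + 1) * H * q) := by
      calc ((B : ℤ) * Dd x y) * |k| = (B : ℤ) * (Dd x y * |k|) := by ring
        _ ≤ ((n + 1) * H * q) * (Dd x y * B) := h3
        _ = ((B : ℤ) * Dd x y) * ((n + 1) * H * q) := by ring
    have h5 := le_of_mul_le_mul_left h4 (mul_pos hBpos hDpos)
    exact_mod_cast h5

private theorem Alpha_fib {n : ℕ} {B H q : ℕ} {o : Fin (n + 1)} (hB : 1 ≤ B) {x : Vc n ℤ}
    (hx : x ∈ GG B H q o) (f : Fin n → Vc n ℤ) (hf : LinearIndependent ℤ f)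
    (h0 : ∀ s, lin (f s) x = 0) (Z : Finset (Vc n ℤ)) (hZ : ∀ y ∈ Z, y ∈ GG B H q o)
    (he : ∀ y ∈ Z, ∀ y' ∈ Z, ∀ s, lin (f s) y = lin (f s) y') : Z.card ≤ q + 1 := by
  have hBpos : (0 : ℤ) < B := by exact_mod_cast hB
  have h1 : Z.card ≤ (Finset.Icc (0 : ℤ) q).card := by
    refine Finset.card_le_card_of_injOn (fun y => (q * y o) / B) ?_ ?_
    · intro y hy
      have hy1 := GG_pos hB (hZ y hy)
      have hy2 := (abs_le.1 (GG_le (hZ y hy) o)).2
      rw [Finset.coe_Icc, Set.mem_Icc]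
      constructor
      · exact Int.ediv_nonneg (by positivity) hBpos.le
      · refine Int.ediv_le_of_le_mul hBpos ?_
        exact mul_le_mul_of_nonneg_left hy2 (by positivity)
    · have key : ∀ y ∈ Z, ∀ y' ∈ Z, (q * y o) / (B : ℤ) = (q * y' o) / (B : ℤ) →
          ∀ c : ℤ, (∀ j, y j - y' j = c * x j) → c ≤ 0 := by
        intro y hy y' hy' hyy c hc
        by_contra hcon
        push Not at hcon
        have hx1 := GG_pos hB hx
        have hx2 := GG_pivot hx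
        have h2 : (B : ℤ) + q * y' o ≤ q * y o := by
          have h3 : y o = y' o + c * x o := by
            have := hc o
            linarith
          have h4 : (q : ℤ) * x o ≤ q * (c * x o) := by
            refine mul_le_mul_of_nonneg_left ?_ (by positivity)
            nlinarith
          rw [h3, mul_add]
          linarith
        have h3 : (q * y' o) / (B : ℤ) + 1 ≤ (q * y o) / (B : ℤ) := by
          rw [Int.le_ediv_iff_mul_le hBpos]
          have h4 := Int.ediv_mul_le (q * y' o) hBpos.ne'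
          rw [add_mul, one_mul]
          linarith
        omega
      intro y hy y' hy' hyy
      obtain ⟨c, hc⟩ := apFib B H q o hB x y y' hx f hf h0 (he y hy y' hy')
      have h2 := key y hy y' hy' hyy c hc
      have h3 := key y' hy' y hy hyy.symm (-c) (fun j => by
        have := hc j
        linarith)
      have h4 : c = 0 := by omega
      funext j
      have := hc j
      rw [h4, zero_mul] at this
      linarith
  refine h1.trans (le_of_eq ?_)
  rw [Int.card_Icc]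
  omega

theorem alpha (n q : ℕ) (hq : 1 ≤ q) : ∃ C : ℝ, 0 < C ∧ ∀ (B H : ℕ) (o : Fin (n + 1)),
    1 ≤ B → 1 ≤ H → ∀ x ∈ GG B H q o,
    ∑ y ∈ (GG B H q o).filter (fun y => y ≠ x ∧ Del o x y ≤ Dd x y * B),
      ((Dd x y : ℝ) / (Del o x y : ℝ)) ^ 2 ≤ C * ((H : ℝ) ^ (n + 3) / (B : ℝ)) := by
  set c₀ : ℕ := (n + 1) * q with hc₀
  refine ⟨2 * ((q : ℝ) + 1) * 3 ^ n * (c₀ : ℝ) ^ (n + 3), by positivity, ?_⟩
  intro B H o hB hH x hx
  obtain ⟨f, hf, h0, hb⟩ := GG_good hx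
  set c : ℕ := (n + 1) * H * q with hc
  have hc1 : 1 ≤ c := Nat.succ_le_of_lt (by positivity)
  have hcc : c = c₀ * H := by rw [hc, hc₀]; ring
  set Y := (GG B H q o).filter (fun y => y ≠ x ∧ Del o x y ≤ Dd x y * B) with hY
  have hfacts : ∀ y ∈ Y, 1 ≤ Del o x y ∧ 1 ≤ Dd x y ∧ B * Dd x y ≤ c * Del o x y ∧
      Dd x y ≤ 2 * c * B ∧ ∀ s, ∃ k : ℤ, lin (f s) y = Dd x y * k ∧ |k| ≤ (c : ℤ) := by
    intro y hy
    obtain ⟨h1, h2, h3⟩ := Finset.mem_filter.1 hy
    exact Alpha_facts hB hx h1 h2 h3 f hf h0 hb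
  set T : Finset (ℕ × (Fin n → ℤ)) := (Finset.Icc 1 (2 * c * B)) ×ˢ
    (Fintype.piFinset (fun _ : Fin n => Finset.Icc (-(c : ℤ)) c)) with hT
  have hcardT : T.card = 2 * c * B * (2 * c + 1) ^ n := by
    have h : ((c : ℤ) + 1 - -(c : ℤ)).toNat = 2 * c + 1 := by omega
    rw [hT, Finset.card_product, Nat.card_Icc, Fintype.card_piFinset]
    simp only [Int.card_Icc, h, Finset.prod_const, Finset.card_univ, Fintype.card_fin]
    rw [Nat.add_sub_cancel]
  have hcardY : Y.card ≤ (q + 1) * T.card := by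
    refine Finset.card_le_mul_card_image_of_maps_to
      (f := fun y => (Dd x y, fun s => lin (f s) y / (Dd x y : ℤ))) ?_ (q + 1) ?_
    · intro y hy
      obtain ⟨h1, h2, h3, h4, h5⟩ := hfacts y hy
      rw [hT, Finset.mem_product]
      refine ⟨Finset.mem_Icc.2 ⟨h2, h4⟩, Fintype.mem_piFinset.2 fun s => ?_⟩
      obtain ⟨k, hk1, hk2⟩ := h5 s
      change lin (f s) y / (Dd x y : ℤ) ∈ _
      have hD0 : (Dd x y : ℤ) ≠ 0 := by
        have : (0 : ℤ) < Dd x y := by exact_mod_cast h2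
        exact this.ne'
      rw [hk1, Int.mul_ediv_cancel_left _ hD0, Finset.mem_Icc]
      exact abs_le.1 hk2
    · intro t _
      refine Alpha_fib hB hx f hf h0 _ (fun y hy => ?_) (fun y hy y' hy' s => ?_)
      · exact (Finset.mem_filter.1 (Finset.mem_filter.1 hy).1).1
      · obtain ⟨hy1, hy2⟩ := Finset.mem_filter.1 hy
        obtain ⟨hy1', hy2'⟩ := Finset.mem_filter.1 hy'
        have e := hy2.trans hy2'.symm
        rw [Prod.mk.injEq] at e
        obtain ⟨e1, e2⟩ := e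
        have e3 := congrFun e2 s
        obtain ⟨_, h2, _, _, h5⟩ := hfacts y hy1
        obtain ⟨_, h2', _, _, h5'⟩ := hfacts y' hy1'
        obtain ⟨k, hk1, hk2⟩ := h5 s
        obtain ⟨k', hk1', hk2'⟩ := h5' s
        have hD0 : (Dd x y : ℤ) ≠ 0 := by
          have : (0 : ℤ) < Dd x y := by exact_mod_cast h2
          exact this.ne'
        have hD0' : (Dd x y' : ℤ) ≠ 0 := by
          have : (0 : ℤ) < Dd x y' := by exact_mod_cast h2'
          exact this.ne'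
        change lin (f s) y / (Dd x y : ℤ) = lin (f s) y' / (Dd x y' : ℤ) at e3
        rw [hk1, hk1', Int.mul_ediv_cancel_left _ hD0, Int.mul_ediv_cancel_left _ hD0'] at e3
        rw [hk1, hk1', e3, e1]
  have hBr : (0 : ℝ) < B := by exact_mod_cast hB
  have hcr : (1 : ℝ) ≤ c := by exact_mod_cast hc1
  have hterm : ∀ y ∈ Y, ((Dd x y : ℝ) / (Del o x y : ℝ)) ^ 2 ≤ ((c : ℝ) / B) ^ 2 := by
    intro y hy
    obtain ⟨h1, h2, h3, h4, h5⟩ := hfacts y hy
    have hΔ : (0 : ℝ) < Del o x y := by exact_mod_cast h1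
    refine pow_le_pow_left₀ (by positivity) ?_ 2
    rw [div_le_div_iff₀ hΔ hBr]
    have h6 : (B : ℝ) * Dd x y ≤ c * Del o x y := by exact_mod_cast h3
    linarith
  have hsum : ∑ y ∈ Y, ((Dd x y : ℝ) / (Del o x y : ℝ)) ^ 2 ≤ (Y.card : ℝ) * ((c : ℝ) / B) ^ 2 := by
    refine (Finset.sum_le_sum hterm).trans (le_of_eq ?_)
    rw [Finset.sum_const, nsmul_eq_mul]
  have hY' : (Y.card : ℝ) ≤ ((q : ℝ) + 1) * (2 * c * B * (2 * c + 1) ^ n) := by
    have : Y.card ≤ (q + 1) * (2 * c * B * (2 * c + 1) ^ n) := by rw [← hcardT]; exact hcardY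
    exact_mod_cast this
  have h3c : (2 * (c : ℝ) + 1) ^ n ≤ (3 * c) ^ n :=
    pow_le_pow_left₀ (by positivity) (by linarith) n
  calc ∑ y ∈ Y, ((Dd x y : ℝ) / (Del o x y : ℝ)) ^ 2 ≤ (Y.card : ℝ) * ((c : ℝ) / B) ^ 2 := hsum
    _ ≤ (((q : ℝ) + 1) * (2 * c * B * (2 * c + 1) ^ n)) * ((c : ℝ) / B) ^ 2 :=
        mul_le_mul_of_nonneg_right hY' (by positivity)
    _ ≤ (((q : ℝ) + 1) * (2 * c * B * (3 * c) ^ n)) * ((c : ℝ) / B) ^ 2 := by
        refine mul_le_mul_of_nonneg_right (mul_le_mul_of_nonneg_left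
          (mul_le_mul_of_nonneg_left h3c (by positivity)) (by positivity)) (by positivity)
    _ = 2 * ((q : ℝ) + 1) * 3 ^ n * (c : ℝ) ^ (n + 3) / B := by
        field_simp
        ring
    _ = 2 * ((q : ℝ) + 1) * 3 ^ n * (c₀ : ℝ) ^ (n + 3) * ((H : ℝ) ^ (n + 3) / (B : ℝ)) := by
        have e : (c : ℝ) = c₀ * H := by exact_mod_cast hcc
        rw [e, mul_pow]
        ring

end Pool.Agent.Lib.MP_219881_nt
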