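import Pool.Agent.Lib.MP_219881_nt.CN_Cls

/-!
JOB CN_Cnt.  Counting near a robust real zero in a residue class (paper section 7, CNT).

PROOF.  `V = (n+1)^2`, `dl = ρ^2 / (2V)`, so `0 < dl ≤ 1/2`, `dl ≤ ρ` (as `ρ ≤ 1`, `V ≥ 1`). `hB` says `K W ≤ dl B`; so `W ≤ dl B / K` and `W ≤ ρ B`. Let `ξ` be the point of `Rob`.
Step 1: for every `l ≠ i, j` `clsLow` with `c = B ξ l`, `r = ρ B` gives a finset `S l` with at least `ρ B / W` elements. Let `T = Fintype.piFinset (fun l => if l = i ∨ l = j then {0} else S l)`: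
at least `(ρ B / W)^(n-1)` elements (`Fintype.card_piFinset`, the product over the `n - 1` indices `l ≠ i, j`).
Step 2: for `y ∈ T` let `Y l = y l / B` for `l ≠ i, j` and `Y i = ξ i`, `Y j = ξ j`; `|Y l - ξ l| ≤ ρ`, so `Rob` gives `s` with `s l = Y l` (`l ≠ i, j`), `|s l| ≤ 1/2`, `2ρ ≤ s o`, both forms vanish at `s`.
`clsLow` with `c = B s i` resp. `B s j`, `r = dl B / K` gives finsets `Si y`, `Sj y` of at least `dl B/(K W)` elements each.
Step 3: the points `x = update (update y i z) j z'`, `y ∈ T`, `z ∈ Si y`, `z' ∈ Sj y`, are pairwise different (`(y, z, z')` is recovered from `x` since `y i = y j = 0`, `i ≠ j`) and there are at least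
`(ρ B/W)^(n-1) (dl B/(K W))^2` of them, which is the left side (`(B)^(n-1) B^2 = B^(n+1)`, `n ≥ 1`; use a sigma type / `Finset.card_sigma` or `Finset.card_biUnion`).
Step 4: each such `x` is in the filter. `x l ≡ x0 l mod W` clear. For all `l`: `|x l / B - s l| ≤ dl/K ≤ 1/2` (equality of the two for `l ≠ i, j`), so `|x l / B| ≤ 1`, `x ∈ VBox n B`.
`x o / B ≥ 2ρ - dl/K ≥ ρ`, so `q x_o ≥ q ρ B ≥ B` (`hq`) and `(x o / B)^2 ≥ ρ^2`. With `α = a/A`: `ev α (x/B) = ev α (x/B) - ev α s = ∑ α_lm ((x_l/B)(x_m/B) - s_l s_m)`, `|α_lm| ≤ 1`,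
`|pq - p'q'| ≤ |p - p'||q| + |p'||q - q'| ≤ (dl/K)(1 + 1/2) ≤ 2 dl/K`, so `|ev α (x/B)| ≤ 2 V dl/K = ρ^2/K`; and `ev a x = A B^2 ev α (x/B)` (as real numbers; `ev_cm`, `ev_scale`, `ev_smul`), so
`K |ev a x| ≤ A B^2 ρ^2 ≤ A (x o)^2`. The same for `b`.
-/

namespace Pool.Agent.Lib.MP_219881_nt

open Classical

private theorem CN_Cnt_prod {p p' q q' e B : ℝ} (hq : |q| ≤ B) (hp : |p'| ≤ B)
    (h1 : |p - p'| ≤ e) (h2 : |q - q'| ≤ e) : |p * q - p' * q'| ≤ 2 * e * B := by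
  have e0 : 0 ≤ e := (abs_nonneg _).trans h1
  have h3 : p * q - p' * q' = (p - p') * q + p' * (q - q') := by ring
  rw [h3]
  refine (abs_add_le _ _).trans ?_
  rw [abs_mul, abs_mul]
  have h4 : |p - p'| * |q| ≤ e * B := mul_le_mul h1 hq (abs_nonneg _) e0
  have h5 : |p'| * |q - q'| ≤ B * e := mul_le_mul hp h2 (abs_nonneg _) ((abs_nonneg _).trans hp)
  linarith

private theorem CN_Cnt_ev {n : ℕ} (A B K : ℕ) (hA : 1 ≤ A) (hK : 1 ≤ K) (ρ : ℝ) (hρ : 0 < ρ)
    (hB0 : (0 : ℝ) < B) (a : Mt n ℤ) (ha : a ∈ Box n A) (x : Vc n ℤ) (s : Vc n ℝ)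
    (hx1 : ∀ l, |(x l : ℝ)| ≤ B) (hs : ∀ l, |s l| ≤ 1 / 2)
    (hx : ∀ l, |(x l : ℝ) - B * s l| ≤ ρ ^ 2 / (2 * (n + 1) ^ 2) * B / K)
    (h0 : ev (fun s t => (a s t : ℝ) / A) s = 0) (o : Fin (n + 1)) (ho : ρ * B ≤ x o) :
    (K : ℤ) * |ev a x| ≤ A * (x o) ^ 2 := by
  have hA0 : (0 : ℝ) < A := by exact_mod_cast hA
  have hK0 : (0 : ℝ) < K := by exact_mod_cast hK
  have hn0 : (0 : ℝ) < (n : ℝ) + 1 := by positivity
  have e1 : ∑ l, ∑ m, (a l m : ℝ) * (s l * s m) = 0 := by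
    have h1 : ∑ l, ∑ m, (a l m : ℝ) * (s l * s m) =
        A * ev (fun s t => (a s t : ℝ) / A) s := by
      unfold ev
      rw [Finset.mul_sum]
      refine Finset.sum_congr rfl fun l _ => ?_
      rw [Finset.mul_sum]
      refine Finset.sum_congr rfl fun m _ => ?_
      field_simp
    rw [h1, h0, mul_zero]
  have e2 : ((ev a x : ℤ) : ℝ) =
      ∑ l, ∑ m, (a l m : ℝ) * ((x l : ℝ) * x m - (B * s l) * (B * s m)) := by
    have h1 : ∑ l, ∑ m, (a l m : ℝ) * ((B * s l) * (B * s m)) = 0 := by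
      have h2 : ∑ l, ∑ m, (a l m : ℝ) * ((B * s l) * (B * s m)) =
          (B : ℝ) ^ 2 * ∑ l, ∑ m, (a l m : ℝ) * (s l * s m) := by
        rw [Finset.mul_sum]
        refine Finset.sum_congr rfl fun l _ => ?_
        rw [Finset.mul_sum]
        refine Finset.sum_congr rfl fun m _ => ?_
        ring
      rw [h2, e1, mul_zero]
    have h3 : ∑ l, ∑ m, (a l m : ℝ) * ((x l : ℝ) * x m - (B * s l) * (B * s m)) =
        ∑ l, ∑ m, (a l m : ℝ) * ((x l : ℝ) * x m) -
          ∑ l, ∑ m, (a l m : ℝ) * ((B * s l) * (B * s m)) := by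
      rw [← Finset.sum_sub_distrib]
      refine Finset.sum_congr rfl fun l _ => ?_
      rw [← Finset.sum_sub_distrib]
      refine Finset.sum_congr rfl fun m _ => ?_
      ring
    rw [h3, h1, sub_zero]
    unfold ev
    push_cast
    rfl
  set e : ℝ := ρ ^ 2 / (2 * (n + 1) ^ 2) * B / K with he
  have e3 : ∀ l m, |(a l m : ℝ) * ((x l : ℝ) * x m - (B * s l) * (B * s m))| ≤
      A * (2 * e * B) := by
    intro l m
    rw [abs_mul]
    have h1 : |(a l m : ℝ)| ≤ A := by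
      have := mem_Box.1 ha l m
      exact_mod_cast this
    have h2 : |(B : ℝ) * s l| ≤ B := by
      rw [abs_mul, abs_of_pos hB0]
      have := hs l
      nlinarith
    exact mul_le_mul h1 (CN_Cnt_prod (hx1 m) h2 (hx l) (hx m)) (abs_nonneg _) hA0.le
  have e4 : |((ev a x : ℤ) : ℝ)| ≤ (n + 1) * ((n + 1) * (A * (2 * e * B))) := by
    rw [e2]
    refine (Finset.abs_sum_le_sum_abs _ _).trans ?_
    have h1 : ∀ l ∈ (Finset.univ : Finset (Fin (n + 1))),
        |∑ m, (a l m : ℝ) * ((x l : ℝ) * x m - (B * s l) * (B * s m))| ≤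
          (n + 1) * (A * (2 * e * B)) := by
      intro l _
      refine (Finset.abs_sum_le_sum_abs _ _).trans ?_
      refine (Finset.sum_le_sum fun m _ => e3 l m).trans ?_
      rw [Finset.sum_const, Finset.card_univ, Fintype.card_fin, nsmul_eq_mul]
      push_cast
      exact le_rfl
    refine (Finset.sum_le_sum h1).trans ?_
    rw [Finset.sum_const, Finset.card_univ, Fintype.card_fin, nsmul_eq_mul]
    push_cast
    exact le_rfl
  have e5 : (K : ℝ) * |((ev a x : ℤ) : ℝ)| ≤ A * (ρ * B) ^ 2 := by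
    refine (mul_le_mul_of_nonneg_left e4 hK0.le).trans (le_of_eq ?_)
    rw [he]
    field_simp
  have e6 : (ρ * B) ^ 2 ≤ ((x o : ℤ) : ℝ) ^ 2 :=
    pow_le_pow_left₀ (mul_pos hρ hB0).le ho 2
  have e7 : (K : ℝ) * |((ev a x : ℤ) : ℝ)| ≤ A * ((x o : ℤ) : ℝ) ^ 2 :=
    e5.trans (mul_le_mul_of_nonneg_left e6 hA0.le)
  exact_mod_cast e7

private theorem CN_Cnt_card {n : ℕ} (i j : Fin (n + 1)) (hij : i ≠ j) (hn : 1 ≤ n)
    (S : Fin (n + 1) → Finset ℤ) (r : ℝ) (hr : 0 ≤ r) (hS : ∀ l, r ≤ ((S l).card : ℝ)) :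
    r ^ (n - 1) ≤
      ((Fintype.piFinset fun l => if l = i ∨ l = j then {0} else S l).card : ℝ) := by
  rw [Fintype.card_piFinset]
  push_cast
  have h1 : ∏ l, (((if l = i ∨ l = j then ({0} : Finset ℤ) else S l).card : ℕ) : ℝ) =
      ∏ l ∈ (Finset.univ.erase i).erase j, ((S l).card : ℝ) := by
    rw [← Finset.prod_subset (Finset.subset_univ ((Finset.univ.erase i).erase j))]
    · refine Finset.prod_congr rfl fun l hl => ?_
      rw [Finset.mem_erase, Finset.mem_erase] at hl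
      rw [if_neg (by rintro (h | h); exacts [hl.2.1 h, hl.1 h])]
    · intro l _ hl
      have h2 : l = i ∨ l = j := by
        by_contra hcon
        push Not at hcon
        exact hl (Finset.mem_erase.2 ⟨hcon.2, Finset.mem_erase.2 ⟨hcon.1, Finset.mem_univ _⟩⟩)
      rw [if_pos h2, Finset.card_singleton, Nat.cast_one]
  rw [h1]
  have h3 : ((Finset.univ.erase i).erase j).card = n - 1 := by
    rw [Finset.card_erase_of_mem (Finset.mem_erase.2 ⟨hij.symm, Finset.mem_univ _⟩),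
      Finset.card_erase_of_mem (Finset.mem_univ _), Finset.card_univ, Fintype.card_fin]
    omega
  rw [← h3, ← Finset.prod_const]
  exact Finset.prod_le_prod (fun _ _ => hr) fun l _ => hS l

theorem cnt (n : ℕ) (hn : 1 ≤ n) (o i j : Fin (n + 1)) (hij : i ≠ j) (ρ : ℝ) (hρ : 0 < ρ)
    (hρ1 : ρ ≤ 1) (q : ℕ) (hq : 1 ≤ ρ * q) (K W B A : ℕ) (hK : 1 ≤ K) (hW : 1 ≤ W)
    (hB : (K : ℝ) * W ≤ ρ ^ 2 / (2 * (n + 1) ^ 2) * B) (hA : 1 ≤ A)
    (a b : Mt n ℤ) (ha : a ∈ Box n A) (hb : b ∈ Box n A)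
    (h : Rob o i j ρ (fun s t => (a s t : ℝ) / A) (fun s t => (b s t : ℝ) / A)) (x0 : Vc n ℤ) :
    ρ ^ (n - 1) * (ρ ^ 2 / (2 * (n + 1) ^ 2)) ^ 2 * (B : ℝ) ^ (n + 1) / (K ^ 2 * W ^ (n + 1)) ≤
      (((VBox n B).filter fun x => (∀ l, (W : ℤ) ∣ x l - x0 l) ∧ (B : ℤ) ≤ q * x o ∧
        (K : ℤ) * |ev a x| ≤ A * (x o) ^ 2 ∧ (K : ℤ) * |ev b x| ≤ A * (x o) ^ 2).card : ℝ) := by
  have hK1 : (1 : ℝ) ≤ K := by exact_mod_cast hK
  have hK0 : (0 : ℝ) < K := lt_of_lt_of_le one_pos hK1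
  have hW1 : (1 : ℝ) ≤ W := by exact_mod_cast hW
  have hW0 : (0 : ℝ) < W := lt_of_lt_of_le one_pos hW1
  have hn1 : (1 : ℝ) ≤ ((n : ℝ) + 1) ^ 2 := by
    have : (0 : ℝ) ≤ n := Nat.cast_nonneg n
    nlinarith
  obtain ⟨dl, hdl⟩ : ∃ dl : ℝ, dl = ρ ^ 2 / (2 * (n + 1) ^ 2) := ⟨_, rfl⟩
  have hdl0 : 0 < dl := by rw [hdl]; positivity
  have hdlρ : 2 * dl ≤ ρ := by
    rw [hdl, ← mul_div_assoc, div_le_iff₀ (by positivity)]
    nlinarith [mul_le_mul_of_nonneg_left hn1 hρ.le]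
  have hBpos : (0 : ℝ) < B := by
    rw [← hdl] at hB
    by_contra hcon
    have h1 : (B : ℝ) = 0 := le_antisymm (not_lt.1 hcon) (Nat.cast_nonneg B)
    rw [h1, mul_zero] at hB
    nlinarith
  rw [← hdl] at hB ⊢
  obtain ⟨ξ, hξ⟩ := h
  have hWr : (W : ℝ) ≤ ρ * B := by nlinarith
  have hWd : (W : ℝ) ≤ dl * B / K := by
    rw [le_div_iff₀ hK0]
    linarith
  have hS1 : ∀ l, ∃ S : Finset ℤ, (∀ z ∈ S, |(z : ℝ) - B * ξ l| ≤ ρ * B ∧ (W : ℤ) ∣ z - x0 l) ∧
      ρ * B / W ≤ (S.card : ℝ) := fun l => clsLow (B * ξ l) (ρ * B) W (x0 l) hW hWr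
  choose S hS hSc using hS1
  obtain ⟨T, hT⟩ : ∃ T : Finset (Vc n ℤ),
      T = Fintype.piFinset fun l => if l = i ∨ l = j then {0} else S l := ⟨_, rfl⟩
  have hTc : (ρ * B / W) ^ (n - 1) ≤ (T.card : ℝ) := by
    rw [hT]
    exact CN_Cnt_card i j hij hn S _ (by positivity) hSc
  have hTi : ∀ y ∈ T, y i = 0 := by
    intro y hy
    rw [hT, Fintype.mem_piFinset] at hy
    have := hy i
    rw [if_pos (Or.inl rfl)] at this
    exact Finset.mem_singleton.1 this
  have hTj : ∀ y ∈ T, y j = 0 := by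
    intro y hy
    rw [hT, Fintype.mem_piFinset] at hy
    have := hy j
    rw [if_pos (Or.inr rfl)] at this
    exact Finset.mem_singleton.1 this
  have hTl : ∀ y ∈ T, ∀ l, l ≠ i → l ≠ j → y l ∈ S l := by
    intro y hy l h1 h2
    rw [hT, Fintype.mem_piFinset] at hy
    have := hy l
    rwa [if_neg (by rintro (h | h); exacts [h1 h, h2 h])] at this
  have hs1 : ∀ y : Vc n ℤ, y ∈ T → ∃ s : Vc n ℝ, (∀ l, l ≠ i → l ≠ j → s l = (y l : ℝ) / B) ∧
      (∀ l, |s l| ≤ 1 / 2) ∧ 2 * ρ ≤ s o ∧ ev (fun s t => (a s t : ℝ) / A) s = 0 ∧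
      ev (fun s t => (b s t : ℝ) / A) s = 0 := by
    intro y hy
    obtain ⟨s, h1, h2⟩ := hξ (fun l => if l = i ∨ l = j then ξ l else (y l : ℝ) / B) (by
      intro l
      by_cases hl : l = i ∨ l = j
      · simp only [if_pos hl, sub_self, abs_zero]
        exact hρ.le
      · simp only [if_neg hl]
        have h3 : l ≠ i := fun h => hl (Or.inl h)
        have h4 : l ≠ j := fun h => hl (Or.inr h)
        have h5 := (hS l (y l) (hTl y hy l h3 h4)).1
        have h6 : (y l : ℝ) / B - ξ l = ((y l : ℝ) - B * ξ l) / B := by field_simp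
        rw [h6, abs_div, abs_of_pos hBpos, div_le_iff₀ hBpos]
        exact h5)
    refine ⟨s, fun l h3 h4 => ?_, h2⟩
    rw [h1 l h3 h4]
    exact if_neg (by rintro (h | h); exacts [h3 h, h4 h])
  choose! s hs using hs1
  have hSi : ∀ y : Vc n ℤ, ∃ S : Finset ℤ,
      (∀ z ∈ S, |(z : ℝ) - B * s y i| ≤ dl * B / K ∧ (W : ℤ) ∣ z - x0 i) ∧
      dl * B / K / W ≤ (S.card : ℝ) := fun y => clsLow (B * s y i) (dl * B / K) W (x0 i) hW hWd
  have hSj : ∀ y : Vc n ℤ, ∃ S : Finset ℤ,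
      (∀ z ∈ S, |(z : ℝ) - B * s y j| ≤ dl * B / K ∧ (W : ℤ) ∣ z - x0 j) ∧
      dl * B / K / W ≤ (S.card : ℝ) := fun y => clsLow (B * s y j) (dl * B / K) W (x0 j) hW hWd
  choose Si hSi hSic using hSi
  choose Sj hSj hSjc using hSj
  obtain ⟨D, hD⟩ : ∃ D : Finset (Σ _ : Vc n ℤ, ℤ × ℤ), D = T.sigma fun y => Si y ×ˢ Sj y :=
    ⟨_, rfl⟩
  have hDc : (ρ * B / W) ^ (n - 1) * (dl * B / K / W) ^ 2 ≤ (D.card : ℝ) := by
    rw [hD, Finset.card_sigma]
    push_cast
    have h1 : ∀ y ∈ T, (dl * B / K / W) ^ 2 ≤ ((Si y ×ˢ Sj y).card : ℝ) := by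
      intro y _
      rw [Finset.card_product, sq]
      push_cast
      exact mul_le_mul (hSic y) (hSjc y) (by positivity) (Nat.cast_nonneg _)
    calc (ρ * B / W) ^ (n - 1) * (dl * B / K / W) ^ 2 ≤ (T.card : ℝ) * (dl * B / K / W) ^ 2 :=
          mul_le_mul_of_nonneg_right hTc (by positivity)
      _ = ∑ _y ∈ T, (dl * B / K / W) ^ 2 := by rw [Finset.sum_const, nsmul_eq_mul]
      _ ≤ _ := Finset.sum_le_sum h1
  have hL : ρ ^ (n - 1) * dl ^ 2 * (B : ℝ) ^ (n + 1) / (K ^ 2 * W ^ (n + 1)) =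
      (ρ * B / W) ^ (n - 1) * (dl * B / K / W) ^ 2 := by
    obtain ⟨m, rfl⟩ : ∃ m, n = m + 1 := ⟨n - 1, by omega⟩
    rw [Nat.add_sub_cancel]
    rw [div_pow, mul_pow]
    field_simp
    ring
  rw [hL]
  refine hDc.trans ?_
  rw [Nat.cast_le]
  refine Finset.card_le_card_of_injOn
    (fun t => Function.update (Function.update t.1 i t.2.1) j t.2.2) ?_ ?_
  · rintro ⟨y, z, z'⟩ ht
    rw [hD, Finset.mem_coe, Finset.mem_sigma, Finset.mem_product] at ht
    obtain ⟨hy, hz, hz'⟩ := ht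
    have hy' : y ∈ T := hy
    obtain ⟨g1, g2, g3, g4, g5⟩ := hs y hy'
    obtain ⟨x, hx⟩ : ∃ x : Vc n ℤ, x = Function.update (Function.update y i z) j z' := ⟨_, rfl⟩
    have xj : x j = z' := by rw [hx, Function.update_self]
    have xi : x i = z := by
      rw [hx, Function.update_of_ne hij, Function.update_self]
    have xl : ∀ l, l ≠ i → l ≠ j → x l = y l := by
      intro l h1 h2
      rw [hx, Function.update_of_ne h2, Function.update_of_ne h1]
    have hdB : 0 ≤ dl * B / K := by positivity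
    have f1 : ∀ l, |(x l : ℝ) - B * s y l| ≤ dl * B / K := by
      intro l
      by_cases h1 : l = j
      · rw [h1, xj]
        exact (hSj y z' hz').1
      · by_cases h2 : l = i
        · rw [h2, xi]
          exact (hSi y z hz).1
        · rw [xl l h2 h1, g1 l h2 h1]
          have h3 : (y l : ℝ) - B * ((y l : ℝ) / B) = 0 := by
            field_simp
            ring
          rw [h3, abs_zero]
          exact hdB
    have f2 : ∀ l, (W : ℤ) ∣ x l - x0 l := by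
      intro l
      by_cases h1 : l = j
      · rw [h1, xj]
        exact (hSj y z' hz').2
      · by_cases h2 : l = i
        · rw [h2, xi]
          exact (hSi y z hz).2
        · rw [xl l h2 h1]
          exact (hS l (y l) (hTl y hy' l h2 h1)).2
    have f3 : dl * B / K ≤ B / 2 := by
      rw [div_le_iff₀ hK0]
      have h1 : dl ≤ 1 / 2 := by linarith
      nlinarith [mul_le_mul_of_nonneg_right h1 hBpos.le]
    have f3' : dl * B / K ≤ ρ * B := by
      rw [div_le_iff₀ hK0]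
      have h1 : dl ≤ ρ := by linarith
      nlinarith [mul_le_mul_of_nonneg_right h1 hBpos.le, mul_pos hρ hBpos]
    have f4 : ∀ l, |(x l : ℝ)| ≤ B := by
      intro l
      have h1 := f1 l
      have h2 := g2 l
      have h3 : |(B : ℝ) * s y l| ≤ B / 2 := by
        rw [abs_mul, abs_of_pos hBpos]
        nlinarith
      have h4 : (x l : ℝ) = ((x l : ℝ) - B * s y l) + B * s y l := by ring
      rw [h4]
      refine (abs_add_le _ _).trans ?_
      linarith
    have f5 : ρ * B ≤ (x o : ℝ) := by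
      have h1 := (abs_le.1 (f1 o)).1
      have h2 : 2 * ρ * B ≤ s y o * B := mul_le_mul_of_nonneg_right g3 hBpos.le
      linarith
    have f6 : (B : ℤ) ≤ q * x o := by
      have h1 : (B : ℝ) ≤ q * (x o : ℝ) := by
        have h2 : (q : ℝ) * (ρ * B) ≤ q * (x o : ℝ) :=
          mul_le_mul_of_nonneg_left f5 (Nat.cast_nonneg _)
        nlinarith
      exact_mod_cast h1
    show Function.update (Function.update y i z) j z' ∈ _
    rw [← hx, Finset.mem_coe, Finset.mem_filter]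
    rw [hdl] at f1
    refine ⟨mem_VBox.2 fun l => ?_, f2, f6,
      CN_Cnt_ev A B K hA hK ρ hρ hBpos a ha x (s y) f4 g2 f1 g4 o f5,
      CN_Cnt_ev A B K hA hK ρ hρ hBpos b hb x (s y) f4 g2 f1 g5 o f5⟩
    have h1 := f4 l
    exact_mod_cast h1
  · rintro ⟨y, z, z'⟩ ht ⟨y1, z1, z1'⟩ ht1 heq
    rw [hD, Finset.mem_coe, Finset.mem_sigma] at ht ht1
    have hy : y ∈ T := ht.1
    have hy1 : y1 ∈ T := ht1.1
    have heq' : Function.update (Function.update y i z) j z' =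
        Function.update (Function.update y1 i z1) j z1' := heq
    have k1 : z' = z1' := by
      have := congrFun heq' j
      rwa [Function.update_self, Function.update_self] at this
    have k2 : z = z1 := by
      have := congrFun heq' i
      rwa [Function.update_of_ne hij, Function.update_of_ne hij, Function.update_self,
        Function.update_self] at this
    have k3 : y = y1 := by
      funext l
      by_cases h1 : l = j
      · rw [h1, hTj y hy, hTj y1 hy1]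
      · by_cases h2 : l = i
        · rw [h2, hTi y hy, hTi y1 hy1]
        · have := congrFun heq' l
          rwa [Function.update_of_ne h1, Function.update_of_ne h1, Function.update_of_ne h2,
            Function.update_of_ne h2] at this
    subst k1 k2 k3
    rfl

end Pool.Agent.Lib.MP_219881_nt
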