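import Pool.Agent.Lib.MP_219881_nt.CN_Cnt
import Pool.Agent.Lib.MP_219881_nt.CN_Np
import Pool.Agent.Lib.MP_219881_nt.HG_Bad

/-!
JOB CN_Low.  Lower bound for the local prediction (paper section 8).

`muUp`: `MS W K A o x` is a set of integers `m`, `|m| ≤ A (x o)^2 / K ≤ A B^2 / K`, divisible by `W`: at most `2 A B^2/(K W) + 1 ≤ 3 A B^2/(K W)` elements (`K W ≤ A B^2`; `clsUp` with
`B := A B^2 / K` natural division, or directly). It contains `0`, so its cardinality is positive.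

`low`: `c1 = ρ^(n-1) (ρ^2/(2(n+1)^2))^2`, `C` the constant of `badX`; `c = c1/18`. Given `K`, let `w0` be such that `4^(n+1)/w ≤ c1/(4K^2)` for `w ≥ w0`, `w0 ≥ 1`. Given `w`, `η` put `W = WW w` (`≥ 1`). `B = g^(3n+1)`,
`H = g^5`, `L = g^3`. For large `g` (`badX` hypotheses): `1 ≤ L ≤ H`, `2^(n+1) g^3 ≤ g^(3n+1)` (`g ≥ 2^(n+1)`, `3n+1 ≥ 4`), `3^n (n+1) g^(3n+1) ≤ g^5 g^(3(n-1)) = g^(3n+2)` (`g ≥ 3^n (n+1)`); `K W ≤ dl B`; `K W ≤ B`;
`2^(n+1) B ≤ c1/(4K^2) B^(n+1)/W^(n+1)`; and `K^2 W^2 C/(9 g) ≤ η`.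
Let `Z` be the finite set of unimodular common zeros mod `W` of the pair, `sm W .. = Z.card` (`Nat.card` of a subtype of a finite type). Choose integer representatives `x0(z)` of `z ∈ Z` (e.g. `ZMod.val`).
For `z ∈ Z` let `X_z` be the set of `cnt` for `x0(z)` and `Y_z` the set of `nonPrim`. If `x ∈ X_z` and `x ∉ Y_z` and `x` is `H`-good then `x ≠ 0` (`q x_o ≥ B ≥ 1`), `Uni x`, `x ∈ GG B H q o`, and `Loc` holds for `a`, `b`
(`W ∣ ev a x` because `x ≡ x0(z)` and `z` is a zero: cast to `ZMod W`, `ev_cm`). The sets `X_z` are disjoint (residue class mod `W`). So the number of `x ∈ GG` with both `Loc` is at least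
`∑_z (X_z.card - Y_z.card) - #{x ∈ VBox n B not H-good} ≥ sm * (c1 B^(n+1)/(K^2 W^(n+1)) - (4B/W)^(n+1)/w - 2^(n+1) B) - C B^n L^n ≥ sm * c1 B^(n+1)/(2 K^2 W^(n+1)) - C B^(n+1)/g`
(`B^n L^n = g^((3n+1) n + 3n) = B^(n+1)/g`). Each term of `Ll` is at least `(K W/(3 A B^2))^2` (`muUp`), so
`Ll ≥ (K W)^2/(9 A^2 B^4) * (that) = B^(n+1)/(A^2 B^4) * (c1 sm W^2/(18 W^(n+1)) - K^2 W^2 C/(9g))`. (If the bracket is negative the inequality is still correct: multiply the lower bound for the number by a positive factor.)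
-/

namespace Pool.Agent.Lib.MP_219881_nt

open Classical

theorem muUp (n : ℕ) (W K A B : ℕ) (o : Fin (n + 1)) (hW : 1 ≤ W) (hK : 1 ≤ K) (hB : K * W ≤ A * B ^ 2)
    (x : Vc n ℤ) (hx : x ∈ VBox n B) :
    0 < ((MS W K A o x).card : ℝ) ∧ ((MS W K A o x).card : ℝ) ≤ 3 * A * B ^ 2 / (K * W) := by
  have hx' := mem_VBox.mp hx o
  have hsq : (x o) ^ 2 ≤ (B : ℤ) ^ 2 := by
    rw [← sq_abs (x o)]
    exact pow_le_pow_left₀ (abs_nonneg _) hx' 2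
  constructor
  · have h0 : (0 : ℤ) ∈ MS W K A o x := by
      unfold MS
      rw [Finset.mem_filter, Finset.mem_Icc]
      have h1 : (0 : ℤ) ≤ A * (x o) ^ 2 := by positivity
      refine ⟨⟨by linarith, h1⟩, dvd_zero _, ?_⟩
      rw [abs_zero, mul_zero]
      exact h1
    exact_mod_cast Finset.card_pos.mpr ⟨0, h0⟩
  · have h1 := clsUp (A * B ^ 2 / K) W 0 hW (MS W K A o x) (by
      intro z hz
      unfold MS at hz
      rw [Finset.mem_filter] at hz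
      obtain ⟨_, hd, hk⟩ := hz
      refine ⟨?_, by rw [sub_zero]; exact hd⟩
      have h2 : ((A * B ^ 2 / K : ℕ) : ℤ) = ((A : ℤ) * (B : ℤ) ^ 2) / (K : ℤ) := by
        push_cast; rfl
      rw [h2, Int.le_ediv_iff_mul_le (by exact_mod_cast hK)]
      have h3 : (A : ℤ) * (x o) ^ 2 ≤ A * (B : ℤ) ^ 2 :=
        mul_le_mul_of_nonneg_left hsq (by positivity)
      linarith [mul_comm (K : ℤ) |z|])
    have hKp : (0 : ℝ) < K := by exact_mod_cast hK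
    have hWp : (0 : ℝ) < W := by exact_mod_cast hW
    have h4 : ((A * B ^ 2 / K : ℕ) : ℝ) ≤ (A * B ^ 2 : ℝ) / K := by
      have h5 := @Nat.cast_div_le ℝ _ _ _ (A * B ^ 2) K
      push_cast at h5
      exact h5
    have h6 : (1 : ℝ) ≤ (A * B ^ 2 : ℝ) / (K * W) := by
      rw [le_div_iff₀ (by positivity)]
      rw [one_mul]
      exact_mod_cast hB
    calc ((MS W K A o x).card : ℝ) ≤ 2 * ((A * B ^ 2 / K : ℕ) : ℝ) / W + 1 := h1
      _ ≤ 2 * ((A * B ^ 2 : ℝ) / K) / W + (A * B ^ 2 : ℝ) / (K * W) := by gcongr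
      _ = 3 * A * B ^ 2 / (K * W) := by field_simp; ring

theorem CN_Low_count (n : ℕ) (hn : 1 ≤ n) (ρ : ℝ) (hρ : 0 < ρ) (hρ1 : ρ ≤ 1) (q : ℕ)
    (hq : 1 ≤ ρ * q) (K : ℕ) (hK : 1 ≤ K) (w : ℕ) (hw : 1 ≤ w) (B H : ℕ) (hB1 : 1 ≤ B)
    (hWp : 1 ≤ WW w)
    (hB : (K : ℝ) * (WW w : ℝ) ≤ ρ ^ 2 / (2 * (n + 1) ^ 2) * B) (A : ℕ) (hA : 1 ≤ A)
    (a b : Mt n ℤ) (ha : a ∈ Box n A) (hb : b ∈ Box n A) (o i j : Fin (n + 1)) (hij : i ≠ j)
    (h : Rob o i j ρ (fun s t => (a s t : ℝ) / A) (fun s t => (b s t : ℝ) / A)) :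
    (sm (WW w) (cm (ZMod (WW w)) a) (cm (ZMod (WW w)) b) : ℝ) *
      (ρ ^ (n - 1) * (ρ ^ 2 / (2 * (n + 1) ^ 2)) ^ 2 * (B : ℝ) ^ (n + 1) /
        (K ^ 2 * (WW w : ℝ) ^ (n + 1)) -
        ((4 * B / (WW w : ℝ)) ^ (n + 1) / w + 2 ^ (n + 1) * B)) ≤
      (((GG B H q o).filter (fun x => Loc (WW w) K A o a x ∧ Loc (WW w) K A o b x)).card : ℝ) +
        (((VBox n B).filter fun x => ¬ HGood H x).card : ℝ) := by
  have hne : NeZero (WW w) := ⟨by omega⟩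
  have hcv : ∀ z : Vc n (ZMod (WW w)), cv (ZMod (WW w)) (fun l => ((z l).val : ℤ)) = z := by
    intro z
    funext l
    show (((z l).val : ℤ) : ZMod (WW w)) = z l
    rw [Int.cast_natCast, ZMod.natCast_zmod_val]
  have hcong : ∀ (x : Vc n ℤ) (z : Vc n (ZMod (WW w))),
      (∀ l, ((WW w : ℕ) : ℤ) ∣ x l - ((z l).val : ℤ)) → cv (ZMod (WW w)) x = z := by
    intro x z hx
    funext l
    show ((x l : ℤ) : ZMod (WW w)) = z l
    have h1 := (ZMod.intCast_zmod_eq_zero_iff_dvd (x l - ((z l).val : ℤ)) (WW w)).mpr (hx l)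
    rw [Int.cast_sub, Int.cast_natCast, ZMod.natCast_zmod_val] at h1
    exact sub_eq_zero.mp h1
  have hsm : sm (WW w) (cm (ZMod (WW w)) a) (cm (ZMod (WW w)) b) =
      (Finset.univ.filter (fun z : Vc n (ZMod (WW w)) => Uni z ∧
        ev (cm (ZMod (WW w)) a) z = 0 ∧ ev (cm (ZMod (WW w)) b) z = 0)).card := by
    unfold sm
    rw [Nat.card_eq_fintype_card, Fintype.card_subtype]
  have hdvd : ∀ (c : Mt n ℤ) (x : Vc n ℤ),
      ev (cm (ZMod (WW w)) c) (cv (ZMod (WW w)) x) = 0 → ((WW w : ℕ) : ℤ) ∣ ev c x := by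
    intro c x hc
    rw [ev_cm] at hc
    exact (ZMod.intCast_zmod_eq_zero_iff_dvd _ _).mp hc
  let X : Vc n (ZMod (WW w)) → Finset (Vc n ℤ) := fun z =>
    (VBox n B).filter fun x => (∀ l, ((WW w : ℕ) : ℤ) ∣ x l - ((z l).val : ℤ)) ∧
      (B : ℤ) ≤ q * x o ∧ (K : ℤ) * |ev a x| ≤ A * (x o) ^ 2 ∧ (K : ℤ) * |ev b x| ≤ A * (x o) ^ 2
  let Y : Vc n (ZMod (WW w)) → Finset (Vc n ℤ) := fun z =>
    (VBox n B).filter fun x => (∀ l, ((WW w : ℕ) : ℤ) ∣ x l - ((z l).val : ℤ)) ∧ x ≠ 0 ∧ ¬ Uni x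
  have hdisj : ∀ z ∈ Finset.univ.filter (fun z : Vc n (ZMod (WW w)) => Uni z ∧
        ev (cm (ZMod (WW w)) a) z = 0 ∧ ev (cm (ZMod (WW w)) b) z = 0),
      ∀ z' ∈ Finset.univ.filter (fun z : Vc n (ZMod (WW w)) => Uni z ∧
        ev (cm (ZMod (WW w)) a) z = 0 ∧ ev (cm (ZMod (WW w)) b) z = 0),
      z ≠ z' → Disjoint (X z \ Y z) (X z' \ Y z') := by
    intro z _ z' _ hzz
    rw [Finset.disjoint_left]
    intro x hx hx'
    have h1 := (Finset.mem_filter.mp (Finset.mem_sdiff.mp hx).1).2.1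
    have h2 := (Finset.mem_filter.mp (Finset.mem_sdiff.mp hx').1).2.1
    exact hzz ((hcong x z h1).symm.trans (hcong x z' h2))
  have hsub : (Finset.univ.filter (fun z : Vc n (ZMod (WW w)) => Uni z ∧
        ev (cm (ZMod (WW w)) a) z = 0 ∧ ev (cm (ZMod (WW w)) b) z = 0)).biUnion
        (fun z => X z \ Y z) ⊆
      ((GG B H q o).filter (fun x => Loc (WW w) K A o a x ∧ Loc (WW w) K A o b x)) ∪
        ((VBox n B).filter fun x => ¬ HGood H x) := by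
    intro x hx
    obtain ⟨z, hz, hxz⟩ := Finset.mem_biUnion.mp hx
    obtain ⟨hxX, hxY⟩ := Finset.mem_sdiff.mp hxz
    obtain ⟨hV, hcl, hpo, hka, hkb⟩ := Finset.mem_filter.mp hxX
    obtain ⟨_, _, hza, hzb⟩ := Finset.mem_filter.mp hz
    rw [Finset.mem_union]
    by_cases hg : HGood H x
    · left
      have hx0 : x ≠ 0 := by
        intro h0
        rw [h0, Pi.zero_apply, mul_zero] at hpo
        have h1 : (1 : ℤ) ≤ B := by exact_mod_cast hB1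
        linarith
      have hU : Uni x := by
        by_contra hU
        exact hxY (Finset.mem_filter.mpr ⟨hV, hcl, hx0, hU⟩)
      have hcx := hcong x z hcl
      rw [← hcx] at hza hzb
      refine Finset.mem_filter.mpr ⟨?_, ⟨hdvd a x hza, hka⟩, ⟨hdvd b x hzb, hkb⟩⟩
      unfold GG
      exact Finset.mem_filter.mpr ⟨hV, hpo, hU, hg⟩
    · right
      exact Finset.mem_filter.mpr ⟨hV, hg⟩
  have hcard : ∑ z ∈ Finset.univ.filter (fun z : Vc n (ZMod (WW w)) => Uni z ∧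
        ev (cm (ZMod (WW w)) a) z = 0 ∧ ev (cm (ZMod (WW w)) b) z = 0),
        (((X z \ Y z).card : ℕ) : ℝ) ≤
      (((GG B H q o).filter (fun x => Loc (WW w) K A o a x ∧ Loc (WW w) K A o b x)).card : ℝ) +
        (((VBox n B).filter fun x => ¬ HGood H x).card : ℝ) := by
    have h1 := (Finset.card_le_card hsub).trans (Finset.card_union_le _ _)
    rw [Finset.card_biUnion hdisj] at h1
    exact_mod_cast h1
  refine le_trans ?_ hcard
  rw [hsm, ← nsmul_eq_mul]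
  refine Finset.card_nsmul_le_sum _ _ _ ?_
  intro z hz
  obtain ⟨_, hzU, _, _⟩ := Finset.mem_filter.mp hz
  have h1 := cnt n hn o i j hij ρ hρ hρ1 q hq K (WW w) B A hK hWp hB hA a b ha hb h
    (fun l => ((z l).val : ℤ))
  have h2 := nonPrim n w B hn hw (fun l => ((z l).val : ℤ)) (by rw [hcv z]; exact hzU)
  have h3 : ((X z).card : ℝ) ≤ ((X z \ Y z).card : ℝ) + ((Y z).card : ℝ) := by
    have h4 : (X z).card ≤ (X z \ Y z).card + (Y z).card := by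
      have h5 := Finset.le_card_sdiff (Y z) (X z)
      omega
    exact_mod_cast h4
  have h6 : ρ ^ (n - 1) * (ρ ^ 2 / (2 * (n + 1) ^ 2)) ^ 2 * (B : ℝ) ^ (n + 1) /
        (K ^ 2 * (WW w : ℝ) ^ (n + 1)) ≤ ((X z).card : ℝ) := h1
  have h7 : ((Y z).card : ℝ) ≤ (4 * B / (WW w : ℝ)) ^ (n + 1) / w + 2 ^ (n + 1) * B := h2
  linarith

theorem low (n : ℕ) (hn : 5 ≤ n) (ρ : ℝ) (hρ : 0 < ρ) (hρ1 : ρ ≤ 1) (q : ℕ) (hq : 1 ≤ ρ * q) :
    ∃ c : ℝ, 0 < c ∧ ∀ K : ℕ, 1 ≤ K → ∃ w0 : ℕ, ∀ w ≥ w0, ∀ η : ℝ, 0 < η → ∃ g0 : ℕ, ∀ g ≥ g0,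
      ∀ B H : ℕ, B = g ^ (3 * n + 1) → H = g ^ 5 → ∀ A : ℕ, 1 ≤ A →
      ∀ a ∈ Box n A, ∀ b ∈ Box n A, ∀ o i j : Fin (n + 1), i ≠ j →
        Rob o i j ρ (fun s t => (a s t : ℝ) / A) (fun s t => (b s t : ℝ) / A) →
        ((B : ℝ) ^ (n + 1) / (A ^ 2 * B ^ 4)) *
          (c * ((sm (WW w) (cm (ZMod (WW w)) a) (cm (ZMod (WW w)) b) : ℝ) * (WW w : ℝ) ^ 2 /
            (WW w : ℝ) ^ (n + 1)) - η) ≤ Ll B H q o (WW w) K A a b := by
  obtain ⟨C, hC, hbad⟩ := badX n (by omega)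
  have hdl : (0 : ℝ) < ρ ^ 2 / (2 * (n + 1) ^ 2) := by positivity
  have hc1 : (0 : ℝ) < ρ ^ (n - 1) * (ρ ^ 2 / (2 * (n + 1) ^ 2)) ^ 2 := by positivity
  have hdl1 : ρ ^ 2 / (2 * ((n : ℝ) + 1) ^ 2) ≤ 1 := by
    rw [div_le_one (by positivity)]
    have h1 : ρ ^ 2 ≤ 1 := pow_le_one₀ hρ.le hρ1
    have h2 : (0 : ℝ) ≤ n := Nat.cast_nonneg _
    nlinarith
  refine ⟨ρ ^ (n - 1) * (ρ ^ 2 / (2 * (n + 1) ^ 2)) ^ 2 / 18, by positivity, ?_⟩
  generalize hc1e : ρ ^ (n - 1) * (ρ ^ 2 / (2 * ((n : ℝ) + 1) ^ 2)) ^ 2 = c1 at hc1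
  generalize hdle : ρ ^ 2 / (2 * ((n : ℝ) + 1) ^ 2) = dl at hdl hdl1
  intro K hK
  have hKp : (0 : ℝ) < K := by exact_mod_cast hK
  refine ⟨max 1 ⌈4 ^ (n + 1) * (4 * K ^ 2) / c1⌉₊, ?_⟩
  intro w hw η hη
  have hw1 : 1 ≤ w := (le_max_left _ _).trans hw
  have hw2 : 4 ^ (n + 1) * (4 * K ^ 2) / c1 ≤ (w : ℝ) :=
    (Nat.le_ceil _).trans (by exact_mod_cast (le_max_right _ _).trans hw)
  have hwp : (0 : ℝ) < w := by exact_mod_cast hw1
  have hWn : 1 ≤ WW w := by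
    unfold WW
    refine Finset.one_le_prod' ?_
    intro p hp
    exact Nat.one_le_iff_ne_zero.mpr (pow_ne_zero _ (Finset.mem_filter.mp hp).2.ne_zero)
  have hWp : (0 : ℝ) < (WW w : ℝ) := by exact_mod_cast hWn
  refine ⟨max (max (max 1 (2 ^ (n + 1))) (3 ^ n * (n + 1)))
    (max (max ⌈(K : ℝ) * (WW w : ℝ) / dl⌉₊ ⌈2 ^ (n + 1) * (WW w : ℝ) ^ (n + 1) * (4 * K ^ 2) / c1⌉₊)
      ⌈(K : ℝ) ^ 2 * (WW w : ℝ) ^ 2 * C / (9 * η)⌉₊), ?_⟩
  intro g hg B H hBg hHg A hA a ha b hb o i j hij hR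
  have hg1 : 1 ≤ g := le_trans (le_trans (le_trans (le_max_left _ _) (le_max_left _ _)) (le_max_left _ _)) hg
  have hg2 : 2 ^ (n + 1) ≤ g :=
    le_trans (le_trans (le_trans (le_max_right _ _) (le_max_left _ _)) (le_max_left _ _)) hg
  have hg3 : 3 ^ n * (n + 1) ≤ g := le_trans (le_trans (le_max_right _ _) (le_max_left _ _)) hg
  have hg4 : (K : ℝ) * (WW w : ℝ) / dl ≤ (g : ℝ) :=
    (Nat.le_ceil _).trans (by
      exact_mod_cast le_trans (le_trans (le_trans (le_max_left _ _) (le_max_left _ _)) (le_max_right _ _)) hg)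
  have hg5 : 2 ^ (n + 1) * (WW w : ℝ) ^ (n + 1) * (4 * K ^ 2) / c1 ≤ (g : ℝ) :=
    (Nat.le_ceil _).trans (by
      exact_mod_cast le_trans (le_trans (le_trans (le_max_right _ _) (le_max_left _ _)) (le_max_right _ _)) hg)
  have hg6 : (K : ℝ) ^ 2 * (WW w : ℝ) ^ 2 * C / (9 * η) ≤ (g : ℝ) :=
    (Nat.le_ceil _).trans (by
      exact_mod_cast le_trans (le_trans (le_max_right _ _) (le_max_right _ _)) hg)
  have hgp : (0 : ℝ) < g := by exact_mod_cast hg1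
  have hgB : g ≤ B := by
    rw [hBg]
    calc g = g ^ 1 := (pow_one g).symm
      _ ≤ g ^ (3 * n + 1) := Nat.pow_le_pow_right hg1 (by omega)
  have hB1 : 1 ≤ B := hg1.trans hgB
  have hBp : (0 : ℝ) < B := by exact_mod_cast hB1
  have hAp : (0 : ℝ) < A := by exact_mod_cast hA
  have hgB' : (g : ℝ) ≤ B := by exact_mod_cast hgB
  have hKW : (K : ℝ) * (WW w : ℝ) ≤ dl * B := by
    rw [div_le_iff₀ hdl] at hg4
    nlinarith
  have hKWA : K * WW w ≤ A * B ^ 2 := by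
    have h1 : (K : ℝ) * (WW w : ℝ) ≤ A * (B : ℝ) ^ 2 := by
      have h2 : dl * B ≤ 1 * B := mul_le_mul_of_nonneg_right hdl1 hBp.le
      have h3 : (1 : ℝ) ≤ B := by exact_mod_cast hB1
      have h4 : (1 : ℝ) ≤ A := by exact_mod_cast hA
      have h5 : (B : ℝ) ≤ B ^ 2 := by nlinarith
      have h6 : (B : ℝ) ^ 2 ≤ A * B ^ 2 := by nlinarith
      linarith
    exact_mod_cast h1
  have hbd := hbad B H (g ^ 3) (Nat.one_le_pow _ _ hg1)
    (by rw [hHg]; exact Nat.pow_le_pow_right hg1 (by norm_num))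
    (by
      rw [hBg]
      calc 2 ^ (n + 1) * g ^ 3 ≤ g * g ^ 3 := Nat.mul_le_mul_right _ hg2
        _ = g ^ 4 := by ring
        _ ≤ g ^ (3 * n + 1) := Nat.pow_le_pow_right hg1 (by omega))
    (by
      rw [hBg, hHg]
      calc 3 ^ n * (n + 1) * g ^ (3 * n + 1) ≤ g * g ^ (3 * n + 1) := Nat.mul_le_mul_right _ hg3
        _ = g ^ 5 * (g ^ 3) ^ (n - 1) := by
          rw [← pow_mul, ← pow_add, ← pow_succ']
          congr 1
          omega)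
  have hcount := CN_Low_count n (by omega) ρ hρ hρ1 q hq K hK w hw1 B H hB1 hWn
    (by rw [hdle]; exact hKW) A hA a b ha hb o i j hij hR
  rw [hc1e] at hcount
  generalize (sm (WW w) (cm (ZMod (WW w)) a) (cm (ZMod (WW w)) b) : ℕ) = s at hcount
  -- the number of good points
  have hL0 : (((GG B H q o).filter
      (fun x => Loc (WW w) K A o a x ∧ Loc (WW w) K A o b x)).card : ℝ) *
      ((K * (WW w : ℝ)) / (3 * A * B ^ 2)) ^ 2 ≤ Ll B H q o (WW w) K A a b := by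
    unfold Ll
    rw [← nsmul_eq_mul]
    refine Finset.card_nsmul_le_sum _ _ _ ?_
    intro x hx
    have hxV : x ∈ VBox n B := (Finset.mem_filter.mp (Finset.mem_filter.mp hx).1).1
    obtain ⟨h1, h2⟩ := muUp n (WW w) K A B o hWn hK hKWA x hxV
    have h3 : (K * (WW w : ℝ)) / (3 * A * B ^ 2) ≤ 1 / ((MS (WW w) K A o x).card : ℝ) := by
      rw [le_div_iff₀ h1]
      calc (K * (WW w : ℝ)) / (3 * A * B ^ 2) * ((MS (WW w) K A o x).card : ℝ) ≤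
            (K * (WW w : ℝ)) / (3 * A * B ^ 2) * (3 * A * B ^ 2 / (K * (WW w : ℝ))) :=
            mul_le_mul_of_nonneg_left h2 (by positivity)
        _ = 1 := by field_simp
    exact pow_le_pow_left₀ (by positivity) h3 2
  refine le_trans ?_ hL0
  generalize (((GG B H q o).filter
      (fun x => Loc (WW w) K A o a x ∧ Loc (WW w) K A o b x)).card : ℝ) = P at hcount
  have hbd' : (((VBox n B).filter fun x => ¬ HGood H x).card : ℝ) ≤
      C * ((B : ℝ) ^ (n + 1) / g) := by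
    refine hbd.trans (le_of_eq ?_)
    have h1 : (B : ℝ) ^ n * ((g ^ 3 : ℕ) : ℝ) ^ n * g = (B : ℝ) ^ (n + 1) := by
      rw [hBg]
      push_cast
      rw [← pow_mul, ← pow_mul, ← pow_mul, ← pow_add, ← pow_succ]
      exact congrArg (fun e => (g : ℝ) ^ e) (by ring)
    rw [← h1]
    field_simp
  generalize (((VBox n B).filter fun x => ¬ HGood H x).card : ℝ) = D at hcount hbd'
  generalize hWe : (WW w : ℝ) = W at *
  have hE : (0 : ℝ) < (B : ℝ) ^ (n + 1) := by positivity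
  -- per class
  have hcls : c1 * (B : ℝ) ^ (n + 1) / (2 * (K ^ 2 * W ^ (n + 1))) ≤
      c1 * (B : ℝ) ^ (n + 1) / (K ^ 2 * W ^ (n + 1)) -
        ((4 * B / W) ^ (n + 1) / w + 2 ^ (n + 1) * B) := by
    have h1 : (4 * (B : ℝ) / W) ^ (n + 1) / w ≤
        c1 * (B : ℝ) ^ (n + 1) / (4 * (K ^ 2 * W ^ (n + 1))) := by
      rw [div_le_iff₀ hwp]
      have h2 : 4 ^ (n + 1) * (4 * (K : ℝ) ^ 2) ≤ c1 * w := by
        rw [div_le_iff₀ hc1] at hw2
        linarith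
      rw [div_pow, mul_pow]
      rw [div_mul_eq_mul_div, div_le_div_iff₀ (by positivity) (by positivity)]
      calc 4 ^ (n + 1) * (B : ℝ) ^ (n + 1) * (4 * (K ^ 2 * W ^ (n + 1))) =
            (4 ^ (n + 1) * (4 * (K : ℝ) ^ 2)) * ((B : ℝ) ^ (n + 1) * W ^ (n + 1)) := by ring
        _ ≤ (c1 * w) * ((B : ℝ) ^ (n + 1) * W ^ (n + 1)) := by gcongr
        _ = c1 * (B : ℝ) ^ (n + 1) * w * W ^ (n + 1) := by ring
    have h3 : 2 ^ (n + 1) * (B : ℝ) ≤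
        c1 * (B : ℝ) ^ (n + 1) / (4 * (K ^ 2 * W ^ (n + 1))) := by
      rw [le_div_iff₀ (by positivity)]
      rw [div_le_iff₀ hc1] at hg5
      have h4 : (g : ℝ) ≤ (B : ℝ) ^ n := by
        refine hgB'.trans ?_
        have h5 : (1 : ℝ) ≤ B := by exact_mod_cast hB1
        calc (B : ℝ) = B ^ 1 := (pow_one _).symm
          _ ≤ B ^ n := pow_le_pow_right₀ h5 (by omega)
      calc 2 ^ (n + 1) * (B : ℝ) * (4 * (K ^ 2 * W ^ (n + 1))) =
            (2 ^ (n + 1) * W ^ (n + 1) * (4 * (K : ℝ) ^ 2)) * B := by ring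
        _ ≤ (g * c1) * B := by gcongr
        _ ≤ ((B : ℝ) ^ n * c1) * B := by gcongr
        _ = c1 * (B : ℝ) ^ (n + 1) := by ring
    have h5 : c1 * (B : ℝ) ^ (n + 1) / (K ^ 2 * W ^ (n + 1)) =
        c1 * (B : ℝ) ^ (n + 1) / (2 * (K ^ 2 * W ^ (n + 1))) +
        (c1 * (B : ℝ) ^ (n + 1) / (4 * (K ^ 2 * W ^ (n + 1))) +
        c1 * (B : ℝ) ^ (n + 1) / (4 * (K ^ 2 * W ^ (n + 1)))) := by
      field_simp
      ring
    rw [h5]
    linarith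
  have hs0 : (0 : ℝ) ≤ s := Nat.cast_nonneg _
  have hP : (s : ℝ) * (c1 * (B : ℝ) ^ (n + 1) / (2 * (K ^ 2 * W ^ (n + 1)))) -
      C * ((B : ℝ) ^ (n + 1) / g) ≤ P := by
    have h1 := mul_le_mul_of_nonneg_left hcls hs0
    linarith
  have hη' : (K : ℝ) ^ 2 * W ^ 2 * C / (9 * g) ≤ η := by
    rw [div_le_iff₀ (by positivity)] at hg6
    rw [div_le_iff₀ (by positivity)]
    linarith
  calc (B : ℝ) ^ (n + 1) / (A ^ 2 * B ^ 4) *
        (c1 / 18 * ((s : ℝ) * W ^ 2 / W ^ (n + 1)) - η) ≤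
        (B : ℝ) ^ (n + 1) / (A ^ 2 * B ^ 4) *
        (c1 / 18 * ((s : ℝ) * W ^ 2 / W ^ (n + 1)) - (K : ℝ) ^ 2 * W ^ 2 * C / (9 * g)) := by
        gcongr
    _ = ((s : ℝ) * (c1 * (B : ℝ) ^ (n + 1) / (2 * (K ^ 2 * W ^ (n + 1)))) -
      C * ((B : ℝ) ^ (n + 1) / g)) * ((K * W) / (3 * A * B ^ 2)) ^ 2 := by
        field_simp
        ring
    _ ≤ P * ((K * W) / (3 * A * B ^ 2)) ^ 2 := by gcongr

end Pool.Agent.Lib.MP_219881_nt
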