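import Pool.Agent.Lib.MP_219881_nt.Cover

/-!
JOB CoverC.  The two instances of `cover` which are used.
(Cubic version with proof: /team-store/MP_1ad228_ntC_CoverC.lean; adapt it.)
-/

namespace Pool.Agent.Lib.MP_219881_nt

open Classical

private def CoverC_S1 {n : ℕ} (x : Vc n ℤ) : AddSubgroup (Mt n ℤ) where
  carrier := {a | ev a x = 0}
  zero_mem' := ev_zero x
  add_mem' := by
    intro a b ha hb
    have ha' : ev a x = 0 := ha
    have hb' : ev b x = 0 := hb
    show ev (a + b) x = 0
    rw [ev_add, ha', hb', add_zero]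
  neg_mem' := by
    intro a ha
    have ha' : ev a x = 0 := ha
    show ev (-a) x = 0
    rw [ev_neg, ha', neg_zero]

theorem cover1 {n : ℕ} (x : Vc n ℤ) (m : ℤ) (M X : ℕ) (hM : 1 ≤ M) :
    ((Box n (M * X)).filter fun a => ev a x = m).card ≤ (2 * M) ^ (n + 1) ^ 2 * n1 x X := by
  by_cases hne : ((Box n (M * X)).filter fun a => ev a x = m).Nonempty
  · obtain ⟨a0, ha0⟩ := hne
    have h0 : ev a0 x = m := (Finset.mem_filter.mp ha0).2
    refine (Finset.card_le_card ?_).trans ((cover (CoverC_S1 x) a0 M X hM).trans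
      (Nat.mul_le_mul_left _ (Finset.card_le_card ?_)))
    · intro a ha
      rw [Finset.mem_filter] at ha ⊢
      refine ⟨ha.1, ?_⟩
      show ev (a - a0) x = 0
      rw [ev_sub, ha.2, h0, sub_self]
    · intro a ha
      rw [Finset.mem_filter] at ha ⊢
      exact ha
  · rw [Finset.not_nonempty_iff_eq_empty] at hne
    rw [hne, Finset.card_empty]
    exact Nat.zero_le _

theorem cover2 {n : ℕ} (x y : Vc n ℤ) (m m' : ℤ) (M X : ℕ) (hM : 1 ≤ M) :
    ((Box n (M * X)).filter fun a => ev a x = m ∧ ev a y = m').card ≤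
      (2 * M) ^ (n + 1) ^ 2 * n2 x y X := by
  by_cases hne : ((Box n (M * X)).filter fun a => ev a x = m ∧ ev a y = m').Nonempty
  · obtain ⟨a0, ha0⟩ := hne
    have h0 : ev a0 x = m ∧ ev a0 y = m' := (Finset.mem_filter.mp ha0).2
    refine (Finset.card_le_card ?_).trans ((cover (CoverC_S1 x ⊓ CoverC_S1 y) a0 M X hM).trans
      (Nat.mul_le_mul_left _ (Finset.card_le_card ?_)))
    · intro a ha
      rw [Finset.mem_filter] at ha ⊢
      refine ⟨ha.1, ?_, ?_⟩
      · show ev (a - a0) x = 0
        rw [ev_sub, ha.2.1, h0.1, sub_self]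
      · show ev (a - a0) y = 0
        rw [ev_sub, ha.2.2, h0.2, sub_self]
    · intro a ha
      rw [Finset.mem_filter] at ha ⊢
      exact ha
  · rw [Finset.not_nonempty_iff_eq_empty] at hne
    rw [hne, Finset.card_empty]
    exact Nat.zero_le _

end Pool.Agent.Lib.MP_219881_nt
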