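import Mathlib

/-!
MP_219881_nt (two quadrics in projective space of dimension n at least 5).  Definitions.
Paper: team-store PAPER_MP_219881_nt.md
-/

namespace Pool.Agent.Lib.MP_219881_nt

open Classical

/-- Square matrices of size `n + 1`. -/
abbrev Mt (n : ℕ) (R : Type*) := Fin (n + 1) → Fin (n + 1) → R

/-- Vectors with `n + 1` coordinates. -/
abbrev Vc (n : ℕ) (R : Type*) := Fin (n + 1) → R

/-- Value of the quadratic form of the matrix `a` at `x`. -/
def ev {n : ℕ} {R : Type*} [CommRing R] (a : Mt n R) (x : Vc n R) : R :=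
  ∑ i, ∑ j, a i j * (x i * x j)

/-- Linear form with coefficients `u`. -/
def lin {n : ℕ} {R : Type*} [CommRing R] (u x : Vc n R) : R := ∑ i, u i * x i

/-- Product matrix. -/
def ten {n : ℕ} {R : Type*} [CommRing R] (u v : Vc n R) : Mt n R := fun i j => u i * v j

/-- Partial derivative (direction `j`) of the quadratic form at `x`. -/
def dev {n : ℕ} {R : Type*} [CommRing R] (a : Mt n R) (x : Vc n R) (j : Fin (n + 1)) : R :=
  ∑ k, (a j k + a k j) * x k

/-- Cast of integer matrices. -/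
def cm {n : ℕ} (R : Type*) [CommRing R] (a : Mt n ℤ) : Mt n R := fun i j => (a i j : R)

/-- Cast of integer vectors. -/
def cv {n : ℕ} (R : Type*) [CommRing R] (x : Vc n ℤ) : Vc n R := fun i => (x i : R)

/-- Unimodular vectors. -/
def Uni {n : ℕ} {R : Type*} [CommRing R] (x : Vc n R) : Prop := ∃ u : Vc n R, lin u x = 1

/-- Integer matrices with all entries in `[-X, X]`. -/
noncomputable def Box (n X : ℕ) : Finset (Mt n ℤ) :=
  Fintype.piFinset fun _ => Fintype.piFinset fun _ => Finset.Icc (-(X : ℤ)) (X : ℤ)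

/-- Integer vectors with all entries in `[-X, X]`. -/
noncomputable def VBox (n X : ℕ) : Finset (Vc n ℤ) :=
  Fintype.piFinset fun _ => Finset.Icc (-(X : ℤ)) (X : ℤ)

/-- Sup norm of an integer matrix. -/
def tn {n : ℕ} (a : Mt n ℤ) : ℕ :=
  Finset.univ.sup fun i => Finset.univ.sup fun j => (a i j).natAbs

/-- Weight function. -/
noncomputable def psi {n : ℕ} (A : ℕ) (a : Mt n ℤ) : ℝ := max 0 (1 - (tn a : ℝ) / (2 * A))

/-- 2 x 2 minors of `(x, y)`. -/
def mn {n : ℕ} {R : Type*} [CommRing R] (x y : Vc n R) (i j : Fin (n + 1)) : R :=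
  x i * y j - x j * y i

/-- Largest minor containing the pivot coordinate `o`. -/
def Del {n : ℕ} (o : Fin (n + 1)) (x y : Vc n ℤ) : ℕ :=
  Finset.univ.sup fun j => (mn x y o j).natAbs

/-- gcd of all minors. -/
def Dd {n : ℕ} (x y : Vc n ℤ) : ℕ :=
  Finset.univ.gcd fun i : Fin (n + 1) => Finset.univ.gcd fun j : Fin (n + 1) =>
    (mn x y i j).natAbs

/-- `x` is `H`-good: `n` independent integer vectors of size at most `H` orthogonal to `x`. -/
def HGood {n : ℕ} (H : ℕ) (x : Vc n ℤ) : Prop :=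
  ∃ f : Fin n → Vc n ℤ, LinearIndependent ℤ f ∧ (∀ s, lin (f s) x = 0) ∧
    ∀ s i, |f s i| ≤ (H : ℤ)

/-- The set of test points (size at most `B`, pivot coordinate `o` at least `B / q`). -/
noncomputable def GG {n : ℕ} (B H q : ℕ) (o : Fin (n + 1)) : Finset (Vc n ℤ) :=
  (VBox n B).filter fun x => ((B : ℤ) ≤ q * x o ∧ Uni x ∧ HGood H x)

/-- Number of matrices in the box vanishing at `x`. -/
noncomputable def n1 {n : ℕ} (x : Vc n ℤ) (X : ℕ) : ℕ :=
  ((Box n X).filter fun a => ev a x = 0).card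

/-- Number of matrices in the box vanishing at `x` and at `y`. -/
noncomputable def n2 {n : ℕ} (x y : Vc n ℤ) (X : ℕ) : ℕ :=
  ((Box n X).filter fun a => ev a x = 0 ∧ ev a y = 0).card

/-- Weighted slices. -/
noncomputable def sl {n : ℕ} (A : ℕ) (x y : Vc n ℤ) (m m' : ℤ) : ℝ :=
  ∑ a ∈ (Box n (2 * A)).filter (fun a => ev a x = m ∧ ev a y = m'), psi A a

/-- The local condition of the matrix `a` at `x`. -/
def Loc {n : ℕ} (W K A : ℕ) (o : Fin (n + 1)) (a : Mt n ℤ) (x : Vc n ℤ) : Prop :=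
  (W : ℤ) ∣ ev a x ∧ (K : ℤ) * |ev a x| ≤ A * (x o) ^ 2

/-- The set of values allowed by the local condition at `x`. -/
noncomputable def MS {n : ℕ} (W K A : ℕ) (o : Fin (n + 1)) (x : Vc n ℤ) : Finset ℤ :=
  (Finset.Icc (-(A * (x o) ^ 2)) (A * (x o) ^ 2)).filter fun m =>
    ((W : ℤ) ∣ m ∧ (K : ℤ) * |m| ≤ A * (x o) ^ 2)

/-- Number of test points on the intersection. -/
noncomputable def Nn {n : ℕ} (B H q : ℕ) (o : Fin (n + 1)) (a b : Mt n ℤ) : ℕ :=
  ((GG B H q o).filter fun x => ev a x = 0 ∧ ev b x = 0).card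

/-- Local prediction. -/
noncomputable def Ll {n : ℕ} (B H q : ℕ) (o : Fin (n + 1)) (W K A : ℕ) (a b : Mt n ℤ) : ℝ :=
  ∑ x ∈ (GG B H q o).filter (fun x => Loc W K A o a x ∧ Loc W K A o b x),
    (1 / ((MS W K A o x).card : ℝ)) ^ 2

/-- The weighted variance. -/
noncomputable def Qvar {n : ℕ} (B H q : ℕ) (o : Fin (n + 1)) (W K A : ℕ) : ℝ :=
  ∑ a ∈ Box n (2 * A), ∑ b ∈ Box n (2 * A), psi A a * psi A b *
    ((Nn B H q o a b : ℝ) - Ll B H q o W K A a b) ^ 2

/-- Contribution of a pair of points to the variance. -/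
noncomputable def EE {n : ℕ} (o : Fin (n + 1)) (W K A : ℕ) (x y : Vc n ℤ) : ℝ :=
  (sl A x y 0 0) ^ 2
    - ((1 / ((MS W K A o x).card : ℝ)) * ∑ m ∈ MS W K A o x, sl A x y m 0) ^ 2
    - ((1 / ((MS W K A o y).card : ℝ)) * ∑ m' ∈ MS W K A o y, sl A x y 0 m') ^ 2
    + ((1 / ((MS W K A o x).card : ℝ)) * (1 / ((MS W K A o y).card : ℝ)) *
        ∑ m ∈ MS W K A o x, ∑ m' ∈ MS W K A o y, sl A x y m m') ^ 2

/-- Number of unimodular common zeros modulo `m` of two matrices over `ZMod m`. -/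
noncomputable def sm {n : ℕ} (m : ℕ) (a b : Mt n (ZMod m)) : ℕ :=
  Nat.card {x : Vc n (ZMod m) // Uni x ∧ ev a x = 0 ∧ ev b x = 0}

/-- Pairs over `ZMod m` with a singular unimodular common zero (some coordinate normalised to 1;
one of `(1, t)`, `(t, 1)` is the vector of the degenerate combination of the gradients). -/
def Exc {n : ℕ} (m : ℕ) (a b : Mt n (ZMod m)) : Prop :=
  ∃ (x : Vc n (ZMod m)) (i : Fin (n + 1)) (t : ZMod m), x i = 1 ∧ ev a x = 0 ∧ ev b x = 0 ∧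
    ((∀ j, j ≠ i → dev a x j + t * dev b x j = 0) ∨
      (∀ j, j ≠ i → t * dev a x j + dev b x j = 0))

/-- The modulus `W` attached to `w`: every `m ≤ w` divides it. -/
def WW (w : ℕ) : ℕ := ∏ p ∈ (Finset.range (w + 1)).filter Nat.Prime, p ^ w

/-- Common nonzero zero over all `p`-adic fields. -/
def PSol {n : ℕ} (a b : Mt n ℤ) : Prop :=
  ∀ (p : ℕ) [Fact p.Prime], ∃ x : Vc n ℚ_[p], x ≠ 0 ∧ ev (cm ℚ_[p] a) x = 0 ∧
    ev (cm ℚ_[p] b) x = 0

/-- Common nonzero real zero. -/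
def RSol {n : ℕ} (a b : Mt n ℤ) : Prop :=
  ∃ x : Vc n ℝ, x ≠ 0 ∧ ev (cm ℝ a) x = 0 ∧ ev (cm ℝ b) x = 0

/-- Robust real solubility of the pair of real matrices `(α, β)`, with pivot `o` and solved
coordinates `i, j`. -/
def Rob {n : ℕ} (o i j : Fin (n + 1)) (ρ : ℝ) (α β : Mt n ℝ) : Prop :=
  ∃ ξ : Vc n ℝ, ∀ y : Vc n ℝ, (∀ l, |y l - ξ l| ≤ ρ) →
    ∃ s : Vc n ℝ, (∀ l, l ≠ i → l ≠ j → s l = y l) ∧ (∀ l, |s l| ≤ 1 / 2) ∧ 2 * ρ ≤ s o ∧
      ev α s = 0 ∧ ev β s = 0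

end Pool.Agent.Lib.MP_219881_nt
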