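import Pool.Agent.Lib.MP_219881_nt.LL
import Pool.Agent.Lib.MP_219881_nt.GGfacts

/-!
JOB Near.  Short integer matrices with small prescribed values (paper section 3).
(Cubic version with proof: /team-store/MP_1ad228_ntC_Near.lean; adapt it.)

PROOF.  `D = Dd x y` divides `W`, hence `m` and `m'`. An integer matrix with values `(m, m')`: with
`lin v y = 1` the matrix `m' • ten v v` has value `m'` at `y` and `m' (lin v x)^2` (divisible by `D`) at `x`;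
add a multiple of the matrix of `valD x y` (value 0 at `y`, `D` at `x`) to get the value `m` at `x`.
Rational matrix: `j` as in `exists_Del` (`Del_pos`), `Δ = mn x y o j`, `|Δ| = Del o x y`, and linear forms
`p = (y_j e_o - y_o e_j)/Δ`, `r = (-x_j e_o + x_o e_j)/Δ` (`p(x)=1, p(y)=0, r(x)=0, r(y)=1`);
`b = (m/x_o) p⊗e_o + (m'/y_o) r⊗e_o`: values `m` at `x`, `m'` at `y`. Entries:
`k^2 |m| ≤ A x_o^2`, so `|m|/x_o ≤ A x_o/k^2 ≤ A B/k^2`, and `|p| ≤ B/Del`, so each of the two terms is at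
most `A B^2/(k^2 Del)`, the sum is at most `2 A B^2/(k^2 Del) ≤ 2A/k` (`B^2 ≤ k Del`).
`LL2`: entries of `a0` at most `2A/k + 2 n^2 H^2 ≤ 2A/k + A/(4k) ≤ 3A/k`.
`k * tn a0 ≤ 3 * A`: `tn a0` is the maximum of the absolute values of the entries (`tn_le` with
`X = 3*A/k`, natural division, `Nat.le_div_iff_mul_le`).
-/

namespace Pool.Agent.Lib.MP_219881_nt

open Classical

private theorem Near_int {n : ℕ} (x y : Vc n ℤ) (hx : Uni x) (hy : Uni y) (m m' : ℤ)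
    (h : (Dd x y : ℤ) ∣ m) (h' : (Dd x y : ℤ) ∣ m') : ∃ a : Mt n ℤ, ev a x = m ∧ ev a y = m' := by
  obtain ⟨v, hv⟩ := hy
  obtain ⟨aD, h0, h1⟩ := valD x y hx
  obtain ⟨t, ht⟩ := dvd_sub h (h'.mul_right ((lin v x) ^ 2))
  refine ⟨m' • ten v v + t • aD, ?_, ?_⟩
  · rw [ev_add, ev_smul', ev_smul', ev_ten, h1]
    linear_combination -ht
  · rw [ev_add, ev_smul', ev_smul', ev_ten, h0, hv]
    ring

private theorem Near_lin2 {n : ℕ} (o j : Fin (n + 1)) (c d Δ : ℚ) (z : Vc n ℚ) :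
    lin (fun i : Fin (n + 1) => ((if i = o then c else 0) + (if i = j then d else 0)) / Δ) z
      = (c * z o + d * z j) / Δ := by
  unfold lin
  have e1 : ∀ i : Fin (n + 1), ((if i = o then c else 0) + (if i = j then d else 0)) / Δ * z i
      = (if i = o then c * z i / Δ else 0) + (if i = j then d * z i / Δ else 0) := by
    intro i
    split_ifs <;> ring
  rw [Finset.sum_congr rfl (fun i _ => e1 i), Finset.sum_add_distrib, Finset.sum_ite_eq',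
    Finset.sum_ite_eq']
  simp only [Finset.mem_univ, if_true]
  ring

private theorem Near_bd2 {n : ℕ} (o j : Fin (n + 1)) (hj : j ≠ o) (c d Δ G : ℚ) (hΔ : 0 < |Δ|)
    (hG : 0 ≤ G) (hc : |c| ≤ G) (hd : |d| ≤ G) (i : Fin (n + 1)) :
    |((if i = o then c else 0) + (if i = j then d else 0)) / Δ| ≤ G / |Δ| := by
  rw [abs_div]
  apply div_le_div_of_nonneg_right _ hΔ.le
  by_cases h1 : i = o
  · have h2 : i ≠ j := by
      rw [h1]
      exact hj.symm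
    rw [if_pos h1, if_neg h2, add_zero]
    exact hc
  · rw [if_neg h1, zero_add]
    by_cases h2 : i = j
    · rw [if_pos h2]
      exact hd
    · rw [if_neg h2, abs_zero]
      exact hG

private theorem Near_single {n : ℕ} (o i : Fin (n + 1)) : |(Pi.single o 1 : Vc n ℚ) i| ≤ 1 := by
  rw [Pi.single_apply]
  split_ifs <;> simp

private theorem Near_term {B k A : ℕ} (hk : 1 ≤ k) {D : ℚ} (hD : 0 < D)
    (hgD : (B : ℚ) ^ 2 ≤ k * D) {m x1 : ℤ} (hx1 : 0 < x1) (hxg : x1 ≤ (B : ℤ))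
    (hm : (k : ℤ) ^ 2 * |m| ≤ A * x1 ^ 2) {P : ℚ} (hP0 : 0 ≤ P)
    (hP : P ≤ (B : ℚ) / D) : |(m : ℚ) / (x1 : ℚ)| * P ≤ A / k := by
  have hk0 : (0 : ℚ) < k := by exact_mod_cast hk
  have hx0 : (0 : ℚ) < x1 := by exact_mod_cast hx1
  have hxg' : (x1 : ℚ) ≤ (B : ℚ) := by exact_mod_cast hxg
  have hm' : (k : ℚ) ^ 2 * |(m : ℚ)| ≤ A * (x1 : ℚ) ^ 2 := by exact_mod_cast hm
  have hA0 : (0 : ℚ) ≤ A := Nat.cast_nonneg _
  have hg0 : (0 : ℚ) ≤ (B : ℚ) := by positivity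
  have h1 : |(m : ℚ) / (x1 : ℚ)| ≤ A * (B : ℚ) / (k : ℚ) ^ 2 := by
    rw [abs_div, abs_of_pos hx0, div_le_div_iff₀ hx0 (pow_pos hk0 2)]
    calc |(m : ℚ)| * (k : ℚ) ^ 2 = (k : ℚ) ^ 2 * |(m : ℚ)| := by ring
      _ ≤ A * (x1 : ℚ) ^ 2 := hm'
      _ = A * x1 * (x1 : ℚ) := by ring
      _ ≤ A * (B : ℚ) * (x1 : ℚ) := by gcongr
  have h2 : |(m : ℚ) / (x1 : ℚ)| * P ≤ A * (B : ℚ) / (k : ℚ) ^ 2 * ((B : ℚ) / D) :=
    mul_le_mul h1 hP hP0 (by positivity)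
  refine h2.trans ?_
  rw [div_mul_div_comm, div_le_div_iff₀ (by positivity) hk0]
  calc (A : ℚ) * (B : ℚ) * (B : ℚ) * k = A * k * (B : ℚ) ^ 2 := by ring
    _ ≤ A * k * (k * D) := by gcongr
    _ = A * ((k : ℚ) ^ 2 * D) := by ring

theorem near {n : ℕ} (B H q : ℕ) (o : Fin (n + 1)) (k A W : ℕ) (hB : 1 ≤ B) (hk : 1 ≤ k)
    (hA : 8 * n ^ 2 * H ^ 2 * k ≤ A) (x y : Vc n ℤ) (hx : x ∈ GG B H q o)
    (hy : y ∈ GG B H q o) (hxy : x ≠ y) (hD : Dd x y ∣ W) (hΔ : B ^ 2 ≤ k * Del o x y)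
    (m m' : ℤ) (hm : m ∈ MS W (k ^ 2) A o x) (hm' : m' ∈ MS W (k ^ 2) A o y) :
    ∃ a0 : Mt n ℤ, ev a0 x = m ∧ ev a0 y = m' ∧ k * tn a0 ≤ 3 * A := by
  have hDel := Del_pos hB hx hy hxy
  obtain ⟨j, hj1, hj0, hjD⟩ := exists_Del o x y hDel
  have hxU := GG_uni hx
  have hyU := GG_uni hy
  have hx1 := GG_pos hB hx
  have hy1 := GG_pos hB hy
  unfold MS at hm hm'
  rw [Finset.mem_filter] at hm hm'
  obtain ⟨-, hmW, hmK⟩ := hm
  obtain ⟨-, hmW', hmK'⟩ := hm'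
  have hDW : (Dd x y : ℤ) ∣ (W : ℤ) := by exact_mod_cast hD
  obtain ⟨a, hax, hay⟩ := Near_int x y hxU hyU m m' (hDW.trans hmW) (hDW.trans hmW')
  have hk0 : (0 : ℚ) < k := by exact_mod_cast hk
  have hDel0 : (0 : ℚ) < (Del o x y : ℚ) := by exact_mod_cast hDel
  set Δ : ℚ := ((mn x y o j : ℤ) : ℚ) with hΔdef
  have hΔabs : |Δ| = (Del o x y : ℚ) := by
    rw [hΔdef, ← Int.cast_abs, hjD, Int.cast_natCast]
  have hΔ0 : Δ ≠ 0 := by
    intro h
    rw [h, abs_zero] at hΔabs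
    linarith
  have hΔe : Δ = (x o : ℚ) * y j - x j * y o := by
    rw [hΔdef]
    unfold mn
    push_cast
    ring
  have hgD : (B : ℚ) ^ 2 ≤ k * (Del o x y : ℚ) := by exact_mod_cast hΔ
  have hxb : ∀ i, |(x i : ℚ)| ≤ (B : ℚ) := by
    intro i
    have h1 := GG_le hx i
    rw [← Int.cast_abs]
    exact_mod_cast h1
  have hyb : ∀ i, |(y i : ℚ)| ≤ (B : ℚ) := by
    intro i
    have h1 := GG_le hy i
    rw [← Int.cast_abs]
    exact_mod_cast h1
  set P : Vc n ℚ := fun i : Fin (n + 1) =>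
    ((if i = o then (y j : ℚ) else 0) + (if i = j then -(y o : ℚ) else 0)) / Δ with hP
  set R : Vc n ℚ := fun i : Fin (n + 1) =>
    ((if i = o then -(x j : ℚ) else 0) + (if i = j then (x o : ℚ) else 0)) / Δ with hR
  have hPx : lin P (cv ℚ x) = 1 := by
    rw [hP, Near_lin2 o j, div_eq_one_iff_eq hΔ0, hΔe]
    simp only [cv]
    ring
  have hPy : lin P (cv ℚ y) = 0 := by
    rw [hP, Near_lin2 o j]
    simp only [cv]
    rw [div_eq_zero_iff]
    left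
    ring
  have hRx : lin R (cv ℚ x) = 0 := by
    rw [hR, Near_lin2 o j]
    simp only [cv]
    rw [div_eq_zero_iff]
    left
    ring
  have hRy : lin R (cv ℚ y) = 1 := by
    rw [hR, Near_lin2 o j, div_eq_one_iff_eq hΔ0, hΔe]
    simp only [cv]
    ring
  have hG0 : (0 : ℚ) ≤ (B : ℚ) := by positivity
  have hPb : ∀ i, |P i| ≤ (B : ℚ) / (Del o x y : ℚ) := by
    intro i
    rw [← hΔabs]
    exact Near_bd2 o j hj1 _ _ Δ _ (abs_pos.mpr hΔ0) hG0 (hyb j) (by rw [abs_neg]; exact hyb o) i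
  have hRb : ∀ i, |R i| ≤ (B : ℚ) / (Del o x y : ℚ) := by
    intro i
    rw [← hΔabs]
    exact Near_bd2 o j hj1 _ _ Δ _ (abs_pos.mpr hΔ0) hG0 (by rw [abs_neg]; exact hxb j) (hxb o) i
  set E : Vc n ℚ := Pi.single o 1 with hE
  have hEl : ∀ z : Vc n ℤ, lin E (cv ℚ z) = (z o : ℚ) := by
    intro z
    rw [hE, lin_single]
    rfl
  set b : Mt n ℚ := ((m : ℚ) / (x o : ℚ)) • ten P E + ((m' : ℚ) / (y o : ℚ)) • ten R E with hb
  have hx1q : (x o : ℚ) ≠ 0 := by exact_mod_cast hx1.ne'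
  have hy1q : (y o : ℚ) ≠ 0 := by exact_mod_cast hy1.ne'
  have hbx : ev b (cv ℚ x) = (m : ℚ) := by
    rw [hb, ev_add, ev_smul', ev_smul', ev_ten, ev_ten, hPx, hRx, hEl]
    field_simp
    ring
  have hby : ev b (cv ℚ y) = (m' : ℚ) := by
    rw [hb, ev_add, ev_smul', ev_smul', ev_ten, ev_ten, hPy, hRy, hEl]
    field_simp
    ring
  have hxg : x o ≤ (B : ℤ) := (le_abs_self _).trans (GG_le hx o)
  have hyg : y o ≤ (B : ℤ) := (le_abs_self _).trans (GG_le hy o)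
  have hmK1 : (k : ℤ) ^ 2 * |m| ≤ A * (x o) ^ 2 := by
    have h1 := hmK
    push_cast at h1
    exact h1
  have hmK2 : (k : ℤ) ^ 2 * |m'| ≤ A * (y o) ^ 2 := by
    have h1 := hmK'
    push_cast at h1
    exact h1
  have hbb : ∀ i i2, |b i i2| ≤ 2 * (A : ℚ) / k := by
    intro i i2
    have e1 : b i i2 = ((m : ℚ) / (x o : ℚ)) * (P i * E i2)
        + ((m' : ℚ) / (y o : ℚ)) * (R i * E i2) := rfl
    have hEE : |E i2| ≤ 1 := Near_single o i2
    have t1 : |P i * E i2| ≤ (B : ℚ) / (Del o x y : ℚ) := by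
      rw [abs_mul]
      calc |P i| * |E i2| ≤ |P i| * 1 := mul_le_mul_of_nonneg_left hEE (abs_nonneg _)
        _ ≤ _ := by rw [mul_one]; exact hPb i
    have t2 : |R i * E i2| ≤ (B : ℚ) / (Del o x y : ℚ) := by
      rw [abs_mul]
      calc |R i| * |E i2| ≤ |R i| * 1 := mul_le_mul_of_nonneg_left hEE (abs_nonneg _)
        _ ≤ _ := by rw [mul_one]; exact hRb i
    have u1 := Near_term (A := A) hk hDel0 hgD hx1 hxg hmK1 (abs_nonneg _) t1
    have u2 := Near_term (A := A) hk hDel0 hgD hy1 hyg hmK2 (abs_nonneg _) t2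
    rw [e1]
    refine (abs_add_le _ _).trans ?_
    rw [abs_mul, abs_mul ((m' : ℚ) / (y o : ℚ))]
    have e2 : 2 * (A : ℚ) / k = A / k + A / k := by ring
    rw [e2]
    exact add_le_add u1 u2
  obtain ⟨a', h1, h2, h3⟩ := LL2 H o x y ⟨j, hj0⟩ (GG_good hx) (GG_good hy) a b
    (2 * (A : ℚ) / k) hbb (by rw [hax, hbx]) (by rw [hay, hby])
  refine ⟨a', by rw [h1, hax], by rw [h2, hay], ?_⟩
  have h4 : tn a' ≤ 3 * A / k := by
    rw [tn_le]
    intro i i2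
    have h5 := h3 i i2
    have h6 : |a' i i2| = (((a' i i2).natAbs : ℕ) : ℤ) := (Int.natCast_natAbs _).symm
    rw [h6]
    have h7 : (a' i i2).natAbs ≤ 3 * A / k := by
      rw [Nat.le_div_iff_mul_le (by omega)]
      have h8 : ((a' i i2).natAbs : ℚ) = |(a' i i2 : ℚ)| := by
        rw [Nat.cast_natAbs, Int.cast_abs]
      have h9 : ((a' i i2).natAbs : ℚ) * k ≤ 3 * A := by
        rw [h8]
        have h10 : |(a' i i2 : ℚ)| * k ≤
            (2 * (A : ℚ) / k + 2 * (n : ℚ) ^ 2 * (H : ℚ) ^ 2) * k :=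
          mul_le_mul_of_nonneg_right h5 hk0.le
        have h11 : (2 * (A : ℚ) / k + 2 * (n : ℚ) ^ 2 * (H : ℚ) ^ 2) * k =
            2 * A + 2 * (n : ℚ) ^ 2 * (H : ℚ) ^ 2 * k := by
          field_simp
        have h12 : 8 * (n : ℚ) ^ 2 * (H : ℚ) ^ 2 * k ≤ A := by exact_mod_cast hA
        have h13 : (0 : ℚ) ≤ A := Nat.cast_nonneg _
        linarith
      exact_mod_cast h9
    exact_mod_cast h7
  calc k * tn a' ≤ k * (3 * A / k) := Nat.mul_le_mul_left _ h4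
    _ ≤ 3 * A := Nat.mul_div_le _ _

end Pool.Agent.Lib.MP_219881_nt
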