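import Pool.Agent.Lib.MP_219881_nt.EEle
import Pool.Agent.Lib.MP_219881_nt.Near

/-!
JOB EEgood.  Good pairs contribute little (paper sections 3, 4).
(Cubic version with proof: /team-store/MP_1ad228_ntC_EEgood.lean; adapt it.)

PROOF.  `V = (n+1)^2`, `ν = n2 x y A`, `S = sl A x y 0 0`, `C = 4^V ν`. If `k ≤ 2`: `EEle` gives
`|EE| ≤ 2*16^V*ν^2 ≤ (9/k)*24^V*ν^2`.
If `k ≥ 3`: for all `m ∈ MS W (k^2) A o x`, `m' ∈ MS W (k^2) A o y`, `near` gives `a0` with these values and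
`k * tn a0 ≤ 3A`, so `tn a0 ≤ A` and `tn a0/(2A) ≤ 3/(2k)`; by `sl_close`
`|sl A x y m m' - S| ≤ (3/(2k)) * 6^V * ν =: δ`. Since `x_o, y_o > 0`, `0 ∈ MS W (k^2) A o x` and
`0 ∈ MS W (k^2) A o y`: so the same holds for `sl A x y m 0`, `sl A x y 0 m'`, and the cardinalities are
positive, the averages `T, T', U` are true averages: `|T - S| ≤ δ`, `|T' - S| ≤ δ`, `|U - S| ≤ δ`, and all of
`S, T, T', U` are in `[0, C]`. Hence
`|EE| = |(S - T)(S + T) + (U - T')(U + T')| ≤ 2 C δ + 2 C * 2 δ = 6 C δ = (9/k) 24^V ν^2`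
(`4^V * 6^V = 24^V`). (`A ≥ 1` may be assumed: if `A = 0` then `n * H = 0`...: use the hypothesis `hA1`.)
-/

namespace Pool.Agent.Lib.MP_219881_nt

open Classical

private theorem EEgood_avg {ι : Type*} (s : Finset ι) (f : ι → ℝ) (S δ : ℝ) (hs : s.Nonempty)
    (h : ∀ m ∈ s, |f m - S| ≤ δ) : |(1 / (s.card : ℝ)) * ∑ m ∈ s, f m - S| ≤ δ := by
  have hc : (0 : ℝ) < (s.card : ℝ) := by exact_mod_cast hs.card_pos
  have h1 : (1 / (s.card : ℝ)) * ∑ m ∈ s, f m - S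
      = (1 / (s.card : ℝ)) * ∑ m ∈ s, (f m - S) := by
    rw [Finset.sum_sub_distrib, Finset.sum_const, nsmul_eq_mul]
    field_simp
  rw [h1, abs_mul, abs_of_pos (one_div_pos.mpr hc)]
  have h2 : |∑ m ∈ s, (f m - S)| ≤ (s.card : ℝ) * δ := by
    refine (Finset.abs_sum_le_sum_abs _ _).trans ?_
    calc ∑ m ∈ s, |f m - S| ≤ ∑ _m ∈ s, δ := Finset.sum_le_sum h
      _ = (s.card : ℝ) * δ := by rw [Finset.sum_const, nsmul_eq_mul]
  calc 1 / (s.card : ℝ) * |∑ m ∈ s, (f m - S)| ≤ 1 / (s.card : ℝ) * ((s.card : ℝ) * δ) := by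
        gcongr
    _ = δ := by field_simp

private theorem EEgood_zero_mem {n W K A : ℕ} {o : Fin (n + 1)} {x : Vc n ℤ} (h : 0 < x o) :
    (0 : ℤ) ∈ MS W K A o x := by
  have h0 : (0 : ℤ) ≤ (A : ℤ) * (x o) ^ 2 := by positivity
  simp only [MS, Finset.mem_filter, Finset.mem_Icc, dvd_zero, abs_zero, mul_zero, true_and]
  exact ⟨⟨by linarith, h0⟩, h0⟩

/-- the final estimate -/
private theorem EEgood_fin {S T T' U C δ : ℝ} (hS : 0 ≤ S) (hS' : S ≤ C)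
    (hT : |T - S| ≤ δ) (hT' : |T' - S| ≤ δ) (hU : |U - S| ≤ δ)
    (kT : |T - C / 2| ≤ C / 2) (kT' : |T' - C / 2| ≤ C / 2) (kU : |U - C / 2| ≤ C / 2) :
    |S ^ 2 - T ^ 2 - T' ^ 2 + U ^ 2| ≤ 6 * C * δ := by
  rw [abs_le] at kT kT' kU
  have hδ : 0 ≤ δ := (abs_nonneg _).trans hT
  have h1 : |S ^ 2 - T ^ 2| ≤ δ * (2 * C) := by
    have e : S ^ 2 - T ^ 2 = -((T - S) * (S + T)) := by ring
    rw [e, abs_neg, abs_mul]
    have h2 : |S + T| ≤ 2 * C := by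
      rw [abs_of_nonneg (by linarith)]
      linarith
    exact mul_le_mul hT h2 (abs_nonneg _) hδ
  have h3 : |U ^ 2 - T' ^ 2| ≤ (2 * δ) * (2 * C) := by
    have e : U ^ 2 - T' ^ 2 = (U - T') * (U + T') := by ring
    rw [e, abs_mul]
    have h2 : |U + T'| ≤ 2 * C := by
      rw [abs_of_nonneg (by linarith)]
      linarith
    have h4 : |U - T'| ≤ 2 * δ := by
      have e2 : U - T' = (U - S) - (T' - S) := by ring
      rw [e2]
      refine (abs_sub _ _).trans ?_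
      linarith
    exact mul_le_mul h4 h2 (abs_nonneg _) (by linarith)
  have e : S ^ 2 - T ^ 2 - T' ^ 2 + U ^ 2 = (S ^ 2 - T ^ 2) + (U ^ 2 - T' ^ 2) := by ring
  rw [e]
  refine (abs_add_le _ _).trans ?_
  linarith

theorem EEgood {n : ℕ} (B H q : ℕ) (o : Fin (n + 1)) (k A W : ℕ) (hB : 1 ≤ B) (hk : 1 ≤ k)
    (hA1 : 1 ≤ A) (hA : 8 * n ^ 2 * H ^ 2 * k ≤ A) (x y : Vc n ℤ) (hx : x ∈ GG B H q o)
    (hy : y ∈ GG B H q o) (hxy : x ≠ y) (hD : Dd x y ∣ W) (hΔ : B ^ 2 ≤ k * Del o x y) :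
    |EE o W (k ^ 2) A x y| ≤ 9 / (k : ℝ) * 24 ^ (n + 1) ^ 2 * (n2 x y A : ℝ) ^ 2 := by
  have hn : (0 : ℝ) ≤ (n2 x y A : ℝ) := Nat.cast_nonneg _
  have hk0 : (0 : ℝ) < (k : ℝ) := by exact_mod_cast hk
  by_cases hk2 : k ≤ 2
  · refine (EEle o W (k ^ 2) A x y).trans ?_
    have hk2' : (k : ℝ) ≤ 2 := by exact_mod_cast hk2
    have h5 : (2 : ℝ) ≤ 9 / (k : ℝ) := by
      rw [le_div_iff₀ hk0]
      linarith
    have h6 : (16 : ℝ) ^ (n + 1) ^ 2 ≤ 24 ^ (n + 1) ^ 2 :=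
      pow_le_pow_left₀ (by norm_num) (by norm_num) _
    gcongr
  · have hk3 : 3 ≤ k := by omega
    set S : ℝ := sl A x y 0 0 with hS
    set C : ℝ := 4 ^ (n + 1) ^ 2 * (n2 x y A : ℝ) with hC
    set δ : ℝ := 3 / (2 * (k : ℝ)) * (6 ^ (n + 1) ^ 2 * (n2 x y A : ℝ)) with hδ
    have hx1 := GG_pos hB hx
    have hy1 := GG_pos hB hy
    have key : ∀ m ∈ MS W (k ^ 2) A o x, ∀ m' ∈ MS W (k ^ 2) A o y,
        |sl A x y m m' - S| ≤ δ := by
      intro m hm m' hm'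
      obtain ⟨a0, h1, h2, h3⟩ := near B H q o k A W hB hk hA x y hx hy hxy hD hΔ m m' hm hm'
      have h4 : tn a0 ≤ A := by
        have : 3 * tn a0 ≤ k * tn a0 := Nat.mul_le_mul_right _ hk3
        omega
      have h5 := sl_close A hA1 x y a0 h4
      rw [h1, h2] at h5
      refine h5.trans ?_
      rw [hδ]
      have hAr : (0 : ℝ) < (A : ℝ) := by exact_mod_cast hA1
      have h6 : (tn a0 : ℝ) / (2 * (A : ℝ)) ≤ 3 / (2 * (k : ℝ)) := by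
        rw [div_le_div_iff₀ (by positivity) (by positivity)]
        have h7 : (k : ℝ) * (tn a0 : ℝ) ≤ 3 * (A : ℝ) := by exact_mod_cast h3
        nlinarith
      gcongr
    have key2 : ∀ m m' : ℤ, |sl A x y m m' - C / 2| ≤ C / 2 := by
      intro m m'
      have h1 := sl_nonneg A x y m m'
      have h2 := sl_le A x y m m'
      rw [← hC] at h2
      rw [abs_le]
      constructor <;> linarith
    have z1 : (0 : ℤ) ∈ MS W (k ^ 2) A o x := EEgood_zero_mem hx1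
    have z2 : (0 : ℤ) ∈ MS W (k ^ 2) A o y := EEgood_zero_mem hy1
    have hU0 : (1 / ((MS W (k ^ 2) A o x).card : ℝ)) * (1 / ((MS W (k ^ 2) A o y).card : ℝ)) *
        ∑ m ∈ MS W (k ^ 2) A o x, ∑ m' ∈ MS W (k ^ 2) A o y, sl A x y m m'
        = (1 / ((MS W (k ^ 2) A o x).card : ℝ)) * ∑ m ∈ MS W (k ^ 2) A o x,
          ((1 / ((MS W (k ^ 2) A o y).card : ℝ)) * ∑ m' ∈ MS W (k ^ 2) A o y, sl A x y m m') := by
      rw [← Finset.mul_sum, mul_assoc]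
    have hEE : |EE o W (k ^ 2) A x y| ≤ 6 * C * δ := by
      unfold EE
      refine EEgood_fin (sl_nonneg A x y 0 0) (sl_le A x y 0 0)
        (EEgood_avg _ _ _ _ ⟨0, z1⟩ fun m hm => key m hm 0 z2)
        (EEgood_avg _ _ _ _ ⟨0, z2⟩ fun m' hm' => key 0 z1 m' hm') ?_
        (EEgood_avg _ _ _ _ ⟨0, z1⟩ fun m hm => key2 m 0)
        (EEgood_avg _ _ _ _ ⟨0, z2⟩ fun m' hm' => key2 0 m') ?_
      · rw [hU0]
        exact EEgood_avg _ _ _ _ ⟨0, z1⟩ fun m hm =>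
          EEgood_avg _ _ _ _ ⟨0, z2⟩ fun m' hm' => key m hm m' hm'
      · rw [hU0]
        exact EEgood_avg _ _ _ _ ⟨0, z1⟩ fun m hm =>
          EEgood_avg _ _ _ _ ⟨0, z2⟩ fun m' hm' => key2 m m'
    refine hEE.trans (le_of_eq ?_)
    rw [hδ, hC]
    have h24 : (24 : ℝ) ^ (n + 1) ^ 2 = 4 ^ (n + 1) ^ 2 * 6 ^ (n + 1) ^ 2 := by
      rw [← mul_pow]
      norm_num
    rw [h24]
    field_simp
    ring

end Pool.Agent.Lib.MP_219881_nt
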