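import Pool.Agent.Lib.MP_219881_nt.Basic

/-!
JOB Expand.  The variance is the sum over pairs of test points.
(Cubic version with proof: /team-store/MP_1ad228_ntC_Expand.lean; adapt it.)

PROOF.  For `x ∈ GG B H q o` write `s_x(a) = 1` if `ev a x = 0` and 0 otherwise, and
`l_x(a) = (1/μ_x) * ∑ m ∈ MS W K A o x, (1 if ev a x = m else 0)` (`μ_x` the cardinality of `MS W K A o x`).
For `K ≥ 1`, `Loc W K A o a x` iff `ev a x ∈ MS W K A o x` (the interval condition follows from
`K |m| ≤ A x_o^2`), so `Nn B H q o a b = ∑_x s_x(a) s_x(b)`, `Ll B H q o W K A a b = ∑_x l_x(a) l_x(b)` and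
`(N - L)^2 = ∑_x ∑_y (s_x(a)s_x(b) - l_x(a)l_x(b)) (s_y(a)s_y(b) - l_y(a)l_y(b))`
`= ∑_x ∑_y (s_x s_y(a) s_x s_y(b) - l_x s_y(a) l_x s_y(b) - s_x l_y(a) s_x l_y(b) + l_x l_y(a) l_x l_y(b))`.
Multiply by `psi A a * psi A b`, sum over `a, b ∈ Box n (2*A)`, exchange the sums: for each pair `x, y` the
double sum over `(a, b)` of a product `F(a) F(b)` is `(∑_a F(a))^2` (`Finset.sum_mul_sum`, `sq`), with
`∑_a psi s_x s_y = sl A x y 0 0`, `∑_a psi l_x s_y = (1/μ_x) ∑ m, sl A x y m 0`,
`∑_a psi s_x l_y = (1/μ_y) ∑ m', sl A x y 0 m'`,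
`∑_a psi l_x l_y = (1/μ_x) (1/μ_y) ∑ m, ∑ m', sl A x y m m'`.
-/

namespace Pool.Agent.Lib.MP_219881_nt

open Classical

/-- Indicator of `ev a x = m`. -/
private noncomputable def expandD {n : ℕ} (x : Vc n ℤ) (m : ℤ) (a : Mt n ℤ) : ℝ :=
  if ev a x = m then 1 else 0

/-- The local function. -/
private noncomputable def expandL {n : ℕ} (o : Fin (n + 1)) (W K A : ℕ) (x : Vc n ℤ) (a : Mt n ℤ) : ℝ :=
  (1 / ((MS W K A o x).card : ℝ)) * ∑ m ∈ MS W K A o x, expandD x m a

private theorem expand_mem {n : ℕ} (o : Fin (n + 1)) (W K A : ℕ) (hK : 1 ≤ K) (x : Vc n ℤ) (a : Mt n ℤ) :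
    ev a x ∈ MS W K A o x ↔ Loc W K A o a x := by
  unfold MS Loc
  rw [Finset.mem_filter, Finset.mem_Icc]
  constructor
  · exact fun h => h.2
  · intro h
    refine ⟨?_, h⟩
    have h1 : |ev a x| ≤ (A : ℤ) * (x o) ^ 2 := by
      have h2 : (1 : ℤ) ≤ (K : ℤ) := by exact_mod_cast hK
      have h3 : 1 * |ev a x| ≤ (K : ℤ) * |ev a x| :=
        mul_le_mul_of_nonneg_right h2 (abs_nonneg _)
      have h4 := h.2
      linarith
    exact abs_le.mp h1

private theorem expand_L {n : ℕ} (o : Fin (n + 1)) (W K A : ℕ) (hK : 1 ≤ K) (x : Vc n ℤ) (a : Mt n ℤ) :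
    expandL o W K A x a = if Loc W K A o a x then 1 / ((MS W K A o x).card : ℝ) else 0 := by
  unfold expandL expandD
  rw [Finset.sum_ite_eq]
  by_cases h : Loc W K A o a x
  · rw [if_pos ((expand_mem o W K A hK x a).mpr h), if_pos h, mul_one]
  · rw [if_neg (fun h' => h ((expand_mem o W K A hK x a).mp h')), if_neg h, mul_zero]

private theorem expand_sl {n : ℕ} (A : ℕ) (x y : Vc n ℤ) (m m' : ℤ) :
    sl A x y m m' = ∑ a ∈ Box n (2 * A), psi A a * (expandD x m a * expandD y m' a) := by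
  unfold sl expandD
  rw [Finset.sum_filter]
  refine Finset.sum_congr rfl fun a _ => ?_
  by_cases h1 : ev a x = m
  · by_cases h2 : ev a y = m'
    · rw [if_pos ⟨h1, h2⟩, if_pos h1, if_pos h2]; ring
    · rw [if_neg (fun h => h2 h.2), if_neg h2]; ring
  · rw [if_neg (fun h => h1 h.1), if_neg h1]; ring

private theorem expand_sq {α : Type*} (S : Finset α) (p F G U V : α → ℝ) :
    ∑ a ∈ S, ∑ b ∈ S, p a * p b * ((F a * F b - U a * U b) * (G a * G b - V a * V b))
      = (∑ a ∈ S, p a * (F a * G a)) ^ 2 - (∑ a ∈ S, p a * (U a * G a)) ^ 2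
        - (∑ a ∈ S, p a * (F a * V a)) ^ 2 + (∑ a ∈ S, p a * (U a * V a)) ^ 2 := by
  rw [sq, sq, sq, sq, Finset.sum_mul_sum, Finset.sum_mul_sum, Finset.sum_mul_sum, Finset.sum_mul_sum,
    ← Finset.sum_sub_distrib, ← Finset.sum_sub_distrib, ← Finset.sum_add_distrib]
  refine Finset.sum_congr rfl fun a _ => ?_
  rw [← Finset.sum_sub_distrib, ← Finset.sum_sub_distrib, ← Finset.sum_add_distrib]
  refine Finset.sum_congr rfl fun b _ => ?_
  ring

private theorem expand_EE {n : ℕ} (o : Fin (n + 1)) (W K A : ℕ) (x y : Vc n ℤ) :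
    EE o W K A x y = ∑ a ∈ Box n (2 * A), ∑ b ∈ Box n (2 * A), psi A a * psi A b *
      ((expandD x 0 a * expandD x 0 b - expandL o W K A x a * expandL o W K A x b) *
        (expandD y 0 a * expandD y 0 b - expandL o W K A y a * expandL o W K A y b)) := by
  have e1 : (1 / ((MS W K A o x).card : ℝ)) * ∑ m ∈ MS W K A o x, sl A x y m 0
      = ∑ a ∈ Box n (2 * A), psi A a * (expandL o W K A x a * expandD y 0 a) := by
    simp only [expand_sl, expandL]
    rw [Finset.sum_comm, Finset.mul_sum]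
    refine Finset.sum_congr rfl fun a _ => ?_
    rw [← Finset.mul_sum, ← Finset.sum_mul]
    ring
  have e2 : (1 / ((MS W K A o y).card : ℝ)) * ∑ m' ∈ MS W K A o y, sl A x y 0 m'
      = ∑ a ∈ Box n (2 * A), psi A a * (expandD x 0 a * expandL o W K A y a) := by
    simp only [expand_sl, expandL]
    rw [Finset.sum_comm, Finset.mul_sum]
    refine Finset.sum_congr rfl fun a _ => ?_
    rw [← Finset.mul_sum, ← Finset.mul_sum]
    ring
  have e3 : (1 / ((MS W K A o x).card : ℝ)) * (1 / ((MS W K A o y).card : ℝ)) *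
        ∑ m ∈ MS W K A o x, ∑ m' ∈ MS W K A o y, sl A x y m m'
      = ∑ a ∈ Box n (2 * A), psi A a * (expandL o W K A x a * expandL o W K A y a) := by
    simp only [expand_sl, expandL]
    have h1 : ∑ m ∈ MS W K A o x, ∑ m' ∈ MS W K A o y, ∑ a ∈ Box n (2 * A),
          psi A a * (expandD x m a * expandD y m' a)
        = ∑ a ∈ Box n (2 * A), psi A a *
          ((∑ m ∈ MS W K A o x, expandD x m a) * ∑ m' ∈ MS W K A o y, expandD y m' a) := by
      calc ∑ m ∈ MS W K A o x, ∑ m' ∈ MS W K A o y, ∑ a ∈ Box n (2 * A),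
            psi A a * (expandD x m a * expandD y m' a)
          = ∑ m ∈ MS W K A o x, ∑ a ∈ Box n (2 * A), ∑ m' ∈ MS W K A o y,
            psi A a * (expandD x m a * expandD y m' a) :=
            Finset.sum_congr rfl fun m _ => Finset.sum_comm
        _ = ∑ a ∈ Box n (2 * A), ∑ m ∈ MS W K A o x, ∑ m' ∈ MS W K A o y,
            psi A a * (expandD x m a * expandD y m' a) := Finset.sum_comm
        _ = _ := by
            refine Finset.sum_congr rfl fun a _ => ?_
            rw [Finset.sum_mul_sum, Finset.mul_sum]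
            refine Finset.sum_congr rfl fun m _ => ?_
            rw [Finset.mul_sum]
    rw [h1, Finset.mul_sum]
    refine Finset.sum_congr rfl fun a _ => ?_
    ring
  rw [expand_sq (Box n (2 * A)) (fun a => psi A a) (fun a => expandD x 0 a) (fun a => expandD y 0 a)
    (fun a => expandL o W K A x a) (fun a => expandL o W K A y a)]
  unfold EE
  rw [e1, e2, e3, expand_sl]

theorem expand {n : ℕ} (B H q : ℕ) (o : Fin (n + 1)) (W K A : ℕ) (hK : 1 ≤ K) :
    Qvar B H q o W K A = ∑ x ∈ GG B H q o, ∑ y ∈ GG B H q o, EE o W K A x y := by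
  have hN : ∀ a b : Mt n ℤ, (Nn B H q o a b : ℝ) = ∑ x ∈ GG B H q o, expandD x 0 a * expandD x 0 b := by
    intro a b
    unfold Nn expandD
    rw [Finset.card_filter, Nat.cast_sum]
    refine Finset.sum_congr rfl fun x _ => ?_
    by_cases h1 : ev a x = 0
    · by_cases h2 : ev b x = 0
      · rw [if_pos ⟨h1, h2⟩, if_pos h1, if_pos h2, Nat.cast_one, mul_one]
      · rw [if_neg (fun h => h2 h.2), if_neg h2, Nat.cast_zero, mul_zero]
    · rw [if_neg (fun h => h1 h.1), if_neg h1, Nat.cast_zero, zero_mul]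
  have hL : ∀ a b : Mt n ℤ, Ll B H q o W K A a b =
      ∑ x ∈ GG B H q o, expandL o W K A x a * expandL o W K A x b := by
    intro a b
    unfold Ll
    rw [Finset.sum_filter]
    refine Finset.sum_congr rfl fun x _ => ?_
    rw [expand_L o W K A hK x a, expand_L o W K A hK x b]
    by_cases h1 : Loc W K A o a x
    · by_cases h2 : Loc W K A o b x
      · rw [if_pos ⟨h1, h2⟩, if_pos h1, if_pos h2, sq]
      · rw [if_neg (fun h => h2 h.2), if_neg h2, mul_zero]
    · rw [if_neg (fun h => h1 h.1), if_neg h1, zero_mul]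
  have hQ : ∀ a b : Mt n ℤ, psi A a * psi A b * ((Nn B H q o a b : ℝ) - Ll B H q o W K A a b) ^ 2
      = ∑ x ∈ GG B H q o, ∑ y ∈ GG B H q o, psi A a * psi A b *
      ((expandD x 0 a * expandD x 0 b - expandL o W K A x a * expandL o W K A x b) *
        (expandD y 0 a * expandD y 0 b - expandL o W K A y a * expandL o W K A y b)) := by
    intro a b
    rw [hN, hL, ← Finset.sum_sub_distrib, sq, Finset.sum_mul_sum, Finset.mul_sum]
    refine Finset.sum_congr rfl fun x _ => ?_
    rw [Finset.mul_sum]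
  unfold Qvar
  simp only [hQ]
  calc ∑ a ∈ Box n (2 * A), ∑ b ∈ Box n (2 * A), ∑ x ∈ GG B H q o, ∑ y ∈ GG B H q o,
      psi A a * psi A b *
      ((expandD x 0 a * expandD x 0 b - expandL o W K A x a * expandL o W K A x b) *
        (expandD y 0 a * expandD y 0 b - expandL o W K A y a * expandL o W K A y b))
      = ∑ a ∈ Box n (2 * A), ∑ x ∈ GG B H q o, ∑ b ∈ Box n (2 * A), ∑ y ∈ GG B H q o,
      psi A a * psi A b *
      ((expandD x 0 a * expandD x 0 b - expandL o W K A x a * expandL o W K A x b) *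
        (expandD y 0 a * expandD y 0 b - expandL o W K A y a * expandL o W K A y b)) :=
        Finset.sum_congr rfl fun a _ => Finset.sum_comm
    _ = ∑ x ∈ GG B H q o, ∑ a ∈ Box n (2 * A), ∑ b ∈ Box n (2 * A), ∑ y ∈ GG B H q o,
      psi A a * psi A b *
      ((expandD x 0 a * expandD x 0 b - expandL o W K A x a * expandL o W K A x b) *
        (expandD y 0 a * expandD y 0 b - expandL o W K A y a * expandL o W K A y b)) :=
        Finset.sum_comm
    _ = ∑ x ∈ GG B H q o, ∑ a ∈ Box n (2 * A), ∑ y ∈ GG B H q o, ∑ b ∈ Box n (2 * A),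
      psi A a * psi A b *
      ((expandD x 0 a * expandD x 0 b - expandL o W K A x a * expandL o W K A x b) *
        (expandD y 0 a * expandD y 0 b - expandL o W K A y a * expandL o W K A y b)) :=
        Finset.sum_congr rfl fun x _ => Finset.sum_congr rfl fun a _ => Finset.sum_comm
    _ = ∑ x ∈ GG B H q o, ∑ y ∈ GG B H q o, ∑ a ∈ Box n (2 * A), ∑ b ∈ Box n (2 * A),
      psi A a * psi A b *
      ((expandD x 0 a * expandD x 0 b - expandL o W K A x a * expandL o W K A x b) *
        (expandD y 0 a * expandD y 0 b - expandL o W K A y a * expandL o W K A y b)) :=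
        Finset.sum_congr rfl fun x _ => Finset.sum_comm
    _ = ∑ x ∈ GG B H q o, ∑ y ∈ GG B H q o, EE o W K A x y :=
        Finset.sum_congr rfl fun x _ => Finset.sum_congr rfl fun y _ => (expand_EE o W K A x y).symm

end Pool.Agent.Lib.MP_219881_nt
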