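import Pool.Agent.Lib.MP_219881_nt.FM_Poly

/-!
JOB FM_Loc.  Solubility and smoothness of the forms and of the matrices.  (Cubic version with proofs: /team-store/MP_1ad228_ntC_FmLoc.lean.)

* `sol_of_locSol`: `aeval_poly` over `ℝ` and over `ℚ_[p]`.
* `locSol_of_zero`: an integer common zero `x ≠ 0`: `cv ℝ x`, `cv ℚ_[p] x` are nonzero common zeros (`ev_cm`, characteristic zero).
* `smallZero_iff`: `aeval_poly` over `ℤ`: `cm ℤ a = a` (`Int.cast_id`).
* `smooth_iff`: `aeval_poly`, `pderiv_poly` over `AlgebraicClosure ℚ`: the two vectors of the family are `dev (cm _ a) x` and `dev (cm _ b) x` (`funext`).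
-/

namespace Pool.Agent.Lib.MP_219881_nt

variable {n : ℕ}

theorem sol_of_locSol {a b : Mt n ℤ} (h : LocSol (poly a) (poly b)) : RSol a b ∧ PSol a b := by
  constructor
  · obtain ⟨x, hx, h1, h2⟩ := h.1
    refine ⟨x, hx, ?_, ?_⟩
    · rw [aeval_poly] at h1
      exact h1
    · rw [aeval_poly] at h2
      exact h2
  · intro p hp
    obtain ⟨x, hx, h1, h2⟩ := h.2 p
    refine ⟨x, hx, ?_, ?_⟩
    · rw [aeval_poly] at h1
      exact h1
    · rw [aeval_poly] at h2
      exact h2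

theorem locSol_of_zero {a b : Mt n ℤ} {x : Vc n ℤ} (hx : x ≠ 0) (h : ev a x = 0)
    (h' : ev b x = 0) : LocSol (poly a) (poly b) := by
  have key : ∀ (R : Type) [CommRing R] [CharZero R], ∃ y : Fin (n + 1) → R, y ≠ 0 ∧
      MvPolynomial.aeval y (poly a) = 0 ∧ MvPolynomial.aeval y (poly b) = 0 := by
    intro R _ _
    refine ⟨cv R x, fun h0 => hx ?_, ?_, ?_⟩
    · funext i
      have h1 := congrFun h0 i
      exact Int.cast_injective (α := R) (h1.trans Int.cast_zero.symm)
    · rw [aeval_poly, ev_cm, h, Int.cast_zero]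
    · rw [aeval_poly, ev_cm, h', Int.cast_zero]
  exact ⟨key ℝ, fun p hp => key ℚ_[p]⟩

theorem smallZero_iff (X : ℤ) (a b : Mt n ℤ) :
    SmallZero X (poly a) (poly b) ↔
      ∃ x : Vc n ℤ, x ≠ 0 ∧ (∀ i, |x i| ^ (n - 3) ≤ X) ∧ ev a x = 0 ∧ ev b x = 0 := by
  have e : ∀ c : Mt n ℤ, cm ℤ c = c := by
    intro c
    funext i j
    show ((c i j : ℤ) : ℤ) = c i j
    exact Int.cast_id
  unfold SmallZero
  simp only [aeval_poly, e]

theorem smooth_iff (a b : Mt n ℤ) :
    SmoothCI (poly a) (poly b) ↔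
      ∀ x : Vc n (AlgebraicClosure ℚ), x ≠ 0 → ev (cm (AlgebraicClosure ℚ) a) x = 0 →
        ev (cm (AlgebraicClosure ℚ) b) x = 0 →
        LinearIndependent (AlgebraicClosure ℚ)
          ![dev (cm (AlgebraicClosure ℚ) a) x, dev (cm (AlgebraicClosure ℚ) b) x] := by
  have e : ∀ (c : Mt n ℤ) (x : Vc n (AlgebraicClosure ℚ)),
      (fun i => MvPolynomial.aeval x (MvPolynomial.pderiv i (poly c))) =
        dev (cm (AlgebraicClosure ℚ) c) x := by
    intro c x
    funext i
    exact pderiv_poly c x i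
  have e' : ∀ (c : Mt n ℤ) (x : Vc n (AlgebraicClosure ℚ)),
      MvPolynomial.aeval x (poly c) = ev (cm (AlgebraicClosure ℚ) c) x := fun c x => aeval_poly c x
  unfold SmoothCI
  refine forall_congr' fun x => ?_
  rw [e a x, e b x, e' a x, e' b x]

end Pool.Agent.Lib.MP_219881_nt
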