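import Pool.Agent.Lib.MP_219881_nt.LD_Base

/-!
JOB LD_Crt.  (Cubic version with proof: /team-store/MP_1ad228_ntC_LD_Crt.lean; adapt it to pairs.)
-/

namespace Pool.Agent.Lib.MP_219881_nt

open Classical

theorem LD_Crt_ev {n : ℕ} {R S : Type*} [CommRing R] [CommRing S] (f : R →+* S) (a : Mt n ℤ)
    (x : Vc n R) : ev (cm S a) (fun i => f (x i)) = f (ev (cm R a) x) := by
  simp [ev, cm, map_sum, map_mul]

theorem LD_Crt_lin {n : ℕ} {R S : Type*} [CommRing R] [CommRing S] (f : R →+* S) (u x : Vc n R) :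
    lin (fun i => f (u i)) (fun i => f (x i)) = f (lin u x) := by
  simp [lin, map_sum, map_mul]

theorem LD_mul {n : ℕ} (m m' : ℕ) (hm : m ≠ 0) (hm' : m' ≠ 0) (h : m.Coprime m')
    (a b : Mt n ℤ) :
    sm m (cm (ZMod m) a) (cm (ZMod m) b) * sm m' (cm (ZMod m') a) (cm (ZMod m') b) ≤
      sm (m * m') (cm (ZMod (m * m')) a) (cm (ZMod (m * m')) b) := by
  have : NeZero m := ⟨hm⟩
  have : NeZero m' := ⟨hm'⟩
  have : NeZero (m * m') := ⟨mul_ne_zero hm hm'⟩
  let e : ZMod (m * m') ≃+* ZMod m × ZMod m' := ZMod.chineseRemainder h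
  have hinj : Function.Injective e := e.injective
  have key : ∀ (a : Mt n ℤ) (z : Vc n (ZMod (m * m'))) (x : Vc n (ZMod m)) (y : Vc n (ZMod m')),
      (∀ i, e (z i) = (x i, y i)) →
      e (ev (cm _ a) z) = (ev (cm _ a) x, ev (cm _ a) y) := by
    intro a z x y hz
    have h1 := LD_Crt_ev ((RingHom.fst (ZMod m) (ZMod m')).comp e.toRingHom) a z
    have h2 := LD_Crt_ev ((RingHom.snd (ZMod m) (ZMod m')).comp e.toRingHom) a z
    have e1 : (fun i => ((RingHom.fst (ZMod m) (ZMod m')).comp e.toRingHom) (z i)) = x := by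
      funext i
      exact congrArg Prod.fst (hz i)
    have e2 : (fun i => ((RingHom.snd (ZMod m) (ZMod m')).comp e.toRingHom) (z i)) = y := by
      funext i
      exact congrArg Prod.snd (hz i)
    rw [e1] at h1
    rw [e2] at h2
    exact Prod.ext h1.symm h2.symm
  have keyl : ∀ (v z : Vc n (ZMod (m * m'))) (u x : Vc n (ZMod m)) (w y : Vc n (ZMod m')),
      (∀ i, e (v i) = (u i, w i)) → (∀ i, e (z i) = (x i, y i)) →
      e (lin v z) = (lin u x, lin w y) := by
    intro v z u x w y hv hz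
    have h1 := LD_Crt_lin ((RingHom.fst (ZMod m) (ZMod m')).comp e.toRingHom) v z
    have h2 := LD_Crt_lin ((RingHom.snd (ZMod m) (ZMod m')).comp e.toRingHom) v z
    have e1 : (fun i => ((RingHom.fst (ZMod m) (ZMod m')).comp e.toRingHom) (z i)) = x := by
      funext i
      exact congrArg Prod.fst (hz i)
    have e2 : (fun i => ((RingHom.snd (ZMod m) (ZMod m')).comp e.toRingHom) (z i)) = y := by
      funext i
      exact congrArg Prod.snd (hz i)
    have e3 : (fun i => ((RingHom.fst (ZMod m) (ZMod m')).comp e.toRingHom) (v i)) = u := by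
      funext i
      exact congrArg Prod.fst (hv i)
    have e4 : (fun i => ((RingHom.snd (ZMod m) (ZMod m')).comp e.toRingHom) (v i)) = w := by
      funext i
      exact congrArg Prod.snd (hv i)
    rw [e1, e3] at h1
    rw [e2, e4] at h2
    exact Prod.ext h1.symm h2.symm
  unfold sm
  rw [← Nat.card_prod]
  let F : {x : Vc n (ZMod m) // Uni x ∧ ev (cm (ZMod m) a) x = 0 ∧ ev (cm (ZMod m) b) x = 0} ×
      {y : Vc n (ZMod m') // Uni y ∧ ev (cm (ZMod m') a) y = 0 ∧ ev (cm (ZMod m') b) y = 0} →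
      {z : Vc n (ZMod (m * m')) // Uni z ∧ ev (cm (ZMod (m * m')) a) z = 0 ∧
        ev (cm (ZMod (m * m')) b) z = 0} := fun p =>
    ⟨fun i => e.symm (p.1.1 i, p.2.1 i), by
      obtain ⟨⟨x, ⟨u, hu⟩, hx, hx'⟩, ⟨y, ⟨w, hw⟩, hy, hy'⟩⟩ := p
      refine ⟨?_, ?_, ?_⟩
      · refine ⟨fun i => e.symm (u i, w i), hinj ?_⟩
        rw [keyl _ _ u x w y (fun i => e.apply_symm_apply _) (fun i => e.apply_symm_apply _),
          hu, hw, map_one]
        rfl
      · apply hinj
        rw [key a _ x y (fun i => e.apply_symm_apply _), hx, hy, map_zero]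
        rfl
      · apply hinj
        rw [key b _ x y (fun i => e.apply_symm_apply _), hx', hy', map_zero]
        rfl⟩
  have hF : Function.Injective F := by
    intro p p' hpp
    have h1 : ∀ i, (p.1.1 i, p.2.1 i) = (p'.1.1 i, p'.2.1 i) := by
      intro i
      have h2 := congrFun (congrArg Subtype.val hpp) i
      exact e.symm.injective h2
    refine Prod.ext (Subtype.ext (funext fun i => congrArg Prod.fst (h1 i)))
      (Subtype.ext (funext fun i => congrArg Prod.snd (h1 i)))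
  exact Nat.card_le_card_of_injective F hF

theorem LD_prod {n : ℕ} {ι : Type*} (s : Finset ι) (f : ι → ℕ) (hf : ∀ i ∈ s, f i ≠ 0)
    (hc : ∀ i ∈ s, ∀ j ∈ s, i ≠ j → (f i).Coprime (f j)) (a b : Mt n ℤ) :
    ∏ i ∈ s, sm (f i) (cm (ZMod (f i)) a) (cm (ZMod (f i)) b) ≤
      sm (∏ i ∈ s, f i) (cm (ZMod (∏ i ∈ s, f i)) a) (cm (ZMod (∏ i ∈ s, f i)) b) := by
  induction s using Finset.induction_on with
  | empty =>
    have h1 : ∀ k : ℕ, k = 1 → 1 ≤ sm k (cm (ZMod k) a) (cm (ZMod k) b) := by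
      intro k hk
      subst hk
      have : Nonempty {x : Vc n (ZMod 1) // Uni x ∧ ev (cm (ZMod 1) a) x = 0 ∧
          ev (cm (ZMod 1) b) x = 0} :=
        ⟨⟨0, ⟨0, Subsingleton.elim _ _⟩, Subsingleton.elim _ _, Subsingleton.elim _ _⟩⟩
      unfold sm
      exact Nat.card_pos
    simp only [Finset.prod_empty]
    exact h1 1 rfl
  | insert i s hi ih =>
    have h1 := ih (fun j hj => hf j (Finset.mem_insert_of_mem hj))
      (fun j hj k hk => hc j (Finset.mem_insert_of_mem hj) k (Finset.mem_insert_of_mem hk))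
    have h2 : (f i).Coprime (∏ j ∈ s, f j) := by
      apply Nat.Coprime.prod_right
      intro j hj
      refine hc i (Finset.mem_insert_self _ _) j (Finset.mem_insert_of_mem hj) ?_
      rintro rfl
      exact hi hj
    have h3 : ∏ j ∈ s, f j ≠ 0 :=
      Finset.prod_ne_zero_iff.2 fun j hj => hf j (Finset.mem_insert_of_mem hj)
    have h4 := LD_mul (f i) (∏ j ∈ s, f j) (hf i (Finset.mem_insert_self _ _)) h3 h2 a b
    have h5 : ∀ k : ℕ, k = f i * ∏ j ∈ s, f j →
        sm (f i) (cm (ZMod (f i)) a) (cm (ZMod (f i)) b) *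
          ∏ j ∈ s, sm (f j) (cm (ZMod (f j)) a) (cm (ZMod (f j)) b) ≤
          sm k (cm (ZMod k) a) (cm (ZMod k) b) := by
      intro k hk
      subst hk
      exact (Nat.mul_le_mul_left _ h1).trans h4
    rw [Finset.prod_insert hi]
    exact h5 _ (Finset.prod_insert hi)

end Pool.Agent.Lib.MP_219881_nt
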