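import Pool.Agent.Lib.MP_219881_nt.LD_Base

/-!
JOB LD_Newt.  Newton's method in two coordinates over `ℤ_[p]`.

Notation: `J a b x j k = dev a x j * dev b x k - dev a x k * dev b x j`.
LD_step.  `δ = J a b x j k` is not divisible by `p^(d+1)`, so `δ = p^v * unit` with `v ≤ d`. Put
`P = ev a x`, `Q = ev b x` (divisible by `p^m`), and
`s_j = -(dev b x k * P - dev a x k * Q)/δ`, `s_k = -(-(dev b x j) * P + dev a x j * Q)/δ`: these exist in
`ℤ_[p]` and are divisible by `p^(m-v)`, hence by `p^(m-d)` (`p^m = p^v p^(m-v)`, the quotient by the unit part).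
They satisfy `dev a x j * s_j + dev a x k * s_k = -P`, `dev b x j * s_j + dev b x k * s_k = -Q` (Cramer; cancel
`δ ≠ 0`, `ℤ_[p]` is a domain). Let `h` be the vector with `h j = s_j`, `h k = s_k`, all other coordinates 0
(`j ≠ k`), `x' = x + h`. By `ev_add_right`, `ev a x' = P + (dev a x j s_j + dev a x k s_k) + ev a h = ev a h`, a
combination of products of two of `s_j, s_k`: divisible by `p^(2(m-v))`, and `2(m-v) ≥ m+1` because
`m ≥ 2d+1 ≥ 2v+1`. The same for `b`.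
LD_stay.  `x' ≡ x mod p^c` (all coordinates) implies `dev a x' l ≡ dev a x l`, hence
`J a b x' j k ≡ J a b x j k mod p^c`; with `c ≥ d + 1` non divisibility by `p^(d+1)` is inherited.
LD_lift.  Induction on `w ≥ m`: step from `w` to `w + 1` by LD_step (with `m := w`), the new point is
congruent to the old one mod `p^(w-d)`, so mod `p^(m-d)`, `m - d ≥ d + 1`, and LD_stay keeps the condition.
-/

namespace Pool.Agent.Lib.MP_219881_nt

open Classical

private theorem LD_Newt_ev_dvd {n : ℕ} {R : Type*} [CommRing R] (a : Mt n R) (h : Vc n R) (c : R)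
    (hc : ∀ l, c ∣ h l) : c ^ 2 ∣ ev a h := by
  unfold ev
  refine Finset.dvd_sum fun i _ => Finset.dvd_sum fun j _ => ?_
  rw [pow_two]
  exact Dvd.dvd.mul_left (mul_dvd_mul (hc i) (hc j)) _

private theorem LD_Newt_sum {n : ℕ} {R : Type*} [CommRing R] (f : Vc n R) (j k : Fin (n + 1))
    (hjk : j ≠ k) (s t : R) :
    ∑ l, f l * (if l = j then s else if l = k then t else 0) = f j * s + f k * t := by
  have h1 : ∀ l, f l * (if l = j then s else if l = k then t else 0) =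
      (if l = j then f l * s else 0) + (if l = k then f l * t else 0) := by
    intro l
    by_cases h : l = j
    · subst h
      simp [hjk]
    · by_cases h' : l = k
      · subst h'
        simp [h]
      · simp [h, h']
  simp only [h1, Finset.sum_add_distrib, Finset.sum_ite_eq', Finset.mem_univ, if_true]

private theorem LD_Newt_dev {n : ℕ} {R : Type*} [CommRing R] (a : Mt n R) (x x' : Vc n R) (c : R)
    (hx : ∀ l, c ∣ x' l - x l) (j : Fin (n + 1)) : c ∣ dev a x' j - dev a x j := by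
  unfold dev
  rw [← Finset.sum_sub_distrib]
  refine Finset.dvd_sum fun l _ => ?_
  rw [← mul_sub]
  exact Dvd.dvd.mul_left (hx l) _

theorem LD_step {n : ℕ} (p : ℕ) [Fact p.Prime] (d m : ℕ) (hm : 2 * d + 1 ≤ m)
    (a b : Mt n ℤ_[p]) (x : Vc n ℤ_[p]) (j k : Fin (n + 1)) (hjk : j ≠ k)
    (ha : (p : ℤ_[p]) ^ m ∣ ev a x) (hb : (p : ℤ_[p]) ^ m ∣ ev b x)
    (hJ : ¬ ((p : ℤ_[p]) ^ (d + 1) ∣ dev a x j * dev b x k - dev a x k * dev b x j)) :
    ∃ x' : Vc n ℤ_[p], (∀ l, l ≠ j → l ≠ k → x' l = x l) ∧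
      (∀ l, (p : ℤ_[p]) ^ (m - d) ∣ x' l - x l) ∧ (p : ℤ_[p]) ^ (m + 1) ∣ ev a x' ∧
      (p : ℤ_[p]) ^ (m + 1) ∣ ev b x' := by
  set δ := dev a x j * dev b x k - dev a x k * dev b x j with hδ
  have hδ0 : δ ≠ 0 := by
    intro h0
    rw [h0] at hJ
    exact hJ (dvd_zero _)
  obtain ⟨v, u, huv⟩ : ∃ (v : ℕ) (u : ℤ_[p]ˣ), δ = (u : ℤ_[p]) * (p : ℤ_[p]) ^ v :=
    ⟨δ.valuation, PadicInt.unitCoeff hδ0, PadicInt.unitCoeff_spec hδ0⟩
  have hv : v ≤ d := by
    by_contra hcon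
    apply hJ
    rw [huv]
    exact Dvd.dvd.mul_left (pow_dvd_pow _ (by omega)) _
  obtain ⟨P, hP⟩ := ha
  obtain ⟨Q, hQ⟩ := hb
  set s : ℤ_[p] := -((u⁻¹ : ℤ_[p]ˣ) : ℤ_[p]) * (dev b x k * P - dev a x k * Q) with hs
  set t : ℤ_[p] := -((u⁻¹ : ℤ_[p]ˣ) : ℤ_[p]) * (dev a x j * Q - dev b x j * P) with ht
  set c : ℤ_[p] := (p : ℤ_[p]) ^ (m - v) with hc
  have hcm : (p : ℤ_[p]) ^ v * c = (p : ℤ_[p]) ^ m := by
    rw [hc, ← pow_add]
    congr 1
    omega
  have huu : (u : ℤ_[p]) * ((u⁻¹ : ℤ_[p]ˣ) : ℤ_[p]) = 1 := Units.mul_inv u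
  have h1 : dev a x j * (c * s) + dev a x k * (c * t) = -ev a x := by
    apply mul_left_cancel₀ hδ0
    have e1 : δ * (dev a x j * (c * s) + dev a x k * (c * t)) =
        ((u : ℤ_[p]) * ((u⁻¹ : ℤ_[p]ˣ) : ℤ_[p])) * ((p : ℤ_[p]) ^ v * c) *
          (-(P * (dev a x j * dev b x k - dev a x k * dev b x j))) := by
      rw [huv, hs, ht]
      ring
    rw [e1, huu, hcm, ← hδ, hP]
    ring
  have h2 : dev b x j * (c * s) + dev b x k * (c * t) = -ev b x := by
    apply mul_left_cancel₀ hδ0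
    have e1 : δ * (dev b x j * (c * s) + dev b x k * (c * t)) =
        ((u : ℤ_[p]) * ((u⁻¹ : ℤ_[p]ˣ) : ℤ_[p])) * ((p : ℤ_[p]) ^ v * c) *
          (-(Q * (dev a x j * dev b x k - dev a x k * dev b x j))) := by
      rw [huv, hs, ht]
      ring
    rw [e1, huu, hcm, ← hδ, hQ]
    ring
  set h : Vc n ℤ_[p] := fun l => if l = j then c * s else if l = k then c * t else 0 with hh
  have hdvd : ∀ l, c ∣ h l := by
    intro l
    simp only [hh]
    split_ifs
    · exact dvd_mul_right _ _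
    · exact dvd_mul_right _ _
    · exact dvd_zero _
  have hpw : (p : ℤ_[p]) ^ (m + 1) ∣ c ^ 2 := by
    rw [hc, ← pow_mul]
    exact pow_dvd_pow _ (by omega)
  refine ⟨x + h, ?_, ?_, ?_, ?_⟩
  · intro l hl hl'
    simp only [Pi.add_apply, hh, if_neg hl, if_neg hl', add_zero]
  · intro l
    rw [Pi.add_apply, add_sub_cancel_left]
    exact (pow_dvd_pow _ (by omega)).trans (hdvd l)
  · rw [ev_add_right]
    have e2 : ∑ l, dev a x l * h l = -ev a x := by
      rw [← h1]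
      exact LD_Newt_sum (dev a x) j k hjk (c * s) (c * t)
    rw [e2, add_neg_cancel, zero_add]
    exact hpw.trans (LD_Newt_ev_dvd a h c hdvd)
  · rw [ev_add_right]
    have e2 : ∑ l, dev b x l * h l = -ev b x := by
      rw [← h2]
      exact LD_Newt_sum (dev b x) j k hjk (c * s) (c * t)
    rw [e2, add_neg_cancel, zero_add]
    exact hpw.trans (LD_Newt_ev_dvd b h c hdvd)

theorem LD_stay {n : ℕ} (p : ℕ) [Fact p.Prime] (c d : ℕ) (hc : d + 1 ≤ c)
    (a b : Mt n ℤ_[p]) (x x' : Vc n ℤ_[p]) (j k : Fin (n + 1))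
    (hx : ∀ l, (p : ℤ_[p]) ^ c ∣ x' l - x l)
    (hJ : ¬ ((p : ℤ_[p]) ^ (d + 1) ∣ dev a x j * dev b x k - dev a x k * dev b x j)) :
    ¬ ((p : ℤ_[p]) ^ (d + 1) ∣ dev a x' j * dev b x' k - dev a x' k * dev b x' j) := by
  intro hcon
  apply hJ
  have hx' : ∀ l, (p : ℤ_[p]) ^ (d + 1) ∣ x' l - x l := fun l => (pow_dvd_pow _ hc).trans (hx l)
  have haj := LD_Newt_dev a x x' _ hx' j
  have hak := LD_Newt_dev a x x' _ hx' k
  have hbj := LD_Newt_dev b x x' _ hx' j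
  have hbk := LD_Newt_dev b x x' _ hx' k
  have e : dev a x j * dev b x k - dev a x k * dev b x j =
      (dev a x' j * dev b x' k - dev a x' k * dev b x' j)
      - (dev a x' j - dev a x j) * dev b x' k - dev a x j * (dev b x' k - dev b x k)
      + (dev a x' k - dev a x k) * dev b x' j + dev a x k * (dev b x' j - dev b x j) := by ring
  rw [e]
  exact dvd_add (dvd_add (dvd_sub (dvd_sub hcon (Dvd.dvd.mul_right haj _))
    (Dvd.dvd.mul_left hbk _)) (Dvd.dvd.mul_right hak _)) (Dvd.dvd.mul_left hbj _)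

theorem LD_lift {n : ℕ} (p : ℕ) [Fact p.Prime] (d m w : ℕ) (hm : 2 * d + 1 ≤ m) (hw : m ≤ w)
    (a b : Mt n ℤ_[p]) (x : Vc n ℤ_[p]) (j k : Fin (n + 1)) (hjk : j ≠ k)
    (ha : (p : ℤ_[p]) ^ m ∣ ev a x) (hb : (p : ℤ_[p]) ^ m ∣ ev b x)
    (hJ : ¬ ((p : ℤ_[p]) ^ (d + 1) ∣ dev a x j * dev b x k - dev a x k * dev b x j)) :
    ∃ x' : Vc n ℤ_[p], (∀ l, l ≠ j → l ≠ k → x' l = x l) ∧
      (∀ l, (p : ℤ_[p]) ^ (d + 1) ∣ x' l - x l) ∧ (p : ℤ_[p]) ^ w ∣ ev a x' ∧
      (p : ℤ_[p]) ^ w ∣ ev b x' := by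
  induction w, hw using Nat.le_induction with
  | base =>
    exact ⟨x, fun _ _ _ => rfl, fun l => by rw [sub_self]; exact dvd_zero _, ha, hb⟩
  | succ w hmw ih =>
    obtain ⟨y, hy1, hy2, hy3, hy4⟩ := ih
    have hJy := LD_stay p (d + 1) d le_rfl a b x y j k hy2 hJ
    obtain ⟨z, hz1, hz2, hz3, hz4⟩ := LD_step p d w (by omega) a b y j k hjk hy3 hy4 hJy
    refine ⟨z, fun l hl hl' => (hz1 l hl hl').trans (hy1 l hl hl'), fun l => ?_, hz3, hz4⟩
    have e : z l - x l = (z l - y l) + (y l - x l) := by ring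
    rw [e]
    exact dvd_add ((pow_dvd_pow _ (by omega)).trans (hz2 l)) (hy2 l)

end Pool.Agent.Lib.MP_219881_nt
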