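import Pool.Agent.Lib.MP_219881_nt.LD_Norm
import Pool.Agent.Lib.MP_219881_nt.LD_Newt

/-!
JOB LD_Hensel.  Many zeros mod `p^w`.  (Cubic version, one coordinate, with proof:
/team-store/MP_1ad228_ntC_LD_Hensel.lean; the counting part can be adapted. LD_Norm and LD_Newt are other jobs:
use LD_norm, LD_minor, LD_stay, LD_lift.)

PROOF.  LD_norm gives `x : Vc n ℤ_[p]`, `x i = 1`; LD_minor gives `j, k` (`≠ i`, distinct) with the minor not
divisible by `p^(2e-1)`; put `d = 2e - 2`, `d + 1 = 2e - 1`, `m = 2d + 1 = 4e - 3 ≤ 4e ≤ w`. For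
`s : {l // l ≠ j ∧ l ≠ k} → Fin (p^(w-4e))` put `x_s l = x l + p^(4e) * s l` for `l ≠ j, k` and
`x_s j = x j`, `x_s k = x k`. `ev (cm a) x_s ≡ ev (cm a) x = 0 mod p^(4e)` (`ev` respects congruences, e.g.
`ev_add_right`: `x_s = x + p^(4e) • h`, both extra terms are divisible), the same for `b`; the minor condition is
kept (LD_stay with `c = 4e`). LD_lift (with `m`, `w`) gives `x_s'` with the same coordinates `l ≠ j, k` and
`p^w ∣ ev (cm a) x_s'`, `p^w ∣ ev (cm b) x_s'`. Reduce mod `p^w` (`PadicInt.toZModPow w`): a common zero of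
`cm (ZMod (p^w)) a`, `cm (ZMod (p^w)) b` (`ev_map`, kernel); unimodular because the `i`-th coordinate
`1 + p^(4e) s_i` is a unit (`i ≠ j, k`; `4e ≥ 1`). Different `s` give different reductions: if
`p^(4e) s_l ≡ p^(4e) s'_l mod p^w` for all `l ≠ j, k` then `s_l = s'_l` (`0 ≤ s_l < p^(w-4e)`). The index set
`{l // l ≠ j ∧ l ≠ k}` has `n - 1` elements, so there are `(p^(w-4e))^(n-1)` different zeros
(`Nat.card_le_card_of_injective`).
-/

namespace Pool.Agent.Lib.MP_219881_nt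

open Classical

private theorem ldhensel_cmmap {n : ℕ} {R S : Type*} [CommRing R] [CommRing S] (f : R →+* S)
    (a : Mt n ℤ) : (fun i j => f (cm R a i j)) = cm S a := by
  funext i j
  simp [cm]

private theorem ldhensel_evdvd {n : ℕ} {R : Type*} [CommRing R] (a : Mt n R) (x h : Vc n R) (c : R)
    (hx : ev a x = 0) (hh : ∀ l, c ∣ h l) : c ∣ ev a (x + h) := by
  rw [ev_add_right, hx, zero_add]
  refine dvd_add (Finset.dvd_sum fun l _ => Dvd.dvd.mul_left (hh l) _) ?_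
  unfold ev
  exact Finset.dvd_sum fun l _ => Finset.dvd_sum fun r _ =>
    Dvd.dvd.mul_left (Dvd.dvd.mul_right (hh l) _) _

private theorem ldhensel_card (n : ℕ) (j k : Fin (n + 1)) (hjk : j ≠ k) :
    Nat.card {l : Fin (n + 1) // l ≠ j ∧ l ≠ k} = n - 1 := by
  rw [Nat.card_eq_fintype_card, Fintype.card_subtype]
  have h1 : (Finset.univ.filter fun l : Fin (n + 1) => l ≠ j ∧ l ≠ k)
      = (Finset.univ.erase k).erase j := by
    ext l
    simp
  rw [h1, Finset.card_erase_of_mem, Finset.card_erase_of_mem (Finset.mem_univ k),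
    Finset.card_univ, Fintype.card_fin]
  · omega
  · exact Finset.mem_erase.2 ⟨hjk, Finset.mem_univ j⟩

private theorem ldhensel_red (p : ℕ) [Fact p.Prime] (w : ℕ) (z : ℤ_[p])
    (hz : (p : ℤ_[p]) ^ w ∣ z) : PadicInt.toZModPow w z = 0 := by
  obtain ⟨c, rfl⟩ := hz
  rw [map_mul, map_pow, map_natCast]
  have h4 : ((p : ZMod (p ^ w))) ^ w = ((p ^ w : ℕ) : ZMod (p ^ w)) := by
    push_cast; rfl
  rw [h4, ZMod.natCast_self, zero_mul]

theorem LD_hensel {n : ℕ} (p : ℕ) [Fact p.Prime] (e w : ℕ) (he : 1 ≤ e) (hw : 4 * e ≤ w)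
    (a b : Mt n ℤ)
    (h : ∃ x : Vc n ℚ_[p], x ≠ 0 ∧ ev (cm ℚ_[p] a) x = 0 ∧ ev (cm ℚ_[p] b) x = 0)
    (hex : ¬ Exc (p ^ e) (cm (ZMod (p ^ e)) a) (cm (ZMod (p ^ e)) b)) :
    p ^ ((n - 1) * (w - 4 * e)) ≤ sm (p ^ w) (cm (ZMod (p ^ w)) a) (cm (ZMod (p ^ w)) b) := by
  have hp : p.Prime := Fact.out
  obtain ⟨x, i, hxi, hxa, hxb⟩ := LD_norm p a b h
  obtain ⟨j, k, hji, hki, hjk, hmin⟩ := LD_minor p e he a b x i hxi hxa hxb hex
  have hd1 : 2 * e - 2 + 1 = 2 * e - 1 := by omega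
  set q : ℕ := p ^ (w - 4 * e) with hq
  have hzero : ∀ s : {l : Fin (n + 1) // l ≠ j ∧ l ≠ k} → Fin q, ∃ y : Vc n ℤ_[p],
      (∀ l (hl : l ≠ j ∧ l ≠ k), y l = x l + (p : ℤ_[p]) ^ (4 * e) * ((s ⟨l, hl⟩ : ℕ) : ℤ_[p]))
        ∧ (p : ℤ_[p]) ^ w ∣ ev (cm ℤ_[p] a) y ∧ (p : ℤ_[p]) ^ w ∣ ev (cm ℤ_[p] b) y := by
    intro s
    let hh : Vc n ℤ_[p] := fun l => if hl : l ≠ j ∧ l ≠ k then (p : ℤ_[p]) ^ (4 * e) *
      ((s ⟨l, hl⟩ : ℕ) : ℤ_[p]) else 0
    have hhl : ∀ l (hl : l ≠ j ∧ l ≠ k), hh l = (p : ℤ_[p]) ^ (4 * e) *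
        ((s ⟨l, hl⟩ : ℕ) : ℤ_[p]) := by
      intro l hl
      show (if hl : l ≠ j ∧ l ≠ k then (p : ℤ_[p]) ^ (4 * e) *
        ((s ⟨l, hl⟩ : ℕ) : ℤ_[p]) else 0) = _
      rw [dif_pos hl]
    have hdv : ∀ l, (p : ℤ_[p]) ^ (4 * e) ∣ hh l := by
      intro l
      by_cases hl : l ≠ j ∧ l ≠ k
      · rw [hhl l hl]
        exact dvd_mul_right _ _
      · have : hh l = 0 := by
          show (if hl : l ≠ j ∧ l ≠ k then (p : ℤ_[p]) ^ (4 * e) *
            ((s ⟨l, hl⟩ : ℕ) : ℤ_[p]) else 0) = _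
          rw [dif_neg hl]
        rw [this]
        exact dvd_zero _
    have hJ := LD_stay p (4 * e) (2 * e - 2) (by omega) (cm ℤ_[p] a) (cm ℤ_[p] b) x (x + hh) j k
      (fun l => by
        rw [Pi.add_apply, add_sub_cancel_left]
        exact hdv l) (by rw [hd1]; exact hmin)
    obtain ⟨y, hy1, -, hya, hyb⟩ := LD_lift p (2 * e - 2) (4 * e) w (by omega) hw
      (cm ℤ_[p] a) (cm ℤ_[p] b) (x + hh) j k hjk (ldhensel_evdvd _ x hh _ hxa hdv)
      (ldhensel_evdvd _ x hh _ hxb hdv) hJ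
    refine ⟨y, ?_, hya, hyb⟩
    intro l hl
    rw [hy1 l hl.1 hl.2, Pi.add_apply, hhl l hl]
  choose y hy1 hya hyb using hzero
  have hw0 : 0 < w := by omega
  have hNZ : NeZero (p ^ w) := ⟨pow_ne_zero _ hp.ne_zero⟩
  have hnil : IsNilpotent ((p : ZMod (p ^ w))) := by
    refine ⟨w, ?_⟩
    have h4 : ((p : ZMod (p ^ w))) ^ w = ((p ^ w : ℕ) : ZMod (p ^ w)) := by
      push_cast; rfl
    rw [h4, ZMod.natCast_self]
  have hij : i ≠ j ∧ i ≠ k := ⟨hji.symm, hki.symm⟩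
  let f : ({l : Fin (n + 1) // l ≠ j ∧ l ≠ k} → Fin q) →
      {z : Vc n (ZMod (p ^ w)) // Uni z ∧ ev (cm (ZMod (p ^ w)) a) z = 0 ∧
        ev (cm (ZMod (p ^ w)) b) z = 0} := fun s =>
    ⟨fun l => PadicInt.toZModPow w (y s l), by
      refine ⟨?_, ?_, ?_⟩
      · have h11 : PadicInt.toZModPow w (y s i) = 1 + (p : ZMod (p ^ w)) ^ (4 * e) *
            ((s ⟨i, hij⟩ : ℕ) : ZMod (p ^ w)) := by
          rw [hy1 s i hij, hxi, map_add, map_one, map_mul, map_pow, map_natCast, map_natCast]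
        have h12 : IsNilpotent ((p : ZMod (p ^ w)) ^ (4 * e) *
            ((s ⟨i, hij⟩ : ℕ) : ZMod (p ^ w))) := by
          refine Commute.isNilpotent_mul_right (Commute.all _ _) ?_
          exact hnil.pow_of_pos (by omega)
        have h13 : IsUnit (PadicInt.toZModPow w (y s i)) := by
          rw [h11]
          exact h12.isUnit_one_add
        obtain ⟨c, hc⟩ := h13.exists_left_inv
        refine ⟨Pi.single i c, ?_⟩
        have h14 : lin (Pi.single i c) (fun l => PadicInt.toZModPow w (y s l))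
            = c * PadicInt.toZModPow w (y s i) := by
          simp [lin, Pi.single_apply]
        rw [h14, hc]
      · have h15 := ev_map (PadicInt.toZModPow (p := p) w) (cm ℤ_[p] a) (y s)
        rw [ldhensel_cmmap, ldhensel_red p w _ (hya s)] at h15
        exact h15
      · have h15 := ev_map (PadicInt.toZModPow (p := p) w) (cm ℤ_[p] b) (y s)
        rw [ldhensel_cmmap, ldhensel_red p w _ (hyb s)] at h15
        exact h15⟩
  have hf : Function.Injective f := by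
    intro s s' hss
    funext ⟨l, hl⟩
    have h16 : PadicInt.toZModPow w (y s l) = PadicInt.toZModPow w (y s' l) :=
      congrFun (congrArg Subtype.val hss) l
    rw [hy1 s l hl, hy1 s' l hl, map_add, map_add] at h16
    have h17 := add_left_cancel h16
    rw [map_mul, map_mul, map_pow, map_natCast, map_natCast, map_natCast] at h17
    have h18 : ((p ^ (4 * e) * (s ⟨l, hl⟩ : ℕ) : ℕ) : ZMod (p ^ w))
        = ((p ^ (4 * e) * (s' ⟨l, hl⟩ : ℕ) : ℕ) : ZMod (p ^ w)) := by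
      push_cast
      exact h17
    have hlt : ∀ t : Fin q, p ^ (4 * e) * (t : ℕ) < p ^ w := by
      intro t
      have h19 : p ^ w = p ^ (4 * e) * q := by
        rw [hq, ← pow_add]
        congr 1
        omega
      rw [h19]
      exact Nat.mul_lt_mul_of_pos_left t.2 (pow_pos hp.pos _)
    have h20 := congrArg ZMod.val h18
    rw [ZMod.val_cast_of_lt (hlt _), ZMod.val_cast_of_lt (hlt _)] at h20
    exact Fin.ext (Nat.eq_of_mul_eq_mul_left (pow_pos hp.pos _) h20)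
  have hcard := Nat.card_le_card_of_injective f hf
  have h21 : Nat.card ({l : Fin (n + 1) // l ≠ j ∧ l ≠ k} → Fin q)
      = p ^ ((n - 1) * (w - 4 * e)) := by
    rw [Nat.card_fun, Nat.card_eq_fintype_card (α := Fin q), Fintype.card_fin,
      ldhensel_card n j k hjk, hq, ← pow_mul, mul_comm]
  rw [← h21]
  exact hcard

end Pool.Agent.Lib.MP_219881_nt
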