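import Pool.Agent.Lib.MP_219881_nt.LD_Ker

/-!
JOB LD_Lin.  The exceptional classes.  (Cubic version with proof: /team-store/MP_1ad228_ntC_LD_Exc.lean.)

LD_lin.  Fix `x` and `i` with `x i = 1`.  The additive map
`ψ : a ↦ (fun j => if j = i then ev a x else dev a x j)` from `Mt n (ZMod m)` to `Vc n (ZMod m)` is
surjective, and `{a // ev a x = 0 ∧ ∀ j ≠ i, dev a x j = 0}` is its kernel.
Surjectivity: for a target `t`, take the matrix `a j k = if k = i then b j else 0` with `b j = t j` (`j ≠ i`),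
`b i = t i - ∑_{j ≠ i} t j * x j`. Then (using `x i = 1`) `ev a x = ∑_j b j x j = t i`, and for `j ≠ i`
`dev a x j = ∑_k (a j k + a k j) x k = b j` (the terms `a k j` vanish since `j ≠ i`).

LD_exc.  `{(a,b) // Exc m a b}` is covered by the sets `E(i, x, t, case)`, `x i = 1`. Case 1:
`(a, b) ↦ (a + t b, b)` is injective into `{a' // ev a' x = 0 ∧ ∀ j ≠ i, dev a' x j = 0} × {b // ev b x = 0}`
(`ev` and `dev` are linear in the matrix), which has `K1 * K2` elements with `K1 * m^(n+1) = m^V` (LD_lin) and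
`K2 * m = m^V` (LD_ker1; `x` is unimodular: `u = Pi.single i 1`). Case 2: the same with `(t a + b, a)`. The number
of `(i, x, t, case)` is `(n+1) * m^n * m * 2`. So
`#Exc * m ≤ 2 (n+1) m^(n+1) K1 K2 m = 2 (n+1) (m^V)^2`.
-/

namespace Pool.Agent.Lib.MP_219881_nt

open Classical

private theorem LD_Lin_dadd {n : ℕ} {R : Type*} [CommRing R] (a b : Mt n R) (x : Vc n R)
    (j : Fin (n + 1)) : dev (a + b) x j = dev a x j + dev b x j := by
  simp only [dev, Pi.add_apply, ← Finset.sum_add_distrib]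
  refine Finset.sum_congr rfl fun k _ => ?_
  ring

private theorem LD_Lin_dsub {n : ℕ} {R : Type*} [CommRing R] (a b : Mt n R) (x : Vc n R)
    (j : Fin (n + 1)) : dev (a - b) x j = dev a x j - dev b x j := by
  simp only [dev, Pi.sub_apply, ← Finset.sum_sub_distrib]
  refine Finset.sum_congr rfl fun k _ => ?_
  ring

private theorem LD_Lin_dsmul {n : ℕ} {R : Type*} [CommRing R] (t : R) (a : Mt n R) (x : Vc n R)
    (j : Fin (n + 1)) : dev (t • a) x j = t * dev a x j := by
  simp only [dev, Pi.smul_apply, smul_eq_mul, Finset.mul_sum]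
  refine Finset.sum_congr rfl fun k _ => ?_
  ring

/-- The section. -/
private noncomputable def LD_Lin_sec {n : ℕ} {R : Type*} [CommRing R] (i : Fin (n + 1))
    (x t : Vc n R) : Mt n R :=
  fun j k => if k = i then
    (if j = i then t i - ∑ j' ∈ Finset.univ.erase i, t j' * x j' else t j) else 0

private theorem LD_Lin_sec_ev {n : ℕ} {R : Type*} [CommRing R] (i : Fin (n + 1)) (x t : Vc n R)
    (hi : x i = 1) : ev (LD_Lin_sec i x t) x = t i := by
  have h1 : ev (LD_Lin_sec i x t) x = ∑ j, (if j = i then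
      t i - ∑ j' ∈ Finset.univ.erase i, t j' * x j' else t j) * x j := by
    unfold ev LD_Lin_sec
    refine Finset.sum_congr rfl fun j _ => ?_
    rw [Finset.sum_eq_single i]
    · rw [if_pos rfl, hi, mul_one]
    · intro k _ hk
      rw [if_neg hk, zero_mul]
    · intro h
      exact absurd (Finset.mem_univ _) h
  rw [h1, ← Finset.add_sum_erase _ _ (Finset.mem_univ i), if_pos rfl, hi, mul_one]
  have h3 : ∑ j ∈ Finset.univ.erase i, (if j = i then
      t i - ∑ j' ∈ Finset.univ.erase i, t j' * x j' else t j) * x j =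
      ∑ j' ∈ Finset.univ.erase i, t j' * x j' := by
    refine Finset.sum_congr rfl fun j hj => ?_
    rw [if_neg (Finset.ne_of_mem_erase hj)]
  rw [h3, sub_add_cancel]

private theorem LD_Lin_sec_dev {n : ℕ} {R : Type*} [CommRing R] (i : Fin (n + 1)) (x t : Vc n R)
    (hi : x i = 1) (j : Fin (n + 1)) (hj : j ≠ i) : dev (LD_Lin_sec i x t) x j = t j := by
  unfold dev LD_Lin_sec
  rw [Finset.sum_eq_single i]
  · rw [if_pos rfl, if_neg hj, if_neg hj, hi, add_zero, mul_one]
  · intro k _ hk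
    rw [if_neg hk, if_neg hj, add_zero, zero_mul]
  · intro h
    exact absurd (Finset.mem_univ _) h

theorem LD_lin {n : ℕ} (m : ℕ) [NeZero m] (x : Vc n (ZMod m)) (i : Fin (n + 1)) (hi : x i = 1) :
    Nat.card {a : Mt n (ZMod m) // ev a x = 0 ∧ ∀ j, j ≠ i → dev a x j = 0} * m ^ (n + 1)
      = m ^ (n + 1) ^ 2 := by
  let P : Mt n (ZMod m) → Vc n (ZMod m) := fun a j => if j = i then ev a x else dev a x j
  have hPs : ∀ t, P (LD_Lin_sec i x t) = t := by
    intro t
    funext j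
    by_cases hj : j = i
    · subst hj
      exact (if_pos rfl).trans (LD_Lin_sec_ev j x t hi)
    · exact (if_neg hj).trans (LD_Lin_sec_dev i x t hi j hj)
  have hPadd : ∀ a b, P (a + b) = P a + P b := by
    intro a b
    funext j
    simp only [P, Pi.add_apply]
    split_ifs
    · exact ev_add a b x
    · exact LD_Lin_dadd a b x j
  have hPsub : ∀ a b, P (a - b) = P a - P b := by
    intro a b
    funext j
    simp only [P, Pi.sub_apply]
    split_ifs
    · exact ev_sub a b x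
    · exact LD_Lin_dsub a b x j
  have hPk : ∀ a, P a = 0 ↔ (ev a x = 0 ∧ ∀ j, j ≠ i → dev a x j = 0) := by
    intro a
    constructor
    · intro h
      refine ⟨?_, fun j hj => ?_⟩
      · have := congrFun h i
        simpa [P] using this
      · have := congrFun h j
        simpa [P, hj] using this
    · rintro ⟨h1, h2⟩
      funext j
      by_cases hj : j = i
      · simp [P, hj, h1]
      · simp [P, hj, h2 j hj]
  have e : Mt n (ZMod m) ≃
      {a : Mt n (ZMod m) // ev a x = 0 ∧ ∀ j, j ≠ i → dev a x j = 0} × Vc n (ZMod m) :=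
    { toFun := fun a => (⟨a - LD_Lin_sec i x (P a), by
        rw [← hPk, hPsub, hPs, sub_self]⟩, P a)
      invFun := fun p => p.1.1 + LD_Lin_sec i x p.2
      left_inv := fun a => sub_add_cancel _ _
      right_inv := by
        rintro ⟨⟨k, hk⟩, t⟩
        have h1 : P (k + LD_Lin_sec i x t) = t := by
          rw [hPadd, hPs, (hPk k).2 hk, zero_add]
        refine Prod.ext (Subtype.ext ?_) h1
        change k + LD_Lin_sec i x t - LD_Lin_sec i x (P (k + LD_Lin_sec i x t)) = k
        rw [h1, add_sub_cancel_right] }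
  have h1 := Nat.card_congr e
  rw [Nat.card_prod] at h1
  have h2 : Nat.card (Mt n (ZMod m)) = m ^ (n + 1) ^ 2 := by
    rw [Nat.card_eq_fintype_card, Fintype.card_fun, Fintype.card_fun, ZMod.card,
      Fintype.card_fin, ← pow_mul, sq]
  have h3 : Nat.card (Vc n (ZMod m)) = m ^ (n + 1) := by
    rw [Nat.card_eq_fintype_card, Fintype.card_fun, ZMod.card, Fintype.card_fin]
  rw [h2, h3] at h1
  exact h1.symm

private theorem LD_Lin_uni {n : ℕ} {m : ℕ} {x : Vc n (ZMod m)} {i : Fin (n + 1)} (hi : x i = 1) :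
    Uni x := by
  refine ⟨Pi.single i 1, ?_⟩
  rw [lin_single, hi]

/-- The condition of one class. -/
private def LD_Lin_C {n m : ℕ} (x : Vc n (ZMod m)) (i : Fin (n + 1)) (t : ZMod m) (c : Bool)
    (ab : Mt n (ZMod m) × Mt n (ZMod m)) : Prop :=
  ev ab.1 x = 0 ∧ ev ab.2 x = 0 ∧
    ((c = true ∧ ∀ j, j ≠ i → dev ab.1 x j + t * dev ab.2 x j = 0) ∨
      (c = false ∧ ∀ j, j ≠ i → t * dev ab.1 x j + dev ab.2 x j = 0))

private theorem LD_Lin_one {n : ℕ} (m : ℕ) [NeZero m] (x : Vc n (ZMod m)) (i : Fin (n + 1))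
    (t : ZMod m) (hi : x i = 1) (c : Bool) :
    Nat.card {ab : Mt n (ZMod m) × Mt n (ZMod m) // LD_Lin_C x i t c ab} * (m ^ (n + 1) * m) ≤
      (m ^ (n + 1) ^ 2) ^ 2 := by
  have k1 := LD_lin m x i hi
  have k2 := LD_ker1 m x (LD_Lin_uni hi)
  have key : Nat.card {ab : Mt n (ZMod m) × Mt n (ZMod m) // LD_Lin_C x i t c ab} ≤
      Nat.card {a : Mt n (ZMod m) // ev a x = 0 ∧ ∀ j, j ≠ i → dev a x j = 0} *
        Nat.card {a : Mt n (ZMod m) // ev a x = 0} := by
    rw [← Nat.card_prod]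
    cases c with
    | true =>
      let F : {ab : Mt n (ZMod m) × Mt n (ZMod m) // LD_Lin_C x i t true ab} →
          {a : Mt n (ZMod m) // ev a x = 0 ∧ ∀ j, j ≠ i → dev a x j = 0} ×
            {a : Mt n (ZMod m) // ev a x = 0} := fun p =>
        (⟨p.1.1 + t • p.1.2, by
          obtain ⟨⟨a, b⟩, h1, h2, h3⟩ := p
          rcases h3 with h3 | h3
          · refine ⟨?_, fun j hj => ?_⟩
            · show ev (a + t • b) x = 0
              have h1' : ev a x = 0 := h1
              have h2' : ev b x = 0 := h2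
              rw [ev_add, ev_smul', h1', h2', mul_zero, add_zero]
            · show dev (a + t • b) x j = 0
              rw [LD_Lin_dadd, LD_Lin_dsmul]
              exact h3.2 j hj
          · exact absurd h3.1 (by simp)⟩, ⟨p.1.2, p.2.2.1⟩)
      refine Nat.card_le_card_of_injective F ?_
      rintro ⟨⟨a, b⟩, h⟩ ⟨⟨a', b'⟩, h'⟩ he
      have e1 : a + t • b = a' + t • b' := congrArg (fun z => z.1.1) he
      have e2 : b = b' := congrArg (fun z => z.2.1) he
      subst e2
      have e3 : a = a' := add_right_cancel e1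
      subst e3
      rfl
    | false =>
      let F : {ab : Mt n (ZMod m) × Mt n (ZMod m) // LD_Lin_C x i t false ab} →
          {a : Mt n (ZMod m) // ev a x = 0 ∧ ∀ j, j ≠ i → dev a x j = 0} ×
            {a : Mt n (ZMod m) // ev a x = 0} := fun p =>
        (⟨t • p.1.1 + p.1.2, by
          obtain ⟨⟨a, b⟩, h1, h2, h3⟩ := p
          rcases h3 with h3 | h3
          · exact absurd h3.1 (by simp)
          · refine ⟨?_, fun j hj => ?_⟩
            · show ev (t • a + b) x = 0
              have h1' : ev a x = 0 := h1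
              have h2' : ev b x = 0 := h2
              rw [ev_add, ev_smul', h1', h2', mul_zero, add_zero]
            · show dev (t • a + b) x j = 0
              rw [LD_Lin_dadd, LD_Lin_dsmul]
              exact h3.2 j hj⟩, ⟨p.1.1, p.2.1⟩)
      refine Nat.card_le_card_of_injective F ?_
      rintro ⟨⟨a, b⟩, h⟩ ⟨⟨a', b'⟩, h'⟩ he
      have e1 : t • a + b = t • a' + b' := congrArg (fun z => z.1.1) he
      have e2 : a = a' := congrArg (fun z => z.2.1) he
      subst e2
      have e3 : b = b' := add_left_cancel e1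
      subst e3
      rfl
  calc _ ≤ (Nat.card {a : Mt n (ZMod m) // ev a x = 0 ∧ ∀ j, j ≠ i → dev a x j = 0} *
        Nat.card {a : Mt n (ZMod m) // ev a x = 0}) * (m ^ (n + 1) * m) :=
        Nat.mul_le_mul_right _ key
    _ = (Nat.card {a : Mt n (ZMod m) // ev a x = 0 ∧ ∀ j, j ≠ i → dev a x j = 0} *
        m ^ (n + 1)) * (Nat.card {a : Mt n (ZMod m) // ev a x = 0} * m) := by ring
    _ = (m ^ (n + 1) ^ 2) ^ 2 := by rw [k1, k2, ← pow_two]

theorem LD_exc (n m : ℕ) [NeZero m] :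
    Nat.card {ab : Mt n (ZMod m) × Mt n (ZMod m) // Exc m ab.1 ab.2} * m ≤
      2 * (n + 1) * (m ^ (n + 1) ^ 2) ^ 2 := by
  let Q := {p : (Fin (n + 1) × Vc n (ZMod m)) × (ZMod m × Bool) // p.1.2 p.1.1 = 1}
  let T : Q → Type := fun p =>
    {ab : Mt n (ZMod m) × Mt n (ZMod m) // LD_Lin_C p.1.1.2 p.1.1.1 p.1.2.1 p.1.2.2 ab}
  let F : (Σ p : Q, T p) → {ab : Mt n (ZMod m) × Mt n (ZMod m) // Exc m ab.1 ab.2} := fun s =>
    ⟨s.2.1, s.1.1.1.2, s.1.1.1.1, s.1.1.2.1, s.1.2, s.2.2.1, s.2.2.2.1, by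
      rcases s.2.2.2.2 with h | h
      · exact Or.inl h.2
      · exact Or.inr h.2⟩
  have hF : Function.Surjective F := by
    rintro ⟨ab, x, i, t, hi, h1, h2, h3⟩
    rcases h3 with h3 | h3
    · exact ⟨⟨⟨((i, x), (t, true)), hi⟩, ⟨ab, h1, h2, Or.inl ⟨rfl, h3⟩⟩⟩, rfl⟩
    · exact ⟨⟨⟨((i, x), (t, false)), hi⟩, ⟨ab, h1, h2, Or.inr ⟨rfl, h3⟩⟩⟩, rfl⟩
  have h1 : Nat.card {ab : Mt n (ZMod m) × Mt n (ZMod m) // Exc m ab.1 ab.2} ≤
      Nat.card (Σ p : Q, T p) := Nat.card_le_card_of_surjective F hF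
  have h2 : Nat.card (Σ p : Q, T p) * (m ^ (n + 1) * m) ≤
      Nat.card Q * (m ^ (n + 1) ^ 2) ^ 2 := by
    rw [Nat.card_sigma, Finset.sum_mul]
    calc ∑ p : Q, Nat.card (T p) * (m ^ (n + 1) * m) ≤ ∑ _p : Q, (m ^ (n + 1) ^ 2) ^ 2 :=
          Finset.sum_le_sum fun p _ => LD_Lin_one m p.1.1.2 p.1.1.1 p.1.2.1 p.2 p.1.2.2
      _ = Nat.card Q * (m ^ (n + 1) ^ 2) ^ 2 := by
          rw [Finset.sum_const, Finset.card_univ, smul_eq_mul, Nat.card_eq_fintype_card]
  let G : Q → (Fin (n + 1) × (Fin n → ZMod m)) × (ZMod m × Bool) := fun p =>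
    ((p.1.1.1, fun k => p.1.1.2 (p.1.1.1.succAbove k)), p.1.2)
  have hG : Function.Injective G := by
    rintro ⟨⟨⟨i, x⟩, y⟩, hx⟩ ⟨⟨⟨i', x'⟩, y'⟩, hx'⟩ h
    have e1 : i = i' := congrArg (fun z => z.1.1) h
    subst e1
    have e2 : (fun k => x (i.succAbove k)) = fun k => x' (i.succAbove k) :=
      congrArg (fun z => z.1.2) h
    have e4 : y = y' := congrArg (fun z => z.2) h
    have e3 : x = x' := by
      funext j
      rcases Fin.eq_self_or_eq_succAbove i j with hj | ⟨k, hk⟩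
      · subst hj
        exact hx.trans hx'.symm
      · rw [hk]
        exact congrFun e2 k
    subst e3 e4
    rfl
  have h4 : Nat.card Q ≤ ((n + 1) * m ^ n) * (m * 2) := by
    refine (Nat.card_le_card_of_injective G hG).trans_eq ?_
    rw [Nat.card_prod, Nat.card_prod, Nat.card_prod, Nat.card_eq_fintype_card,
      Nat.card_eq_fintype_card, Nat.card_eq_fintype_card, Nat.card_eq_fintype_card,
      Fintype.card_fun, ZMod.card, Fintype.card_fin, Fintype.card_fin, Fintype.card_bool]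
  have h5 : (Nat.card {ab : Mt n (ZMod m) × Mt n (ZMod m) // Exc m ab.1 ab.2} * m) *
      m ^ (n + 1) ≤ (2 * (n + 1) * (m ^ (n + 1) ^ 2) ^ 2) * m ^ (n + 1) := by
    calc _ = Nat.card {ab : Mt n (ZMod m) × Mt n (ZMod m) // Exc m ab.1 ab.2} *
          (m ^ (n + 1) * m) := by ring
      _ ≤ Nat.card (Σ p : Q, T p) * (m ^ (n + 1) * m) := Nat.mul_le_mul_right _ h1
      _ ≤ Nat.card Q * (m ^ (n + 1) ^ 2) ^ 2 := h2
      _ ≤ (((n + 1) * m ^ n) * (m * 2)) * (m ^ (n + 1) ^ 2) ^ 2 := Nat.mul_le_mul_right _ h4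
      _ = (2 * (n + 1) * (m ^ (n + 1) ^ 2) ^ 2) * m ^ (n + 1) := by
          rw [pow_succ m n]
          ring
  exact Nat.le_of_mul_le_mul_right h5 (pow_pos (NeZero.pos m) _)

end Pool.Agent.Lib.MP_219881_nt
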