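import Pool.Agent.Lib.MP_219881_nt.LD_MomC
import Pool.Agent.Lib.MP_219881_nt.LD_Lin
import Pool.Agent.Lib.MP_219881_nt.LD_Hensel
import Pool.Agent.Lib.MP_219881_nt.LD_Crt
import Pool.Agent.Lib.MP_219881_nt.LD_Equi

/-!
JOB LocDens.  Assembly of the local densities.  (Cubic version with complete proof: file
Pool/Agent/Lib/MP_1ad228_ntC/LocDens.lean inside /team-store/MP_1ad228_ntC_LocDens_done.tgz; adapt it: pairs, the
condition `sm * W^2 < τ * W^(n+1)`, the exponents `(n-1)(w-4e)` and `4e ≤ w`; `τ = (1/2) ∏_{p ≤ p0} p^(-4e(n-1))`.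
From `LD_exc`: `#Exc ≤ 2(n+1)(m^V)^2/m` for `m = p^e`, so the proportion in the box is at most
`4(n+1)/p^e`. All LD_ files are other jobs.)
-/

namespace Pool.Agent.Lib.MP_219881_nt

open Classical

/-- Counting for the singular classes. -/
private theorem locdens_excBox (n p e : ℕ) (hp : p.Prime) : ∃ A0 : ℕ, ∀ A ≥ A0,
    ((((Box n A) ×ˢ (Box n A)).filter fun ab =>
        Exc (p ^ e) (cm (ZMod (p ^ e)) ab.1) (cm (ZMod (p ^ e)) ab.2)).card : ℝ) ≤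
      4 * (n + 1) / (p : ℝ) ^ e * ((2 * A + 1 : ℝ) ^ (n + 1) ^ 2) ^ 2 := by
  have : NeZero (p ^ e) := ⟨(pow_pos hp.pos e).ne'⟩
  obtain ⟨A0, hA0⟩ := LD_equi n (p ^ e)
  refine ⟨A0, fun A hA => ?_⟩
  have h1 := hA0 A hA (Finset.univ.filter fun ab : Mt n (ZMod (p ^ e)) × Mt n (ZMod (p ^ e)) =>
    Exc (p ^ e) ab.1 ab.2)
  have h2 : (((Box n A) ×ˢ (Box n A)).filter fun ab =>
      (cm (ZMod (p ^ e)) ab.1, cm (ZMod (p ^ e)) ab.2) ∈
      (Finset.univ.filter fun ab : Mt n (ZMod (p ^ e)) × Mt n (ZMod (p ^ e)) =>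
        Exc (p ^ e) ab.1 ab.2)) =
      ((Box n A) ×ˢ (Box n A)).filter fun ab =>
        Exc (p ^ e) (cm (ZMod (p ^ e)) ab.1) (cm (ZMod (p ^ e)) ab.2) := by
    refine Finset.filter_congr fun ab _ => ?_
    simp only [Finset.mem_filter, Finset.mem_univ, true_and]
  rw [h2] at h1
  refine h1.trans ?_
  have h3 : (Finset.univ.filter fun ab : Mt n (ZMod (p ^ e)) × Mt n (ZMod (p ^ e)) =>
      Exc (p ^ e) ab.1 ab.2).card * p ^ e ≤ 2 * (n + 1) * ((p ^ e) ^ (n + 1) ^ 2) ^ 2 := by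
    have := LD_exc n (p ^ e)
    rwa [Nat.card_eq_fintype_card, Fintype.card_subtype] at this
  have h4 : ((Finset.univ.filter fun ab : Mt n (ZMod (p ^ e)) × Mt n (ZMod (p ^ e)) =>
      Exc (p ^ e) ab.1 ab.2).card : ℝ) * (p : ℝ) ^ e ≤
      2 * (n + 1) * (((p : ℝ) ^ e) ^ (n + 1) ^ 2) ^ 2 := by
    exact_mod_cast h3
  have hpe : (0 : ℝ) < (p : ℝ) ^ e := pow_pos (by exact_mod_cast hp.pos) e
  generalize ((Finset.univ.filter fun ab : Mt n (ZMod (p ^ e)) × Mt n (ZMod (p ^ e)) =>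
      Exc (p ^ e) ab.1 ab.2).card : ℝ) = c at h4
  have h5 : 2 * (c / ((((p ^ e : ℕ) : ℝ) ^ (n + 1) ^ 2) ^ 2)) ≤ 4 * (n + 1) / (p : ℝ) ^ e := by
    push_cast
    have h6 : c / ((((p : ℝ) ^ e) ^ (n + 1) ^ 2) ^ 2) ≤ 2 * (n + 1) / (p : ℝ) ^ e := by
      rw [div_le_div_iff₀ (by positivity) hpe]
      exact h4
    calc 2 * (c / ((((p : ℝ) ^ e) ^ (n + 1) ^ 2) ^ 2)) ≤ 2 * (2 * (n + 1) / (p : ℝ) ^ e) :=
          mul_le_mul_of_nonneg_left h6 (by norm_num)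
      _ = 4 * (n + 1) / (p : ℝ) ^ e := by ring
  exact mul_le_mul_of_nonneg_right h5 (by positivity)

/-- Counting for the classes with few zeros. -/
private theorem locdens_fewBox (n : ℕ) (hn : 5 ≤ n) (m : ℕ) [NeZero m] (p0 : ℕ) (hp0 : 8 ≤ p0)
    (hd : ∀ d, d ∣ m → 1 < d → p0 < d) : ∃ A0 : ℕ, ∀ A ≥ A0,
    ((((Box n A) ×ˢ (Box n A)).filter fun ab =>
        (sm m (cm (ZMod m) ab.1) (cm (ZMod m) ab.2) : ℝ) * (m : ℝ) ^ 2 ≤
          (m : ℝ) ^ (n + 1) / 2).card : ℝ) ≤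
      32 / (p0 : ℝ) * ((2 * A + 1 : ℝ) ^ (n + 1) ^ 2) ^ 2 := by
  obtain ⟨A0, hA0⟩ := LD_equi n m
  refine ⟨A0, fun A hA => ?_⟩
  have h1 := hA0 A hA (Finset.univ.filter fun ab : Mt n (ZMod m) × Mt n (ZMod m) =>
    (sm m ab.1 ab.2 : ℝ) * (m : ℝ) ^ 2 ≤ (m : ℝ) ^ (n + 1) / 2)
  have h2 : (((Box n A) ×ˢ (Box n A)).filter fun ab => (cm (ZMod m) ab.1, cm (ZMod m) ab.2) ∈
      (Finset.univ.filter fun ab : Mt n (ZMod m) × Mt n (ZMod m) =>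
        (sm m ab.1 ab.2 : ℝ) * (m : ℝ) ^ 2 ≤ (m : ℝ) ^ (n + 1) / 2)) =
      ((Box n A) ×ˢ (Box n A)).filter fun ab =>
        (sm m (cm (ZMod m) ab.1) (cm (ZMod m) ab.2) : ℝ) * (m : ℝ) ^ 2 ≤
          (m : ℝ) ^ (n + 1) / 2 := by
    refine Finset.filter_congr fun ab _ => ?_
    simp only [Finset.mem_filter, Finset.mem_univ, true_and]
  rw [h2] at h1
  refine h1.trans ?_
  have h3 := LD_M1 n hn m p0 hp0 hd
  have hm : (0 : ℝ) < (m : ℝ) := by exact_mod_cast Nat.pos_of_ne_zero (NeZero.ne m)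
  generalize ((Finset.univ.filter fun ab : Mt n (ZMod m) × Mt n (ZMod m) =>
      (sm m ab.1 ab.2 : ℝ) * (m : ℝ) ^ 2 ≤ (m : ℝ) ^ (n + 1) / 2).card : ℝ) = c at h3
  have h5 : 2 * (c / (((m : ℝ) ^ (n + 1) ^ 2) ^ 2)) ≤ 32 / (p0 : ℝ) := by
    have h6 : c / (((m : ℝ) ^ (n + 1) ^ 2) ^ 2) ≤ 16 / (p0 : ℝ) := by
      rw [div_le_iff₀ (by positivity)]
      exact h3
    calc 2 * (c / (((m : ℝ) ^ (n + 1) ^ 2) ^ 2)) ≤ 2 * (16 / (p0 : ℝ)) :=
          mul_le_mul_of_nonneg_left h6 (by norm_num)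
      _ = 32 / (p0 : ℝ) := by ring
  exact mul_le_mul_of_nonneg_right h5 (by positivity)

/-- Primes up to `w`, with a condition. -/
private theorem locdens_split (w p0 : ℕ) (hw : p0 ≤ w) :
    WW w = (∏ p ∈ (Finset.range (p0 + 1)).filter Nat.Prime, p ^ w) *
      ∏ p ∈ ((Finset.range (w + 1)).filter Nat.Prime).filter (fun p => ¬ p ≤ p0), p ^ w := by
  unfold WW
  rw [← Finset.prod_filter_mul_prod_filter_not ((Finset.range (w + 1)).filter Nat.Prime)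
    (fun p => p ≤ p0)]
  have h : ((Finset.range (w + 1)).filter Nat.Prime).filter (fun p => p ≤ p0) =
      (Finset.range (p0 + 1)).filter Nat.Prime := by
    ext p
    simp only [Finset.mem_filter, Finset.mem_range]
    constructor
    · rintro ⟨⟨_, h2⟩, h3⟩
      exact ⟨by omega, h2⟩
    · rintro ⟨h1, h2⟩
      exact ⟨⟨by omega, h2⟩, by omega⟩
  rw [h]

/-- Lower bound for the number of zeros outside the exceptional sets. -/
private theorem locdens_lower (n : ℕ) (hn : 5 ≤ n) (w p0 e : ℕ) (hw : p0 ≤ w) (he : 1 ≤ e)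
    (hwe : 4 * e ≤ w) (a b : Mt n ℤ) (hsol : PSol a b)
    (h1 : ∀ p ∈ (Finset.range (p0 + 1)).filter Nat.Prime,
      ¬ Exc (p ^ e) (cm (ZMod (p ^ e)) a) (cm (ZMod (p ^ e)) b))
    (W2 : ℕ) (hW2 : W2 =
      ∏ p ∈ ((Finset.range (w + 1)).filter Nat.Prime).filter (fun p => ¬ p ≤ p0), p ^ w)
    (h2 : (W2 : ℝ) ^ (n + 1) / 2 <
      (sm W2 (cm (ZMod W2) a) (cm (ZMod W2) b) : ℝ) * (W2 : ℝ) ^ 2) :
    (1 / 2 * ∏ p ∈ (Finset.range (p0 + 1)).filter Nat.Prime,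
        (1 / ((p : ℝ) ^ (4 * e * (n - 1))))) * (WW w : ℝ) ^ (n + 1) ≤
      (sm (WW w) (cm (ZMod (WW w)) a) (cm (ZMod (WW w)) b) : ℝ) * (WW w : ℝ) ^ 2 := by
  have hs := locdens_split w p0 hw
  rw [← hW2] at hs
  have hW1 : (∏ p ∈ (Finset.range (p0 + 1)).filter Nat.Prime, p ^ w) ≠ 0 := by
    refine Finset.prod_ne_zero_iff.2 fun p hp => ?_
    exact (pow_pos (Finset.mem_filter.1 hp).2.pos _).ne'
  have hW2' : W2 ≠ 0 := by
    rw [hW2]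
    refine Finset.prod_ne_zero_iff.2 fun p hp => ?_
    exact (pow_pos (Finset.mem_filter.1 (Finset.mem_filter.1 hp).1).2.pos _).ne'
  have hcop : (∏ p ∈ (Finset.range (p0 + 1)).filter Nat.Prime, p ^ w).Coprime W2 := by
    rw [hW2]
    refine Nat.Coprime.prod_left fun p hp => Nat.Coprime.prod_right fun r hr => ?_
    simp only [Finset.mem_filter, Finset.mem_range] at hp hr
    refine Nat.Coprime.pow _ _ ((Nat.coprime_primes hp.2 hr.1.2).2 ?_)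
    omega
  have hmul := LD_mul _ _ hW1 hW2' hcop a b
  have hprod := LD_prod ((Finset.range (p0 + 1)).filter Nat.Prime) (fun p => p ^ w)
    (fun p hp => (pow_pos (Finset.mem_filter.1 hp).2.pos _).ne')
    (fun p hp r hr hpr => Nat.Coprime.pow _ _
      ((Nat.coprime_primes (Finset.mem_filter.1 hp).2 (Finset.mem_filter.1 hr).2).2 hpr)) a b
  have hloc : ∏ p ∈ (Finset.range (p0 + 1)).filter Nat.Prime, p ^ ((n - 1) * (w - 4 * e)) ≤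
      ∏ p ∈ (Finset.range (p0 + 1)).filter Nat.Prime,
        sm (p ^ w) (cm (ZMod (p ^ w)) a) (cm (ZMod (p ^ w)) b) := by
    refine Finset.prod_le_prod' fun p hp => ?_
    have : Fact p.Prime := ⟨(Finset.mem_filter.1 hp).2⟩
    exact LD_hensel p e w he hwe a b (hsol p) (h1 p hp)
  have hnat : (∏ p ∈ (Finset.range (p0 + 1)).filter Nat.Prime, p ^ ((n - 1) * (w - 4 * e))) *
      sm W2 (cm (ZMod W2) a) (cm (ZMod W2) b) ≤
      sm (WW w) (cm (ZMod (WW w)) a) (cm (ZMod (WW w)) b) := by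
    rw [hs]
    exact (Nat.mul_le_mul_right _ (hloc.trans hprod)).trans hmul
  have hall : ((∏ p ∈ (Finset.range (p0 + 1)).filter Nat.Prime,
      p ^ ((n - 1) * (w - 4 * e)) : ℕ) : ℝ) *
      (sm W2 (cm (ZMod W2) a) (cm (ZMod W2) b) : ℝ) ≤
      (sm (WW w) (cm (ZMod (WW w)) a) (cm (ZMod (WW w)) b) : ℝ) := by
    exact_mod_cast hnat
  have hcast : (WW w : ℝ) = (∏ p ∈ (Finset.range (p0 + 1)).filter Nat.Prime, (p : ℝ) ^ w) *
      (W2 : ℝ) := by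
    rw [hs]
    push_cast
    ring
  have hr : ∀ p ∈ (Finset.range (p0 + 1)).filter Nat.Prime,
      (1 / ((p : ℝ) ^ (4 * e * (n - 1)))) * ((p : ℝ) ^ w) ^ (n + 1) =
        (p : ℝ) ^ ((n - 1) * (w - 4 * e)) * ((p : ℝ) ^ w) ^ 2 := by
    intro p hp
    have hp0 : (0 : ℝ) < (p : ℝ) := by exact_mod_cast (Finset.mem_filter.1 hp).2.pos
    rw [one_div, inv_mul_eq_div, div_eq_iff (pow_pos hp0 _).ne', ← pow_mul, ← pow_mul, ← pow_add,
      ← pow_add]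
    obtain ⟨k, rfl⟩ : ∃ k, n = k + 1 := ⟨n - 1, by omega⟩
    obtain ⟨v, rfl⟩ : ∃ v, w = 4 * e + v := ⟨w - 4 * e, by omega⟩
    rw [Nat.add_sub_cancel, Nat.add_sub_cancel_left]
    congr 1
    ring
  have hstep : (1 / 2 * ∏ p ∈ (Finset.range (p0 + 1)).filter Nat.Prime,
        (1 / ((p : ℝ) ^ (4 * e * (n - 1))))) * (WW w : ℝ) ^ (n + 1) =
      ((∏ p ∈ (Finset.range (p0 + 1)).filter Nat.Prime, (p : ℝ) ^ ((n - 1) * (w - 4 * e))) *
        (∏ p ∈ (Finset.range (p0 + 1)).filter Nat.Prime, (p : ℝ) ^ w) ^ 2) *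
        ((W2 : ℝ) ^ (n + 1) / 2) := by
    rw [hcast, mul_pow, ← Finset.prod_pow, ← Finset.prod_pow, ← Finset.prod_mul_distrib,
      ← Finset.prod_congr rfl hr, Finset.prod_mul_distrib]
    ring
  rw [hstep]
  have hpos : 0 ≤ (∏ p ∈ (Finset.range (p0 + 1)).filter Nat.Prime,
      (p : ℝ) ^ ((n - 1) * (w - 4 * e))) *
        (∏ p ∈ (Finset.range (p0 + 1)).filter Nat.Prime, (p : ℝ) ^ w) ^ 2 := by positivity
  refine (mul_le_mul_of_nonneg_left h2.le hpos).trans ?_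
  have hall2 := mul_le_mul_of_nonneg_right hall (sq_nonneg (WW w : ℝ))
  refine le_trans (le_of_eq ?_) hall2
  rw [hcast]
  push_cast
  ring

theorem locDens (n : ℕ) (hn : 5 ≤ n) (ε : ℝ) (hε : 0 < ε) : ∃ τ : ℝ, 0 < τ ∧ ∃ w0 : ℕ,
    ∀ w ≥ w0, ∃ A0 : ℕ, ∀ A ≥ A0,
    ((((Box n A) ×ˢ (Box n A)).filter fun ab => PSol ab.1 ab.2 ∧
        (sm (WW w) (cm (ZMod (WW w)) ab.1) (cm (ZMod (WW w)) ab.2) : ℝ) * (WW w : ℝ) ^ 2
          < τ * (WW w : ℝ) ^ (n + 1)).card : ℝ)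
      ≤ ε * ((2 * A + 1 : ℝ) ^ (n + 1) ^ 2) ^ 2 := by
  obtain ⟨p1, hp1⟩ := exists_nat_gt (64 / ε)
  obtain ⟨p0, hp0def⟩ : ∃ p0 : ℕ, p0 = p1 + 8 := ⟨_, rfl⟩
  have hp08 : 8 ≤ p0 := by omega
  have hp0pos : (0 : ℝ) < (p0 : ℝ) := by exact_mod_cast (by omega : 0 < p0)
  have hp0 : 32 / (p0 : ℝ) ≤ ε / 2 := by
    rw [div_le_div_iff₀ hp0pos (by norm_num)]
    have h1 : 64 < p1 * ε := by
      rwa [div_lt_iff₀ hε] at hp1
    have h2 : (p0 : ℝ) = p1 + 8 := by rw [hp0def]; push_cast; ring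
    rw [h2]
    nlinarith
  obtain ⟨e1, he1⟩ := pow_unbounded_of_one_lt (8 * ((n : ℝ) + 1) * (p0 + 1) / ε)
    (by norm_num : (1 : ℝ) < 2)
  obtain ⟨e, hedef⟩ : ∃ e : ℕ, e = e1 + 1 := ⟨_, rfl⟩
  have he : 1 ≤ e := by omega
  have he2 : 8 * ((n : ℝ) + 1) * ((p0 : ℝ) + 1) / ε ≤ 2 ^ e := by
    refine he1.le.trans ?_
    exact pow_le_pow_right₀ (by norm_num) (by omega)
  obtain ⟨P, hP⟩ : ∃ P : Finset ℕ, P = (Finset.range (p0 + 1)).filter Nat.Prime := ⟨_, rfl⟩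
  refine ⟨1 / 2 * ∏ p ∈ P, (1 / ((p : ℝ) ^ (4 * e * (n - 1)))), ?_, 4 * e + p0, fun w hw => ?_⟩
  · refine mul_pos (by norm_num) (Finset.prod_pos fun p hp => ?_)
    rw [hP] at hp
    have hp0 : (0 : ℝ) < (p : ℝ) := by exact_mod_cast (Finset.mem_filter.1 hp).2.pos
    positivity
  have hw0 : p0 ≤ w := by omega
  have hwe : 4 * e ≤ w := by omega
  obtain ⟨W2, hW2⟩ : ∃ W2 : ℕ, W2 =
      ∏ p ∈ ((Finset.range (w + 1)).filter Nat.Prime).filter (fun p => ¬ p ≤ p0), p ^ w := ⟨_, rfl⟩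
  have hW2' : W2 ≠ 0 := by
    rw [hW2]
    refine Finset.prod_ne_zero_iff.2 fun p hp => ?_
    exact (pow_pos (Finset.mem_filter.1 (Finset.mem_filter.1 hp).1).2.pos _).ne'
  have : NeZero W2 := ⟨hW2'⟩
  have hdiv : ∀ d, d ∣ W2 → 1 < d → p0 < d := by
    intro d hd hd1
    obtain ⟨r, hr, hrd⟩ := Nat.exists_prime_and_dvd hd1.ne'
    have h1 : r ∣ W2 := hrd.trans hd
    rw [hW2] at h1
    obtain ⟨p, hp, hrp⟩ := (Prime.dvd_finsetProd_iff hr.prime _).1 h1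
    have h2 := hr.dvd_of_dvd_pow hrp
    simp only [Finset.mem_filter, Finset.mem_range] at hp
    have h3 : r = p := (Nat.prime_dvd_prime_iff_eq hr hp.1.2).1 h2
    have h4 : r ≤ d := Nat.le_of_dvd (by omega) hrd
    omega
  obtain ⟨A1, hA1⟩ := locdens_fewBox n hn W2 p0 hp08 hdiv
  choose! A2 hA2 using fun p (hp : Nat.Prime p) => locdens_excBox n p e hp
  refine ⟨A1 + ∑ p ∈ P, A2 p, fun A hA => ?_⟩
  have hsub : (((Box n A) ×ˢ (Box n A)).filter fun ab => PSol ab.1 ab.2 ∧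
        (sm (WW w) (cm (ZMod (WW w)) ab.1) (cm (ZMod (WW w)) ab.2) : ℝ) * (WW w : ℝ) ^ 2 <
          (1 / 2 * ∏ p ∈ P, (1 / ((p : ℝ) ^ (4 * e * (n - 1))))) * (WW w : ℝ) ^ (n + 1)) ⊆
      (((Box n A) ×ˢ (Box n A)).filter fun ab =>
        (sm W2 (cm (ZMod W2) ab.1) (cm (ZMod W2) ab.2) : ℝ) * (W2 : ℝ) ^ 2 ≤
          (W2 : ℝ) ^ (n + 1) / 2) ∪
        P.biUnion (fun p => ((Box n A) ×ˢ (Box n A)).filter fun ab =>
          Exc (p ^ e) (cm (ZMod (p ^ e)) ab.1) (cm (ZMod (p ^ e)) ab.2)) := by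
    intro ab hab
    rw [Finset.mem_filter] at hab
    obtain ⟨hbox, hsol, hlt⟩ := hab
    rw [Finset.mem_union, Finset.mem_biUnion, Finset.mem_filter]
    by_contra hcon
    rw [not_or] at hcon
    have h2 : (W2 : ℝ) ^ (n + 1) / 2 <
        (sm W2 (cm (ZMod W2) ab.1) (cm (ZMod W2) ab.2) : ℝ) * (W2 : ℝ) ^ 2 := by
      by_contra h
      exact hcon.1 ⟨hbox, not_lt.1 h⟩
    have h1 : ∀ p ∈ P, ¬ Exc (p ^ e) (cm (ZMod (p ^ e)) ab.1) (cm (ZMod (p ^ e)) ab.2) := by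
      intro p hp h
      exact hcon.2 ⟨p, hp, Finset.mem_filter.2 ⟨hbox, h⟩⟩
    rw [hP] at h1 hlt
    have := locdens_lower n hn w p0 e hw0 he hwe ab.1 ab.2 hsol h1 W2 hW2 h2
    exact absurd this (not_le.2 hlt)
  have hc1 : ((((Box n A) ×ˢ (Box n A)).filter fun ab => PSol ab.1 ab.2 ∧
        (sm (WW w) (cm (ZMod (WW w)) ab.1) (cm (ZMod (WW w)) ab.2) : ℝ) * (WW w : ℝ) ^ 2 <
          (1 / 2 * ∏ p ∈ P, (1 / ((p : ℝ) ^ (4 * e * (n - 1))))) *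
            (WW w : ℝ) ^ (n + 1)).card : ℝ) ≤
      ((((Box n A) ×ˢ (Box n A)).filter fun ab =>
        (sm W2 (cm (ZMod W2) ab.1) (cm (ZMod W2) ab.2) : ℝ) * (W2 : ℝ) ^ 2 ≤
          (W2 : ℝ) ^ (n + 1) / 2).card : ℝ) +
        ∑ p ∈ P, ((((Box n A) ×ˢ (Box n A)).filter fun ab =>
          Exc (p ^ e) (cm (ZMod (p ^ e)) ab.1) (cm (ZMod (p ^ e)) ab.2)).card : ℝ) := by
    have h1 := (Finset.card_le_card hsub).trans (Finset.card_union_le _ _)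
    have h2 := h1.trans (Nat.add_le_add_left Finset.card_biUnion_le _)
    exact_mod_cast h2
  refine hc1.trans ?_
  have hA1' : A ≥ A1 := le_trans (Nat.le_add_right _ _) hA
  have hV : (0 : ℝ) ≤ ((2 * A + 1 : ℝ) ^ (n + 1) ^ 2) ^ 2 := by positivity
  have h3 : ∀ p ∈ P, ((((Box n A) ×ˢ (Box n A)).filter fun ab =>
          Exc (p ^ e) (cm (ZMod (p ^ e)) ab.1) (cm (ZMod (p ^ e)) ab.2)).card : ℝ) ≤
      (ε / (2 * (p0 + 1))) * ((2 * A + 1 : ℝ) ^ (n + 1) ^ 2) ^ 2 := by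
    intro p hp
    have hpp : p.Prime := by
      rw [hP] at hp
      exact (Finset.mem_filter.1 hp).2
    have hAp : A ≥ A2 p := by
      have : A2 p ≤ ∑ p ∈ P, A2 p := Finset.single_le_sum (f := A2) (fun _ _ => Nat.zero_le _) hp
      omega
    refine (hA2 p hpp A hAp).trans ?_
    have hpe : (2 : ℝ) ^ e ≤ (p : ℝ) ^ e := by
      gcongr
      exact_mod_cast hpp.two_le
    have hlow : 8 * ((n : ℝ) + 1) * ((p0 : ℝ) + 1) / ε ≤ (p : ℝ) ^ e := he2.trans hpe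
    have h8 : 4 * ((n : ℝ) + 1) / (p : ℝ) ^ e ≤ ε / (2 * (p0 + 1)) := by
      have hpp' : (0 : ℝ) < (p : ℝ) ^ e := lt_of_lt_of_le (by positivity) hpe
      rw [div_le_div_iff₀ hpp' (by positivity)]
      rw [div_le_iff₀ hε] at hlow
      nlinarith
    exact mul_le_mul_of_nonneg_right h8 hV
  have h4 : ∑ p ∈ P, ((((Box n A) ×ˢ (Box n A)).filter fun ab =>
          Exc (p ^ e) (cm (ZMod (p ^ e)) ab.1) (cm (ZMod (p ^ e)) ab.2)).card : ℝ) ≤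
      (ε / 2) * ((2 * A + 1 : ℝ) ^ (n + 1) ^ 2) ^ 2 := by
    refine (Finset.sum_le_sum h3).trans ?_
    rw [Finset.sum_const, nsmul_eq_mul]
    have hcard : (P.card : ℝ) ≤ p0 + 1 := by
      have : P.card ≤ p0 + 1 := by
        rw [hP]
        refine (Finset.card_filter_le _ _).trans ?_
        rw [Finset.card_range]
      exact_mod_cast this
    generalize ((2 * A + 1 : ℝ) ^ (n + 1) ^ 2) ^ 2 = T at hV
    calc (P.card : ℝ) * (ε / (2 * (p0 + 1)) * T)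
        ≤ (p0 + 1) * (ε / (2 * (p0 + 1)) * T) :=
          mul_le_mul_of_nonneg_right hcard (by positivity)
      _ = (ε / 2) * T := by
          field_simp
  have h5 := hA1 A hA1'
  have h6 : 32 / (p0 : ℝ) * ((2 * A + 1 : ℝ) ^ (n + 1) ^ 2) ^ 2 ≤
      (ε / 2) * ((2 * A + 1 : ℝ) ^ (n + 1) ^ 2) ^ 2 := mul_le_mul_of_nonneg_right hp0 hV
  calc _ ≤ (ε / 2) * ((2 * A + 1 : ℝ) ^ (n + 1) ^ 2) ^ 2 +
        (ε / 2) * ((2 * A + 1 : ℝ) ^ (n + 1) ^ 2) ^ 2 :=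
        add_le_add (h5.trans h6) h4
    _ = ε * ((2 * A + 1 : ℝ) ^ (n + 1) ^ 2) ^ 2 := by ring

end Pool.Agent.Lib.MP_219881_nt
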