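import Pool.Agent.Lib.MP_219881_nt.Psi

/-!
JOB MN_Cheb.  Chebyshev's inequality for the weighted variance (paper section 11).

PROOF.  On `T`: `a, b ∈ Box n A ⊆ Box n (2A)`, `psi ≥ 1/2` (`psi_half`), `Nn = 0`, `Ll ≥ l ≥ 0`, so the term of `Qvar` is at least `(1/4) l^2`; all terms are nonnegative
(`psi_nonneg`), so `T.card * (1/4) * l^2 ≤ Qvar` (write `Qvar` as a sum over the product `Box n (2A) ×ˢ Box n (2A)`, `Finset.sum_product`, and restrict to `T`).
-/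

namespace Pool.Agent.Lib.MP_219881_nt

open Classical

theorem cheb (n B H q W K A : ℕ) (hA : 1 ≤ A) (o : Fin (n + 1)) (l : ℝ) (hl : 0 ≤ l)
    (T : Finset (Mt n ℤ × Mt n ℤ)) (hT : ∀ ab ∈ T, ab.1 ∈ Box n A ∧ ab.2 ∈ Box n A ∧
      Nn B H q o ab.1 ab.2 = 0 ∧ l ≤ Ll B H q o W K A ab.1 ab.2) :
    (T.card : ℝ) * l ^ 2 ≤ 4 * Qvar B H q o W K A := by
  have hbox : ∀ a : Mt n ℤ, a ∈ Box n A → a ∈ Box n (2 * A) := by
    intro a ha
    unfold Box at ha ⊢
    rw [Fintype.mem_piFinset] at ha ⊢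
    intro i
    have h1 := ha i
    rw [Fintype.mem_piFinset] at h1 ⊢
    intro j
    have h2 := h1 j
    rw [Finset.mem_Icc] at h2 ⊢
    push_cast
    constructor <;> omega
  have hsub : T ⊆ (Box n (2 * A)) ×ˢ (Box n (2 * A)) := by
    intro ab hab
    rw [Finset.mem_product]
    exact ⟨hbox _ (hT ab hab).1, hbox _ (hT ab hab).2.1⟩
  have hQ : Qvar B H q o W K A = ∑ ab ∈ (Box n (2 * A)) ×ˢ (Box n (2 * A)), psi A ab.1 * psi A ab.2 *
      ((Nn B H q o ab.1 ab.2 : ℝ) - Ll B H q o W K A ab.1 ab.2) ^ 2 := by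
    unfold Qvar
    rw [Finset.sum_product]
  have h1 : ∑ ab ∈ T, psi A ab.1 * psi A ab.2 *
      ((Nn B H q o ab.1 ab.2 : ℝ) - Ll B H q o W K A ab.1 ab.2) ^ 2 ≤ Qvar B H q o W K A := by
    rw [hQ]
    apply Finset.sum_le_sum_of_subset_of_nonneg hsub
    intro ab _ _
    exact mul_nonneg (mul_nonneg (psi_nonneg A _) (psi_nonneg A _)) (sq_nonneg _)
  have h2 : (T.card : ℝ) * (1 / 4 * l ^ 2) ≤ ∑ ab ∈ T, psi A ab.1 * psi A ab.2 *
      ((Nn B H q o ab.1 ab.2 : ℝ) - Ll B H q o W K A ab.1 ab.2) ^ 2 := by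
    calc (T.card : ℝ) * (1 / 4 * l ^ 2) = ∑ _ab ∈ T, (1 / 4 * l ^ 2) := by
          rw [Finset.sum_const, nsmul_eq_mul]
      _ ≤ _ := by
          apply Finset.sum_le_sum
          intro ab hab
          obtain ⟨ha, hb, hN, hL⟩ := hT ab hab
          have p1 := psi_half hA ha
          have p2 := psi_half hA hb
          rw [hN]
          have h3 : (((0 : ℕ) : ℝ) - Ll B H q o W K A ab.1 ab.2) ^ 2 = (Ll B H q o W K A ab.1 ab.2) ^ 2 := by
            rw [Nat.cast_zero]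
            ring
          rw [h3]
          have h4 : l ^ 2 ≤ (Ll B H q o W K A ab.1 ab.2) ^ 2 := pow_le_pow_left₀ hl hL 2
          have h5 : (1 : ℝ) / 4 ≤ psi A ab.1 * psi A ab.2 := by
            calc (1 : ℝ) / 4 = 1 / 2 * (1 / 2) := by norm_num
              _ ≤ psi A ab.1 * psi A ab.2 := mul_le_mul p1 p2 (by norm_num) (psi_nonneg A _)
          exact mul_le_mul h5 h4 (by positivity) (mul_nonneg (psi_nonneg A _) (psi_nonneg A _))
  have h3 := h2.trans h1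
  linarith

end Pool.Agent.Lib.MP_219881_nt
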