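import Pool.Agent.Lib.MP_219881_nt.RP_Defs

/-!
JOB RP_Loc.  Near a nonsingular real zero (paper section 9 (d)).

PROOF.  `i ≠ j` because the minor does not vanish. Let `f : (Kp n → ℝ) × Vc n ℝ → (Kp n → ℝ) × Vc n ℝ`,
`f (ω, y) = (ω, fun l => if l = i then ev (pa ω) y else if l = j then ev (pb ω) y else y l)`.
`f` is `C^1` (`ContDiff`: finite sums of products of coordinates; `fun_prop` or `contDiff_pi`, `ContDiff.sum`), so it has a strict derivative `f'` at
`(ω0, ξ)` (`ContDiff.hasStrictFDerivAt` / `ContDiffAt.hasStrictFDerivAt`). `f'` is surjective: it is easiest to avoid computing `f'` in full. Given a target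
`(δ, k)`, consider for suitable `h : Vc n ℝ` the curve `s ↦ f (ω0 + s δ, ξ + s h)` whose derivative at `s = 0` is `f' (δ, h)`. In components:
the `i`-th coordinate is `ev (pa ω0 + s pa δ) (ξ + s h)` with derivative `ev (pa δ) ξ + ∑ m, dev (pa ω0) ξ m * h m`
(use `ev_add`, `ev_add_right`: the expression is a polynomial in `s`), likewise for `j`, and coordinate `l ≠ i, j` has derivative `h l`.
Choose `h l = k l` for `l ≠ i, j` and `h i, h j` solving the 2x2 linear system
  `dev (pa ω0) ξ i * h i + dev (pa ω0) ξ j * h j = k i - ev (pa δ) ξ - ∑_{m ≠ i,j} dev (pa ω0) ξ m * k m`,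
  `dev (pb ω0) ξ i * h i + dev (pb ω0) ξ j * h j = k j - ev (pb δ) ξ - ∑_{m ≠ i,j} dev (pb ω0) ξ m * k m`
with nonzero determinant (`hm`). Alternatively write down `f'` explicitly as a continuous linear map with `HasStrictFDerivAt` rules.
`HasStrictFDerivAt.map_nhds_eq_of_surj` : `Filter.map f (𝓝 (ω0, ξ)) = 𝓝 (f (ω0, ξ))`. The set
`T = {(ω, s) | (∀ l, |s l| < 1/2) ∧ ξ o / 2 < s o}` is an open neighbourhood of `(ω0, ξ)`, so `f '' T` is a neighbourhood of `f (ω0, ξ) = (ω0, ξ*)`,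
`ξ* = ξ` with the coordinates `i, j` replaced by `0` (`ha`, `hb`). So there is `r > 0` such that `(ω, z) ∈ f '' T` whenever `dist ω ω0 < r`, `dist z ξ* < r`
(`Metric.mem_nhds_iff`, `Metric.ball_prod_same` or `nhds_prod_eq`). Take `ρ = min (r / 2) (ξ o / 4)`, `U = Metric.ball ω0 r`.
For `ω ∈ U` use the point `ξ` itself in `Rob`: given `y` with `|y l - ξ l| ≤ ρ`, let `z` be `y` with the coordinates `i, j` replaced by `0`:
`dist z ξ* ≤ ρ < r` (`dist_pi_le_iff`), so `(ω, z) = f (ω', s)` with `(ω', s) ∈ T`: `ω' = ω`, `s l = y l` for `l ≠ i, j`, `ev (pa ω) s = 0`,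
`ev (pb ω) s = 0` (compare coordinates `i` and `j ≠ i`), `|s l| ≤ 1/2`, `2 ρ ≤ ξ o / 2 ≤ s o`.
-/

namespace Pool.Agent.Lib.MP_219881_nt

open Classical

open Topology in
private theorem RP_Loc_contDiff (n : ℕ) (b : Bool) :
    ContDiff ℝ 1 (fun p : (Kp n → ℝ) × Vc n ℝ => ev (fun i j => p.1 (b, i, j)) p.2) := by
  unfold ev
  fun_prop

private theorem RP_Loc_fderiv (n : ℕ) (b : Bool) (ω0 : Kp n → ℝ) (ξ : Vc n ℝ) (δ : Kp n → ℝ) (h : Vc n ℝ) :
    (fderiv ℝ (fun p : (Kp n → ℝ) × Vc n ℝ => ev (fun i j => p.1 (b, i, j)) p.2) (ω0, ξ)) (δ, h) =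
      ev (fun i j => δ (b, i, j)) ξ + ∑ m, dev (fun i j => ω0 (b, i, j)) ξ m * h m := by
  set g : (Kp n → ℝ) × Vc n ℝ → ℝ := fun p => ev (fun i j => p.1 (b, i, j)) p.2 with hg
  set A : Mt n ℝ := fun i j => ω0 (b, i, j) with hA
  set Δ : Mt n ℝ := fun i j => δ (b, i, j) with hΔ
  have h1 : HasFDerivAt g (fderiv ℝ g (ω0, ξ)) (ω0, ξ) :=
    ((RP_Loc_contDiff n b).differentiable (by norm_num) (ω0, ξ)).hasFDerivAt
  have h2 : HasDerivAt (fun s : ℝ => ((ω0, ξ) : (Kp n → ℝ) × Vc n ℝ) + s • ((δ, h) : (Kp n → ℝ) × Vc n ℝ))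
      ((δ, h) : (Kp n → ℝ) × Vc n ℝ) 0 := by
    have := ((hasDerivAt_id (0 : ℝ)).smul_const ((δ, h) : (Kp n → ℝ) × Vc n ℝ)).const_add
      ((ω0, ξ) : (Kp n → ℝ) × Vc n ℝ)
    rw [one_smul] at this
    exact this
  have h3 : HasDerivAt (fun s : ℝ => g (((ω0, ξ) : (Kp n → ℝ) × Vc n ℝ) + s • ((δ, h) : (Kp n → ℝ) × Vc n ℝ)))
      (fderiv ℝ g (ω0, ξ) (δ, h)) 0 := by
    refine HasFDerivAt.comp_hasDerivAt_of_eq (0 : ℝ) h1 h2 ?_
    rw [zero_smul, add_zero]
  have h4 : (fun s : ℝ => g (((ω0, ξ) : (Kp n → ℝ) × Vc n ℝ) + s • ((δ, h) : (Kp n → ℝ) × Vc n ℝ))) =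
      fun s : ℝ => ev A ξ + s * (ev Δ ξ + ∑ m, dev A ξ m * h m) + s ^ 2 * (ev A h + ∑ m, dev Δ ξ m * h m) +
        s ^ 3 * ev Δ h := by
    funext s
    have e1 : g (((ω0, ξ) : (Kp n → ℝ) × Vc n ℝ) + s • ((δ, h) : (Kp n → ℝ) × Vc n ℝ)) =
        ev (A + s • Δ) (ξ + s • h) := rfl
    have e2 : ∀ M : Mt n ℝ, ev M (ξ + s • h) = ev M ξ + s * (∑ m, dev M ξ m * h m) + s ^ 2 * ev M h := by
      intro M
      rw [ev_add_right]
      have e3 : ev M (s • h) = s ^ 2 * ev M h := ev_scale s M h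
      rw [e3, Finset.mul_sum]
      congr 2
      refine Finset.sum_congr rfl fun m _ => ?_
      rw [Pi.smul_apply, smul_eq_mul]
      ring
    rw [e1, ev_add, ev_smul', e2, e2]
    ring
  have h5 : HasDerivAt (fun s : ℝ => ev A ξ + s * (ev Δ ξ + ∑ m, dev A ξ m * h m) +
      s ^ 2 * (ev A h + ∑ m, dev Δ ξ m * h m) + s ^ 3 * ev Δ h) (ev Δ ξ + ∑ m, dev A ξ m * h m) 0 := by
    have := ((((hasDerivAt_id (0 : ℝ)).mul_const (ev Δ ξ + ∑ m, dev A ξ m * h m)).const_add (ev A ξ)).add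
      ((hasDerivAt_pow 2 (0 : ℝ)).mul_const (ev A h + ∑ m, dev Δ ξ m * h m))).add
      ((hasDerivAt_pow 3 (0 : ℝ)).mul_const (ev Δ h))
    refine HasDerivAt.congr_deriv this ?_
    norm_num
  rw [h4] at h3
  exact h3.unique h5

private theorem RP_Loc_sum {n : ℕ} {i j : Fin (n + 1)} (hij : i ≠ j) (A k : Fin (n + 1) → ℝ) (u v : ℝ) :
    ∑ m, A m * (if m = i then u else if m = j then v else k m) =
      A i * u + A j * v + ∑ m, A m * (if m = i then 0 else if m = j then 0 else k m) := by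
  have h1 : ∀ m, A m * (if m = i then u else if m = j then v else k m) =
      (if m = i then A m * u else 0) + (if m = j then A m * v else 0) +
        A m * (if m = i then 0 else if m = j then 0 else k m) := by
    intro m
    by_cases h : m = i
    · have h' : m ≠ j := fun h2 => hij (h.symm.trans h2)
      rw [if_pos h, if_pos h, if_neg h', if_pos h]
      ring
    · rw [if_neg h, if_neg h, if_neg h]
      by_cases h' : m = j
      · rw [if_pos h', if_pos h', if_pos h']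
        ring
      · rw [if_neg h', if_neg h', if_neg h']
        ring
  rw [Finset.sum_congr rfl (fun m _ => h1 m), Finset.sum_add_distrib, Finset.sum_add_distrib,
    Finset.sum_ite_eq', Finset.sum_ite_eq', if_pos (Finset.mem_univ _), if_pos (Finset.mem_univ _)]

open Topology in
theorem locRob (n : ℕ) (ω0 : Kp n → ℝ) (ξ : Vc n ℝ) (hξ : ∀ l, |ξ l| ≤ 1 / 4)
    (ha : ev (pa ω0) ξ = 0) (hb : ev (pb ω0) ξ = 0) (i j o : Fin (n + 1))
    (hm : dev (pa ω0) ξ i * dev (pb ω0) ξ j ≠ dev (pa ω0) ξ j * dev (pb ω0) ξ i)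
    (ho : 0 < ξ o) :
    ∃ ρ : ℝ, 0 < ρ ∧ ∃ U : Set (Kp n → ℝ), IsOpen U ∧ ω0 ∈ U ∧
      ∀ ω ∈ U, Rob o i j ρ (pa ω) (pb ω) := by
  have hij : i ≠ j := by
    rintro rfl
    exact hm rfl
  set ga : (Kp n → ℝ) × Vc n ℝ → ℝ := fun p => ev (fun i j => p.1 (false, i, j)) p.2 with hga
  set gb : (Kp n → ℝ) × Vc n ℝ → ℝ := fun p => ev (fun i j => p.1 (true, i, j)) p.2 with hgb
  set f : (Kp n → ℝ) × Vc n ℝ → (Kp n → ℝ) × Vc n ℝ := fun p =>
    (p.1, fun l => if l = i then ga p else if l = j then gb p else p.2 l) with hf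
  set f' : ((Kp n → ℝ) × Vc n ℝ) →L[ℝ] ((Kp n → ℝ) × Vc n ℝ) :=
    (ContinuousLinearMap.fst ℝ (Kp n → ℝ) (Vc n ℝ)).prod
      (ContinuousLinearMap.pi fun l => if l = i then fderiv ℝ ga (ω0, ξ) else
        if l = j then fderiv ℝ gb (ω0, ξ) else
          (ContinuousLinearMap.proj (R := ℝ) (φ := fun _ : Fin (n + 1) => ℝ) l).comp
            (ContinuousLinearMap.snd ℝ (Kp n → ℝ) (Vc n ℝ))) with hf'
  have hstrict : HasStrictFDerivAt f f' (ω0, ξ) := by
    refine HasStrictFDerivAt.prodMk hasStrictFDerivAt_fst (hasStrictFDerivAt_pi.2 fun l => ?_)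
    by_cases h : l = i
    · simp only [if_pos h]
      exact (RP_Loc_contDiff n false).contDiffAt.hasStrictFDerivAt (by norm_num)
    · simp only [if_neg h]
      by_cases h' : l = j
      · simp only [if_pos h']
        exact (RP_Loc_contDiff n true).contDiffAt.hasStrictFDerivAt (by norm_num)
      · simp only [if_neg h']
        exact ((ContinuousLinearMap.proj (R := ℝ) (φ := fun _ : Fin (n + 1) => ℝ) l).comp
            (ContinuousLinearMap.snd ℝ (Kp n → ℝ) (Vc n ℝ))).hasStrictFDerivAt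
  have hsurj : f'.range = ⊤ := by
    rw [LinearMap.range_eq_top]
    rintro ⟨δ, k⟩
    set Sa : ℝ := ∑ m, dev (pa ω0) ξ m * (if m = i then 0 else if m = j then 0 else k m) with hSa
    set Sb : ℝ := ∑ m, dev (pb ω0) ξ m * (if m = i then 0 else if m = j then 0 else k m) with hSb
    set Dt : ℝ := dev (pa ω0) ξ i * dev (pb ω0) ξ j - dev (pa ω0) ξ j * dev (pb ω0) ξ i with hDt
    have hD : Dt ≠ 0 := sub_ne_zero.2 hm
    set ra : ℝ := k i - ev (pa δ) ξ - Sa with hra
    set rb : ℝ := k j - ev (pb δ) ξ - Sb with hrb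
    set u : ℝ := (ra * dev (pb ω0) ξ j - rb * dev (pa ω0) ξ j) / Dt with hu
    set v : ℝ := (dev (pa ω0) ξ i * rb - dev (pb ω0) ξ i * ra) / Dt with hv
    have e1 : dev (pa ω0) ξ i * u + dev (pa ω0) ξ j * v = ra := by
      rw [hu, hv]
      field_simp
      rw [hDt]
      ring
    have e2 : dev (pb ω0) ξ i * u + dev (pb ω0) ξ j * v = rb := by
      rw [hu, hv]
      field_simp
      rw [hDt]
      ring
    refine ⟨(δ, fun m => if m = i then u else if m = j then v else k m), ?_⟩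
    have hga' := RP_Loc_fderiv n false ω0 ξ δ (fun m => if m = i then u else if m = j then v else k m)
    have hgb' := RP_Loc_fderiv n true ω0 ξ δ (fun m => if m = i then u else if m = j then v else k m)
    rw [RP_Loc_sum hij] at hga' hgb'
    refine Prod.ext rfl ?_
    funext l
    change ((if l = i then fderiv ℝ ga (ω0, ξ) else
        if l = j then fderiv ℝ gb (ω0, ξ) else
          (ContinuousLinearMap.proj (R := ℝ) (φ := fun _ : Fin (n + 1) => ℝ) l).comp
            (ContinuousLinearMap.snd ℝ (Kp n → ℝ) (Vc n ℝ))) :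
          ((Kp n → ℝ) × Vc n ℝ) →L[ℝ] ℝ) (δ, fun m => if m = i then u else if m = j then v else k m) = k l
    by_cases h : l = i
    · rw [if_pos h, h]
      refine hga'.trans ?_
      have e3 : dev (fun i j => ω0 (false, i, j)) ξ i * u + dev (fun i j => ω0 (false, i, j)) ξ j * v = ra := e1
      rw [e3]
      have e4 : ra = k i - ev (fun i j => δ (false, i, j)) ξ -
        ∑ m, dev (fun i j => ω0 (false, i, j)) ξ m * (if m = i then 0 else if m = j then 0 else k m) := rfl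
      rw [e4]
      ring
    · rw [if_neg h]
      by_cases h' : l = j
      · rw [if_pos h', h']
        refine hgb'.trans ?_
        have e3 : dev (fun i j => ω0 (true, i, j)) ξ i * u + dev (fun i j => ω0 (true, i, j)) ξ j * v = rb := e2
        rw [e3]
        have e4 : rb = k j - ev (fun i j => δ (true, i, j)) ξ -
          ∑ m, dev (fun i j => ω0 (true, i, j)) ξ m * (if m = i then 0 else if m = j then 0 else k m) := rfl
        rw [e4]
        ring
      · rw [if_neg h']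
        change (if l = i then u else if l = j then v else k l) = k l
        rw [if_neg h, if_neg h']
  have hmap := hstrict.map_nhds_eq_of_surj hsurj
  set T : Set ((Kp n → ℝ) × Vc n ℝ) := {p | (∀ l, |p.2 l| < 1 / 2) ∧ ξ o / 2 < p.2 o} with hT
  have hTo : IsOpen T := by
    have h1 : IsOpen {p : (Kp n → ℝ) × Vc n ℝ | ∀ l, |p.2 l| < 1 / 2} := by
      have : {p : (Kp n → ℝ) × Vc n ℝ | ∀ l, |p.2 l| < 1 / 2} =
          ⋂ l, {p : (Kp n → ℝ) × Vc n ℝ | |p.2 l| < 1 / 2} := by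
        ext p
        simp only [Set.mem_ofPred_eq, Set.mem_iInter]
      rw [this]
      exact isOpen_iInter_of_finite fun l => isOpen_lt (by fun_prop) continuous_const
    have h2 : IsOpen {p : (Kp n → ℝ) × Vc n ℝ | ξ o / 2 < p.2 o} := isOpen_lt continuous_const (by fun_prop)
    exact h1.inter h2
  have hTm : T ∈ 𝓝 ((ω0, ξ) : (Kp n → ℝ) × Vc n ℝ) := by
    refine hTo.mem_nhds ⟨fun l => ?_, ?_⟩
    · have := hξ l
      have h3 : |ξ l| < 1 / 2 := by linarith
      exact h3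
    · have h3 : ξ o / 2 < ξ o := by linarith
      exact h3
  have himg : f '' T ∈ 𝓝 (f (ω0, ξ)) := by
    rw [← hmap]
    exact Filter.image_mem_map hTm
  obtain ⟨r, hr, hball⟩ := Metric.mem_nhds_iff.1 himg
  refine ⟨min (r / 2) (ξ o / 4), lt_min (by linarith) (by linarith), Metric.ball ω0 r, Metric.isOpen_ball,
    Metric.mem_ball_self hr, fun ω hω => ⟨ξ, fun y hy => ?_⟩⟩
  set z : Vc n ℝ := fun l => if l = i then 0 else if l = j then 0 else y l with hz
  have hρ1 : min (r / 2) (ξ o / 4) ≤ r / 2 := min_le_left _ _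
  have hρ2 : min (r / 2) (ξ o / 4) ≤ ξ o / 4 := min_le_right _ _
  have hmem : ((ω, z) : (Kp n → ℝ) × Vc n ℝ) ∈ Metric.ball (f (ω0, ξ)) r := by
    rw [Metric.mem_ball, Prod.dist_eq]
    refine max_lt hω ?_
    have h1 : dist z (f (ω0, ξ)).2 ≤ r / 2 := by
      rw [dist_pi_le_iff (by linarith)]
      intro l
      change dist (if l = i then 0 else if l = j then 0 else y l)
        (if l = i then ga (ω0, ξ) else if l = j then gb (ω0, ξ) else ξ l) ≤ r / 2
      have hga0 : ga (ω0, ξ) = 0 := ha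
      have hgb0 : gb (ω0, ξ) = 0 := hb
      by_cases h : l = i
      · rw [if_pos h, if_pos h, hga0, dist_self]
        linarith
      · rw [if_neg h, if_neg h]
        by_cases h' : l = j
        · rw [if_pos h', if_pos h', hgb0, dist_self]
          linarith
        · rw [if_neg h', if_neg h', Real.dist_eq]
          exact (hy l).trans hρ1
    exact lt_of_le_of_lt h1 (by linarith)
  obtain ⟨⟨ω', s⟩, hsT, hfs⟩ := hball hmem
  have h1 : ω' = ω := congrArg Prod.fst hfs
  have h2 : (fun l => if l = i then ga (ω', s) else if l = j then gb (ω', s) else s l) = z := congrArg Prod.snd hfs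
  subst h1
  refine ⟨s, fun l hl hl' => ?_, fun l => (hsT.1 l).le, ?_, ?_, ?_⟩
  · have h3 := congrFun h2 l
    simp only [hz, if_neg hl, if_neg hl'] at h3
    exact h3
  · have h3 : ξ o / 2 < s o := hsT.2
    linarith
  · have h3 := congrFun h2 i
    simp only [hz, if_true] at h3
    exact h3
  · have h3 := congrFun h2 j
    simp only [hz, if_neg (Ne.symm hij), if_true] at h3
    exact h3

theorem Rob_mono {n : ℕ} {o i j : Fin (n + 1)} {ρ ρ' : ℝ} {α β : Mt n ℝ} (h : ρ' ≤ ρ)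
    (hR : Rob o i j ρ α β) : Rob o i j ρ' α β := by
  obtain ⟨ξ, hξ⟩ := hR
  refine ⟨ξ, fun y hy => ?_⟩
  obtain ⟨s, h1, h2, h3, h4, h5⟩ := hξ y fun l => (hy l).trans h
  exact ⟨s, h1, h2, by linarith, h4, h5⟩

end Pool.Agent.Lib.MP_219881_nt
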