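import Pool.Agent.Lib.MP_219881_nt.RP_Phi
import Pool.Agent.Lib.MP_219881_nt.RP_Loc

/-!
JOB RP_Cpt.  Uniformity by compactness (paper section 9 (e)).

PROOF.  Let `Cu = {ω | ∀ t, |ω t| ≤ 1}` (compact: closed ball / `isCompact_univ_pi`), `Sp = {x : Vc n ℝ | ‖x‖ = 1/4}` (compact sphere, sup norm),
`P = {(ω, x) ∈ Cu × Sp | ev (pa ω) x = 0 ∧ ev (pb ω) x = 0}` (closed in a compact set, so compact: `ev` is continuous), and
`Cc = (Prod.fst '' P) \ O`: compact. If `ω` is in the cube, not in `O`, with a common zero `x ≠ 0`, then `ω ∈ Cc` (scale `x` by `1/(4‖x‖)`, `ev_scale`).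
For `ω0 ∈ Cc` take `ξ ∈ Sp` with `ev (pa ω0) ξ = ev (pb ω0) ξ = 0`. `Phi (pa ω0) (pb ω0) ≠ 0` (hypothesis `hZ`, as `ω0 ∉ O`), so by `Phi_sing` there are `i, j` with
`dev (pa ω0) ξ i * dev (pb ω0) ξ j ≠ dev (pa ω0) ξ j * dev (pb ω0) ξ i`; `ξ ≠ 0` has a coordinate `ξ o ≠ 0`. If `ξ o < 0` replace `ξ` by `-ξ`
(`ev a (-x) = ev a x`, `dev a (-x) j = -dev a x j`, products unchanged). `|ξ l| ≤ 1/4` by the sup norm. `locRob` gives `ρ(ω0)` and an open `U(ω0)`; also `i ≠ j`.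
Finitely many `U(ω0)` cover `Cc` (`IsCompact.elim_finite_subcover`/`IsCompact.induction_on`: the property of a set `T` : there is `ρ`, `0 < ρ ≤ 1`, such that all `ω ∈ T`
are `Rob o i j ρ` for some `o, i ≠ j` is inherited by subsets and finite unions (`Rob_mono` with the minimum); this is the quickest way). Take `min ρ 1`.
-/

namespace Pool.Agent.Lib.MP_219881_nt

open Classical

private theorem RP_Cpt_cont_a (n : ℕ) :
    Continuous fun q : (Kp n → ℝ) × Vc n ℝ => ev (pa q.1) q.2 := by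
  unfold ev pa
  refine continuous_finsetSum _ fun i _ => continuous_finsetSum _ fun j _ => ?_
  fun_prop

private theorem RP_Cpt_cont_b (n : ℕ) :
    Continuous fun q : (Kp n → ℝ) × Vc n ℝ => ev (pb q.1) q.2 := by
  unfold ev pb
  refine continuous_finsetSum _ fun i _ => continuous_finsetSum _ fun j _ => ?_
  fun_prop

private theorem RP_Cpt_dev_neg {n : ℕ} (a : Mt n ℝ) (x : Vc n ℝ) (j : Fin (n + 1)) :
    dev a (fun i => -1 * x i) j = - dev a x j := by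
  unfold dev
  rw [← Finset.sum_neg_distrib]
  refine Finset.sum_congr rfl fun k _ => ?_
  ring

private theorem RP_Cpt_ev_neg {n : ℕ} (a : Mt n ℝ) (x : Vc n ℝ) :
    ev a (fun i => -1 * x i) = ev a x := by
  rw [ev_scale]
  ring

/-- the local statement at one point -/
private theorem RP_Cpt_point (n : ℕ) (ω0 : Kp n → ℝ) (ξ : Vc n ℝ) (hξ : ‖ξ‖ = 1 / 4)
    (ha : ev (pa ω0) ξ = 0) (hb : ev (pb ω0) ξ = 0) (hPhi : Phi (pa ω0) (pb ω0) ≠ 0) :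
    ∃ ρ : ℝ, 0 < ρ ∧ ∃ U : Set (Kp n → ℝ), IsOpen U ∧ ω0 ∈ U ∧
      ∃ o i j : Fin (n + 1), i ≠ j ∧ ∀ ω ∈ U, Rob o i j ρ (pa ω) (pb ω) := by
  have hξ0 : ξ ≠ 0 := by
    rintro rfl
    rw [norm_zero] at hξ
    norm_num at hξ
  have hbd : ∀ l, |ξ l| ≤ 1 / 4 := by
    intro l
    rw [← Real.norm_eq_abs, ← hξ]
    exact norm_le_pi_norm ξ l
  have hm : ∃ i j, dev (pa ω0) ξ i * dev (pb ω0) ξ j ≠ dev (pa ω0) ξ j * dev (pb ω0) ξ i := by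
    by_contra hcon
    push Not at hcon
    exact hPhi (Phi_sing _ _ ξ hξ0 ha hcon)
  obtain ⟨i, j, hm⟩ := hm
  have hij : i ≠ j := by
    rintro rfl
    exact hm rfl
  obtain ⟨o, ho⟩ : ∃ o, ξ o ≠ 0 := by
    by_contra hcon
    push Not at hcon
    exact hξ0 (funext hcon)
  rcases lt_or_gt_of_ne ho with ho | ho
  · obtain ⟨ρ, hρ, U, hU, hU0, hR⟩ := locRob n ω0 (fun i => -1 * ξ i) (by
      intro l
      show |-1 * ξ l| ≤ 1 / 4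
      rw [neg_one_mul, abs_neg]
      exact hbd l) (by rw [RP_Cpt_ev_neg]; exact ha) (by rw [RP_Cpt_ev_neg]; exact hb) i j o (by
      rw [RP_Cpt_dev_neg, RP_Cpt_dev_neg, RP_Cpt_dev_neg, RP_Cpt_dev_neg, neg_mul_neg, neg_mul_neg]
      exact hm) (by
      show 0 < -1 * ξ o
      linarith)
    exact ⟨ρ, hρ, U, hU, hU0, o, i, j, hij, hR⟩
  · obtain ⟨ρ, hρ, U, hU, hU0, hR⟩ := locRob n ω0 ξ hbd ha hb i j o hm ho
    exact ⟨ρ, hρ, U, hU, hU0, o, i, j, hij, hR⟩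

/-- the set of the parameters in the cube, outside of `O`, with a common zero -/
private theorem RP_Cpt_compact (n : ℕ) (O : Set (Kp n → ℝ)) (hO : IsOpen O) :
    IsCompact ((Prod.fst '' ((Metric.closedBall (0 : Kp n → ℝ) 1 ×ˢ
      Metric.sphere (0 : Vc n ℝ) (1 / 4)) ∩
      {q : (Kp n → ℝ) × Vc n ℝ | ev (pa q.1) q.2 = 0 ∧ ev (pb q.1) q.2 = 0})) \ O) := by
  refine IsCompact.diff (IsCompact.image (IsCompact.inter_right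
    ((isCompact_closedBall _ _).prod (isCompact_sphere _ _)) ?_) continuous_fst) hO
  exact (isClosed_eq (RP_Cpt_cont_a n) continuous_const).inter
    (isClosed_eq (RP_Cpt_cont_b n) continuous_const)

theorem robCpt (n : ℕ) (O : Set (Kp n → ℝ)) (hO : IsOpen O)
    (hZ : ∀ ω : Kp n → ℝ, (∀ t, |ω t| ≤ 1) → Phi (pa ω) (pb ω) = 0 → ω ∈ O) :
    ∃ ρ : ℝ, 0 < ρ ∧ ρ ≤ 1 ∧ ∀ ω : Kp n → ℝ, (∀ t, |ω t| ≤ 1) → ω ∉ O →
      (∃ x : Vc n ℝ, x ≠ 0 ∧ ev (pa ω) x = 0 ∧ ev (pb ω) x = 0) →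
      ∃ o i j : Fin (n + 1), i ≠ j ∧ Rob o i j ρ (pa ω) (pb ω) := by
  have hcube : ∀ ω : Kp n → ℝ, ω ∈ Metric.closedBall (0 : Kp n → ℝ) 1 ↔ ∀ t, |ω t| ≤ 1 := by
    intro ω
    rw [mem_closedBall_zero_iff, pi_norm_le_iff_of_nonneg zero_le_one]
    rfl
  have main : ∃ ρ : ℝ, 0 < ρ ∧ ρ ≤ 1 ∧ ∀ ω ∈ ((Prod.fst '' ((Metric.closedBall (0 : Kp n → ℝ) 1 ×ˢ
      Metric.sphere (0 : Vc n ℝ) (1 / 4)) ∩
      {q : (Kp n → ℝ) × Vc n ℝ | ev (pa q.1) q.2 = 0 ∧ ev (pb q.1) q.2 = 0})) \ O),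
      ∃ o i j : Fin (n + 1), i ≠ j ∧ Rob o i j ρ (pa ω) (pb ω) := by
    refine IsCompact.induction_on (RP_Cpt_compact n O hO)
      (p := fun T => ∃ ρ : ℝ, 0 < ρ ∧ ρ ≤ 1 ∧ ∀ ω ∈ T,
        ∃ o i j : Fin (n + 1), i ≠ j ∧ Rob o i j ρ (pa ω) (pb ω)) ?_ ?_ ?_ ?_
    · exact ⟨1, one_pos, le_rfl, fun ω hω => absurd hω (Set.notMem_empty ω)⟩
    · rintro S T hST ⟨ρ, hρ, hρ1, h⟩
      exact ⟨ρ, hρ, hρ1, fun ω hω => h ω (hST hω)⟩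
    · rintro S T ⟨ρ, hρ, hρ1, h⟩ ⟨ρ', hρ', hρ1', h'⟩
      refine ⟨min ρ ρ', lt_min hρ hρ', (min_le_left _ _).trans hρ1, fun ω hω => ?_⟩
      rcases hω with hω | hω
      · obtain ⟨o, i, j, hij, hR⟩ := h ω hω
        exact ⟨o, i, j, hij, Rob_mono (min_le_left _ _) hR⟩
      · obtain ⟨o, i, j, hij, hR⟩ := h' ω hω
        exact ⟨o, i, j, hij, Rob_mono (min_le_right _ _) hR⟩
    · rintro ω0 ⟨⟨⟨ω, ξ⟩, ⟨⟨h1, h2⟩, h3, h4⟩, rfl⟩, h5⟩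
      have hPhi : Phi (pa ω) (pb ω) ≠ 0 := fun h => h5 (hZ ω ((hcube ω).1 h1) h)
      obtain ⟨ρ, hρ, U, hU, hU0, o, i, j, hij, hR⟩ :=
        RP_Cpt_point n ω ξ (mem_sphere_zero_iff_norm.1 h2) h3 h4 hPhi
      refine ⟨U, mem_nhdsWithin_of_mem_nhds (hU.mem_nhds hU0), min ρ 1, lt_min hρ one_pos,
        min_le_right _ _, fun ω' hω' => ⟨o, i, j, hij, Rob_mono (min_le_left _ _) (hR ω' hω')⟩⟩
  obtain ⟨ρ, hρ, hρ1, h⟩ := main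
  refine ⟨ρ, hρ, hρ1, fun ω hω hωO hx => ?_⟩
  obtain ⟨x, hx0, hxa, hxb⟩ := hx
  refine h ω ⟨⟨(ω, fun i => (1 / (4 * ‖x‖)) * x i), ⟨⟨(hcube ω).2 hω, ?_⟩, ?_, ?_⟩, rfl⟩, hωO⟩
  · have hn : ‖x‖ ≠ 0 := norm_ne_zero_iff.2 hx0
    rw [mem_sphere_zero_iff_norm]
    have e : (fun i => (1 / (4 * ‖x‖)) * x i) = (1 / (4 * ‖x‖)) • x := rfl
    rw [show ((ω, fun i => (1 / (4 * ‖x‖)) * x i) : (Kp n → ℝ) × Vc n ℝ).2 =
      (1 / (4 * ‖x‖)) • x from rfl, norm_smul, Real.norm_eq_abs, abs_of_nonneg (by positivity)]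
    field_simp
  · show ev (pa ω) (fun i => (1 / (4 * ‖x‖)) * x i) = 0
    rw [ev_scale, hxa, mul_zero]
  · show ev (pb ω) (fun i => (1 / (4 * ‖x‖)) * x i) = 0
    rw [ev_scale, hxb, mul_zero]

end Pool.Agent.Lib.MP_219881_nt
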