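import Pool.Agent.Lib.MP_219881_nt.RP_Null
import Pool.Agent.Lib.MP_219881_nt.RP_Cont
import Pool.Agent.Lib.MP_219881_nt.RP_Cpt

/-!
JOB RP_Fin.  The exceptional sets at the real place (paper section 9).

`realRob`: `Z0 = {ω | Phi (pa ω) (pb ω) = 0} ∩ {ω | ∀ t, |ω t| ≤ 1}` is compact (`closedZ`, closed subset of a compact cube) and null (`nullZ`). `content` gives `O`, `A0`;
`robCpt` with this `O` gives `ρ`. For `A ≥ A0` (so `A ≥ 1`) and `(a, b)` in the filter let `z : Kp n → ℤ`, `z (false, i, j) = a i j`, `z (true, i, j) = b i j`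
and `ω t = z t / A`: `|ω t| ≤ 1`, `pa ω = fun s t => (a s t : ℝ) / A`, `pb ω` likewise. A real common zero of `cm ℝ a`, `cm ℝ b` is one of `pa ω`, `pb ω`
(`ev_smul` with `c = 1/A`). If `ω ∉ O` then `robCpt` gives `Rob`, contradiction; so `ω ∈ O`. The map `(a, b) ↦ z` is injective, so the cardinality is at most
`ε A^(card (Kp n))`, `card (Kp n) = 2 (n+1)^2` (`Fintype.card_prod`), `A ≤ 2A+1`.

`nonSm`: the same `O`, `A0`. If `(a, b)` is not smooth over `K = AlgebraicClosure ℚ` there is `x ≠ 0` with `ev (cm K a) x = 0`, `ev (cm K b) x = 0` and the two gradients dependent;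
`LinearIndependent.pair_iff` gives `(s, t) ≠ (0, 0)` with `s dev a + t dev b = 0`, so all minors vanish: `dev a x i * dev b x k = dev a x k * dev b x i`
(if `t ≠ 0`, `dev b x k = -(s/t) dev a x k`; if `t = 0` then `s ≠ 0` and `dev a = 0`). `Phi_sing`: `Phi (cm K a) (cm K b) = 0`; by `Phi_map` for `Int.castRingHom K` (injective)
`Phi a b = 0` over `ℤ`, so `Phi (cm ℝ a) (cm ℝ b) = 0`, and by `Phi_smul` (`t = 1/A`) `Phi (pa ω) (pb ω) = 0`: `ω ∈ Z0 ⊆ O`. Count as before.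
-/

namespace Pool.Agent.Lib.MP_219881_nt

open Classical

/-- the integer vector of the entries of a pair of integer matrices -/
private def RP_Fin_z {n : ℕ} (ab : Mt n ℤ × Mt n ℤ) : Kp n → ℤ :=
  fun t => if t.1 = true then ab.2 t.2.1 t.2.2 else ab.1 t.2.1 t.2.2

private theorem RP_Fin_inj (n : ℕ) :
    Function.Injective (RP_Fin_z : Mt n ℤ × Mt n ℤ → Kp n → ℤ) := by
  intro ab ab' h
  refine Prod.ext ?_ ?_
  · funext i j
    have h1 := congrFun h (false, i, j)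
    simpa [RP_Fin_z] using h1
  · funext i j
    have h1 := congrFun h (true, i, j)
    simpa [RP_Fin_z] using h1

/-- the point of the cube attached to a pair of integer matrices -/
private noncomputable def RP_Fin_w {n : ℕ} (A : ℕ) (ab : Mt n ℤ × Mt n ℤ) : Kp n → ℝ :=
  fun t => (RP_Fin_z ab t : ℝ) / A

private theorem RP_Fin_pa {n : ℕ} (A : ℕ) (ab : Mt n ℤ × Mt n ℤ) :
    pa (RP_Fin_w A ab) = fun s t => (ab.1 s t : ℝ) / A := by
  funext s t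
  simp [pa, RP_Fin_w, RP_Fin_z]

private theorem RP_Fin_pb {n : ℕ} (A : ℕ) (ab : Mt n ℤ × Mt n ℤ) :
    pb (RP_Fin_w A ab) = fun s t => (ab.2 s t : ℝ) / A := by
  funext s t
  simp [pb, RP_Fin_w, RP_Fin_z]

private theorem RP_Fin_pa' {n : ℕ} (A : ℕ) (ab : Mt n ℤ × Mt n ℤ) :
    pa (RP_Fin_w A ab) = fun s t => (1 / (A : ℝ)) * cm ℝ ab.1 s t := by
  rw [RP_Fin_pa]
  funext s t
  simp only [cm]
  ring

private theorem RP_Fin_pb' {n : ℕ} (A : ℕ) (ab : Mt n ℤ × Mt n ℤ) :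
    pb (RP_Fin_w A ab) = fun s t => (1 / (A : ℝ)) * cm ℝ ab.2 s t := by
  rw [RP_Fin_pb]
  funext s t
  simp only [cm]
  ring

private theorem RP_Fin_box {n A : ℕ} {a : Mt n ℤ} (h : a ∈ Box n A) (i j : Fin (n + 1)) :
    |(a i j : ℝ)| ≤ A := by
  have h1 := Fintype.mem_piFinset.1 (Fintype.mem_piFinset.1 h i) j
  rw [Finset.mem_Icc] at h1
  rw [abs_le]
  constructor
  · have h2 : ((-(A : ℤ) : ℤ) : ℝ) ≤ (a i j : ℝ) := Int.cast_le.2 h1.1
    push_cast at h2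
    exact h2
  · have h2 : ((a i j : ℤ) : ℝ) ≤ ((A : ℤ) : ℝ) := Int.cast_le.2 h1.2
    push_cast at h2
    exact h2

private theorem RP_Fin_cube {n A : ℕ} (hA : 1 ≤ A) {ab : Mt n ℤ × Mt n ℤ}
    (h : ab ∈ (Box n A) ×ˢ (Box n A)) (t : Kp n) : |RP_Fin_w A ab t| ≤ 1 := by
  obtain ⟨h1, h2⟩ := Finset.mem_product.1 h
  have hA' : (0 : ℝ) < A := by exact_mod_cast hA
  unfold RP_Fin_w RP_Fin_z
  rw [abs_div, abs_of_pos hA', div_le_one hA']
  by_cases ht : t.1 = true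
  · rw [if_pos ht]
    exact RP_Fin_box h2 _ _
  · rw [if_neg ht]
    exact RP_Fin_box h1 _ _

/-- the compact null set -/
private theorem RP_Fin_cpt (n : ℕ) : IsCompact ({ω : Kp n → ℝ | Phi (pa ω) (pb ω) = 0} ∩
    Metric.closedBall (0 : Kp n → ℝ) 1) :=
  (isCompact_closedBall _ _).inter_left (closedZ n)

private theorem RP_Fin_mem {n : ℕ} {ω : Kp n → ℝ} (h : ∀ t, |ω t| ≤ 1)
    (hP : Phi (pa ω) (pb ω) = 0) : ω ∈ ({ω : Kp n → ℝ | Phi (pa ω) (pb ω) = 0} ∩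
    Metric.closedBall (0 : Kp n → ℝ) 1) := by
  refine ⟨hP, ?_⟩
  rw [mem_closedBall_zero_iff, pi_norm_le_iff_of_nonneg zero_le_one]
  exact h

/-- the open set `O` and the count -/
private theorem RP_Fin_O (n : ℕ) (ε : ℝ) (hε : 0 < ε) : ∃ O : Set (Kp n → ℝ), IsOpen O ∧
    (∀ ω : Kp n → ℝ, (∀ t, |ω t| ≤ 1) → Phi (pa ω) (pb ω) = 0 → ω ∈ O) ∧
    ∃ A0 : ℕ, 1 ≤ A0 ∧ ∀ A ≥ A0, ∀ F : Finset (Mt n ℤ × Mt n ℤ), (∀ ab ∈ F, RP_Fin_w A ab ∈ O) →
      (F.card : ℝ) ≤ ε * ((2 * A + 1 : ℝ) ^ (n + 1) ^ 2) ^ 2 := by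
  obtain ⟨O, hO, hZO, A0, hA0, h⟩ := content ({ω : Kp n → ℝ | Phi (pa ω) (pb ω) = 0} ∩
    Metric.closedBall (0 : Kp n → ℝ) 1) (RP_Fin_cpt n)
    (MeasureTheory.measure_mono_null Set.inter_subset_left (nullZ n)) ε hε
  refine ⟨O, hO, fun ω h1 h2 => hZO (RP_Fin_mem h1 h2), A0, hA0, fun A hA F hF => ?_⟩
  have h1 := h A hA (F.image RP_Fin_z) (by
    intro z hz
    obtain ⟨ab, hab, rfl⟩ := Finset.mem_image.1 hz
    exact hF ab hab)
  rw [Finset.card_image_of_injective F (RP_Fin_inj n)] at h1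
  refine h1.trans (mul_le_mul_of_nonneg_left ?_ hε.le)
  have hcard : Fintype.card (Kp n) = (n + 1) ^ 2 * 2 := by
    rw [Fintype.card_prod, Fintype.card_prod, Fintype.card_bool, Fintype.card_fin]
    ring
  rw [hcard, ← pow_mul]
  refine pow_le_pow_left₀ (Nat.cast_nonneg A) ?_ _
  have : (0 : ℝ) ≤ (A : ℝ) := Nat.cast_nonneg A
  linarith

theorem realRob (n : ℕ) (ε : ℝ) (hε : 0 < ε) : ∃ ρ : ℝ, 0 < ρ ∧ ρ ≤ 1 ∧ ∃ A0 : ℕ, ∀ A ≥ A0,
    ((((Box n A) ×ˢ (Box n A)).filter fun ab => RSol ab.1 ab.2 ∧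
        ¬ ∃ o i j : Fin (n + 1), i ≠ j ∧
          Rob o i j ρ (fun s t => (ab.1 s t : ℝ) / A) (fun s t => (ab.2 s t : ℝ) / A)).card : ℝ)
      ≤ ε * ((2 * A + 1 : ℝ) ^ (n + 1) ^ 2) ^ 2 := by
  obtain ⟨O, hO, hZ, A0, hA0, hcount⟩ := RP_Fin_O n ε hε
  obtain ⟨ρ, hρ, hρ1, hrob⟩ := robCpt n O hO hZ
  refine ⟨ρ, hρ, hρ1, A0, fun A hA => hcount A hA _ fun ab hab => ?_⟩
  obtain ⟨h1, ⟨x, hx0, hxa, hxb⟩, h2⟩ := Finset.mem_filter.1 hab
  by_contra hnO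
  apply h2
  have h3 := hrob (RP_Fin_w A ab) (RP_Fin_cube (hA0.trans hA) h1) hnO
    ⟨x, hx0, by rw [RP_Fin_pa', ev_smul, hxa, mul_zero], by rw [RP_Fin_pb', ev_smul, hxb, mul_zero]⟩
  rwa [RP_Fin_pa, RP_Fin_pb] at h3

theorem nonSm (n : ℕ) (ε : ℝ) (hε : 0 < ε) : ∃ A0 : ℕ, ∀ A ≥ A0,
    ((((Box n A) ×ˢ (Box n A)).filter fun ab =>
        ¬ ∀ x : Vc n (AlgebraicClosure ℚ), x ≠ 0 → ev (cm (AlgebraicClosure ℚ) ab.1) x = 0 →
          ev (cm (AlgebraicClosure ℚ) ab.2) x = 0 →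
          LinearIndependent (AlgebraicClosure ℚ)
            ![dev (cm (AlgebraicClosure ℚ) ab.1) x, dev (cm (AlgebraicClosure ℚ) ab.2) x]).card : ℝ)
      ≤ ε * ((2 * A + 1 : ℝ) ^ (n + 1) ^ 2) ^ 2 := by
  obtain ⟨O, hO, hZ, A0, hA0, hcount⟩ := RP_Fin_O n ε hε
  refine ⟨A0, fun A hA => hcount A hA _ fun ab hab => ?_⟩
  obtain ⟨h1, h2⟩ := Finset.mem_filter.1 hab
  push Not at h2
  obtain ⟨x, hx0, hxa, hxb, hli⟩ := h2
  rw [LinearIndependent.pair_iff] at hli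
  push Not at hli
  obtain ⟨s, t, hst, hne⟩ := hli
  have hc : ∀ k, s * dev (cm (AlgebraicClosure ℚ) ab.1) x k +
      t * dev (cm (AlgebraicClosure ℚ) ab.2) x k = 0 := fun k => congrFun hst k
  have hK : Phi (cm (AlgebraicClosure ℚ) ab.1) (cm (AlgebraicClosure ℚ) ab.2) = 0 := by
    refine Phi_sing _ _ x hx0 hxa fun i k => ?_
    by_cases hs : s = 0
    · have ht := hne hs
      apply mul_left_cancel₀ ht
      linear_combination (dev (cm (AlgebraicClosure ℚ) ab.1) x i) * hc k -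
        (dev (cm (AlgebraicClosure ℚ) ab.1) x k) * hc i
    · apply mul_left_cancel₀ hs
      linear_combination (dev (cm (AlgebraicClosure ℚ) ab.2) x k) * hc i -
        (dev (cm (AlgebraicClosure ℚ) ab.2) x i) * hc k
  have hZ0 : Phi ab.1 ab.2 = 0 := by
    have h3 := Phi_map (Int.castRingHom (AlgebraicClosure ℚ)) ab.1 ab.2
    have h4 : Phi (fun i j => (Int.castRingHom (AlgebraicClosure ℚ)) (ab.1 i j))
      (fun i j => (Int.castRingHom (AlgebraicClosure ℚ)) (ab.2 i j)) = 0 := hK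
    rw [h4] at h3
    have h5 : ((Phi ab.1 ab.2 : ℤ) : AlgebraicClosure ℚ) = 0 := h3.symm
    exact Int.cast_eq_zero.1 h5
  have hR : Phi (cm ℝ ab.1) (cm ℝ ab.2) = 0 := by
    have h3 := Phi_map (Int.castRingHom ℝ) ab.1 ab.2
    rw [hZ0, map_zero] at h3
    exact h3
  have hA' : (0 : ℝ) < A := by exact_mod_cast hA0.trans hA
  refine hZ _ (RP_Fin_cube (hA0.trans hA) h1) ?_
  rw [RP_Fin_pa', RP_Fin_pb', Phi_smul _ (by positivity)]
  exact hR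

end Pool.Agent.Lib.MP_219881_nt
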