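import Pool.Agent.Lib.MP_219881_nt.Basic

/-!
JOB Trans.  Disjoint translates (pigeonhole, paper section 2).
(Cubic version with proof: /team-store/MP_1ad228_ntC_Trans.lean; adapt it.)
-/

namespace Pool.Agent.Lib.MP_219881_nt

open Classical

/-- The sum of two tensors of the box. -/
private theorem trans_add_mem {n A : ℕ} {a c : Mt n ℤ} (ha : a ∈ Box n A)
    (hc : c ∈ Box n A) : a + c ∈ Box n (2 * A) := by
  rw [mem_Box] at ha hc ⊢
  intro i j
  have h1 := ha i j
  have h2 := hc i j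
  have h3 : (a + c) i j = a i j + c i j := rfl
  rw [h3]
  push_cast
  exact (abs_add_le _ _).trans (by linarith)

private theorem trans_card (n A : ℕ) : (Box n (2 * A)).card = (4 * A + 1) ^ (n + 1) ^ 2 := by
  rw [card_Box]
  congr 1
  ring

theorem trans1 {n : ℕ} (S : Finset ℤ) (x : Vc n ℤ) (A : ℕ)
    (h : ∀ v ∈ S, ∃ a ∈ Box n A, ev a x = v) : S.card * n1 x A ≤ (4 * A + 1) ^ (n + 1) ^ 2 := by
  choose! t ht using h
  rw [← trans_card n A, n1, ← Finset.card_product]
  apply Finset.card_le_card_of_injOn (fun p : ℤ × Mt n ℤ => t p.1 + p.2)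
  · rintro ⟨v, c⟩ hp
    rw [Finset.mem_coe, Finset.mem_product, Finset.mem_filter] at hp
    exact Finset.mem_coe.mpr (trans_add_mem (ht v hp.1).1 hp.2.1)
  · rintro ⟨v, c⟩ hp ⟨v', c'⟩ hp' heq
    rw [Finset.mem_coe, Finset.mem_product, Finset.mem_filter] at hp hp'
    have h1 : t v + c = t v' + c' := heq
    have h2 : ev (t v + c) x = v := by
      rw [ev_add, (ht v hp.1).2, hp.2.2, add_zero]
    have h3 : ev (t v' + c') x = v' := by
      rw [ev_add, (ht v' hp'.1).2, hp'.2.2, add_zero]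
    have h4 : v = v' := by rw [← h2, ← h3, h1]
    subst h4
    have h5 : c = c' := add_left_cancel h1
    rw [h5]

theorem trans2 {n : ℕ} (S : Finset (ℤ × ℤ)) (x y : Vc n ℤ) (A : ℕ)
    (h : ∀ v ∈ S, ∃ a ∈ Box n A, ev a x = v.1 ∧ ev a y = v.2) :
    S.card * n2 x y A ≤ (4 * A + 1) ^ (n + 1) ^ 2 := by
  choose! t ht using h
  rw [← trans_card n A, n2, ← Finset.card_product]
  apply Finset.card_le_card_of_injOn (fun p : (ℤ × ℤ) × Mt n ℤ => t p.1 + p.2)
  · rintro ⟨v, c⟩ hp
    rw [Finset.mem_coe, Finset.mem_product, Finset.mem_filter] at hp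
    exact Finset.mem_coe.mpr (trans_add_mem (ht v hp.1).1 hp.2.1)
  · rintro ⟨v, c⟩ hp ⟨v', c'⟩ hp' heq
    rw [Finset.mem_coe, Finset.mem_product, Finset.mem_filter] at hp hp'
    have h1 : t v + c = t v' + c' := heq
    have h2 : ev (t v + c) x = v.1 := by
      rw [ev_add, (ht v hp.1).2.1, hp.2.2.1, add_zero]
    have h3 : ev (t v' + c') x = v'.1 := by
      rw [ev_add, (ht v' hp'.1).2.1, hp'.2.2.1, add_zero]
    have h6 : ev (t v + c) y = v.2 := by
      rw [ev_add, (ht v hp.1).2.2, hp.2.2.2, add_zero]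
    have h7 : ev (t v' + c') y = v'.2 := by
      rw [ev_add, (ht v' hp'.1).2.2, hp'.2.2.2, add_zero]
    have h4 : v = v' := by
      apply Prod.ext
      · rw [← h2, ← h3, h1]
      · rw [← h6, ← h7, h1]
    subst h4
    have h5 : c = c' := add_left_cancel h1
    rw [h5]

end Pool.Agent.Lib.MP_219881_nt
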