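import Pool.Agent.Lib.MP_219881_nt.Pre
import Pool.Agent.Lib.MP_219881_nt.Trans
import Pool.Agent.Lib.MP_219881_nt.CntPairs

/-!
JOB N1.  Upper bound for the number of matrices vanishing at one test point.
(Cubic version with proof: /team-store/MP_1ad228_ntC_N1.lean; adapt it.)

PROOF.  `P = A B^2/(2 q^2)`. For every integer `v` with `|v| ≤ P` there is an integer matrix with value
`v` at `x` (`val1`, `GG_uni`), so by `pre1` one with entries at most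
`P q^2/B^2 + 2 n (n+1) H ≤ A/2 + A/2 = A` (`4 n (n+1) H ≤ 8 n^2 H ≤ A`, `n ≥ 1`). `cntInt` gives `S` with at
least `P` elements, `trans1` gives `P * n1 x A ≤ (4A+1)^((n+1)^2) ≤ (5A)^((n+1)^2)` (`A ≥ 1`).
Divide by `P > 0`.
-/

namespace Pool.Agent.Lib.MP_219881_nt

open Classical

private theorem N1_aux (c n A K : ℕ) (P : ℝ) (hA1 : (1 : ℝ) ≤ A) (hS2 : P ≤ (c : ℝ))
    (h2 : c * n ≤ (4 * A + 1) ^ K) : P * (n : ℝ) ≤ (5 * (A : ℝ)) ^ K := by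
  have h3 : (c : ℝ) * (n : ℝ) ≤ (4 * (A : ℝ) + 1) ^ K := by exact_mod_cast h2
  calc P * (n : ℝ) ≤ (c : ℝ) * (n : ℝ) := mul_le_mul_of_nonneg_right hS2 (Nat.cast_nonneg _)
    _ ≤ (4 * (A : ℝ) + 1) ^ K := h3
    _ ≤ (5 * (A : ℝ)) ^ K := pow_le_pow_left₀ (by positivity) (by linarith) K

theorem N1 {n : ℕ} (hn : 1 ≤ n) (B H q A : ℕ) (o : Fin (n + 1)) (hB : 1 ≤ B) (hq : 1 ≤ q)
    (hA1 : 1 ≤ A) (hA : 8 * n ^ 2 * H ≤ A) (x : Vc n ℤ) (hx : x ∈ GG B H q o) :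
    (n1 x A : ℝ) ≤ (5 * (A : ℝ)) ^ (n + 1) ^ 2 * (2 * (q : ℝ) ^ 2 / ((A : ℝ) * (B : ℝ) ^ 2)) := by
  have hB0 : (0 : ℝ) < B := by exact_mod_cast hB
  have hq0 : (0 : ℝ) < q := by exact_mod_cast hq
  have hA' : 8 * (n : ℝ) ^ 2 * (H : ℝ) ≤ (A : ℝ) := by exact_mod_cast hA
  have hA1' : (1 : ℝ) ≤ A := by exact_mod_cast hA1
  have hn' : (1 : ℝ) ≤ n := by exact_mod_cast hn
  have hH : 2 * (n : ℝ) * (n + 1) * (H : ℝ) ≤ (A : ℝ) / 2 := by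
    have h1 : 2 * (n : ℝ) * (n + 1) ≤ 4 * (n : ℝ) ^ 2 := by nlinarith
    have h2 : 2 * (n : ℝ) * (n + 1) * (H : ℝ) ≤ 4 * (n : ℝ) ^ 2 * H :=
      mul_le_mul_of_nonneg_right h1 (Nat.cast_nonneg _)
    linarith
  obtain ⟨P, hP⟩ : ∃ P : ℝ, P = (A : ℝ) * (B : ℝ) ^ 2 / (2 * (q : ℝ) ^ 2) := ⟨_, rfl⟩
  have hP0 : 0 < P := by
    rw [hP]
    positivity
  obtain ⟨S, hS1, hS2⟩ := cntInt P hP0.le
  have h1 : ∀ v ∈ S, ∃ a ∈ Box n A, ev a x = v := by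
    intro v hv
    obtain ⟨a, ha⟩ := val1 x (GG_uni hx) v
    obtain ⟨a', ha1, ha2⟩ := pre1 B H q o hB hq x hx a
    refine ⟨a', mem_Box.2 fun i j => ?_, ha1.trans ha⟩
    have h2 := ha2 i j
    rw [ha] at h2
    have h3 : |(v : ℝ)| * (q : ℝ) ^ 2 / (B : ℝ) ^ 2 ≤ (A : ℝ) / 2 := by
      calc |(v : ℝ)| * (q : ℝ) ^ 2 / (B : ℝ) ^ 2 ≤ P * (q : ℝ) ^ 2 / (B : ℝ) ^ 2 := by
            gcongr
            exact hS1 v hv
        _ = (A : ℝ) / 2 := by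
            rw [hP]
            field_simp
    have h4 : |(a' i j : ℝ)| ≤ (A : ℝ) := by linarith
    exact_mod_cast h4
  have h4 := N1_aux S.card (n1 x A) A ((n + 1) ^ 2) P hA1' hS2 (trans1 S x A h1)
  have h5 : 2 * (q : ℝ) ^ 2 / ((A : ℝ) * (B : ℝ) ^ 2) = 1 / P := by
    rw [hP, one_div_div]
  rw [h5, mul_one_div, le_div_iff₀ hP0, mul_comm]
  exact h4

end Pool.Agent.Lib.MP_219881_nt
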