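import Pool.Agent.Lib.MP_219881_nt.PairSum
import Pool.Agent.Lib.MP_219881_nt.N1
import Pool.Agent.Lib.MP_219881_nt.N2
import Pool.Agent.Lib.MP_219881_nt.Expand
import Pool.Agent.Lib.MP_219881_nt.EEgood

/-!
JOB VarTot.  The variance (paper sections 4, 5, assembly).
(Cubic version with proof: /team-store/MP_1ad228_ntC_VarTot.lean; adapt it.)

PROOF.  `V = (n+1)^2`, `K = k^2 ≥ 1`, `A ≥ 4 q ≥ 1`. `expand`: `Qvar = ∑_x ∑_y EE x y`. Split the inner sum in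
`y = x`, good `y` (`y ≠ x`, `Dd ∣ W` and `B^2 ≤ k Del`), bad `y` (the others).
`y = x`: `EEle`, `n2_self`, `N1` (`8 n^2 H ≤ 8 n^2 H^2 k ≤ A`): `|EE| ≤ 2*16^V*((5A)^V*2q^2/(A B^2))^2`.
good: `EEgood` and `N2` (`8 n^2 H^2 ≤ A`): `|EE| ≤ (9/k)*24^V*((5A)^V*64 q^3/(A^2 B^2))^2 * (Dd/Del)^2`; sum with
`psAll`: the bracket `B^n/B^3 + H^(n+3)/B`, and `1/k ≤ 1`.
bad: `EEle` and `N2`: `|EE| ≤ 2*16^V*((5A)^V*64 q^3/(A^2 B^2))^2 * (Dd/Del)^2`; sum with `psBad`.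
Sum over `x`: multiply by `card (GG B H q o) ≤ 3^(n+1) B^(n+1)` (`card_GG_le`). With
`E = B^(n+1)/(A^2 B^4)`: `B^(n+1) * (1/(A B^2))^2 = E`, `B^(n+1)/(A^4 B^4) * B^n/B^3 = E^2`,
`B^(n+1)/(A^4 B^4) * H^(n+3)/B = E^2 * H^(n+3) B^3/B^(n+1)`. Constants may depend on `n` and `q`.
-/

namespace Pool.Agent.Lib.MP_219881_nt

open Classical

/-- One row of the variance sum. -/
private theorem varTot_row {n : ℕ} (hn : 5 ≤ n) (q : ℕ) (hq : 1 ≤ q) (C1 C2 : ℝ)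
    (o : Fin (n + 1)) (k w B H A W : ℕ) (hk : 1 ≤ k) (hB : 1 ≤ B) (hH : 1 ≤ H)
    (hA : 8 * n ^ 2 * H ^ 2 * k ≤ A) (hA' : 4 * q ≤ A) (x : Vc n ℤ) (hx : x ∈ GG B H q o)
    (hC1 : ∑ y ∈ (GG B H q o).filter (fun y => y ≠ x), ((Dd x y : ℝ) / (Del o x y : ℝ)) ^ 2 ≤
      C1 * ((B : ℝ) ^ n / (B : ℝ) ^ 3 + (H : ℝ) ^ (n + 3) / (B : ℝ)))
    (hC2 : ∑ y ∈ (GG B H q o).filter (fun y => y ≠ x ∧ ¬ (Dd x y ∣ W ∧ B ^ 2 ≤ k * Del o x y)),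
      ((Dd x y : ℝ) / (Del o x y : ℝ)) ^ 2 ≤
      C2 * ((B : ℝ) ^ n / (B : ℝ) ^ 3 * (1 / (k : ℝ) + 1 / ((w : ℝ) + 1))
        + (H : ℝ) ^ (n + 3) / (B : ℝ))) :
    ∑ y ∈ GG B H q o, EE o W (k ^ 2) A x y ≤
      2 * 16 ^ (n + 1) ^ 2 * ((5 * (A : ℝ)) ^ (n + 1) ^ 2 *
        (2 * (q : ℝ) ^ 2 / ((A : ℝ) * (B : ℝ) ^ 2))) ^ 2
      + 9 / (k : ℝ) * 24 ^ (n + 1) ^ 2 * ((5 * (A : ℝ)) ^ (n + 1) ^ 2 *
          (64 * (q : ℝ) ^ 3 / ((A : ℝ) ^ 2 * (B : ℝ) ^ 2))) ^ 2 *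
        (C1 * ((B : ℝ) ^ n / (B : ℝ) ^ 3 + (H : ℝ) ^ (n + 3) / (B : ℝ)))
      + 2 * 16 ^ (n + 1) ^ 2 * ((5 * (A : ℝ)) ^ (n + 1) ^ 2 *
          (64 * (q : ℝ) ^ 3 / ((A : ℝ) ^ 2 * (B : ℝ) ^ 2))) ^ 2 *
        (C2 * ((B : ℝ) ^ n / (B : ℝ) ^ 3 * (1 / (k : ℝ) + 1 / ((w : ℝ) + 1))
          + (H : ℝ) ^ (n + 3) / (B : ℝ))) := by
  have hA2 : 8 * n ^ 2 * H ^ 2 ≤ A := le_trans (Nat.le_mul_of_pos_right _ hk) hA
  have hA3 : 8 * n ^ 2 * H ≤ A := by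
    refine le_trans ?_ hA2
    refine Nat.mul_le_mul_left _ ?_
    rw [sq]
    exact Nat.le_mul_of_pos_right _ hH
  have hA1 : 1 ≤ A := by omega
  set N0 : ℝ := (5 * (A : ℝ)) ^ (n + 1) ^ 2 with hN0
  set al : ℝ := 64 * (q : ℝ) ^ 3 / ((A : ℝ) ^ 2 * (B : ℝ) ^ 2) with hal
  have hN0' : 0 ≤ N0 := by positivity
  have hal' : 0 ≤ al := by positivity
  have hkpos : (0 : ℝ) < k := by exact_mod_cast hk
  have h24 : (0 : ℝ) ≤ 24 ^ (n + 1) ^ 2 := pow_nonneg (by norm_num) _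
  have h16 : (0 : ℝ) ≤ 16 ^ (n + 1) ^ 2 := pow_nonneg (by norm_num) _
  have h9k : (0 : ℝ) ≤ 9 / (k : ℝ) := div_nonneg (by norm_num) hkpos.le
  set ag : ℝ := 9 / (k : ℝ) * 24 ^ (n + 1) ^ 2 * (N0 * al) ^ 2 with hag
  set ab : ℝ := 2 * 16 ^ (n + 1) ^ 2 * (N0 * al) ^ 2 with hab
  have hag' : 0 ≤ ag := mul_nonneg (mul_nonneg h9k h24) (sq_nonneg _)
  have hab' : 0 ≤ ab := mul_nonneg (mul_nonneg (by norm_num) h16) (sq_nonneg _)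
  have hsplit := Finset.sum_filter_add_sum_filter_not (GG B H q o) (fun y => y ≠ x)
    (fun y => EE o W (k ^ 2) A x y)
  rw [← hsplit]
  -- the diagonal term
  have hdiag : ∑ y ∈ (GG B H q o).filter (fun y => ¬ y ≠ x), EE o W (k ^ 2) A x y ≤
      2 * 16 ^ (n + 1) ^ 2 * (N0 * (2 * (q : ℝ) ^ 2 / ((A : ℝ) * (B : ℝ) ^ 2))) ^ 2 := by
    have h1 : (GG B H q o).filter (fun y => ¬ y ≠ x) = {x} := by
      ext y
      simp only [Finset.mem_filter, not_not, Finset.mem_singleton]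
      constructor
      · exact fun h => h.2
      · rintro rfl; exact ⟨hx, rfl⟩
    rw [h1, Finset.sum_singleton]
    refine le_trans (le_abs_self _) (le_trans (EEle o W (k ^ 2) A x x) ?_)
    rw [n2_self]
    have h2 := N1 (n := n) (by omega) B H q A o hB hq hA1 hA3 x hx
    exact mul_le_mul_of_nonneg_left (pow_le_pow_left₀ (Nat.cast_nonneg _) h2 2)
      (mul_nonneg (by norm_num) h16)
  -- the other terms
  have hoff : ∑ y ∈ (GG B H q o).filter (fun y => y ≠ x), EE o W (k ^ 2) A x y ≤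
      ag * ∑ y ∈ (GG B H q o).filter (fun y => y ≠ x), ((Dd x y : ℝ) / (Del o x y : ℝ)) ^ 2
      + ab * ∑ y ∈ (GG B H q o).filter
          (fun y => y ≠ x ∧ ¬ (Dd x y ∣ W ∧ B ^ 2 ≤ k * Del o x y)),
          ((Dd x y : ℝ) / (Del o x y : ℝ)) ^ 2 := by
    have h2 : ∑ y ∈ (GG B H q o).filter
          (fun y => y ≠ x ∧ ¬ (Dd x y ∣ W ∧ B ^ 2 ≤ k * Del o x y)),
          ((Dd x y : ℝ) / (Del o x y : ℝ)) ^ 2
        = ∑ y ∈ (GG B H q o).filter (fun y => y ≠ x),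
          (if ¬ (Dd x y ∣ W ∧ B ^ 2 ≤ k * Del o x y) then
            ((Dd x y : ℝ) / (Del o x y : ℝ)) ^ 2 else 0) := by
      rw [← Finset.filter_filter, Finset.sum_filter]
    rw [h2, Finset.mul_sum, Finset.mul_sum, ← Finset.sum_add_distrib]
    refine Finset.sum_le_sum fun y hy => ?_
    obtain ⟨hyG, hyx⟩ := Finset.mem_filter.1 hy
    have hN2 := N2 B H q A o hB hq hA2 hA' x y hx hyG (Ne.symm hyx)
    have hN3 : (n2 x y A : ℝ) ^ 2 ≤ (N0 * (al * ((Dd x y : ℝ) / (Del o x y : ℝ)))) ^ 2 :=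
      pow_le_pow_left₀ (Nat.cast_nonneg _) hN2 2
    refine le_trans (le_abs_self _) ?_
    by_cases hgood : Dd x y ∣ W ∧ B ^ 2 ≤ k * Del o x y
    · have h3 := EEgood B H q o k A W hB hk hA1 hA x y hx hyG (Ne.symm hyx) hgood.1 hgood.2
      rw [if_neg (not_not.2 hgood), mul_zero, add_zero]
      calc |EE o W (k ^ 2) A x y| ≤ 9 / (k : ℝ) * 24 ^ (n + 1) ^ 2 * (n2 x y A : ℝ) ^ 2 := h3
        _ ≤ 9 / (k : ℝ) * 24 ^ (n + 1) ^ 2 *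
            (N0 * (al * ((Dd x y : ℝ) / (Del o x y : ℝ)))) ^ 2 :=
          mul_le_mul_of_nonneg_left hN3 (mul_nonneg h9k h24)
        _ = ag * ((Dd x y : ℝ) / (Del o x y : ℝ)) ^ 2 := by rw [hag]; ring
    · rw [if_pos hgood]
      have h4 : 0 ≤ ag * ((Dd x y : ℝ) / (Del o x y : ℝ)) ^ 2 := mul_nonneg hag' (sq_nonneg _)
      have h5 : |EE o W (k ^ 2) A x y| ≤ ab * ((Dd x y : ℝ) / (Del o x y : ℝ)) ^ 2 := by
        calc |EE o W (k ^ 2) A x y| ≤ 2 * 16 ^ (n + 1) ^ 2 * (n2 x y A : ℝ) ^ 2 :=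
              EEle o W (k ^ 2) A x y
          _ ≤ 2 * 16 ^ (n + 1) ^ 2 * (N0 * (al * ((Dd x y : ℝ) / (Del o x y : ℝ)))) ^ 2 :=
            mul_le_mul_of_nonneg_left hN3 (mul_nonneg (by norm_num) h16)
          _ = ab * ((Dd x y : ℝ) / (Del o x y : ℝ)) ^ 2 := by rw [hab]; ring
      linarith
  have h6 := mul_le_mul_of_nonneg_left hC1 hag'
  have h7 := mul_le_mul_of_nonneg_left hC2 hab'
  linarith

private theorem varTot_alg (n : ℕ) (hn : 5 ≤ n) (q k w B H A C1 C2 : ℝ) (hk : 1 ≤ k) (hw : 0 ≤ w)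
    (hB : 1 ≤ B) (hH : 0 ≤ H) (hA : 0 < A) (hC1 : 0 < C1) (hC2 : 0 < C2) (hq : 0 < q)
    (P5 P16 P24 PA P3 : ℝ) (h5 : 0 < P5) (h16 : 0 < P16) (h24 : 0 < P24) (hPA : 0 < PA)
    (h3 : 0 < P3) :
    P3 * B ^ (n + 1) * (2 * P16 * ((P5 * PA) * (2 * q ^ 2 / (A * B ^ 2))) ^ 2
      + 9 / k * P24 * ((P5 * PA) * (64 * q ^ 3 / (A ^ 2 * B ^ 2))) ^ 2 *
        (C1 * (B ^ n / B ^ 3 + H ^ (n + 3) / B))
      + 2 * P16 * ((P5 * PA) * (64 * q ^ 3 / (A ^ 2 * B ^ 2))) ^ 2 *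
        (C2 * (B ^ n / B ^ 3 * (1 / k + 1 / (w + 1)) + H ^ (n + 3) / B))) ≤
      (P3 * 2 * P16 * P5 ^ 2 * 4 * q ^ 4 + P3 * 9 * P24 * P5 ^ 2 * 4096 * q ^ 6 * C1
        + P3 * 2 * P16 * P5 ^ 2 * 4096 * q ^ 6 * C2) * PA ^ 2 *
        (B ^ (n + 1) / (A ^ 2 * B ^ 4) + (B ^ (n + 1) / (A ^ 2 * B ^ 4)) ^ 2 *
          (1 / k + 1 / (w + 1) + H ^ (n + 3) * B ^ 3 / B ^ (n + 1))) := by
  obtain ⟨m, rfl⟩ : ∃ m, n = m + 5 := ⟨n - 5, by omega⟩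
  have hB0 : 0 < B := by linarith
  have hk0 : 0 < k := by linarith
  have hw1 : 0 < w + 1 := by linarith
  set E : ℝ := B ^ (m + 5 + 1) / (A ^ 2 * B ^ 4) with hE
  set h : ℝ := H ^ (m + 5 + 3) * B ^ 3 / B ^ (m + 5 + 1) with hh
  have hE0 : 0 ≤ E := by positivity
  have hh0 : 0 ≤ h := by positivity
  have e1 : B ^ (m + 5 + 1) * (2 * q ^ 2 / (A * B ^ 2)) ^ 2 = 4 * q ^ 4 * E := by
    rw [hE]
    field_simp
    ring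
  have e2 : B ^ (m + 5 + 1) * (64 * q ^ 3 / (A ^ 2 * B ^ 2)) ^ 2 * (B ^ (m + 5) / B ^ 3) =
      4096 * q ^ 6 * E ^ 2 := by
    rw [hE]
    field_simp
    ring
  have e3 : B ^ (m + 5 + 1) * (64 * q ^ 3 / (A ^ 2 * B ^ 2)) ^ 2 * (H ^ (m + 5 + 3) / B) =
      4096 * q ^ 6 * (E ^ 2 * h) := by
    rw [hE, hh]
    field_simp
    ring
  set X : ℝ := B ^ (m + 5 + 1)
  set a : ℝ := (2 * q ^ 2 / (A * B ^ 2)) ^ 2 with ha
  set b : ℝ := (64 * q ^ 3 / (A ^ 2 * B ^ 2)) ^ 2 with hb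
  set u : ℝ := B ^ (m + 5) / B ^ 3
  set v : ℝ := H ^ (m + 5 + 3) / B
  set s : ℝ := 1 / k + 1 / (w + 1) with hs
  have hs0 : 0 ≤ s := by positivity
  have hk1 : 1 / k ≤ 1 := by
    rw [div_le_one hk0]
    exact hk
  have hk2 : 0 ≤ 1 / k := by positivity
  have hks : 1 / k ≤ s := by
    rw [hs]
    have : 0 ≤ 1 / (w + 1) := by positivity
    linarith
  have e4 : P3 * X * (2 * P16 * ((P5 * PA) * (2 * q ^ 2 / (A * B ^ 2))) ^ 2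
      + 9 / k * P24 * ((P5 * PA) * (64 * q ^ 3 / (A ^ 2 * B ^ 2))) ^ 2 * (C1 * (u + v))
      + 2 * P16 * ((P5 * PA) * (64 * q ^ 3 / (A ^ 2 * B ^ 2))) ^ 2 * (C2 * (u * s + v))) =
      P3 * 2 * P16 * P5 ^ 2 * PA ^ 2 * (X * a)
      + P3 * 9 * P24 * P5 ^ 2 * PA ^ 2 * C1 * (1 / k * (X * b * u + X * b * v))
      + P3 * 2 * P16 * P5 ^ 2 * PA ^ 2 * C2 * (X * b * u * s + X * b * v) := by
    rw [ha, hb]
    ring
  rw [e4, e1, e2, e3]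
  set q4 : ℝ := q ^ 4 with hq4
  set q6 : ℝ := q ^ 6 with hq6
  have hq4' : 0 < q4 := by positivity
  have hq6' : 0 < q6 := by positivity
  have f1 : 4 * q4 * E ≤ 4 * q4 * (E + E ^ 2 * (s + h)) := by
    have : 0 ≤ E ^ 2 * (s + h) := by positivity
    gcongr
    linarith
  have f2 : 1 / k * (4096 * q6 * E ^ 2 + 4096 * q6 * (E ^ 2 * h)) ≤
      4096 * q6 * (E + E ^ 2 * (s + h)) := by
    have g1 : 1 / k * (4096 * q6 * E ^ 2 + 4096 * q6 * (E ^ 2 * h)) =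
        4096 * q6 * (E ^ 2 * (1 / k + 1 / k * h)) := by ring
    rw [g1]
    have g2 : 1 / k * h ≤ 1 * h := mul_le_mul_of_nonneg_right hk1 hh0
    have g3 : E ^ 2 * (1 / k + 1 / k * h) ≤ E ^ 2 * (s + h) :=
      mul_le_mul_of_nonneg_left (by linarith) (sq_nonneg _)
    have g4 : 0 ≤ 4096 * q6 := by positivity
    exact mul_le_mul_of_nonneg_left (by linarith) g4
  have f3 : 4096 * q6 * E ^ 2 * s + 4096 * q6 * (E ^ 2 * h) ≤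
      4096 * q6 * (E + E ^ 2 * (s + h)) := by
    have g1 : 4096 * q6 * E ^ 2 * s + 4096 * q6 * (E ^ 2 * h) =
        4096 * q6 * (E ^ 2 * (s + h)) := by ring
    rw [g1]
    have g4 : 0 ≤ 4096 * q6 := by positivity
    exact mul_le_mul_of_nonneg_left (by linarith) g4
  have k1 : 0 ≤ P3 * 2 * P16 * P5 ^ 2 * PA ^ 2 := by positivity
  have k2 : 0 ≤ P3 * 9 * P24 * P5 ^ 2 * PA ^ 2 * C1 := by positivity
  have k3 : 0 ≤ P3 * 2 * P16 * P5 ^ 2 * PA ^ 2 * C2 := by positivity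
  have m1 := mul_le_mul_of_nonneg_left f1 k1
  have m2 := mul_le_mul_of_nonneg_left f2 k2
  have m3 := mul_le_mul_of_nonneg_left f3 k3
  calc _ ≤ P3 * 2 * P16 * P5 ^ 2 * PA ^ 2 * (4 * q4 * (E + E ^ 2 * (s + h)))
      + P3 * 9 * P24 * P5 ^ 2 * PA ^ 2 * C1 * (4096 * q6 * (E + E ^ 2 * (s + h)))
      + P3 * 2 * P16 * P5 ^ 2 * PA ^ 2 * C2 * (4096 * q6 * (E + E ^ 2 * (s + h))) := by
        linarith
    _ = _ := by ring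

theorem varTot (n : ℕ) (hn : 5 ≤ n) (q : ℕ) (hq : 1 ≤ q) : ∃ C : ℝ, 0 < C ∧
    ∀ (o : Fin (n + 1)) (k w B H A W : ℕ), 1 ≤ k → 1 ≤ B → 1 ≤ H → 1 ≤ W →
    (∀ m, 1 ≤ m → m ≤ w → m ∣ W) → 8 * n ^ 2 * H ^ 2 * k ≤ A → 4 * q ≤ A →
    Qvar B H q o W (k ^ 2) A ≤
      C * ((A : ℝ) ^ (n + 1) ^ 2) ^ 2 * ((B : ℝ) ^ (n + 1) / (A ^ 2 * B ^ 4)
        + ((B : ℝ) ^ (n + 1) / (A ^ 2 * B ^ 4)) ^ 2 *
            (1 / k + 1 / (w + 1) + (H : ℝ) ^ (n + 3) * B ^ 3 / (B : ℝ) ^ (n + 1))) := by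
  obtain ⟨C1, hC1, hc1⟩ := psAll n q hn hq
  obtain ⟨C2, hC2, hc2⟩ := psBad n q hn hq
  have hqpos : (0 : ℝ) < q := by exact_mod_cast hq
  have p5 : (0 : ℝ) < 5 ^ (n + 1) ^ 2 := pow_pos (by norm_num) _
  have p16 : (0 : ℝ) < 16 ^ (n + 1) ^ 2 := pow_pos (by norm_num) _
  have p24 : (0 : ℝ) < 24 ^ (n + 1) ^ 2 := pow_pos (by norm_num) _
  have p3 : (0 : ℝ) < 3 ^ (n + 1) := pow_pos (by norm_num) _
  refine ⟨(3 ^ (n + 1) * 2 * 16 ^ (n + 1) ^ 2 * (5 ^ (n + 1) ^ 2) ^ 2 * 4 * (q : ℝ) ^ 4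
    + 3 ^ (n + 1) * 9 * 24 ^ (n + 1) ^ 2 * (5 ^ (n + 1) ^ 2) ^ 2 * 4096 * (q : ℝ) ^ 6 * C1
    + 3 ^ (n + 1) * 2 * 16 ^ (n + 1) ^ 2 * (5 ^ (n + 1) ^ 2) ^ 2 * 4096 * (q : ℝ) ^ 6 * C2),
    ?_, ?_⟩
  · generalize (5 : ℝ) ^ (n + 1) ^ 2 = P5 at *
    generalize (16 : ℝ) ^ (n + 1) ^ 2 = P16 at *
    generalize (24 : ℝ) ^ (n + 1) ^ 2 = P24 at *
    generalize (3 : ℝ) ^ (n + 1) = P3 at *
    positivity
  · intro o k w B H A W hk hB hH hW hW' hA hA'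
    have hA1 : 1 ≤ A := by omega
    have hApos : (0 : ℝ) < A := by exact_mod_cast hA1
    rw [expand B H q o W (k ^ 2) A (Nat.one_le_pow _ _ hk)]
    have h1 : ∀ x ∈ GG B H q o, _ := fun x hx =>
      varTot_row hn q hq C1 C2 o k w B H A W hk hB hH hA hA' x hx
        (hc1 B H o hB hH x hx) (hc2 B H k w W o hB hH hk hW' x hx)
    refine (Finset.sum_le_sum h1).trans ?_
    rw [Finset.sum_const, nsmul_eq_mul]
    refine (mul_le_mul_of_nonneg_right (card_GG_le hB) ?_).trans ?_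
    · have q5 : (0 : ℝ) ≤ (5 * (A : ℝ)) ^ (n + 1) ^ 2 := by positivity
      generalize (5 * (A : ℝ)) ^ (n + 1) ^ 2 = N0 at *
      generalize (16 : ℝ) ^ (n + 1) ^ 2 = P16 at *
      generalize (24 : ℝ) ^ (n + 1) ^ 2 = P24 at *
      positivity
    · rw [mul_pow (5 : ℝ) (A : ℝ)]
      exact varTot_alg n hn q k w B H A C1 C2 (by exact_mod_cast hk) (Nat.cast_nonneg _)
        (by exact_mod_cast hB) (Nat.cast_nonneg _) hApos hC1 hC2 hqpos _ _ _ _ _ p5 p16 p24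
        (pow_pos hApos _) p3

end Pool.Agent.Lib.MP_219881_nt
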