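import Pool.Agent.Lib.MP_219881_nt.MN_Par
import Pool.Agent.Lib.MP_219881_nt.MN_Cheb
import Pool.Agent.Lib.MP_219881_nt.VarTot
import Pool.Agent.Lib.MP_219881_nt.LocDens
import Pool.Agent.Lib.MP_219881_nt.CN_Low
import Pool.Agent.Lib.MP_219881_nt.RP_Fin

/-!
JOB MN_Bad.  Almost all everywhere locally soluble pairs of matrices have a small common zero (paper section 11).

PROOF.  `N3 = n + 1`. Abbreviate `U A = ((2A+1)^(n+1)^2)^2`.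
1. `realRob n (ε/4)`: `ρ, A1`. `q` a natural number with `1 ≤ ρ q` and `q ≥ 1`. `locDens n hn (ε/4)`: `τ, w1`. `low n hn ρ q`: `c`. `varTot n hn q`: `C`.
   Let `θ = ε (cτ)^2 / (16 * 4 * 16 * (n+1) * C)` (any number small enough below): we need the four quantities `1/E, 1/k, 1/(w+1), 1/g` all `≤ θ`.
2. Choose `k ≥ 1` with `1/k ≤ θ`, `K = k^2`; `w ≥ max w0(K) w1`, `1/(w+1) ≤ θ`, `w ≥ 1`; `W = WW w`; `η = cτ/2`; `g0` from `low` (this `w`, `η`), also `g0 ≥ 1/θ`, `g0 ≥ 1`; `A2` from `locDens` for this `w`.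
   `M ≥ 2^((3n+1)(n-3)) / θ` (natural, `≥ 1`). `gpar n hn M g0 (8 n^2 k)` gives `A3`. `A0 = max` of `A1, A2, A3, 4q, 1`.
3. Let `A ≥ A0`, `g` from `gpar`, `B = g^(3n+1)`, `H = g^5`, `E = B^(n+1)/(A^2 B^4) = B^(n-3)/A^2` (`EEq`): `E ≥ M/2^((3n+1)(n-3)) ≥ 1/θ > 0`.
   For `o : Fin (n+1)` let `T_o` be the set of `(a, b) ∈ Box n A ×ˢ Box n A` with `Nn B H q o a b = 0`, `∃ i j, i ≠ j ∧ Rob o i j ρ (a/A) (b/A)`, and `τ W^(n+1) ≤ sm .. W^2`. By `low`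
   `Ll ≥ E (c τ - cτ/2) = E cτ/2 =: l`. `cheb`: `T_o.card * l^2 ≤ 4 Qvar ≤ 4 C A^(2V) (E + E^2 (1/k + 1/(w+1) + H^(n+3)B^3/B^(n+1)))` (`varTot`; hypotheses: `WWdvd`, `WWpos`, `8 n^2 H^2 k ≤ A`, `4q ≤ A`), and
   `Hpow` bounds the last term by `1/g ≤ θ`. So `T_o.card ≤ 16 C/(cτ)^2 * (1/E + 3θ) A^(2V) ≤ 64 C θ/(cτ)^2 * U A ≤ ε/(4 (n+1)) * U A` for the right `θ` (`A^(2V) ≤ U A`).
4. A pair `(a, b)` of the filter (real and `p`-adic solubility, no small zero) is in the exceptional set of `realRob`, or in that of `locDens`, or in `T_o` for some `o`: otherwise there are `o, i ≠ j` with `Rob`, and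
   `sm W^2 ≥ τ W^(n+1)`, so `Nn B H q o a b ≠ 0` (if it were `0` the pair would be in `T_o`): there is `x ∈ GG B H q o` with `ev a x = ev b x = 0`; `x ≠ 0` (`q x_o ≥ B ≥ 1`), `|x l| ≤ B`, so
   `|x l|^(n-3) ≤ B^(n-3) ≤ M A^2` (`gpar`), contradiction. So the cardinality is at most `ε/4 U + ε/4 U + (n+1) ε/(4(n+1)) U ≤ ε U A` (`Finset.card_biUnion_le`, `Finset.card_union_le`).
-/

namespace Pool.Agent.Lib.MP_219881_nt

open Classical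

private theorem MN_Bad_ar (T Q C A2 E S c τ ε d N1 : ℝ) (hC : 0 < C) (hA : 0 ≤ A2) (hE : 0 < E) (hc : 0 < c)
    (hτ : 0 < τ) (hN : 0 < N1) (h1 : T * (E * (c * τ / 2)) ^ 2 ≤ 4 * Q) (h2 : Q ≤ C * A2 * (E + E ^ 2 * S))
    (hS : S ≤ 3 * d) (hd : 1 ≤ d * E) (hd2 : d ≤ ε * (c * τ) ^ 2 / (256 * N1 * C)) : T ≤ ε / (4 * N1) * A2 := by
  have h3 : E ≤ E ^ 2 * d := by
    calc E = E * 1 := by ring
      _ ≤ E * (d * E) := mul_le_mul_of_nonneg_left hd hE.le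
      _ = E ^ 2 * d := by ring
  have h4 : E + E ^ 2 * S ≤ E ^ 2 * (4 * d) := by
    have : E ^ 2 * S ≤ E ^ 2 * (3 * d) := mul_le_mul_of_nonneg_left hS (by positivity)
    calc E + E ^ 2 * S ≤ E ^ 2 * d + E ^ 2 * (3 * d) := add_le_add h3 this
      _ = E ^ 2 * (4 * d) := by ring
  have h5 : C * d ≤ ε * (c * τ) ^ 2 / (256 * N1) := by
    calc C * d ≤ C * (ε * (c * τ) ^ 2 / (256 * N1 * C)) := mul_le_mul_of_nonneg_left hd2 hC.le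
      _ = ε * (c * τ) ^ 2 / (256 * N1) := by
        field_simp
  have h6 : T * (E * (c * τ / 2)) ^ 2 ≤ (ε / (4 * N1) * A2) * (E * (c * τ / 2)) ^ 2 := by
    calc T * (E * (c * τ / 2)) ^ 2 ≤ 4 * Q := h1
      _ ≤ 4 * (C * A2 * (E + E ^ 2 * S)) := by linarith
      _ ≤ 4 * (C * A2 * (E ^ 2 * (4 * d))) := by
        have := mul_le_mul_of_nonneg_left h4 (show 0 ≤ C * A2 by positivity)
        linarith
      _ = (A2 * E ^ 2 * 16) * (C * d) := by ring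
      _ ≤ (A2 * E ^ 2 * 16) * (ε * (c * τ) ^ 2 / (256 * N1)) := mul_le_mul_of_nonneg_left h5 (by positivity)
      _ = (ε / (4 * N1) * A2) * (E * (c * τ / 2)) ^ 2 := by
        field_simp
        ring
  exact le_of_mul_le_mul_right h6 (by positivity)

private theorem MN_Bad_inv (d : ℝ) (hd : 0 < d) (n : ℕ) (hn : ⌈1 / d⌉₊ + 1 ≤ n) : 1 / (n : ℝ) ≤ d := by
  have h1 : 1 / d ≤ (n : ℝ) := by
    have h2 := Nat.le_ceil (1 / d)
    have h3 : ((⌈1 / d⌉₊ : ℕ) : ℝ) ≤ (n : ℝ) := by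
      have : ⌈1 / d⌉₊ ≤ n := by omega
      exact_mod_cast this
    linarith
  have h2 : (0 : ℝ) < n := by
    have : 0 < n := by omega
    exact_mod_cast this
  rw [div_le_iff₀ hd] at h1
  rw [div_le_iff₀ h2]
  linarith

private noncomputable def MN_Bad_T (n B H q w A : ℕ) (ρ τ : ℝ) (o : Fin (n + 1)) : Finset (Mt n ℤ × Mt n ℤ) :=
  ((Box n A) ×ˢ (Box n A)).filter fun ab => Nn B H q o ab.1 ab.2 = 0 ∧
    (∃ i j : Fin (n + 1), i ≠ j ∧ Rob o i j ρ (fun s t => (ab.1 s t : ℝ) / A) (fun s t => (ab.2 s t : ℝ) / A)) ∧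
    τ * (WW w : ℝ) ^ (n + 1) ≤
      (sm (WW w) (cm (ZMod (WW w)) ab.1) (cm (ZMod (WW w)) ab.2) : ℝ) * (WW w : ℝ) ^ 2

theorem mainMat (n : ℕ) (hn : 5 ≤ n) (ε : ℝ) (hε : 0 < ε) : ∃ M A0 : ℕ, ∀ A ≥ A0,
    ((((Box n A) ×ˢ (Box n A)).filter fun ab => RSol ab.1 ab.2 ∧ PSol ab.1 ab.2 ∧
        ¬ ∃ x : Vc n ℤ, x ≠ 0 ∧ (∀ i, |x i| ^ (n - 3) ≤ (M : ℤ) * (A : ℤ) ^ 2) ∧
          ev ab.1 x = 0 ∧ ev ab.2 x = 0).card : ℝ)
      ≤ ε * ((2 * A + 1 : ℝ) ^ (n + 1) ^ 2) ^ 2 := by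
  obtain ⟨ρ, hρ, hρ1, A1, hreal⟩ := realRob n (ε / 4) (by positivity)
  obtain ⟨q, hq1, hqρ⟩ : ∃ q : ℕ, 1 ≤ q ∧ 1 ≤ ρ * q := by
    refine ⟨⌈1 / ρ⌉₊ + 1, by omega, ?_⟩
    have h1 := Nat.le_ceil (1 / ρ)
    rw [div_le_iff₀ hρ] at h1
    push_cast
    nlinarith
  obtain ⟨τ, hτ, w1, hloc⟩ := locDens n hn (ε / 4) (by positivity)
  obtain ⟨c, hc, hlow⟩ := low n hn ρ hρ hρ1 q hqρ
  obtain ⟨C, hC, hvar⟩ := varTot n hn q hq1
  have hN1 : (0 : ℝ) < ((n + 1 : ℕ) : ℝ) := by positivity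
  obtain ⟨d, hdpos, hd2⟩ : ∃ d : ℝ, 0 < d ∧ d ≤ ε * (c * τ) ^ 2 / (256 * ((n + 1 : ℕ) : ℝ) * C) :=
    ⟨_, by positivity, le_rfl⟩
  obtain ⟨r, hr⟩ : ∃ r : ℕ, r = ⌈1 / d⌉₊ + 1 := ⟨_, rfl⟩
  have hinv : ∀ m : ℕ, r ≤ m → 1 / (m : ℝ) ≤ d := fun m hm => MN_Bad_inv d hdpos m (hr ▸ hm)
  have hr1 : 1 ≤ r := by omega
  obtain ⟨w0, hw0⟩ := hlow (r ^ 2) (Nat.one_le_pow _ _ hr1)
  obtain ⟨g0, hg0⟩ := hw0 (w0 + w1 + r) (by omega) (c * τ / 2) (by positivity)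
  obtain ⟨A2, hA2⟩ := hloc (w0 + w1 + r) (by omega)
  have hMpos : 1 ≤ 2 ^ ((3 * n + 1) * (n - 3)) * r := by
    have : 0 < 2 ^ ((3 * n + 1) * (n - 3)) * r := by positivity
    exact this
  obtain ⟨A3, hA3⟩ := gpar n hn (2 ^ ((3 * n + 1) * (n - 3)) * r) hMpos (g0 + r) (8 * n ^ 2 * r)
  refine ⟨2 ^ ((3 * n + 1) * (n - 3)) * r, A1 + A2 + A3 + 4 * q + 1, fun A hA => ?_⟩
  obtain ⟨g, hg1, hg2, hA0, hgM, hMg, hcA⟩ := hA3 A (by omega)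
  have hreal' := hreal A (by omega)
  have hloc' := hA2 A (by omega)
  have hA0r : (0 : ℝ) < A := by exact_mod_cast hA0
  obtain ⟨B, hB⟩ : ∃ B : ℕ, B = g ^ (3 * n + 1) := ⟨_, rfl⟩
  obtain ⟨H, hH⟩ : ∃ H : ℕ, H = g ^ 5 := ⟨_, rfl⟩
  rw [← hB] at hgM hMg
  rw [← hH] at hcA
  have hB1 : 1 ≤ B := by rw [hB]; exact Nat.one_le_pow _ _ hg1
  have hH1 : 1 ≤ H := by rw [hH]; exact Nat.one_le_pow _ _ hg1
  have hWpos := WWpos (w0 + w1 + r)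
  have hWr : (0 : ℝ) < (WW (w0 + w1 + r) : ℝ) := by exact_mod_cast hWpos
  have hB0r : (0 : ℝ) < B := by exact_mod_cast hB1
  -- E
  have hEeq := EEq n A B hn hA0 hB1
  have hEr : (r : ℝ) ≤ (B : ℝ) ^ (n + 1) / (A ^ 2 * B ^ 4) := by
    rw [hEeq, le_div_iff₀ (by positivity)]
    have h1 : (2 ^ ((3 * n + 1) * (n - 3))) * (r * A ^ 2) ≤ (2 ^ ((3 * n + 1) * (n - 3))) * B ^ (n - 3) := by
      calc (2 ^ ((3 * n + 1) * (n - 3))) * (r * A ^ 2) = 2 ^ ((3 * n + 1) * (n - 3)) * r * A ^ 2 := by ring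
        _ ≤ _ := hMg
    have h2 : r * A ^ 2 ≤ B ^ (n - 3) := Nat.le_of_mul_le_mul_left h1 (by positivity)
    exact_mod_cast h2
  have hEpos : 0 < (B : ℝ) ^ (n + 1) / (A ^ 2 * B ^ 4) := by positivity
  -- each T_o
  have hTo : ∀ o : Fin (n + 1), ((MN_Bad_T n B H q (w0 + w1 + r) A ρ τ o).card : ℝ) ≤
      ε / (4 * ((n + 1 : ℕ) : ℝ)) * ((A : ℝ) ^ (n + 1) ^ 2) ^ 2 := by
    intro o
    have hQ := hvar o r (w0 + w1 + r) B H A (WW (w0 + w1 + r)) hr1 hB1 hH1 hWpos (fun m h1 h2 => WWdvd _ m h1 h2)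
      (by
        calc 8 * n ^ 2 * H ^ 2 * r = 8 * n ^ 2 * r * H ^ 2 := by ring
          _ ≤ A := hcA) (by omega)
    have hch := cheb n B H q (WW (w0 + w1 + r)) (r ^ 2) A hA0 o
      ((B : ℝ) ^ (n + 1) / (A ^ 2 * B ^ 4) * (c * τ / 2)) (by positivity) (MN_Bad_T n B H q (w0 + w1 + r) A ρ τ o) (by
        intro ab hab
        unfold MN_Bad_T at hab
        rw [Finset.mem_filter, Finset.mem_product] at hab
        obtain ⟨⟨ha, hb⟩, hN, ⟨i, j, hij, hRob⟩, hsm⟩ := hab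
        refine ⟨ha, hb, hN, ?_⟩
        have h3 := hg0 g (by omega) B H hB hH A hA0 ab.1 ha ab.2 hb o i j hij hRob
        refine le_trans ?_ h3
        apply mul_le_mul_of_nonneg_left _ hEpos.le
        have h4 : τ ≤ (sm (WW (w0 + w1 + r)) (cm (ZMod (WW (w0 + w1 + r))) ab.1) (cm (ZMod (WW (w0 + w1 + r))) ab.2) : ℝ) *
            (WW (w0 + w1 + r) : ℝ) ^ 2 / (WW (w0 + w1 + r) : ℝ) ^ (n + 1) := by
          rw [le_div_iff₀ (by positivity)]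
          exact hsm
        have h5 := mul_le_mul_of_nonneg_left h4 hc.le
        linarith)
    refine MN_Bad_ar _ _ C (((A : ℝ) ^ (n + 1) ^ 2) ^ 2) ((B : ℝ) ^ (n + 1) / (A ^ 2 * B ^ 4))
      (1 / (r : ℝ) + 1 / (((w0 + w1 + r : ℕ) : ℝ) + 1) + (H : ℝ) ^ (n + 3) * B ^ 3 / (B : ℝ) ^ (n + 1))
      c τ ε d ((n + 1 : ℕ) : ℝ) hC (by positivity) hEpos hc hτ hN1 hch hQ ?_ ?_ hd2
    · have e1 := hinv r le_rfl
      have e2 : 1 / (((w0 + w1 + r : ℕ) : ℝ) + 1) ≤ d := by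
        have := hinv (w0 + w1 + r + 1) (by omega)
        rw [Nat.cast_succ] at this
        exact this
      have e3 := (Hpow n g B H hn hg1 hB hH).trans (hinv g (by omega))
      linarith
    · have e1 := hinv r le_rfl
      have hr0 : (0 : ℝ) < r := by exact_mod_cast hr1
      calc (1 : ℝ) = 1 / (r : ℝ) * r := by field_simp
        _ ≤ d * r := mul_le_mul_of_nonneg_right e1 hr0.le
        _ ≤ d * ((B : ℝ) ^ (n + 1) / (A ^ 2 * B ^ 4)) := mul_le_mul_of_nonneg_left hEr hdpos.le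
  -- covering
  have hsub : (((Box n A) ×ˢ (Box n A)).filter fun ab => RSol ab.1 ab.2 ∧ PSol ab.1 ab.2 ∧
        ¬ ∃ x : Vc n ℤ, x ≠ 0 ∧ (∀ i, |x i| ^ (n - 3) ≤ ((2 ^ ((3 * n + 1) * (n - 3)) * r : ℕ) : ℤ) * (A : ℤ) ^ 2) ∧
          ev ab.1 x = 0 ∧ ev ab.2 x = 0) ⊆
      (((Box n A) ×ˢ (Box n A)).filter fun ab => RSol ab.1 ab.2 ∧
        ¬ ∃ o i j : Fin (n + 1), i ≠ j ∧
          Rob o i j ρ (fun s t => (ab.1 s t : ℝ) / A) (fun s t => (ab.2 s t : ℝ) / A)) ∪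
      ((((Box n A) ×ˢ (Box n A)).filter fun ab => PSol ab.1 ab.2 ∧
        (sm (WW (w0 + w1 + r)) (cm (ZMod (WW (w0 + w1 + r))) ab.1) (cm (ZMod (WW (w0 + w1 + r))) ab.2) : ℝ) *
          (WW (w0 + w1 + r) : ℝ) ^ 2 < τ * (WW (w0 + w1 + r) : ℝ) ^ (n + 1)) ∪
      (Finset.univ : Finset (Fin (n + 1))).biUnion (fun o => MN_Bad_T n B H q (w0 + w1 + r) A ρ τ o)) := by
    intro ab hab
    rw [Finset.mem_filter] at hab
    obtain ⟨hbox, hR, hP, hno⟩ := hab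
    rw [Finset.mem_union, Finset.mem_union]
    by_cases h1 : ∃ o i j : Fin (n + 1), i ≠ j ∧
          Rob o i j ρ (fun s t => (ab.1 s t : ℝ) / A) (fun s t => (ab.2 s t : ℝ) / A)
    · right
      by_cases h2 : (sm (WW (w0 + w1 + r)) (cm (ZMod (WW (w0 + w1 + r))) ab.1) (cm (ZMod (WW (w0 + w1 + r))) ab.2) : ℝ) *
          (WW (w0 + w1 + r) : ℝ) ^ 2 < τ * (WW (w0 + w1 + r) : ℝ) ^ (n + 1)
      · left
        rw [Finset.mem_filter]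
        exact ⟨hbox, hP, h2⟩
      · right
        obtain ⟨o, i, j, hij, hRob⟩ := h1
        rw [Finset.mem_biUnion]
        refine ⟨o, Finset.mem_univ _, ?_⟩
        unfold MN_Bad_T
        rw [Finset.mem_filter]
        refine ⟨hbox, ?_, ⟨i, j, hij, hRob⟩, not_lt.1 h2⟩
        unfold Nn
        rw [Finset.card_eq_zero, Finset.filter_eq_empty_iff]
        rintro x hx ⟨he1, he2⟩
        apply hno
        refine ⟨x, ?_, ?_, he1, he2⟩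
        · intro h0
          have := GG_pos hB1 hx
          rw [h0] at this
          simp at this
        · intro l
          have h3 := GG_le hx l
          calc |x l| ^ (n - 3) ≤ (B : ℤ) ^ (n - 3) := pow_le_pow_left₀ (abs_nonneg _) h3 _
            _ ≤ ((2 ^ ((3 * n + 1) * (n - 3)) * r : ℕ) : ℤ) * (A : ℤ) ^ 2 := by exact_mod_cast hgM
    · left
      rw [Finset.mem_filter]
      exact ⟨hbox, hR, h1⟩
  have hcard := (Finset.card_le_card hsub).trans ((Finset.card_union_le _ _).trans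
    (Nat.add_le_add_left ((Finset.card_union_le _ _).trans (Nat.add_le_add_left Finset.card_biUnion_le _)) _))
  have hcard' : ((((Box n A) ×ˢ (Box n A)).filter fun ab => RSol ab.1 ab.2 ∧ PSol ab.1 ab.2 ∧
        ¬ ∃ x : Vc n ℤ, x ≠ 0 ∧ (∀ i, |x i| ^ (n - 3) ≤ ((2 ^ ((3 * n + 1) * (n - 3)) * r : ℕ) : ℤ) * (A : ℤ) ^ 2) ∧
          ev ab.1 x = 0 ∧ ev ab.2 x = 0).card : ℝ) ≤
      ((((Box n A) ×ˢ (Box n A)).filter fun ab => RSol ab.1 ab.2 ∧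
        ¬ ∃ o i j : Fin (n + 1), i ≠ j ∧
          Rob o i j ρ (fun s t => (ab.1 s t : ℝ) / A) (fun s t => (ab.2 s t : ℝ) / A)).card : ℝ) +
      (((((Box n A) ×ˢ (Box n A)).filter fun ab => PSol ab.1 ab.2 ∧
        (sm (WW (w0 + w1 + r)) (cm (ZMod (WW (w0 + w1 + r))) ab.1) (cm (ZMod (WW (w0 + w1 + r))) ab.2) : ℝ) *
          (WW (w0 + w1 + r) : ℝ) ^ 2 < τ * (WW (w0 + w1 + r) : ℝ) ^ (n + 1)).card : ℝ) +
      ∑ o : Fin (n + 1), ((MN_Bad_T n B H q (w0 + w1 + r) A ρ τ o).card : ℝ)) := by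
    exact_mod_cast hcard
  have hsum : ∑ o : Fin (n + 1), ((MN_Bad_T n B H q (w0 + w1 + r) A ρ τ o).card : ℝ) ≤
      ε / 4 * ((A : ℝ) ^ (n + 1) ^ 2) ^ 2 := by
    calc ∑ o : Fin (n + 1), ((MN_Bad_T n B H q (w0 + w1 + r) A ρ τ o).card : ℝ) ≤
        ∑ _o : Fin (n + 1), ε / (4 * ((n + 1 : ℕ) : ℝ)) * ((A : ℝ) ^ (n + 1) ^ 2) ^ 2 :=
          Finset.sum_le_sum fun o _ => hTo o
      _ = ε / 4 * ((A : ℝ) ^ (n + 1) ^ 2) ^ 2 := by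
        rw [Finset.sum_const, Finset.card_univ, Fintype.card_fin, nsmul_eq_mul]
        field_simp
  have hAV : ((A : ℝ) ^ (n + 1) ^ 2) ^ 2 ≤ ((2 * (A : ℝ) + 1) ^ (n + 1) ^ 2) ^ 2 :=
    pow_le_pow_left₀ (by positivity) (pow_le_pow_left₀ hA0r.le (by linarith) _) 2
  have hpos : 0 ≤ ε / 4 * ((2 * (A : ℝ) + 1) ^ (n + 1) ^ 2) ^ 2 := by positivity
  have hsum' : ∑ o : Fin (n + 1), ((MN_Bad_T n B H q (w0 + w1 + r) A ρ τ o).card : ℝ) ≤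
      ε / 4 * ((2 * (A : ℝ) + 1) ^ (n + 1) ^ 2) ^ 2 :=
    hsum.trans (mul_le_mul_of_nonneg_left hAV (by positivity))
  refine (hcard'.trans (add_le_add hreal' (add_le_add hloc' hsum'))).trans ?_
  linarith

end Pool.Agent.Lib.MP_219881_nt
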