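import Pool.Agent.Lib.MP_219881_nt.FM_Xfer
import Pool.Agent.Lib.MP_219881_nt.FM_Loc
import Pool.Agent.Lib.MP_219881_nt.MN_Bad

/-!
JOB FM_Bad.  Transfer of mainMat to forms.

`formsBad`: `mainMat n hn (ε / 4^(Lo n))` gives `M`, `A0`. `xfer2` with `S = {fg | fg.1, fg.2 ∈ Forms n A, LocSol, not SmallZero (M A^2)}` and `T` = the filter of `mainMat` (`sol_of_locSol`, `smallZero_iff`):
`S.ncard * ((A+1)^Lo)^2 ≤ T.card ≤ ε/4^Lo ((2A+1)^(n+1)^2)^2`, `(n+1)^2 = Lo + Up` (`Lo_add_Up`), `A + 1 ≥ (2A+1)/2`: `S.ncard ≤ ε ((2A+1)^Up)^2`.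
-/

namespace Pool.Agent.Lib.MP_219881_nt

open Classical

theorem formsBad (n : ℕ) (hn : 5 ≤ n) (ε : ℝ) (hε : 0 < ε) : ∃ M A0 : ℕ, ∀ A ≥ A0,
    (({fg | fg.1 ∈ Forms n A ∧ fg.2 ∈ Forms n A ∧ LocSol fg.1 fg.2 ∧
        ¬ SmallZero ((M : ℤ) * (A : ℤ) ^ 2) fg.1 fg.2} :
      Set (MvPolynomial (Fin (n + 1)) ℤ × MvPolynomial (Fin (n + 1)) ℤ)).ncard : ℝ)
      ≤ ε * ((2 * A + 1 : ℝ) ^ Up n) ^ 2 := by
  have hε2 : 0 < ε / (4 ^ Lo n : ℝ) := by positivity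
  obtain ⟨M, A0, h⟩ := mainMat n hn (ε / 4 ^ Lo n) hε2
  refine ⟨M, A0, fun A hA => ?_⟩
  have h1 := h A hA
  set S : Set (MvPolynomial (Fin (n + 1)) ℤ × MvPolynomial (Fin (n + 1)) ℤ) :=
    {fg | fg.1 ∈ Forms n A ∧ fg.2 ∈ Forms n A ∧ LocSol fg.1 fg.2 ∧
        ¬ SmallZero ((M : ℤ) * (A : ℤ) ^ 2) fg.1 fg.2} with hS
  set T := ((Box n A) ×ˢ (Box n A)).filter fun ab => RSol ab.1 ab.2 ∧ PSol ab.1 ab.2 ∧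
        ¬ ∃ x : Vc n ℤ, x ≠ 0 ∧ (∀ i, |x i| ^ (n - 3) ≤ (M : ℤ) * (A : ℤ) ^ 2) ∧
          ev ab.1 x = 0 ∧ ev ab.2 x = 0 with hT
  have h2 : S.ncard * ((A + 1) ^ Lo n) ^ 2 ≤ T.card := by
    refine xfer2 S (fun fg hf => ⟨hf.1, hf.2.1⟩) T ?_
    rintro ⟨f, g⟩ hf a ha b hb hpa hpb
    simp only at hpa hpb
    subst hpa
    subst hpb
    rw [hT, Finset.mem_filter, Finset.mem_product]
    obtain ⟨hr, hp⟩ := sol_of_locSol hf.2.2.1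
    exact ⟨⟨ha, hb⟩, hr, hp, fun hx => hf.2.2.2 ((smallZero_iff _ a b).2 hx)⟩
  have h3 : (S.ncard : ℝ) * (((A : ℝ) + 1) ^ Lo n) ^ 2 ≤ (T.card : ℝ) := by exact_mod_cast h2
  have hA0 : (0 : ℝ) ≤ A := Nat.cast_nonneg A
  have h4 : (2 * A + 1 : ℝ) / 2 ≤ (A : ℝ) + 1 := by linarith
  have h5 : (0 : ℝ) < 2 * A + 1 := by positivity
  have h6 : (((2 * A + 1 : ℝ) / 2) ^ Lo n) ^ 2 ≤ (((A : ℝ) + 1) ^ Lo n) ^ 2 :=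
    pow_le_pow_left₀ (by positivity) (pow_le_pow_left₀ (by positivity) h4 _) 2
  have h7 : (S.ncard : ℝ) * (((2 * A + 1 : ℝ) / 2) ^ Lo n) ^ 2 ≤
      ε / 4 ^ Lo n * ((2 * A + 1 : ℝ) ^ (n + 1) ^ 2) ^ 2 :=
    (mul_le_mul_of_nonneg_left h6 (Nat.cast_nonneg _)).trans (h3.trans h1)
  have h8 : (0 : ℝ) < (((2 * A + 1 : ℝ) / 2) ^ Lo n) ^ 2 := by positivity
  refine le_of_mul_le_mul_right (h7.trans (le_of_eq ?_)) h8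
  have h9 : (4 : ℝ) ^ Lo n = (2 ^ Lo n) ^ 2 := by
    rw [← pow_mul, mul_comm, pow_mul]
    norm_num
  rw [← Lo_add_Up, pow_add, div_pow, h9]
  field_simp

end Pool.Agent.Lib.MP_219881_nt
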