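import Pool.Agent.Lib.MP_219881_nt.Basic

/-! Matrices and quadratic forms, definitions (paper section 12). -/

namespace Pool.Agent.Lib.MP_219881_nt

/-- Integral quadratic forms in `n + 1` variables with all coefficients at most `A` in absolute value. -/
def Forms (n A : ℕ) : Set (MvPolynomial (Fin (n + 1)) ℤ) :=
  {f | f.IsHomogeneous 2 ∧ ∀ m, |f.coeff m| ≤ (A : ℤ)}

/-- `f = g = 0` is a smooth complete intersection of codimension 2 (over the algebraic closure of `ℚ`). -/
def SmoothCI {n : ℕ} (f g : MvPolynomial (Fin (n + 1)) ℤ) : Prop :=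
  ∀ x : Fin (n + 1) → AlgebraicClosure ℚ, x ≠ 0 → MvPolynomial.aeval x f = 0 →
    MvPolynomial.aeval x g = 0 →
    LinearIndependent (AlgebraicClosure ℚ)
      ![fun i => MvPolynomial.aeval x (MvPolynomial.pderiv i f),
        fun i => MvPolynomial.aeval x (MvPolynomial.pderiv i g)]

/-- `f` and `g` have a common nonzero zero over the reals and over every `p`-adic field. -/
def LocSol {n : ℕ} (f g : MvPolynomial (Fin (n + 1)) ℤ) : Prop :=
  (∃ x : Fin (n + 1) → ℝ, x ≠ 0 ∧ MvPolynomial.aeval x f = 0 ∧ MvPolynomial.aeval x g = 0) ∧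
  ∀ (p : ℕ) [Fact p.Prime], ∃ x : Fin (n + 1) → ℚ_[p], x ≠ 0 ∧ MvPolynomial.aeval x f = 0 ∧
    MvPolynomial.aeval x g = 0

/-- `f` and `g` have a common nonzero integer zero with all coordinates satisfying
`|x i| ^ (n - 3) ≤ X`. -/
def SmallZero {n : ℕ} (X : ℤ) (f g : MvPolynomial (Fin (n + 1)) ℤ) : Prop :=
  ∃ x : Fin (n + 1) → ℤ, x ≠ 0 ∧ (∀ i, |x i| ^ (n - 3) ≤ X) ∧ MvPolynomial.aeval x f = 0 ∧
    MvPolynomial.aeval x g = 0

/-- The exponent of `X_i X_j`. -/
noncomputable def mo {n : ℕ} (i j : Fin (n + 1)) : Fin (n + 1) →₀ ℕ :=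
  Finsupp.single i 1 + Finsupp.single j 1

/-- The quadratic form of a matrix. -/
noncomputable def poly {n : ℕ} (a : Mt n ℤ) : MvPolynomial (Fin (n + 1)) ℤ :=
  ∑ i, ∑ j, MvPolynomial.monomial (mo i j) (a i j)

/-- The upper triangular matrix of a form. -/
noncomputable def toMat {n : ℕ} (f : MvPolynomial (Fin (n + 1)) ℤ) : Mt n ℤ := fun i j =>
  if i ≤ j then f.coeff (mo i j) else 0

/-- Sign. -/
def sg (x : ℤ) : ℤ := if 0 ≤ x then 1 else -1

/-- The matrix with the form of the upper triangular matrix `α` and entries `± b` below the diagonal. -/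
def mk {n : ℕ} (α b : Mt n ℤ) : Mt n ℤ := fun i j =>
  if j < i then sg (α j i) * b i j
  else if i < j then α i j - sg (α i j) * b j i
  else α i j

/-- Strictly lower triangular matrices with entries in `[0, q]`. -/
noncomputable def BB (n q : ℕ) : Finset (Mt n ℤ) :=
  Fintype.piFinset fun i => Fintype.piFinset fun j =>
    if i ≤ j then {0} else Finset.Icc 0 (q : ℤ)

/-- Number of entries below the diagonal. -/
def Lo (n : ℕ) : ℕ := ((Finset.univ : Finset (Fin (n + 1) × Fin (n + 1))).filter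
  fun t => t.2 < t.1).card

/-- Number of entries on and above the diagonal. -/
def Up (n : ℕ) : ℕ := ((Finset.univ : Finset (Fin (n + 1) × Fin (n + 1))).filter
  fun t => t.1 ≤ t.2).card

end Pool.Agent.Lib.MP_219881_nt
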