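import Pool.Agent.Lib.MP_219881_nt.PairSum
import Pool.Agent.Lib.MP_219881_nt.N1
import Pool.Agent.Lib.MP_219881_nt.N2
import Pool.Agent.Lib.MP_219881_nt.EEle

/-!
JOB PairTot.  The second moment without local terms.
(Cubic version with proof: /team-store/MP_1ad228_ntC_PairTot.lean; adapt it.)

PROOF.  Put `V = (n+1)^2`. `A ≥ 4 q ≥ 1`. `y = x`: `n2_self` and `N1` (`8 n^2 H ≤ 8 n^2 H^2 ≤ A`):
`n2^2 ≤ ((5A)^V * 2q^2/(A B^2))^2`. `y ≠ x`: `N2`: `n2^2 ≤ ((5A)^V * 64 q^3/(A^2 B^2))^2 * (Dd/Del)^2` and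
`psAll`. Sum over `x`: `card (GG B H q o) ≤ 3^(n+1) B^(n+1)` (`card_GG_le`). Diagonal:
`B^(n+1) * (1/(A B^2))^2 = B^(n+1)/(A^2 B^4) =: E`. Off diagonal:
`B^(n+1)/(A^4 B^4) * (B^n/B^3 + H^(n+3)/B) = E^2 * (1 + H^(n+3) * B^3/B^(n+1))` up to
nothing: `E^2 = B^(2n+2)/(A^4 B^8)`, `E^2 * H^(n+3) B^3/B^(n+1) = B^(n+1) H^(n+3)/(A^4 B^5)`; and
`B^(n+1)/(A^4 B^4) * B^n/B^3 = E^2` exactly. `(5A)^V = 5^V A^V`.
-/

namespace Pool.Agent.Lib.MP_219881_nt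

open Classical

private theorem PairTot_row {n : ℕ} (hn : 5 ≤ n) (o : Fin (n + 1)) (B H q A : ℕ) (hB : 1 ≤ B)
    (hH : 1 ≤ H) (hq : 1 ≤ q) (hA : 8 * n ^ 2 * H ^ 2 ≤ A) (hqA : 4 * q ≤ A) (C0 : ℝ)
    (hC0 : ∀ x ∈ GG B H q o,
      ∑ y ∈ (GG B H q o).filter (fun y => y ≠ x), ((Dd x y : ℝ) / (Del o x y : ℝ)) ^ 2 ≤
      C0 * ((B : ℝ) ^ n / (B : ℝ) ^ 3 + (H : ℝ) ^ (n + 3) / (B : ℝ)))
    (x : Vc n ℤ) (hx : x ∈ GG B H q o) :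
    ∑ y ∈ GG B H q o, (n2 x y A : ℝ) ^ 2 ≤ ((5 * (A : ℝ)) ^ (n + 1) ^ 2) ^ 2 *
      ((2 * (q : ℝ) ^ 2 / ((A : ℝ) * (B : ℝ) ^ 2)) ^ 2
      + (64 * (q : ℝ) ^ 3 / ((A : ℝ) ^ 2 * (B : ℝ) ^ 2)) ^ 2 *
        (C0 * ((B : ℝ) ^ n / (B : ℝ) ^ 3 + (H : ℝ) ^ (n + 3) / (B : ℝ)))) := by
  have h6 : 8 * n ^ 2 * H ≤ A := by
    have h1 : H ≤ H ^ 2 := by nlinarith
    exact (Nat.mul_le_mul_left (8 * n ^ 2) h1).trans hA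
  have hA1 : 1 ≤ A := by omega
  have hsplit : ∑ y ∈ GG B H q o, (n2 x y A : ℝ) ^ 2 =
      (n2 x x A : ℝ) ^ 2 + ∑ y ∈ (GG B H q o).filter (fun y => y ≠ x), (n2 x y A : ℝ) ^ 2 := by
    have h1 := Finset.add_sum_erase (GG B H q o) (fun y => (n2 x y A : ℝ) ^ 2) hx
    have h2 : (GG B H q o).erase x = (GG B H q o).filter (fun y => y ≠ x) := by
      ext y
      simp only [Finset.mem_erase, Finset.mem_filter]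
      tauto
    rw [h2] at h1
    exact h1.symm
  rw [hsplit, mul_add]
  apply add_le_add
  · rw [n2_self, ← mul_pow]
    exact pow_le_pow_left₀ (Nat.cast_nonneg _) (N1 (by omega) B H q A o hB hq hA1 h6 x hx) 2
  · calc ∑ y ∈ (GG B H q o).filter (fun y => y ≠ x), (n2 x y A : ℝ) ^ 2
        ≤ ∑ y ∈ (GG B H q o).filter (fun y => y ≠ x), ((5 * (A : ℝ)) ^ (n + 1) ^ 2) ^ 2 *
          ((64 * (q : ℝ) ^ 3 / ((A : ℝ) ^ 2 * (B : ℝ) ^ 2)) ^ 2 *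
            ((Dd x y : ℝ) / (Del o x y : ℝ)) ^ 2) := by
          apply Finset.sum_le_sum
          intro y hy
          rw [Finset.mem_filter] at hy
          have h3 := N2 B H q A o hB hq hA hqA x y hx hy.1 (Ne.symm hy.2)
          have h4 := pow_le_pow_left₀ (Nat.cast_nonneg _) h3 2
          have key : ∀ u v w : ℝ, (u * (v * w)) ^ 2 = u ^ 2 * (v ^ 2 * w ^ 2) :=
            fun u v w => by ring
          rw [key] at h4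
          exact h4
      _ = ((5 * (A : ℝ)) ^ (n + 1) ^ 2) ^ 2 * ((64 * (q : ℝ) ^ 3 / ((A : ℝ) ^ 2 * (B : ℝ) ^ 2)) ^ 2 *
          ∑ y ∈ (GG B H q o).filter (fun y => y ≠ x), ((Dd x y : ℝ) / (Del o x y : ℝ)) ^ 2) := by
          rw [Finset.mul_sum, Finset.mul_sum]
      _ ≤ _ := by
          apply mul_le_mul_of_nonneg_left _ (by positivity)
          apply mul_le_mul_of_nonneg_left _ (by positivity)
          exact hC0 x hx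

theorem pairTot (n : ℕ) (hn : 5 ≤ n) (q : ℕ) (hq : 1 ≤ q) : ∃ C : ℝ, 0 < C ∧
    ∀ (o : Fin (n + 1)) (B H A : ℕ), 1 ≤ B → 1 ≤ H → 8 * n ^ 2 * H ^ 2 ≤ A → 4 * q ≤ A →
    ∑ x ∈ GG B H q o, ∑ y ∈ GG B H q o, (n2 x y A : ℝ) ^ 2 ≤
      C * ((A : ℝ) ^ (n + 1) ^ 2) ^ 2 * ((B : ℝ) ^ (n + 1) / (A ^ 2 * B ^ 4)
        + ((B : ℝ) ^ (n + 1) / (A ^ 2 * B ^ 4)) ^ 2 *
            (1 + (H : ℝ) ^ (n + 3) * B ^ 3 / (B : ℝ) ^ (n + 1))) := by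
  have hq0 : (0 : ℝ) < q := by exact_mod_cast hq
  obtain ⟨C0, hC0pos, hC0⟩ := psAll n q hn hq
  refine ⟨3 ^ (n + 1) * (5 ^ (n + 1) ^ 2) ^ 2 * (4 * (q : ℝ) ^ 4 + 4096 * (q : ℝ) ^ 6 * C0),
    by positivity, ?_⟩
  intro o B H A hB hH hA hqA
  have hA1 : 1 ≤ A := by omega
  have hA0 : (0 : ℝ) < A := by exact_mod_cast hA1
  have hB0 : (0 : ℝ) < B := by exact_mod_cast hB
  have hH0 : (0 : ℝ) < H := by exact_mod_cast hH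
  set R : ℝ := ((5 * (A : ℝ)) ^ (n + 1) ^ 2) ^ 2 *
      ((2 * (q : ℝ) ^ 2 / ((A : ℝ) * (B : ℝ) ^ 2)) ^ 2
      + (64 * (q : ℝ) ^ 3 / ((A : ℝ) ^ 2 * (B : ℝ) ^ 2)) ^ 2 *
        (C0 * ((B : ℝ) ^ n / (B : ℝ) ^ 3 + (H : ℝ) ^ (n + 3) / (B : ℝ)))) with hR
  have hR0 : 0 ≤ R := by positivity
  have h1 : ∑ x ∈ GG B H q o, ∑ y ∈ GG B H q o, (n2 x y A : ℝ) ^ 2 ≤
      ((GG B H q o).card : ℝ) * R := by
    calc ∑ x ∈ GG B H q o, ∑ y ∈ GG B H q o, (n2 x y A : ℝ) ^ 2 ≤ ∑ _x ∈ GG B H q o, R :=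
          Finset.sum_le_sum (fun x hx =>
            PairTot_row hn o B H q A hB hH hq hA hqA C0 (hC0 B H o hB hH) x hx)
      _ = _ := by rw [Finset.sum_const, nsmul_eq_mul]
  have h2 := card_GG_le (B := B) (H := H) (q := q) (o := o) hB
  refine h1.trans ((mul_le_mul_of_nonneg_right h2 hR0).trans ?_)
  have e1 : 3 ^ (n + 1) * (B : ℝ) ^ (n + 1) * R =
      3 ^ (n + 1) * (5 ^ (n + 1) ^ 2) ^ 2 * ((A : ℝ) ^ (n + 1) ^ 2) ^ 2 *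
      (4 * (q : ℝ) ^ 4 * ((B : ℝ) ^ (n + 1) / (A ^ 2 * B ^ 4)) +
        4096 * (q : ℝ) ^ 6 * C0 * (((B : ℝ) ^ (n + 1) / (A ^ 2 * B ^ 4)) ^ 2 *
            (1 + (H : ℝ) ^ (n + 3) * B ^ 3 / (B : ℝ) ^ (n + 1)))) := by
    have hb0 : (B : ℝ) ^ n ≠ 0 := (pow_pos hB0 n).ne'
    rw [hR, mul_pow 5 (A : ℝ), pow_succ (B : ℝ) n]
    generalize (B : ℝ) ^ n = b at hb0
    generalize (5 : ℝ) ^ (n + 1) ^ 2 = v5
    generalize (A : ℝ) ^ (n + 1) ^ 2 = vA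
    generalize (H : ℝ) ^ (n + 3) = hh
    generalize (3 : ℝ) ^ (n + 1) = v3
    field_simp
    ring
  rw [e1]
  have p1 : (0 : ℝ) ≤ (B : ℝ) ^ (n + 1) / (A ^ 2 * B ^ 4) := by positivity
  have p2 : (0 : ℝ) ≤ ((B : ℝ) ^ (n + 1) / (A ^ 2 * B ^ 4)) ^ 2 *
            (1 + (H : ℝ) ^ (n + 3) * B ^ 3 / (B : ℝ) ^ (n + 1)) := by positivity
  generalize (B : ℝ) ^ (n + 1) / (A ^ 2 * B ^ 4) = s at p1 p2 ⊢
  generalize s ^ 2 * (1 + (H : ℝ) ^ (n + 3) * B ^ 3 / (B : ℝ) ^ (n + 1)) = t at p2 ⊢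
  have p3 : (0 : ℝ) ≤ 4 * (q : ℝ) ^ 4 := by positivity
  have p4 : (0 : ℝ) ≤ 4096 * (q : ℝ) ^ 6 * C0 := by positivity
  generalize 4 * (q : ℝ) ^ 4 = a at p3 ⊢
  generalize 4096 * (q : ℝ) ^ 6 * C0 = b at p4 ⊢
  have e2 : 3 ^ (n + 1) * (5 ^ (n + 1) ^ 2) ^ 2 * (a + b) * ((A : ℝ) ^ (n + 1) ^ 2) ^ 2 * (s + t) =
      3 ^ (n + 1) * (5 ^ (n + 1) ^ 2) ^ 2 * ((A : ℝ) ^ (n + 1) ^ 2) ^ 2 *
      ((a + b) * (s + t)) := by ring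
  rw [e2]
  apply mul_le_mul_of_nonneg_left _ (by positivity)
  have e3 : (a + b) * (s + t) = (a * s + b * t) + (a * t + b * s) := by ring
  rw [e3]
  have e4 : 0 ≤ a * t + b * s := by positivity
  linarith

end Pool.Agent.Lib.MP_219881_nt
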