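import Pool.Agent.Lib.MP_219881_nt.MN_Par
import Pool.Agent.Lib.MP_219881_nt.PairTot
import Pool.Agent.Lib.MP_219881_nt.CN_Np
import Pool.Agent.Lib.MP_219881_nt.HG_Bad

/-!
JOB MN_Pos.  A positive proportion of the pairs of matrices has a common nonzero integer zero (paper section 11).

`csPos` (Cauchy-Schwarz): let `P = Box n A ×ˢ Box n A`, `N(a, b) = Nn B H q o a b = ∑_{x ∈ GG} [ev a x = 0 ∧ ev b x = 0]`. Exchange sums: `∑_P N = ∑_{x ∈ GG} (n1 x A)^2`,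
`∑_P N^2 = ∑_{x, y ∈ GG} (n2 x y A)^2` (a filter on a product is a product of filters). With `S = {(a,b) ∈ P | N ≠ 0}`: `(∑_P N)^2 = (∑_S N)^2 ≤ S.card * ∑_S N^2 ≤ S.card * ∑_P N^2`
(`sq_sum_le_card_mul_sum_sq`). A pair in `S` has a common zero `x ∈ GG`, nonzero because it is `Uni`.

`posMat`: `q = 2`, `o = 0`, constants `Cb` of `badX`, `C` of `pairTot n hn 2`. `gpar n hn 1 g0 (8 n^2)` with `g0` such that for `g ≥ g0`, `B = g^(3n+1)`, `H = g^5`, `L = g^3`: the hypotheses of `badX` hold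
(`1 ≤ L ≤ H`, `2^(n+1) L ≤ B`, `3^n (n+1) B ≤ H L^(n-1) = g^(3n+2)`) and `Cb B^n L^n = Cb B^(n+1)/g ≤ B^(n+1)/8`. By `manyU` and `badX` `#GG B H 2 o ≥ B^(n+1)/4 - B^(n+1)/8 = B^(n+1)/8`
(`GG` is the set of `manyU` minus those which are not `H`-good). `A ≥ 8`. `E = B^(n-3)/A^2` (`EEq`) satisfies `2^(-D) ≤ E ≤ 1`, `D = (3n+1)(n-3)`.
`∑_{GG} n1^2 ≥ (B^(n+1)/8) (A^V/(3 V A B^2))^2 = E A^(2V)/(72 V^2)` (`n1low`, `V = (n+1)^2`), `∑∑ n2^2 ≤ C A^(2V) (E + E^2 (1 + 1)) ≤ 3 C A^(2V) E` (`pairTot`, `Hpow` : the last fraction is `≤ 1`). So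
`#S ≥ (E A^(2V)/(72 V^2))^2/(3 C A^(2V) E) = E A^(2V)/(15552 V^4 C) ≥ δ ((2A+1)^V)^2` with `δ = 2^(-D) 3^(-2V)/(15552 V^4 C)` (`2A + 1 ≤ 3A`).
-/

namespace Pool.Agent.Lib.MP_219881_nt

open Classical

private theorem MN_Pos_cnt (n A : ℕ) (x : Vc n ℤ) :
    ∑ ab ∈ (Box n A) ×ˢ (Box n A), (if ev ab.1 x = 0 ∧ ev ab.2 x = 0 then (1 : ℝ) else 0) = (n1 x A : ℝ) ^ 2 := by
  rw [Finset.sum_boole, Finset.filter_product (fun a => ev a x = 0) (fun b => ev b x = 0), Finset.card_product]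
  unfold n1
  push_cast
  ring

private theorem MN_Pos_cnt2 (n A : ℕ) (x y : Vc n ℤ) :
    ∑ ab ∈ (Box n A) ×ˢ (Box n A), (if ev ab.1 x = 0 ∧ ev ab.2 x = 0 then (1 : ℝ) else 0) *
      (if ev ab.1 y = 0 ∧ ev ab.2 y = 0 then (1 : ℝ) else 0) = (n2 x y A : ℝ) ^ 2 := by
  have h1 : ∀ ab : Mt n ℤ × Mt n ℤ, (if ev ab.1 x = 0 ∧ ev ab.2 x = 0 then (1 : ℝ) else 0) *
      (if ev ab.1 y = 0 ∧ ev ab.2 y = 0 then (1 : ℝ) else 0) =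
      if (ev ab.1 x = 0 ∧ ev ab.1 y = 0) ∧ (ev ab.2 x = 0 ∧ ev ab.2 y = 0) then (1 : ℝ) else 0 := by
    intro ab
    by_cases p1 : ev ab.1 x = 0 ∧ ev ab.2 x = 0
    · by_cases p2 : ev ab.1 y = 0 ∧ ev ab.2 y = 0
      · rw [if_pos p1, if_pos p2, if_pos ⟨⟨p1.1, p2.1⟩, p1.2, p2.2⟩, mul_one]
      · rw [if_neg p2, mul_zero, if_neg (fun h => p2 ⟨h.1.2, h.2.2⟩)]
    · rw [if_neg p1, zero_mul, if_neg (fun h => p1 ⟨h.1.1, h.2.1⟩)]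
  rw [Finset.sum_congr rfl (fun ab _ => h1 ab), Finset.sum_boole,
    Finset.filter_product (fun a => ev a x = 0 ∧ ev a y = 0) (fun b => ev b x = 0 ∧ ev b y = 0), Finset.card_product]
  unfold n2
  push_cast
  ring

theorem csPos (n B H q A : ℕ) (o : Fin (n + 1)) :
    (∑ x ∈ GG B H q o, (n1 x A : ℝ) ^ 2) ^ 2 ≤
      ((((Box n A) ×ˢ (Box n A)).filter fun ab => ∃ x : Vc n ℤ, x ≠ 0 ∧ ev ab.1 x = 0 ∧
        ev ab.2 x = 0).card : ℝ) * ∑ x ∈ GG B H q o, ∑ y ∈ GG B H q o, (n2 x y A : ℝ) ^ 2 := by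
  obtain ⟨N, hN⟩ : ∃ N : Mt n ℤ × Mt n ℤ → ℝ, N = fun ab => ∑ x ∈ GG B H q o,
    (if ev ab.1 x = 0 ∧ ev ab.2 x = 0 then (1 : ℝ) else 0) := ⟨_, rfl⟩
  have hs1 : ∑ ab ∈ (Box n A) ×ˢ (Box n A), N ab = ∑ x ∈ GG B H q o, (n1 x A : ℝ) ^ 2 := by
    rw [hN, Finset.sum_comm]
    exact Finset.sum_congr rfl fun x _ => MN_Pos_cnt n A x
  have hs2 : ∑ ab ∈ (Box n A) ×ˢ (Box n A), (N ab) ^ 2 = ∑ x ∈ GG B H q o, ∑ y ∈ GG B H q o, (n2 x y A : ℝ) ^ 2 := by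
    have h1 : ∀ ab : Mt n ℤ × Mt n ℤ, (N ab) ^ 2 = ∑ x ∈ GG B H q o, ∑ y ∈ GG B H q o,
        (if ev ab.1 x = 0 ∧ ev ab.2 x = 0 then (1 : ℝ) else 0) *
        (if ev ab.1 y = 0 ∧ ev ab.2 y = 0 then (1 : ℝ) else 0) := by
      intro ab
      rw [hN, sq, Finset.sum_mul_sum]
    rw [Finset.sum_congr rfl (fun ab _ => h1 ab), Finset.sum_comm]
    refine Finset.sum_congr rfl fun x _ => ?_
    rw [Finset.sum_comm]
    exact Finset.sum_congr rfl fun y _ => MN_Pos_cnt2 n A x y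
  obtain ⟨S0, hS0⟩ : ∃ S0 : Finset (Mt n ℤ × Mt n ℤ), S0 = ((Box n A) ×ˢ (Box n A)).filter fun ab => N ab ≠ 0 := ⟨_, rfl⟩
  have hS0sub : S0 ⊆ (((Box n A) ×ˢ (Box n A)).filter fun ab => ∃ x : Vc n ℤ, x ≠ 0 ∧ ev ab.1 x = 0 ∧
        ev ab.2 x = 0) := by
    intro ab hab
    rw [hS0, Finset.mem_filter] at hab
    rw [Finset.mem_filter]
    refine ⟨hab.1, ?_⟩
    have h1 : ∃ x ∈ GG B H q o, (if ev ab.1 x = 0 ∧ ev ab.2 x = 0 then (1 : ℝ) else 0) ≠ 0 := by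
      apply Finset.exists_ne_zero_of_sum_ne_zero
      have := hab.2
      rw [hN] at this
      exact this
    obtain ⟨x, hx, hne⟩ := h1
    have h2 : ev ab.1 x = 0 ∧ ev ab.2 x = 0 := by
      by_contra h
      rw [if_neg h] at hne
      exact hne rfl
    refine ⟨x, ?_, h2.1, h2.2⟩
    intro h0
    unfold GG at hx
    rw [Finset.mem_filter] at hx
    obtain ⟨u, hu⟩ := hx.2.2.1
    rw [h0] at hu
    unfold lin at hu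
    simp at hu
  have hsum : ∑ ab ∈ (Box n A) ×ˢ (Box n A), N ab = ∑ ab ∈ S0, N ab := by
    rw [hS0, Finset.sum_filter_ne_zero]
  have hsumsq : ∑ ab ∈ S0, (N ab) ^ 2 ≤ ∑ ab ∈ (Box n A) ×ˢ (Box n A), (N ab) ^ 2 := by
    apply Finset.sum_le_sum_of_subset_of_nonneg
    · rw [hS0]
      exact Finset.filter_subset _ _
    · intro ab _ _
      exact sq_nonneg _
  rw [← hs1, ← hs2, hsum]
  calc (∑ ab ∈ S0, N ab) ^ 2 ≤ (S0.card : ℝ) * ∑ ab ∈ S0, (N ab) ^ 2 := sq_sum_le_card_mul_sum_sq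
    _ ≤ (S0.card : ℝ) * ∑ ab ∈ (Box n A) ×ˢ (Box n A), (N ab) ^ 2 :=
        mul_le_mul_of_nonneg_left hsumsq (Nat.cast_nonneg _)
    _ ≤ _ := by
        apply mul_le_mul_of_nonneg_right
        · exact_mod_cast Finset.card_le_card hS0sub
        · exact Finset.sum_nonneg fun ab _ => sq_nonneg _

private theorem MN_Pos_GG (n : ℕ) (hn : 5 ≤ n) : ∃ g1 : ℕ, ∀ g ≥ g1, ∀ B H : ℕ, B = g ^ (3 * n + 1) → H = g ^ 5 →
    (B : ℝ) ^ (n + 1) / 8 ≤ ((GG B H 2 (0 : Fin (n + 1))).card : ℝ) := by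
  obtain ⟨Cb, hCb, hbad⟩ := badX n (by omega)
  obtain ⟨p2, hp2⟩ : ∃ p : ℕ, p = 2 ^ (n + 1) := ⟨_, rfl⟩
  obtain ⟨p3, hp3⟩ : ∃ p : ℕ, p = 3 ^ n * (n + 1) := ⟨_, rfl⟩
  refine ⟨⌈8 * Cb⌉₊ + p3 + p2 + 1, fun g hg B H hB hH => ?_⟩
  have hg1 : 1 ≤ g := by omega
  have hg1r : (1 : ℝ) ≤ g := by exact_mod_cast hg1
  have hg8 : 8 * Cb ≤ (g : ℝ) := by
    have h1 := Nat.le_ceil (8 * Cb)
    have h2 : ((⌈8 * Cb⌉₊ : ℕ) : ℝ) ≤ (g : ℝ) := by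
      have : ⌈8 * Cb⌉₊ ≤ g := by omega
      exact_mod_cast this
    linarith
  have hg3 : 3 ^ n * (n + 1) ≤ g := by rw [← hp3]; omega
  have hg2 : 2 ^ (n + 1) ≤ g := by rw [← hp2]; omega
  have hb := hbad B H (g ^ 3) (Nat.one_le_pow _ _ hg1) (by
      rw [hH]; exact Nat.pow_le_pow_right hg1 (by norm_num)) (by
      rw [hB]
      calc 2 ^ (n + 1) * g ^ 3 ≤ g * g ^ 3 := Nat.mul_le_mul_right _ hg2
        _ = g ^ 4 := by ring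
        _ ≤ g ^ (3 * n + 1) := Nat.pow_le_pow_right hg1 (by omega)) (by
      rw [hB, hH]
      have h1 : g ^ 5 * (g ^ 3) ^ (n - 1) = g * g ^ (3 * n + 1) := by
        rw [← pow_mul, ← pow_add, ← pow_succ']
        congr 1
        omega
      rw [h1]
      exact Nat.mul_le_mul_right _ hg3)
  have hmany := manyU n B hn (0 : Fin (n + 1))
  have hBg : (B : ℝ) = (g : ℝ) ^ (3 * n) * g := by
    rw [hB]
    push_cast
    rw [pow_succ]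
  have hB0 : (0 : ℝ) < B := by
    rw [hBg]
    positivity
  have hbound : Cb * (B : ℝ) ^ n * (((g ^ 3 : ℕ) : ℝ)) ^ n ≤ (B : ℝ) ^ (n + 1) / 8 := by
    have h1 : (((g ^ 3 : ℕ) : ℝ)) ^ n = (g : ℝ) ^ (3 * n) := by
      push_cast
      rw [← pow_mul]
    rw [h1, pow_succ]
    have h2 : Cb * (B : ℝ) ^ n * (g : ℝ) ^ (3 * n) = (B : ℝ) ^ n * (g : ℝ) ^ (3 * n) * Cb := by ring
    rw [h2]
    have h3 : (B : ℝ) ^ n * B / 8 = (B : ℝ) ^ n * (g : ℝ) ^ (3 * n) * (g / 8) := by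
      nth_rewrite 2 [hBg]
      ring
    rw [h3]
    apply mul_le_mul_of_nonneg_left _ (by positivity)
    linarith
  have hsub : ((VBox n B).filter fun x => (B : ℤ) ≤ 2 * x 0 ∧ Uni x) ⊆
      GG B H 2 (0 : Fin (n + 1)) ∪ ((VBox n B).filter fun x => ¬ HGood H x) := by
    intro x hx
    rw [Finset.mem_filter] at hx
    rw [Finset.mem_union]
    by_cases h : HGood H x
    · left
      unfold GG
      rw [Finset.mem_filter]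
      exact ⟨hx.1, by exact_mod_cast hx.2.1, hx.2.2, h⟩
    · right
      rw [Finset.mem_filter]
      exact ⟨hx.1, h⟩
  have hcard := (Finset.card_le_card hsub).trans (Finset.card_union_le _ _)
  have hcard' : (((VBox n B).filter fun x => (B : ℤ) ≤ 2 * x 0 ∧ Uni x).card : ℝ) ≤
      ((GG B H 2 (0 : Fin (n + 1))).card : ℝ) + (((VBox n B).filter fun x => ¬ HGood H x).card : ℝ) := by
    exact_mod_cast hcard
  linarith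

private theorem MN_Pos_ar (S N1 N2 A2 E C V : ℝ) (hE : 0 < E) (hE1 : E ≤ 1) (hC : 0 < C) (hV : 0 < V) (hA2 : 0 < A2)
    (hN1 : E * A2 / (72 * V ^ 2) ≤ N1) (hN2 : N2 ≤ C * A2 * (E + E ^ 2 * 2)) (hcs : N1 ^ 2 ≤ S * N2) (hS : 0 ≤ S) :
    E * A2 / (15552 * V ^ 4 * C) ≤ S := by
  have h1 : N2 ≤ C * A2 * (3 * E) := by
    refine hN2.trans (mul_le_mul_of_nonneg_left ?_ (by positivity))
    nlinarith
  have h2 : (E * A2 / (72 * V ^ 2)) ^ 2 ≤ S * (C * A2 * (3 * E)) :=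
    (pow_le_pow_left₀ (by positivity) hN1 2).trans (hcs.trans (mul_le_mul_of_nonneg_left h1 hS))
  have h3 : (E * A2 / (15552 * V ^ 4 * C)) * (C * A2 * (3 * E)) = (E * A2 / (72 * V ^ 2)) ^ 2 := by
    field_simp
    ring
  rw [← h3] at h2
  exact le_of_mul_le_mul_right h2 (by positivity)

theorem posMat (n : ℕ) (hn : 5 ≤ n) : ∃ δ : ℝ, 0 < δ ∧ ∃ A0 : ℕ, ∀ A ≥ A0,
    δ * ((2 * A + 1 : ℝ) ^ (n + 1) ^ 2) ^ 2 ≤
      ((((Box n A) ×ˢ (Box n A)).filter fun ab => ∃ x : Vc n ℤ, x ≠ 0 ∧ ev ab.1 x = 0 ∧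
        ev ab.2 x = 0).card : ℝ) := by
  obtain ⟨g1, hg1⟩ := MN_Pos_GG n hn
  obtain ⟨C, hC, hpt⟩ := pairTot n hn 2 (by norm_num)
  obtain ⟨A1, hA1⟩ := gpar n hn 1 le_rfl g1 (8 * n ^ 2)
  refine ⟨(1 / 2 ^ ((3 * n + 1) * (n - 3))) / (15552 * (((n : ℝ) + 1) ^ 2) ^ 4 * C) / (3 ^ (n + 1) ^ 2) ^ 2, by positivity,
    A1 + 8, fun A hA => ?_⟩
  obtain ⟨g, hgg, hgg1, hA0, hgM, hMg, hcA⟩ := hA1 A (by omega)
  rw [one_mul] at hgM hMg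
  have hA0r : (0 : ℝ) < A := by exact_mod_cast hA0
  obtain ⟨B, hB⟩ : ∃ B : ℕ, B = g ^ (3 * n + 1) := ⟨_, rfl⟩
  obtain ⟨H, hH⟩ : ∃ H : ℕ, H = g ^ 5 := ⟨_, rfl⟩
  rw [← hB] at hgM hMg
  rw [← hH] at hcA
  have hB1 : 1 ≤ B := by rw [hB]; exact Nat.one_le_pow _ _ hgg
  have hH1 : 1 ≤ H := by rw [hH]; exact Nat.one_le_pow _ _ hgg
  have hB0r : (0 : ℝ) < B := by exact_mod_cast hB1
  have hg0r : (0 : ℝ) < g := by exact_mod_cast hgg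
  have hG := hg1 g hgg1 B H hB hH
  have hp := hpt (0 : Fin (n + 1)) B H A hB1 hH1 hcA (by omega)
  have hcs := csPos n B H 2 A (0 : Fin (n + 1))
  have hEeq := EEq n A B hn hA0 hB1
  have hEpos : 0 < (B : ℝ) ^ (n + 1) / (A ^ 2 * B ^ 4) := by positivity
  have hE1 : (B : ℝ) ^ (n + 1) / (A ^ 2 * B ^ 4) ≤ 1 := by
    rw [hEeq, div_le_one (by positivity)]
    exact_mod_cast hgM
  have hElow : 1 / 2 ^ ((3 * n + 1) * (n - 3)) ≤ (B : ℝ) ^ (n + 1) / (A ^ 2 * B ^ 4) := by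
    rw [hEeq, div_le_div_iff₀ (by positivity) (by positivity), one_mul]
    have : (A : ℝ) ^ 2 ≤ 2 ^ ((3 * n + 1) * (n - 3)) * (B : ℝ) ^ (n - 3) := by exact_mod_cast hMg
    linarith
  have hHp : (H : ℝ) ^ (n + 3) * B ^ 3 / (B : ℝ) ^ (n + 1) ≤ 1 := by
    refine (Hpow n g B H hn hgg hB hH).trans ?_
    rw [div_le_one hg0r]
    exact_mod_cast hgg
  -- lower bound of the first moment
  have hN1 : (B : ℝ) ^ (n + 1) / (A ^ 2 * B ^ 4) * ((A : ℝ) ^ (n + 1) ^ 2) ^ 2 / (72 * (((n : ℝ) + 1) ^ 2) ^ 2) ≤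
      ∑ x ∈ GG B H 2 (0 : Fin (n + 1)), (n1 x A : ℝ) ^ 2 := by
    have h1 : ∀ x ∈ GG B H 2 (0 : Fin (n + 1)),
        ((A : ℝ) ^ (n + 1) ^ 2 / (3 * ((n : ℝ) + 1) ^ 2 * A * B ^ 2)) ^ 2 ≤ (n1 x A : ℝ) ^ 2 := by
      intro x hx
      unfold GG at hx
      rw [Finset.mem_filter] at hx
      exact pow_le_pow_left₀ (by positivity) (n1low n A B hA0 hB1 x hx.1) 2
    have h2 := Finset.sum_le_sum h1
    rw [Finset.sum_const, nsmul_eq_mul] at h2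
    refine le_trans ?_ h2
    calc (B : ℝ) ^ (n + 1) / (A ^ 2 * B ^ 4) * ((A : ℝ) ^ (n + 1) ^ 2) ^ 2 / (72 * (((n : ℝ) + 1) ^ 2) ^ 2)
        = (B : ℝ) ^ (n + 1) / 8 * ((A : ℝ) ^ (n + 1) ^ 2 / (3 * ((n : ℝ) + 1) ^ 2 * A * B ^ 2)) ^ 2 := by
          field_simp
          ring
      _ ≤ _ := mul_le_mul_of_nonneg_right hG (by positivity)
  have hN2 : ∑ x ∈ GG B H 2 (0 : Fin (n + 1)), ∑ y ∈ GG B H 2 (0 : Fin (n + 1)), (n2 x y A : ℝ) ^ 2 ≤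
      C * ((A : ℝ) ^ (n + 1) ^ 2) ^ 2 * ((B : ℝ) ^ (n + 1) / (A ^ 2 * B ^ 4) +
        ((B : ℝ) ^ (n + 1) / (A ^ 2 * B ^ 4)) ^ 2 * 2) := by
    refine hp.trans ?_
    apply mul_le_mul_of_nonneg_left _ (by positivity)
    have := mul_le_mul_of_nonneg_left (show (1 + (H : ℝ) ^ (n + 3) * B ^ 3 / (B : ℝ) ^ (n + 1)) ≤ 2 by linarith)
      (show (0 : ℝ) ≤ ((B : ℝ) ^ (n + 1) / (A ^ 2 * B ^ 4)) ^ 2 by positivity)
    linarith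
  have hfin := MN_Pos_ar _ _ _ (((A : ℝ) ^ (n + 1) ^ 2) ^ 2) ((B : ℝ) ^ (n + 1) / (A ^ 2 * B ^ 4)) C
    (((n : ℝ) + 1) ^ 2) hEpos hE1 hC (by positivity) (by positivity) hN1 hN2 hcs (Nat.cast_nonneg _)
  refine le_trans ?_ hfin
  have h3A : ((2 * (A : ℝ) + 1) ^ (n + 1) ^ 2) ^ 2 ≤ (3 ^ (n + 1) ^ 2) ^ 2 * ((A : ℝ) ^ (n + 1) ^ 2) ^ 2 := by
    rw [← mul_pow, ← mul_pow]
    apply pow_le_pow_left₀ (by positivity)
    apply pow_le_pow_left₀ (by positivity)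
    have : (1 : ℝ) ≤ A := by exact_mod_cast hA0
    linarith
  calc (1 / 2 ^ ((3 * n + 1) * (n - 3))) / (15552 * (((n : ℝ) + 1) ^ 2) ^ 4 * C) / (3 ^ (n + 1) ^ 2) ^ 2 *
        ((2 * (A : ℝ) + 1) ^ (n + 1) ^ 2) ^ 2
      ≤ (1 / 2 ^ ((3 * n + 1) * (n - 3))) / (15552 * (((n : ℝ) + 1) ^ 2) ^ 4 * C) / (3 ^ (n + 1) ^ 2) ^ 2 *
        ((3 ^ (n + 1) ^ 2) ^ 2 * ((A : ℝ) ^ (n + 1) ^ 2) ^ 2) := mul_le_mul_of_nonneg_left h3A (by positivity)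
    _ = (1 / 2 ^ ((3 * n + 1) * (n - 3))) * (((A : ℝ) ^ (n + 1) ^ 2) ^ 2 / (15552 * (((n : ℝ) + 1) ^ 2) ^ 4 * C)) := by
        field_simp
    _ ≤ (B : ℝ) ^ (n + 1) / (A ^ 2 * B ^ 4) * (((A : ℝ) ^ (n + 1) ^ 2) ^ 2 / (15552 * (((n : ℝ) + 1) ^ 2) ^ 4 * C)) :=
        mul_le_mul_of_nonneg_right hElow (by positivity)
    _ = _ := by ring

end Pool.Agent.Lib.MP_219881_nt
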