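import Pool.Agent.Lib.MP_219881_nt.FM_Xfer
import Pool.Agent.Lib.MP_219881_nt.FM_Loc
import Pool.Agent.Lib.MP_219881_nt.MN_Pos
import Pool.Agent.Lib.MP_219881_nt.RP_Fin

/-!
JOB FM_Good.  Transfer of posMat to forms.

`formsGood`: `posMat n hn` gives `δ, A1`; `nonSm n (δ/2)` gives `A2`. For `A ≥ 2 max(A1, A2) + 2` let `A' = A / 2`. `T` = the pairs of `Box n A' ×ˢ Box n A'` with a common nonzero integer zero which are smooth: at least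
`(δ - δ/2) ((2A'+1)^(n+1)^2)^2` elements (the filter of `posMat` minus the filter of `nonSm`). `poly` maps `T` into `S = {fg | fg.1, fg.2 ∈ Forms n A, SmoothCI, common nonzero integer zero}` (`poly_mem`: `Forms n (2A') ⊆ Forms n A`;
`smooth_iff`; `aeval_poly` over `ℤ`). `fib2`: `T.card ≤ ((2A'+1)^Lo)^2 S.ncard`. So `S.ncard ≥ δ/2 ((2A'+1)^Up)^2 ≥ δ/2 ((2A+1)^Up)^2 / 9^Up` (`3 (2A'+1) ≥ 3A ≥ 2A+1`).
-/

namespace Pool.Agent.Lib.MP_219881_nt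

open Classical

theorem formsGood (n : ℕ) (hn : 5 ≤ n) : ∃ δ : ℝ, 0 < δ ∧ ∃ A0 : ℕ, ∀ A ≥ A0,
    δ * ((2 * A + 1 : ℝ) ^ Up n) ^ 2 ≤
    (({fg | fg.1 ∈ Forms n A ∧ fg.2 ∈ Forms n A ∧ SmoothCI fg.1 fg.2 ∧
        ∃ x : Fin (n + 1) → ℤ, x ≠ 0 ∧ MvPolynomial.aeval x fg.1 = 0 ∧
          MvPolynomial.aeval x fg.2 = 0} :
      Set (MvPolynomial (Fin (n + 1)) ℤ × MvPolynomial (Fin (n + 1)) ℤ)).ncard : ℝ) := by
  obtain ⟨δ, hδ, A1, h1⟩ := posMat n hn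
  obtain ⟨A2, h2⟩ := nonSm n (δ / 2) (by positivity)
  refine ⟨δ / 2 / 9 ^ Up n, by positivity, 2 * (A1 + A2) + 2, fun A hA => ?_⟩
  have hA1 : A1 ≤ A / 2 := by omega
  have hA2 : A2 ≤ A / 2 := by omega
  have g1 := h1 (A / 2) hA1
  have g2 := h2 (A / 2) hA2
  set B := A / 2 with hB
  have h2B : 2 * B ≤ A := by omega
  set S : Set (MvPolynomial (Fin (n + 1)) ℤ × MvPolynomial (Fin (n + 1)) ℤ) :=
    {fg | fg.1 ∈ Forms n A ∧ fg.2 ∈ Forms n A ∧ SmoothCI fg.1 fg.2 ∧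
        ∃ x : Fin (n + 1) → ℤ, x ≠ 0 ∧ MvPolynomial.aeval x fg.1 = 0 ∧
          MvPolynomial.aeval x fg.2 = 0} with hS
  set T1 := ((Box n B) ×ˢ (Box n B)).filter fun ab => ∃ x : Vc n ℤ, x ≠ 0 ∧ ev ab.1 x = 0 ∧
        ev ab.2 x = 0 with hT1
  set T2 := ((Box n B) ×ˢ (Box n B)).filter fun ab =>
        ¬ ∀ x : Vc n (AlgebraicClosure ℚ), x ≠ 0 → ev (cm (AlgebraicClosure ℚ) ab.1) x = 0 →
          ev (cm (AlgebraicClosure ℚ) ab.2) x = 0 →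
          LinearIndependent (AlgebraicClosure ℚ)
            ![dev (cm (AlgebraicClosure ℚ) ab.1) x, dev (cm (AlgebraicClosure ℚ) ab.2) x] with hT2
  have h3 : T1.card ≤ (T1 \ T2).card + T2.card := Finset.card_le_card_sdiff_add_card
  have h4 : (T1 \ T2).card ≤ ((2 * B + 1) ^ Lo n) ^ 2 * S.ncard := by
    refine fib2 (X := A) S (fun fg hf => ⟨hf.1, hf.2.1⟩) (T1 \ T2) ?_
    rintro ⟨a, b⟩ hab
    rw [Finset.mem_sdiff, hT1, hT2, Finset.mem_filter, Finset.mem_filter, Finset.mem_product]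
      at hab
    obtain ⟨⟨⟨ha, hb⟩, x, hx, hx1, hx2⟩, hns⟩ := hab
    simp only at ha hb hx1 hx2
    refine ⟨ha, hb, ?_⟩
    have hma := poly_mem ha
    have hmb := poly_mem hb
    have hsm : SmoothCI (poly a) (poly b) := by
      rw [smooth_iff]
      by_contra hcon
      exact hns ⟨⟨ha, hb⟩, hcon⟩
    have hcm : ∀ c : Mt n ℤ, cm ℤ c = c := by
      intro c
      funext i j
      simp [cm]
    refine ⟨⟨hma.1, fun m => (hma.2 m).trans ?_⟩, ⟨hmb.1, fun m => (hmb.2 m).trans ?_⟩, hsm,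
      x, hx, ?_, ?_⟩
    · exact_mod_cast h2B
    · exact_mod_cast h2B
    · rw [aeval_poly, hcm]
      exact hx1
    · rw [aeval_poly, hcm]
      exact hx2
  have h5 : (T1.card : ℝ) ≤ ((2 * (B : ℝ) + 1) ^ Lo n) ^ 2 * (S.ncard : ℝ) + (T2.card : ℝ) := by
    exact_mod_cast h3.trans (Nat.add_le_add_right h4 _)
  have h6 : δ / 2 * ((2 * (B : ℝ) + 1) ^ (n + 1) ^ 2) ^ 2 ≤
      ((2 * (B : ℝ) + 1) ^ Lo n) ^ 2 * (S.ncard : ℝ) := by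
    linarith
  have h7 : (2 * A + 1 : ℝ) ≤ 3 * (2 * (B : ℝ) + 1) := by
    have : 2 * A + 1 ≤ 3 * (2 * B + 1) := by omega
    exact_mod_cast this
  have h8 : ((2 * A + 1 : ℝ) ^ Up n) ^ 2 ≤ ((3 * (2 * (B : ℝ) + 1)) ^ Up n) ^ 2 :=
    pow_le_pow_left₀ (by positivity) (pow_le_pow_left₀ (by positivity) h7 _) 2
  have h9 : (0 : ℝ) < ((2 * (B : ℝ) + 1) ^ Lo n) ^ 2 := by positivity
  refine le_of_mul_le_mul_left ?_ h9
  refine le_trans ?_ h6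
  have h10 : (9 : ℝ) ^ Up n = (3 ^ Up n) ^ 2 := by
    rw [← pow_mul, mul_comm, pow_mul]
    norm_num
  calc ((2 * (B : ℝ) + 1) ^ Lo n) ^ 2 * (δ / 2 / 9 ^ Up n * ((2 * A + 1 : ℝ) ^ Up n) ^ 2)
      ≤ ((2 * (B : ℝ) + 1) ^ Lo n) ^ 2 *
        (δ / 2 / 9 ^ Up n * ((3 * (2 * (B : ℝ) + 1)) ^ Up n) ^ 2) := by
        refine mul_le_mul_of_nonneg_left (mul_le_mul_of_nonneg_left h8 (by positivity)) h9.le
    _ = δ / 2 * ((2 * (B : ℝ) + 1) ^ (n + 1) ^ 2) ^ 2 := by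
        rw [← Lo_add_Up, pow_add, mul_pow 3, h10]
        field_simp

end Pool.Agent.Lib.MP_219881_nt
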