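import Pool.Agent.Lib.MP_219881_nt.FM_Bad
import Pool.Agent.Lib.MP_219881_nt.FM_Good

/-!
JOB FM_Fin.  The final theorems for forms.

`final1`: `formsGood` gives `δ, A1`; `formsBad` with `ε δ` gives `M, A0`. For `A ≥ max`: `#bad ≤ ε δ ((2A+1)^Up)^2 ≤ ε #{SmoothCI and common nonzero integer zero} ≤ ε #{SmoothCI and LocSol}` (an integer zero is a local zero at all places:
`locSol_of_zero` after writing `f = poly (toMat f)`, or directly by casting; `Set.ncard_le_ncard` with finiteness).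

`final2`: `#(Forms n A ×ˢ Forms n A) ≤ ((2A+1)^Up)^2`: injective map `f ↦ toMat f` (restricted to the entries `i ≤ j`) into the upper triangular matrices of `Box n A` (cardinality `(2A+1)^Up` as in `card_BB`). Combine with `formsGood`.
-/

namespace Pool.Agent.Lib.MP_219881_nt

open Classical

private theorem FM_Fin_card (n A : ℕ) : (Forms n A).ncard ≤ (2 * A + 1) ^ Up n := by
  obtain ⟨UB, hUB⟩ : ∃ UB : Finset (Mt n ℤ), UB = Fintype.piFinset fun i =>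
      Fintype.piFinset fun j => if i ≤ j then Finset.Icc (-(A : ℤ)) A else {0} := ⟨_, rfl⟩
  have hcard : UB.card = (2 * A + 1) ^ Up n := by
    rw [hUB, Fintype.card_piFinset]
    have h1 : ∀ i j : Fin (n + 1), (if i ≤ j then Finset.Icc (-(A : ℤ)) A else {0}).card =
        if i ≤ j then 2 * A + 1 else 1 := by
      intro i j
      split_ifs
      · rw [Int.card_Icc]
        omega
      · rfl
    simp only [Fintype.card_piFinset, h1]
    rw [← Fintype.prod_prod_type' (fun i j : Fin (n + 1) => if i ≤ j then 2 * A + 1 else 1),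
      ← Finset.prod_filter, Finset.prod_const]
    rfl
  rw [← hcard, ← Set.ncard_coe_finset]
  refine Set.ncard_le_ncard_of_injOn toMat ?_ ?_ UB.finite_toSet
  · intro f hf
    rw [hUB, Finset.mem_coe, Fintype.mem_piFinset]
    intro i
    rw [Fintype.mem_piFinset]
    intro j
    unfold toMat
    split_ifs with h
    · rw [Finset.mem_Icc]
      exact abs_le.1 (hf.2 _)
    · exact Finset.mem_singleton_self _
  · intro f hf g hg h
    rw [← poly_toMat hf.1, ← poly_toMat hg.1, h]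

private theorem FM_Fin_prod (n A : ℕ) :
    ({fg | fg.1 ∈ Forms n A ∧ fg.2 ∈ Forms n A} :
      Set (MvPolynomial (Fin (n + 1)) ℤ × MvPolynomial (Fin (n + 1)) ℤ)) =
      Forms n A ×ˢ Forms n A := by
  ext fg
  exact Iff.rfl

private theorem FM_Fin_ev {n : ℕ} {f : MvPolynomial (Fin (n + 1)) ℤ} (hf : f.IsHomogeneous 2)
    {x : Fin (n + 1) → ℤ} (h : MvPolynomial.aeval x f = 0) : ev (toMat f) x = 0 := by
  rw [← poly_toMat hf, aeval_poly] at h
  have h1 : cm ℤ (toMat f) = toMat f := by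
    funext i j
    unfold cm
    exact Int.cast_id
  rwa [h1] at h

theorem final1 (n : ℕ) (hn : 5 ≤ n) (ε : ℝ) (hε : 0 < ε) : ∃ M A0 : ℕ, ∀ A ≥ A0,
    (({fg | fg.1 ∈ Forms n A ∧ fg.2 ∈ Forms n A ∧ LocSol fg.1 fg.2 ∧
        ¬ SmallZero ((M : ℤ) * (A : ℤ) ^ 2) fg.1 fg.2} :
      Set (MvPolynomial (Fin (n + 1)) ℤ × MvPolynomial (Fin (n + 1)) ℤ)).ncard : ℝ)
      ≤ ε * (({fg | fg.1 ∈ Forms n A ∧ fg.2 ∈ Forms n A ∧ SmoothCI fg.1 fg.2 ∧
          LocSol fg.1 fg.2} :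
        Set (MvPolynomial (Fin (n + 1)) ℤ × MvPolynomial (Fin (n + 1)) ℤ)).ncard : ℝ) := by
  obtain ⟨δ, hδ, A1, h1⟩ := formsGood n hn
  obtain ⟨M, A0, h2⟩ := formsBad n hn (ε * δ) (mul_pos hε hδ)
  refine ⟨M, max A0 A1, fun A hA => ?_⟩
  have hA0 : A0 ≤ A := le_trans (le_max_left _ _) hA
  have hA1 : A1 ≤ A := le_trans (le_max_right _ _) hA
  have h3 := h2 A hA0
  have h4 := h1 A hA1
  refine h3.trans ?_
  rw [mul_assoc]
  refine mul_le_mul_of_nonneg_left (h4.trans ?_) hε.le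
  rw [Nat.cast_le]
  refine Set.ncard_le_ncard ?_ ?_
  · rintro fg ⟨g1, g2, g3, x, hx, e1, e2⟩
    refine ⟨g1, g2, g3, ?_⟩
    have h5 := locSol_of_zero hx (FM_Fin_ev g1.1 e1) (FM_Fin_ev g2.1 e2)
    rwa [poly_toMat g1.1, poly_toMat g2.1] at h5
  · refine Set.Finite.subset ((Forms_finite n A).prod (Forms_finite n A)) ?_
    rintro fg ⟨g1, g2, -, -⟩
    exact ⟨g1, g2⟩

theorem final2 (n : ℕ) (hn : 5 ≤ n) : ∃ δ : ℝ, 0 < δ ∧ ∃ A0 : ℕ, ∀ A ≥ A0,
    δ * (({fg | fg.1 ∈ Forms n A ∧ fg.2 ∈ Forms n A} :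
      Set (MvPolynomial (Fin (n + 1)) ℤ × MvPolynomial (Fin (n + 1)) ℤ)).ncard : ℝ) ≤
    (({fg | fg.1 ∈ Forms n A ∧ fg.2 ∈ Forms n A ∧ SmoothCI fg.1 fg.2 ∧
        ∃ x : Fin (n + 1) → ℤ, x ≠ 0 ∧ MvPolynomial.aeval x fg.1 = 0 ∧
          MvPolynomial.aeval x fg.2 = 0} :
      Set (MvPolynomial (Fin (n + 1)) ℤ × MvPolynomial (Fin (n + 1)) ℤ)).ncard : ℝ) := by
  obtain ⟨δ, hδ, A1, h1⟩ := formsGood n hn
  refine ⟨δ, hδ, A1, fun A hA => le_trans ?_ (h1 A hA)⟩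
  refine mul_le_mul_of_nonneg_left ?_ hδ.le
  rw [FM_Fin_prod, Set.ncard_prod]
  have h2 := FM_Fin_card n A
  have h3 : ((Forms n A).ncard : ℝ) ≤ (2 * A + 1 : ℝ) ^ Up n := by exact_mod_cast h2
  rw [Nat.cast_mul, sq]
  exact mul_le_mul h3 h3 (Nat.cast_nonneg _) (by positivity)

end Pool.Agent.Lib.MP_219881_nt
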