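import Pool.Agent.Lib.MP_219881_nt.FM_Defs

/-!
JOB FM_Poly.  Matrices and quadratic forms.  (Cubic version with proofs: /team-store/MP_1ad228_ntC_FmPoly.lean; adapt it.)

* `coeff_poly`: `MvPolynomial.coeff_sum`, `MvPolynomial.coeff_monomial`.
* `poly_hom`: `MvPolynomial.IsHomogeneous.sum` twice, `MvPolynomial.isHomogeneous_monomial` (degree of `mo i j` is `2`).
* `aeval_poly`: `map_sum`, `MvPolynomial.aeval_monomial`, `Finsupp.prod_add_index'`, `Finsupp.prod_single_index`; compare with `ev`, `cm`.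
* `pderiv_poly`: `pderiv j (monomial (mo k l) c) = c * (if k = j then X l) + c * (if l = j then X k)`: it is easiest to write `monomial (mo k l) c = C c * X k * X l` and to use the Leibniz rule
  (`MvPolynomial.pderiv_mul`, `pderiv_X`, `pderiv_C`), then `aeval`; the double sum gives `∑_l a j l x_l + ∑_k a k j x_k = dev (cm R a) x j`.
* `mo_inj`: apply the equality at all `l` (`Finsupp.single_apply`): if `i ≤ j`, `i' ≤ j'` and `[i=l]+[j=l] = [i'=l]+[j'=l]` for all `l` then `i = i'`, `j = j'` (take `l = i`, `l = i'`, `l = j`, `l = j'`; `i` is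
  the smallest `l` with a positive value, `j` the largest).
* `exists_mo`: an exponent `μ` with sum `2` is `mo i j` with `i ≤ j`: some `μ i ≥ 1`; `μ = single i 1 + μ'` with `∑ μ' = 1`, so `μ' = single j 1`; order `i, j` (`mo i j = mo j i`).
* `poly_toMat`: compare coefficients (`MvPolynomial.ext`): if `∑ i, μ i ≠ 2` both sides vanish (`IsHomogeneous.coeff_eq_zero`; in `coeff_poly` every `mo i j` has sum `2`); otherwise `μ = mo i₀ j₀`, `i₀ ≤ j₀`, and
  in `coeff_poly` only `(i₀, j₀)` contributes (for `i ≤ j` by `mo_inj`; `toMat` vanishes at `i > j`).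
* `toMat_poly`: for `c` supported on `i ≤ j`: same computation. `toMat_mem`: each entry is a coefficient or `0`.
* `poly_mem`: the coefficient of `μ` is the sum of the `a i j` over `(i, j)` with `mo i j = μ`: at most two pairs (`(i, j)` and `(j, i)`); so at most `2A`.
-/

namespace Pool.Agent.Lib.MP_219881_nt

variable {n : ℕ}

theorem coeff_poly (a : Mt n ℤ) (μ : Fin (n + 1) →₀ ℕ) :
    (poly a).coeff μ = ∑ i, ∑ j, if mo i j = μ then a i j else 0 := by
  unfold poly
  simp only [MvPolynomial.coeff_sum, MvPolynomial.coeff_monomial]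

private theorem FM_Poly_degree (i j : Fin (n + 1)) : (mo i j).degree = 2 := by
  unfold mo
  rw [map_add, Finsupp.degree_single, Finsupp.degree_single]

private theorem FM_Poly_sum_mo (i j : Fin (n + 1)) : ∑ l, (mo i j) l = 2 := by
  unfold mo
  simp only [Finsupp.add_apply, Finset.sum_add_distrib, Finsupp.single_apply, Finset.sum_ite_eq,
    Finset.mem_univ, if_true]

theorem poly_hom (a : Mt n ℤ) : (poly a).IsHomogeneous 2 := by
  unfold poly
  apply MvPolynomial.IsHomogeneous.sum
  intro i _
  apply MvPolynomial.IsHomogeneous.sum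
  intro j _
  exact MvPolynomial.isHomogeneous_monomial _ (FM_Poly_degree i j)

theorem poly_sub (a b : Mt n ℤ) : poly (a - b) = poly a - poly b := by
  unfold poly
  simp only [Pi.sub_apply, map_sub, Finset.sum_sub_distrib]

theorem aeval_poly {R : Type*} [CommRing R] (a : Mt n ℤ) (x : Fin (n + 1) → R) :
    MvPolynomial.aeval x (poly a) = ev (cm R a) x := by
  unfold poly ev cm
  simp only [map_sum, MvPolynomial.aeval_monomial]
  refine Finset.sum_congr rfl fun i _ => Finset.sum_congr rfl fun j _ => ?_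
  have hs : ∀ i : Fin (n + 1), (Finsupp.single i 1).prod (fun i k => x i ^ k) = x i := fun i => by
    rw [Finsupp.prod_single_index (h := fun i k => x i ^ k) (pow_zero _), pow_one]
  have key : (mo i j).prod (fun i k => x i ^ k) = x i * x j := by
    unfold mo
    have e2 := Finsupp.prod_add_index' (f := Finsupp.single i 1) (g := Finsupp.single j 1)
      (h := fun i k => x i ^ k) (fun _ => pow_zero _) (fun _ _ _ => pow_add _ _ _)
    exact e2.trans (congrArg₂ (· * ·) (hs i) (hs j))
  rw [key]
  simp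

private theorem FM_Poly_mono (k l : Fin (n + 1)) (c : ℤ) :
    MvPolynomial.monomial (mo k l) c =
      MvPolynomial.C c * MvPolynomial.X k * MvPolynomial.X l := by
  unfold mo
  rw [MvPolynomial.monomial_add_single, pow_one, MvPolynomial.C_mul_X_eq_monomial]

private theorem FM_Poly_pdX {R : Type*} [CommRing R] (x : Fin (n + 1) → R) (j k : Fin (n + 1)) :
    MvPolynomial.aeval x (MvPolynomial.pderiv j (MvPolynomial.X k : MvPolynomial (Fin (n + 1)) ℤ)) =
      if k = j then (1 : R) else 0 := by
  by_cases h : k = j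
  · rw [if_pos h, h, MvPolynomial.pderiv_X_self, map_one]
  · rw [if_neg h, MvPolynomial.pderiv_X_of_ne (fun h' => h h'), map_zero]

theorem pderiv_poly {R : Type*} [CommRing R] (a : Mt n ℤ) (x : Fin (n + 1) → R)
    (j : Fin (n + 1)) :
    MvPolynomial.aeval x (MvPolynomial.pderiv j (poly a)) = dev (cm R a) x j := by
  unfold poly dev cm
  have key : ∀ k l : Fin (n + 1), MvPolynomial.aeval x
      (MvPolynomial.pderiv j (MvPolynomial.monomial (mo k l) (a k l))) =
      (if k = j then (a k l : R) * x l else 0) + (if l = j then (a k l : R) * x k else 0) := by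
    intro k l
    rw [FM_Poly_mono, MvPolynomial.pderiv_mul, MvPolynomial.pderiv_C_mul, map_add, map_mul, map_mul,
      map_mul, map_mul, FM_Poly_pdX, FM_Poly_pdX, MvPolynomial.aeval_X,
      MvPolynomial.aeval_X, MvPolynomial.aeval_C]
    by_cases h1 : k = j
    · by_cases h2 : l = j
      · simp [h1, h2]
      · simp [h1, h2]
    · by_cases h2 : l = j
      · simp [h1, h2]
      · simp [h1, h2]
  simp only [map_sum, key, Finset.sum_add_distrib]
  have e1 : ∑ k, ∑ l, (if k = j then (a k l : R) * x l else 0) = ∑ l, (a j l : R) * x l := by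
    rw [Finset.sum_eq_single j]
    · simp
    · intro k _ hk
      simp [hk]
    · intro h
      exact absurd (Finset.mem_univ _) h
  have e2 : ∑ k, ∑ l, (if l = j then (a k l : R) * x k else 0) = ∑ k, (a k j : R) * x k := by
    refine Finset.sum_congr rfl fun k _ => ?_
    rw [Finset.sum_ite_eq']
    simp
  rw [e1, e2, ← Finset.sum_add_distrib]
  refine Finset.sum_congr rfl fun k _ => ?_
  ring

theorem mo_comm (i j : Fin (n + 1)) : mo i j = mo j i := by
  unfold mo
  exact add_comm _ _

private theorem FM_Poly_cancel {i j j' : Fin (n + 1)} (h : mo i j = mo i j') : j = j' := by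
  unfold mo at h
  have h1 : (Finsupp.single j 1 : Fin (n + 1) →₀ ℕ) = Finsupp.single j' 1 := add_left_cancel h
  exact Finsupp.single_left_injective one_ne_zero h1

private theorem FM_Poly_pair {i j i' j' : Fin (n + 1)} (h : mo i j = mo i' j') :
    (i = i' ∧ j = j') ∨ (i = j' ∧ j = i') := by
  have h1 := DFunLike.congr_fun h i
  unfold mo at h1
  simp only [Finsupp.add_apply, Finsupp.single_apply] at h1
  by_cases h2 : i' = i
  · subst h2
    exact Or.inl ⟨rfl, FM_Poly_cancel h⟩
  · by_cases h3 : j' = i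
    · subst h3
      rw [mo_comm i' j'] at h
      exact Or.inr ⟨rfl, FM_Poly_cancel h⟩
    · rw [if_neg h2, if_neg h3] at h1
      simp only [if_true] at h1
      omega

theorem mo_inj {i j i' j' : Fin (n + 1)} (h1 : i ≤ j) (h1' : i' ≤ j') (h : mo i j = mo i' j') :
    i = i' ∧ j = j' := by
  rcases FM_Poly_pair h with h2 | ⟨h2, h3⟩
  · exact h2
  · subst h2 h3
    have : i = j := le_antisymm h1 h1'
    exact ⟨this, this.symm⟩

theorem exists_mo {μ : Fin (n + 1) →₀ ℕ} (h : ∑ i, μ i = 2) : ∃ i j, i ≤ j ∧ mo i j = μ := by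
  have h1 : Multiset.card (Finsupp.toMultiset μ) = 2 := by
    rw [Finsupp.card_toMultiset, Finsupp.sum_fintype _ _ (fun _ => rfl)]
    exact h
  obtain ⟨x, y, hxy⟩ := Multiset.card_eq_two.1 h1
  have h2 : mo x y = μ := by
    have h3 : Finsupp.toMultiset (mo x y) = Finsupp.toMultiset μ := by
      rw [hxy]
      unfold mo
      rw [map_add, Finsupp.toMultiset_single, Finsupp.toMultiset_single, one_nsmul, one_nsmul]
      rfl
    ext l
    rw [← Finsupp.count_toMultiset, h3, Finsupp.count_toMultiset]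
  rcases le_total x y with h3 | h3
  · exact ⟨x, y, h3, h2⟩
  · exact ⟨y, x, h3, (mo_comm y x).trans h2⟩

private theorem FM_Poly_single {c : Mt n ℤ} (hc : ∀ i j, j < i → c i j = 0) {i0 j0 : Fin (n + 1)}
    (h1 : i0 ≤ j0) :
    (∑ i, ∑ j, if mo i j = mo i0 j0 then c i j else 0) = c i0 j0 := by
  have key : ∀ i j, (i ≠ i0 ∨ j ≠ j0) → (if mo i j = mo i0 j0 then c i j else 0) = 0 := by
    intro i j hne
    by_cases hm : mo i j = mo i0 j0
    · rw [if_pos hm]
      apply hc
      by_contra h3
      obtain ⟨h4, h5⟩ := mo_inj (not_lt.1 h3) h1 hm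
      rcases hne with h6 | h6
      · exact h6 h4
      · exact h6 h5
    · rw [if_neg hm]
  rw [Finset.sum_eq_single i0, Finset.sum_eq_single j0, if_pos rfl]
  · intro j _ hj
    exact key _ _ (Or.inr hj)
  · intro h
    exact absurd (Finset.mem_univ _) h
  · intro i _ hi
    exact Finset.sum_eq_zero fun j _ => key _ _ (Or.inl hi)
  · intro h
    exact absurd (Finset.mem_univ _) h

private theorem FM_Poly_supp (f : MvPolynomial (Fin (n + 1)) ℤ) :
    ∀ i j, j < i → toMat f i j = 0 := by
  intro i j h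
  unfold toMat
  rw [if_neg (not_le.2 h)]

theorem poly_toMat {f : MvPolynomial (Fin (n + 1)) ℤ} (hf : f.IsHomogeneous 2) :
    poly (toMat f) = f := by
  ext μ
  rw [coeff_poly]
  by_cases h : ∑ i, μ i = 2
  · obtain ⟨i0, j0, h1, rfl⟩ := exists_mo h
    rw [FM_Poly_single (FM_Poly_supp f) h1]
    unfold toMat
    rw [if_pos h1]
  · rw [hf.coeff_eq_zero (by rw [Finsupp.degree_eq_sum]; exact h)]
    refine Finset.sum_eq_zero fun i _ => Finset.sum_eq_zero fun j _ => ?_
    rw [if_neg]
    intro hm
    apply h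
    rw [← hm]
    exact FM_Poly_sum_mo i j

theorem toMat_poly {c : Mt n ℤ} (hc : ∀ i j, j < i → c i j = 0) : toMat (poly c) = c := by
  funext i j
  by_cases h : i ≤ j
  · unfold toMat
    rw [if_pos h, coeff_poly, FM_Poly_single hc h]
  · rw [FM_Poly_supp _ i j (not_le.1 h), hc i j (not_le.1 h)]

theorem toMat_mem {A : ℕ} {f : MvPolynomial (Fin (n + 1)) ℤ} (hf : f ∈ Forms n A) :
    toMat f ∈ Box n A := by
  rw [mem_Box]
  intro i j
  unfold toMat
  by_cases h : i ≤ j
  · rw [if_pos h]
    exact hf.2 _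
  · rw [if_neg h, abs_zero]
    exact Int.natCast_nonneg A

private theorem FM_Poly_two (μ : Fin (n + 1) →₀ ℕ) :
    (Finset.univ.filter (fun t : Fin (n + 1) × Fin (n + 1) => mo t.1 t.2 = μ)).card ≤ 2 := by
  by_cases h : ∃ t0 : Fin (n + 1) × Fin (n + 1), mo t0.1 t0.2 = μ
  · obtain ⟨t0, h0⟩ := h
    refine (Finset.card_le_card (t := {t0, (t0.2, t0.1)}) ?_).trans Finset.card_le_two
    intro t ht
    rw [Finset.mem_filter] at ht
    rw [Finset.mem_insert, Finset.mem_singleton]
    rcases FM_Poly_pair (ht.2.trans h0.symm) with ⟨h1, h2⟩ | ⟨h1, h2⟩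
    · exact Or.inl (Prod.ext h1 h2)
    · exact Or.inr (Prod.ext h1 h2)
  · have : Finset.univ.filter (fun t : Fin (n + 1) × Fin (n + 1) => mo t.1 t.2 = μ) = ∅ := by
      rw [Finset.filter_eq_empty_iff]
      intro t _ ht
      exact h ⟨t, ht⟩
    rw [this]
    simp

theorem poly_mem {A : ℕ} {a : Mt n ℤ} (ha : a ∈ Box n A) : poly a ∈ Forms n (2 * A) := by
  refine ⟨poly_hom a, fun μ => ?_⟩
  rw [mem_Box] at ha
  have h1 : (poly a).coeff μ =
      ∑ t ∈ Finset.univ.filter (fun t : Fin (n + 1) × Fin (n + 1) => mo t.1 t.2 = μ),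
      a t.1 t.2 := by
    rw [coeff_poly, Finset.sum_filter, Fintype.sum_prod_type]
  rw [h1]
  calc |∑ t ∈ Finset.univ.filter (fun t : Fin (n + 1) × Fin (n + 1) => mo t.1 t.2 = μ), a t.1 t.2|
      ≤ ∑ t ∈ Finset.univ.filter (fun t : Fin (n + 1) × Fin (n + 1) => mo t.1 t.2 = μ),
          |a t.1 t.2| := Finset.abs_sum_le_sum_abs _ _
    _ ≤ ∑ _t ∈ Finset.univ.filter (fun t : Fin (n + 1) × Fin (n + 1) => mo t.1 t.2 = μ), (A : ℤ) :=
        Finset.sum_le_sum fun t _ => ha _ _
    _ ≤ ((2 * A : ℕ) : ℤ) := by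
        rw [Finset.sum_const, nsmul_eq_mul]
        have := FM_Poly_two μ
        push_cast
        exact mul_le_mul_of_nonneg_right (by exact_mod_cast this) (Int.natCast_nonneg A)

end Pool.Agent.Lib.MP_219881_nt
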