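import Pool.Agent.Lib.MP_219881_nt.FM_Poly

/-!
JOB FM_Xfer.  From matrices to forms.  (Cubic version with proofs: /team-store/MP_1ad228_ntC_FmXfer.lean and /team-store/MP_1ad228_ntC_FmFib.lean; adapt them; here everything is simpler.)

* `poly_mk` (`α` upper triangular): write `poly` as the sum over pairs `i < j`, `i = j`, `i > j`; the pair `i > j` contributes `monomial (mo i j) (sg (α j i) * b i j)`, the pair `(j, i)`:
  `monomial (mo j i) (α j i - sg (α j i) * b i j)`, their sum is `monomial (mo j i) (α j i)`. Shortest: by `MvPolynomial.ext`/`coeff_poly`, or: `poly (mk α b) - poly α = poly (mk α b - α)` (`poly_sub`) and `c = mk α b - α`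
  satisfies `c i j + c j i = 0` for `i ≠ j` and `c i i = 0`, so `poly c = 0` (`2 * poly c = ∑ (monomial (mo i j) (c i j + c j i)) = 0` and the ring has no 2-torsion; `Finset.sum_comm`, `mo_comm`).
* `mk_mem`: for `j < i`: `|± b| ≤ A`; for `i < j`: `|α - sg α * b| ≤ A` because `0 ≤ b ≤ A`, `|α| ≤ A`.
* `mk_inj`: `poly α = poly α'` by `poly_mk`, so `α = α'` (`toMat_poly`); below the diagonal `sg (..) * b = sg (..) * b'` and `sg = ± 1`; elsewhere `b = b' = 0` (`BB`).
* `card_BB`: `Fintype.card_piFinset` twice; the product over all pairs of `if i ≤ j then 1 else q + 1` is `(q+1)^(Lo n)` (`Finset.prod_ite`, `Finset.prod_const`, `Fintype.prod_prod_type'`).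
* `Lo_add_Up`: the two filters are complementary in a set of `(n+1)^2` elements.
* `fib`: `a ↦` (its part below the diagonal, other entries `0`) maps the filter into `U = {b | |b i j| ≤ A for j < i, 0 otherwise}` of cardinality `(2A+1)^(Lo n)` and is injective there: if `poly a = poly a'` and the parts
  below the diagonal agree then `c = a - a'` is upper triangular with `poly c = 0`, so `c = toMat (poly c) = 0`.
* `Forms_finite`: subset of the image of `Box n A` under `poly` (`poly_toMat`, `toMat_mem`).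
* `xfer2`: the map `((f, g), (b, b')) ↦ (mk (toMat f) b, mk (toMat g) b')` from `S × (BB n A × BB n A)` to `T` is injective; `S` is finite (subset of `Forms n A ×ˢ Forms n A`).
* `fib2`: the map `(a, b) ↦ (poly a, poly b)` from `T` to `S` has fibres with at most `((2A+1)^(Lo n))^2` elements (`fib`; `Finset.card_le_mul_card_image`, `Set.ncard_le_ncard`).
-/

namespace Pool.Agent.Lib.MP_219881_nt

open Classical

variable {n : ℕ}

private theorem FM_Xfer_memBB {q : ℕ} {b : Mt n ℤ} : b ∈ BB n q ↔ ∀ i j,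
    (i ≤ j → b i j = 0) ∧ (¬ i ≤ j → 0 ≤ b i j ∧ b i j ≤ (q : ℤ)) := by
  unfold BB
  simp only [Fintype.mem_piFinset]
  refine forall_congr' fun i => forall_congr' fun j => ?_
  by_cases h : i ≤ j
  · rw [if_pos h, Finset.mem_singleton]
    exact ⟨fun h1 => ⟨fun _ => h1, fun h2 => absurd h h2⟩, fun h1 => h1.1 h⟩
  · rw [if_neg h, Finset.mem_Icc]
    exact ⟨fun h1 => ⟨fun h2 => absurd h2 h, fun _ => h1⟩, fun h1 => h1.2 h⟩

private theorem FM_Xfer_card (n : ℕ) (I : Finset ℤ) :
    (Fintype.piFinset fun i : Fin (n + 1) => Fintype.piFinset fun j : Fin (n + 1) =>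
      if i ≤ j then ({0} : Finset ℤ) else I).card = I.card ^ Lo n := by
  rw [Fintype.card_piFinset]
  have h1 : ∀ i j : Fin (n + 1), (if i ≤ j then ({0} : Finset ℤ) else I).card =
      if i ≤ j then 1 else I.card := by
    intro i j
    split_ifs
    · rfl
    · rfl
  have h2 : ∀ i : Fin (n + 1), (Fintype.piFinset fun j : Fin (n + 1) =>
      if i ≤ j then ({0} : Finset ℤ) else I).card =
      ∏ j : Fin (n + 1), if i ≤ j then 1 else I.card := by
    intro i
    rw [Fintype.card_piFinset]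
    exact Finset.prod_congr rfl fun j _ => h1 i j
  rw [Finset.prod_congr rfl fun i _ => h2 i]
  have h3 : ∏ i : Fin (n + 1), ∏ j : Fin (n + 1), (if i ≤ j then 1 else I.card) =
      ∏ t : Fin (n + 1) × Fin (n + 1), if t.1 ≤ t.2 then 1 else I.card := by
    rw [Fintype.prod_prod_type]
  rw [h3, Finset.prod_ite, Finset.prod_const_one, one_mul, Finset.prod_const]
  unfold Lo
  simp only [not_le]

private theorem FM_Xfer_sg (z : ℤ) : sg z = 1 ∨ sg z = -1 := by
  unfold sg
  split_ifs
  · exact Or.inl rfl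
  · exact Or.inr rfl

theorem poly_mk {α : Mt n ℤ} (hα : ∀ i j, j < i → α i j = 0) (b : Mt n ℤ) :
    poly (mk α b) = poly α := by
  set c : Mt n ℤ := mk α b - α with hc
  have hanti : ∀ i j, c i j + c j i = 0 := by
    have key : ∀ i j : Fin (n + 1), j < i → c i j + c j i = 0 := by
      intro i j hij
      show mk α b i j - α i j + (mk α b j i - α j i) = 0
      unfold mk
      rw [if_pos hij, if_neg (not_lt.2 hij.le), if_pos hij, hα i j hij]
      ring
    intro i j
    rcases lt_trichotomy j i with h | h | h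
    · exact key i j h
    · subst h
      show mk α b j j - α j j + (mk α b j j - α j j) = 0
      unfold mk
      rw [if_neg (lt_irrefl j), if_neg (lt_irrefl j)]
      ring
    · rw [add_comm]
      exact key j i h
  have h2 : poly c + poly c = 0 := by
    have h3 : poly c = ∑ i, ∑ j, MvPolynomial.monomial (mo i j) (c j i) := by
      unfold poly
      rw [Finset.sum_comm]
      refine Finset.sum_congr rfl fun i _ => Finset.sum_congr rfl fun j _ => ?_
      rw [mo_comm]
    conv_lhs => rw [h3]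
    conv_lhs =>
      rhs
      rw [← h3]
    unfold poly
    rw [← Finset.sum_add_distrib]
    refine Finset.sum_eq_zero fun i _ => ?_
    rw [← Finset.sum_add_distrib]
    refine Finset.sum_eq_zero fun j _ => ?_
    rw [← map_add, hanti, map_zero]
  have h4 : poly c = 0 := add_self_eq_zero.1 h2
  rw [hc, poly_sub] at h4
  exact sub_eq_zero.1 h4

theorem mk_mem {A : ℕ} {α b : Mt n ℤ} (hα : α ∈ Box n A) (hb : b ∈ BB n A) : mk α b ∈ Box n A := by
  rw [mem_Box] at hα ⊢
  intro i j
  have hb' := FM_Xfer_memBB.1 hb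
  unfold mk
  split_ifs with h1 h2
  · obtain ⟨h3, h4⟩ := (hb' i j).2 (not_le.2 h1)
    rw [abs_le]
    rcases FM_Xfer_sg (α j i) with h5 | h5 <;> rw [h5] <;> constructor <;> linarith
  · obtain ⟨h3, h4⟩ := (hb' j i).2 (not_le.2 h2)
    have h5 := hα i j
    rw [abs_le] at h5 ⊢
    unfold sg
    split_ifs with h6
    · constructor <;> linarith
    · constructor <;> linarith
  · exact hα i j

theorem mk_inj {q : ℕ} {α α' b b' : Mt n ℤ} (hα : ∀ i j, j < i → α i j = 0)
    (hα' : ∀ i j, j < i → α' i j = 0) (hb : b ∈ BB n q) (hb' : b' ∈ BB n q)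
    (h : mk α b = mk α' b') : α = α' ∧ b = b' := by
  have hp : poly α = poly α' := by rw [← poly_mk hα b, ← poly_mk hα' b', h]
  have hαα : α = α' := by rw [← toMat_poly hα, ← toMat_poly hα', hp]
  refine ⟨hαα, ?_⟩
  subst hαα
  funext i j
  have h1 := FM_Xfer_memBB.1 hb i j
  have h2 := FM_Xfer_memBB.1 hb' i j
  by_cases hs : i ≤ j
  · rw [h1.1 hs, h2.1 hs]
  · have h3 : mk α b i j = mk α b' i j := by rw [h]
    unfold mk at h3
    rw [if_pos (not_le.1 hs), if_pos (not_le.1 hs)] at h3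
    have h4 : sg (α j i) ≠ 0 := by
      rcases FM_Xfer_sg (α j i) with h5 | h5 <;> rw [h5] <;> decide
    exact mul_left_cancel₀ h4 h3

theorem card_BB (n q : ℕ) : (BB n q).card = (q + 1) ^ Lo n := by
  have h := FM_Xfer_card n (Finset.Icc 0 (q : ℤ))
  have h1 : (Finset.Icc 0 (q : ℤ)).card = q + 1 := by
    rw [Int.card_Icc]
    omega
  rw [h1] at h
  exact h

theorem Lo_add_Up (n : ℕ) : Lo n + Up n = (n + 1) ^ 2 := by
  have h := Finset.card_filter_add_card_filter_not
    (s := (Finset.univ : Finset (Fin (n + 1) × Fin (n + 1)))) (fun t => t.2 < t.1)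
  rw [Finset.card_univ, Fintype.card_prod, Fintype.card_fin] at h
  unfold Lo Up
  rw [pow_two, ← h]
  simp only [not_lt]

theorem Forms_finite (n A : ℕ) : (Forms n A).Finite := by
  refine Set.Finite.subset ((Box n A).finite_toSet.image poly) ?_
  intro f hf
  exact ⟨toMat f, toMat_mem hf, poly_toMat hf.1⟩

theorem fib (A : ℕ) (f : MvPolynomial (Fin (n + 1)) ℤ) :
    ((Box n A).filter fun a => poly a = f).card ≤ (2 * A + 1) ^ Lo n := by
  have hcard := FM_Xfer_card n (Finset.Icc (-(A : ℤ)) (A : ℤ))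
  have hI : (Finset.Icc (-(A : ℤ)) (A : ℤ)).card = 2 * A + 1 := by
    rw [Int.card_Icc]
    omega
  rw [hI] at hcard
  rw [← hcard]
  apply Finset.card_le_card_of_injOn (fun a : Mt n ℤ => fun i j => if i ≤ j then 0 else a i j)
  · intro a ha
    rw [Finset.mem_coe, Finset.mem_filter, mem_Box] at ha
    rw [Finset.mem_coe, Fintype.mem_piFinset]
    intro i
    rw [Fintype.mem_piFinset]
    intro j
    show (if i ≤ j then 0 else a i j) ∈ _
    by_cases h : i ≤ j
    · rw [if_pos h, if_pos h]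
      exact Finset.mem_singleton_self _
    · rw [if_neg h, if_neg h, Finset.mem_Icc]
      exact abs_le.1 (ha.1 i j)
  · intro a ha a' ha' heq
    rw [Finset.mem_coe, Finset.mem_filter] at ha ha'
    have h1 : ∀ i j, j < i → (a - a') i j = 0 := by
      intro i j h
      have h2 := congrFun (congrFun heq i) j
      simp only [not_le.2 h, if_false] at h2
      simp only [Pi.sub_apply, h2, sub_self]
    have h2 : poly (a - a') = poly (0 : Mt n ℤ) := by
      rw [poly_sub, ha.2, ha'.2, sub_self]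
      have := poly_sub (0 : Mt n ℤ) 0
      rw [sub_self, sub_self] at this
      exact this.symm
    have h3 : a - a' = 0 := by
      rw [← toMat_poly h1, h2]
      exact toMat_poly (c := 0) (fun _ _ _ => rfl)
    exact sub_eq_zero.1 h3

theorem xfer2 {A : ℕ} (S : Set (MvPolynomial (Fin (n + 1)) ℤ × MvPolynomial (Fin (n + 1)) ℤ))
    (hS : ∀ fg ∈ S, fg.1 ∈ Forms n A ∧ fg.2 ∈ Forms n A) (T : Finset (Mt n ℤ × Mt n ℤ))
    (hT : ∀ fg ∈ S, ∀ a ∈ Box n A, ∀ b ∈ Box n A, poly a = fg.1 → poly b = fg.2 → (a, b) ∈ T) :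
    S.ncard * ((A + 1) ^ Lo n) ^ 2 ≤ T.card := by
  have hSf : S.Finite := by
    refine ((Forms_finite n A).prod (Forms_finite n A)).subset ?_
    intro fg hfg
    exact Set.mem_prod.2 (hS fg hfg)
  have hBB : ((A + 1) ^ Lo n) ^ 2 = (BB n A ×ˢ BB n A).card := by
    rw [Finset.card_product, card_BB, pow_two]
  rw [Set.ncard_eq_toFinset_card S hSf, hBB, ← Finset.card_product]
  have hsup : ∀ f : MvPolynomial (Fin (n + 1)) ℤ, ∀ i j, j < i → toMat f i j = 0 := by
    intro f i j h
    unfold toMat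
    rw [if_neg (not_le.2 h)]
  refine Finset.card_le_card_of_injOn
    (fun x => (mk (toMat x.1.1) x.2.1, mk (toMat x.1.2) x.2.2)) ?_ ?_
  · rintro ⟨⟨f, g⟩, ⟨b, b'⟩⟩ hx
    rw [Finset.mem_coe, Finset.mem_product, Set.Finite.mem_toFinset, Finset.mem_product] at hx
    obtain ⟨hf, hb, hb'⟩ := hx
    obtain ⟨hfA, hgA⟩ := hS _ hf
    exact hT _ hf _ (mk_mem (toMat_mem hfA) hb) _ (mk_mem (toMat_mem hgA) hb')
      (by
        show poly (mk (toMat f) b) = f
        rw [poly_mk (hsup f), poly_toMat hfA.1])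
      (by
        show poly (mk (toMat g) b') = g
        rw [poly_mk (hsup g), poly_toMat hgA.1])
  · rintro ⟨⟨f, g⟩, ⟨b, b'⟩⟩ hx ⟨⟨f₁, g₁⟩, ⟨b₁, b₁'⟩⟩ hx' he
    rw [Finset.mem_coe, Finset.mem_product, Set.Finite.mem_toFinset, Finset.mem_product] at hx hx'
    obtain ⟨hf, hb, hb'⟩ := hx
    obtain ⟨hf₁, hb₁, hb₁'⟩ := hx'
    obtain ⟨hfA, hgA⟩ := hS _ hf
    obtain ⟨hfA₁, hgA₁⟩ := hS _ hf₁
    have he' : (mk (toMat f) b, mk (toMat g) b') = (mk (toMat f₁) b₁, mk (toMat g₁) b₁') := he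
    obtain ⟨he1, he2⟩ := Prod.mk.inj he'
    obtain ⟨h1, h2⟩ := mk_inj (hsup f) (hsup f₁) hb hb₁ he1
    obtain ⟨h3, h4⟩ := mk_inj (hsup g) (hsup g₁) hb' hb₁' he2
    have h5 : f = f₁ := by
      rw [← poly_toMat (f := f) hfA.1, ← poly_toMat (f := f₁) hfA₁.1, h1]
    have h6 : g = g₁ := by
      rw [← poly_toMat (f := g) hgA.1, ← poly_toMat (f := g₁) hgA₁.1, h3]
    rw [h5, h6, show b = b₁ from h2, show b' = b₁' from h4]

theorem fib2 {A X : ℕ} (S : Set (MvPolynomial (Fin (n + 1)) ℤ × MvPolynomial (Fin (n + 1)) ℤ))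
    (hS : ∀ fg ∈ S, fg.1 ∈ Forms n X ∧ fg.2 ∈ Forms n X) (T : Finset (Mt n ℤ × Mt n ℤ))
    (hT : ∀ ab ∈ T, ab.1 ∈ Box n A ∧ ab.2 ∈ Box n A ∧ (poly ab.1, poly ab.2) ∈ S) :
    T.card ≤ ((2 * A + 1) ^ Lo n) ^ 2 * S.ncard := by
  have hSf : S.Finite := by
    refine ((Forms_finite n X).prod (Forms_finite n X)).subset ?_
    intro fg hfg
    exact Set.mem_prod.2 (hS fg hfg)
  rw [Set.ncard_eq_toFinset_card S hSf]
  have himg : T.image (fun ab : Mt n ℤ × Mt n ℤ => (poly ab.1, poly ab.2)) ⊆ hSf.toFinset := by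
    intro fg hfg
    rw [Finset.mem_image] at hfg
    obtain ⟨ab, hab, rfl⟩ := hfg
    rw [Set.Finite.mem_toFinset]
    exact (hT ab hab).2.2
  refine (Finset.card_le_mul_card_image (f := fun ab : Mt n ℤ × Mt n ℤ => (poly ab.1, poly ab.2))
    T (((2 * A + 1) ^ Lo n) ^ 2) ?_).trans (Nat.mul_le_mul_left _ (Finset.card_le_card himg))
  rintro ⟨f, g⟩ _
  have hsub : (T.filter fun ab => (poly ab.1, poly ab.2) = (f, g)) ⊆
      ((Box n A).filter fun a => poly a = f) ×ˢ ((Box n A).filter fun a => poly a = g) := by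
    intro ab hab
    rw [Finset.mem_filter] at hab
    obtain ⟨h1, h2⟩ := hab
    obtain ⟨h3, h4⟩ := Prod.mk.inj h2
    obtain ⟨h5, h6, -⟩ := hT ab h1
    rw [Finset.mem_product, Finset.mem_filter, Finset.mem_filter]
    exact ⟨⟨h5, h3⟩, ⟨h6, h4⟩⟩
  refine (Finset.card_le_card hsub).trans ?_
  rw [Finset.card_product, pow_two]
  exact Nat.mul_le_mul (fib A f) (fib A g)

end Pool.Agent.Lib.MP_219881_nt
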