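import Pool.Agent.Lib.MP_219881_nt.Basic

/-!
JOB HG_Pig.  Pigeonhole and rank (paper section 6).

`pig1`: the finset `P = Fintype.piFinset (fun _ => Finset.Icc 0 H)` of vectors has `(H+1)^(n+1)` elements, and `f ↦ lin f x` maps it into
`Finset.Icc (-((n+1) H B)) ((n+1) H B)` (`|x i| ≤ B`, `0 ≤ f i ≤ H`), which has `2 (n+1) H B + 1 ≤ 3 (n+1) H B` elements. So some fibre `P_v` has
`(H+1)^(n+1) ≤ P_v.card * (2 (n+1) H B + 1)` (`Finset.card_le_mul_card_image` style: `Finset.exists_le_card_fiber_of_mul_le_card_of_maps_to` or by contradiction with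
`Finset.card_eq_sum_card_fiberwise`). `P_v` is nonempty, take `f0 ∈ P_v`; `S = P_v.image (fun f => f - f0)` (injective): `lin (f - f0) x = 0`, `|f i - f0 i| ≤ H`.

`rank1`: `exists_fun_fin_finrank_span_eq ℚ s` (Mathlib) : for the set `s = (fun f => cv ℚ f) '' S` there is `v : Fin (finrank (span s)) → _` with values in `s`,
linearly independent. If `n ≤ finrank` take the first `n` of them, `v s = cv ℚ (f s)` with `f s ∈ S`: `f` is linearly independent over `ℤ` (a relation
`∑ c_s f_s = 0` with integer `c_s` gives the rational relation `∑ (c_s : ℚ) v_s = 0`; `Fintype.linearIndependent_iff`), so `x` is `H`-good, contradiction.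
-/

namespace Pool.Agent.Lib.MP_219881_nt

open Classical

theorem pig1 (n B H : ℕ) (hB : 1 ≤ B) (hH : 1 ≤ H) (x : Vc n ℤ) (hx : x ∈ VBox n B) :
    ∃ S : Finset (Vc n ℤ), (∀ f ∈ S, lin f x = 0 ∧ ∀ i, |f i| ≤ (H : ℤ)) ∧
      (H + 1) ^ (n + 1) ≤ S.card * (3 * (n + 1) * H * B) := by
  set P : Finset (Vc n ℤ) := Fintype.piFinset (fun _ : Fin (n + 1) => Finset.Icc (0 : ℤ) (H : ℤ))
    with hP
  set M : ℕ := (n + 1) * H * B with hM
  set T : Finset ℤ := Finset.Icc (-(M : ℤ)) (M : ℤ) with hT
  have hPc : P.card = (H + 1) ^ (n + 1) := by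
    have h : ((H : ℤ) + 1 - 0).toNat = H + 1 := by omega
    simp only [hP, Fintype.card_piFinset, Int.card_Icc, h, Finset.prod_const, Finset.card_univ,
      Fintype.card_fin]
  have hTc : T.card = 2 * M + 1 := by
    rw [hT, Int.card_Icc]
    omega
  have hM1 : 1 ≤ M := by
    rw [hM]
    exact Nat.one_le_iff_ne_zero.mpr (by positivity)
  have hmaps : ∀ f ∈ P, lin f x ∈ T := by
    intro f hf
    rw [hP, Fintype.mem_piFinset] at hf
    rw [mem_VBox] at hx
    rw [hT, Finset.mem_Icc, ← abs_le]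
    unfold lin
    refine (Finset.abs_sum_le_sum_abs _ _).trans ?_
    have h1 : ∀ i ∈ (Finset.univ : Finset (Fin (n + 1))), |f i * x i| ≤ (H : ℤ) * (B : ℤ) := by
      intro i _
      have h2 := Finset.mem_Icc.mp (hf i)
      rw [abs_mul, abs_of_nonneg h2.1]
      exact mul_le_mul h2.2 (hx i) (abs_nonneg _) (by positivity)
    refine (Finset.sum_le_sum h1).trans ?_
    rw [Finset.sum_const, Finset.card_univ, Fintype.card_fin, nsmul_eq_mul, hM]
    push_cast
    rw [mul_assoc]
  obtain ⟨v, hv, hvc⟩ : ∃ v ∈ T, (H + 1) ^ (n + 1) ≤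
      (P.filter (fun f => lin f x = v)).card * (3 * (n + 1) * H * B) := by
    by_contra hcon
    push Not at hcon
    have h1 := Finset.card_eq_sum_card_fiberwise (f := fun f => lin f x) hmaps
    have hne : T.Nonempty := by
      rw [← Finset.card_pos, hTc]
      omega
    have h2 := Finset.sum_lt_sum_of_nonempty hne hcon
    rw [← Finset.sum_mul, ← h1, Finset.sum_const, smul_eq_mul, hPc, hTc] at h2
    have h3 : 2 * M + 1 ≤ 3 * (n + 1) * H * B := by
      have : 3 * (n + 1) * H * B = 3 * M := by rw [hM]; ring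
      omega
    have h4 := Nat.mul_le_mul_right ((H + 1) ^ (n + 1)) h3
    rw [mul_comm] at h2
    exact absurd h4 (not_le.mpr h2)
  have hne : (P.filter (fun f => lin f x = v)).Nonempty := by
    rw [← Finset.card_pos]
    by_contra h0
    have h1 : (P.filter (fun f => lin f x = v)).card = 0 := by omega
    rw [h1, zero_mul] at hvc
    have h2 : 0 < (H + 1) ^ (n + 1) := by positivity
    omega
  obtain ⟨f0, hf0⟩ := hne
  rw [Finset.mem_filter, hP, Fintype.mem_piFinset] at hf0
  refine ⟨(P.filter (fun f => lin f x = v)).image (fun f => f - f0), ?_, ?_⟩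
  · intro f hf
    obtain ⟨g, hg, rfl⟩ := Finset.mem_image.mp hf
    rw [Finset.mem_filter, hP, Fintype.mem_piFinset] at hg
    refine ⟨?_, ?_⟩
    · rw [lin_sub, hg.2, hf0.2, sub_self]
    · intro i
      have h1 := Finset.mem_Icc.mp (hg.1 i)
      have h2 := Finset.mem_Icc.mp (hf0.1 i)
      rw [Pi.sub_apply, abs_le]
      constructor <;> linarith
  · rw [Finset.card_image_of_injective _ (fun a b h => by simpa using h)]
    exact hvc

theorem rank1 (n H : ℕ) (x : Vc n ℤ) (hx : ¬ HGood H x) (S : Finset (Vc n ℤ))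
    (hS : ∀ f ∈ S, lin f x = 0 ∧ ∀ i, |f i| ≤ (H : ℤ)) :
    Module.finrank ℚ (Submodule.span ℚ ((fun f : Vc n ℤ => cv ℚ f) '' (S : Set (Vc n ℤ)))) < n := by
  by_contra hcon
  push Not at hcon
  apply hx
  obtain ⟨v, hv, _, hli⟩ := Submodule.exists_fun_fin_finrank_span_eq ℚ
    ((fun f : Vc n ℤ => cv ℚ f) '' (S : Set (Vc n ℤ)))
  choose g hg hgv using fun s : Fin n => hv (Fin.castLE hcon s)
  have hli2 : LinearIndependent ℚ (fun s : Fin n => v (Fin.castLE hcon s)) :=
    hli.comp _ (Fin.castLE_injective hcon)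
  let L : Vc n ℤ →ₗ[ℤ] Vc n ℚ :=
    { toFun := fun f => cv ℚ f
      map_add' := fun a b => by
        funext i
        simp [cv]
      map_smul' := fun c a => by
        funext i
        simp [cv] }
  have hL : (fun s : Fin n => v (Fin.castLE hcon s)) = ⇑L ∘ g := by
    funext s
    exact (hgv s).symm
  have hli3 : LinearIndependent ℤ (fun s : Fin n => v (Fin.castLE hcon s)) := by
    refine hli2.restrict_scalars ?_
    intro a b hab
    have h1 : ((a : ℤ) : ℚ) = (b : ℚ) := by simpa using hab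
    exact_mod_cast h1
  rw [hL] at hli3
  exact ⟨g, LinearIndependent.of_comp L hli3, fun s => (hS _ (hg s)).1, fun s => (hS _ (hg s)).2⟩

end Pool.Agent.Lib.MP_219881_nt
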