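import Pool.Agent.Lib.MP_219881_nt.HG_Coord
import Pool.Agent.Lib.MP_219881_nt.HG_Pig

/-!
JOB HG_Short.  A vector which is not `H`-good has a short orthogonal vector (paper section 6).

`pig2`: `coordJ` with `N = n + 1`, `d = n - 1` for the span `M` of the casts gives `J`, `J.card ≤ n - 1`. Map `f ∈ S` to its cells
`c(f) = fun j : J => (f j + H) / L` (integer division), an element of `Fintype.piFinset (fun _ : J => Finset.Icc 0 (2 * H / L))` with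
`(2 * H / L + 1)^J.card` elements; `2 * H / L + 1 ≤ 3 H / L` in the reals (`L ≤ H`), so this is at most `(3H/L)^(n-1)` (note `3H/L ≥ 1`), which is `< S.card` by hypothesis.
So two different `f, g ∈ S` have the same cells (`Finset.exists_ne_map_eq_of_card_lt_of_maps_to`): `|f j - g j| ≤ L` for `j ∈ J`. `v = cv ℚ f - cv ℚ g ∈ M`, so by `coordJ`
`|f i - g i| ≤ (2^(n-1) - 1) L ≤ 2^(n+1) L` for all `i`.

`shortF`: `pig1` gives `S`; `rank1` gives finrank `≤ n - 1`. If `S.card * L^(n-1) ≤ (3H)^(n-1)` then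
`(H+1)^(n+1) L^(n-1) ≤ S.card * 3 (n+1) H B * L^(n-1) ≤ (3H)^(n-1) * 3 (n+1) H B = 3^n (n+1) B * H^n ≤ H L^(n-1) H^n = H^(n+1) L^(n-1)`, contradiction with
`H^(n+1) < (H+1)^(n+1)`, `L ≥ 1`. So `pig2` applies: `f - g ≠ 0`, `lin (f - g) x = 0` (`lin_sub`).
-/

namespace Pool.Agent.Lib.MP_219881_nt

open Classical

theorem pig2 (n H L : ℕ) (hn : 1 ≤ n) (hL : 1 ≤ L) (hLH : L ≤ H) (S : Finset (Vc n ℤ))
    (hS : ∀ f ∈ S, ∀ i, |f i| ≤ (H : ℤ))
    (hr : Module.finrank ℚ (Submodule.span ℚ ((fun f : Vc n ℤ => cv ℚ f) '' (S : Set (Vc n ℤ)))) < n)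
    (hc : (3 * H) ^ (n - 1) < S.card * L ^ (n - 1)) :
    ∃ f ∈ S, ∃ g ∈ S, f ≠ g ∧ ∀ i, |f i - g i| ≤ ((2 ^ (n + 1) * L : ℕ) : ℤ) := by
  obtain ⟨J, hJc, hJ⟩ := coordJ (n + 1) (n - 1)
    (Submodule.span ℚ ((fun f : Vc n ℤ => cv ℚ f) '' (S : Set (Vc n ℤ)))) (Nat.le_sub_one_of_lt hr)
  have hLpos : (0 : ℤ) < L := by exact_mod_cast hL
  have hcell : ((2 * H / L + 1) ^ J.card : ℕ) < S.card := by
    have h1 : (2 * H / L + 1) * L ≤ 3 * H := by
      have h2 : 2 * H / L * L ≤ 2 * H := Nat.div_mul_le_self _ _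
      nlinarith
    have h3 : (2 * H / L + 1) ^ (n - 1) * L ^ (n - 1) < S.card * L ^ (n - 1) := by
      rw [← mul_pow]
      exact lt_of_le_of_lt (Nat.pow_le_pow_left h1 _) hc
    have h4 : (2 * H / L + 1) ^ (n - 1) < S.card := lt_of_mul_lt_mul_right h3 (Nat.zero_le _)
    exact lt_of_le_of_lt (Nat.pow_le_pow_right (Nat.succ_pos _) hJc) h4
  have hTc : (Fintype.piFinset (fun j : Fin (n + 1) =>
      if j ∈ J then Finset.Icc (0 : ℤ) ((2 * H / L : ℕ) : ℤ) else {0})).card =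
      (2 * H / L + 1) ^ J.card := by
    rw [Fintype.card_piFinset]
    have h1 : ∀ j : Fin (n + 1), (if j ∈ J then Finset.Icc (0 : ℤ) ((2 * H / L : ℕ) : ℤ)
        else {0}).card = if j ∈ J then (2 * H / L + 1) else 1 := by
      intro j
      split_ifs
      · rw [Int.card_Icc]
        generalize 2 * H / L = e
        omega
      · simp
    rw [Finset.prod_congr rfl fun j _ => h1 j, Finset.prod_ite, Finset.prod_const_one, mul_one,
      Finset.prod_const]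
    congr 1
    congr 1
    ext j
    simp
  have hmaps : ∀ f ∈ S, (fun j : Fin (n + 1) => if j ∈ J then (f j + H) / (L : ℤ) else 0) ∈
      Fintype.piFinset (fun j : Fin (n + 1) =>
        if j ∈ J then Finset.Icc (0 : ℤ) ((2 * H / L : ℕ) : ℤ) else {0}) := by
    intro f hf
    rw [Fintype.mem_piFinset]
    intro j
    have h1 := abs_le.mp (hS f hf j)
    by_cases hj : j ∈ J
    · simp only [if_pos hj, Finset.mem_Icc]
      constructor
      · exact Int.ediv_nonneg (by linarith) hLpos.le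
      · have h2 : ((2 * H / L : ℕ) : ℤ) = (2 * (H : ℤ)) / (L : ℤ) := by push_cast; rfl
        rw [h2]
        exact Int.ediv_le_ediv hLpos (by linarith)
    · simp only [if_neg hj, Finset.mem_singleton]
  obtain ⟨f, hf, g, hg, hne, hfg⟩ := Finset.exists_ne_map_eq_of_card_lt_of_maps_to
    (by rw [hTc]; exact hcell) hmaps
  refine ⟨f, hf, g, hg, hne, ?_⟩
  intro i
  have hJJ : ∀ j ∈ J, |(cv ℚ f - cv ℚ g) j| ≤ (L : ℚ) := by
    intro j hj
    have h1 := congrFun hfg j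
    simp only [if_pos hj] at h1
    have h2 := Int.emod_add_mul_ediv (f j + H) (L : ℤ)
    have h3 := Int.emod_add_mul_ediv (g j + H) (L : ℤ)
    have h4 := Int.emod_nonneg (f j + H) hLpos.ne'
    have h5 := Int.emod_nonneg (g j + H) hLpos.ne'
    have h6 := Int.emod_lt_of_pos (f j + H) hLpos
    have h7 := Int.emod_lt_of_pos (g j + H) hLpos
    rw [h1] at h2
    have h8 : |f j - g j| ≤ (L : ℤ) := by
      rw [abs_le]
      constructor <;> linarith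
    show |((f j : ℤ) : ℚ) - ((g j : ℤ) : ℚ)| ≤ (L : ℚ)
    exact_mod_cast h8
  have hmem : cv ℚ f - cv ℚ g ∈
      Submodule.span ℚ ((fun f : Vc n ℤ => cv ℚ f) '' (S : Set (Vc n ℤ))) :=
    Submodule.sub_mem _ (Submodule.subset_span ⟨f, hf, rfl⟩) (Submodule.subset_span ⟨g, hg, rfl⟩)
  have h9 := hJ _ hmem (L : ℚ) (Nat.cast_nonneg _) hJJ i
  have h10 : |((f i : ℤ) : ℚ) - ((g i : ℤ) : ℚ)| ≤ (2 ^ (n - 1) - 1) * (L : ℚ) := h9
  have h11 : (2 : ℚ) ^ (n - 1) ≤ 2 ^ (n + 1) := pow_le_pow_right₀ (by norm_num) (by omega)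
  have h12 : |((f i : ℤ) : ℚ) - ((g i : ℤ) : ℚ)| ≤ 2 ^ (n + 1) * (L : ℚ) := by
    have h13 : (0 : ℚ) ≤ L := Nat.cast_nonneg _
    nlinarith
  have h14 : ((|f i - g i| : ℤ) : ℚ) ≤ (((2 ^ (n + 1) * L : ℕ) : ℤ) : ℚ) := by
    push_cast
    exact h12
  exact_mod_cast h14

theorem shortF (n B H L : ℕ) (hn : 1 ≤ n) (hB : 1 ≤ B) (hL : 1 ≤ L) (hLH : L ≤ H)
    (h : 3 ^ n * (n + 1) * B ≤ H * L ^ (n - 1)) (x : Vc n ℤ) (hx : x ∈ VBox n B)
    (hbad : ¬ HGood H x) :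
    ∃ f : Vc n ℤ, f ≠ 0 ∧ lin f x = 0 ∧ ∀ i, |f i| ≤ ((2 ^ (n + 1) * L : ℕ) : ℤ) := by
  have hH : 1 ≤ H := hL.trans hLH
  obtain ⟨S, hS, hSc⟩ := pig1 n B H hB hH x hx
  have hr := rank1 n H x hbad S hS
  have hc : (3 * H) ^ (n - 1) < S.card * L ^ (n - 1) := by
    by_contra hcon
    rw [not_lt] at hcon
    obtain ⟨m, rfl⟩ : ∃ m, n = m + 1 := ⟨n - 1, by omega⟩
    rw [Nat.add_sub_cancel] at hcon h
    have hLp : 0 < L ^ m := Nat.pow_pos (by omega)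
    have h1 : H ^ (m + 1 + 1) * L ^ m < (H + 1) ^ (m + 1 + 1) * L ^ m :=
      Nat.mul_lt_mul_of_pos_right (Nat.pow_lt_pow_left (Nat.lt_succ_self H) (by omega)) hLp
    have h2 : (H + 1) ^ (m + 1 + 1) * L ^ m ≤ H ^ (m + 1 + 1) * L ^ m := by
      calc (H + 1) ^ (m + 1 + 1) * L ^ m ≤ S.card * (3 * (m + 1 + 1) * H * B) * L ^ m :=
            Nat.mul_le_mul_right _ hSc
        _ = (S.card * L ^ m) * (3 * (m + 1 + 1) * H * B) := by ring
        _ ≤ (3 * H) ^ m * (3 * (m + 1 + 1) * H * B) := Nat.mul_le_mul_right _ hcon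
        _ = (3 ^ (m + 1) * (m + 1 + 1) * B) * H ^ (m + 1) := by rw [mul_pow]; ring
        _ ≤ (H * L ^ m) * H ^ (m + 1) := Nat.mul_le_mul_right _ h
        _ = H ^ (m + 1 + 1) * L ^ m := by ring
    omega
  obtain ⟨f, hf, g, hg, hne, hfg⟩ := pig2 n H L hn hL hLH S (fun f hf => (hS f hf).2) hr hc
  refine ⟨f - g, sub_ne_zero.mpr hne, ?_, fun i => hfg i⟩
  rw [lin_sub, (hS f hf).1, (hS g hg).1, sub_zero]

end Pool.Agent.Lib.MP_219881_nt
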