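import Pool.Agent.Lib.MP_219881_nt.LD_Base

/-!
JOB LD_Ker.  (Cubic version with proof: /team-store/MP_1ad228_ntC_LD_Ker.lean; adapt it.)

LD_ker1.  The additive map `a ↦ ev a x` from `Mt n (ZMod m)` to `ZMod m` is surjective (`lin u x = 1` for some
`u`, `ev (s • ten u u) x = s * (lin u x)^2 = s`); the domain has `m ^ ((n+1)^2)` elements.
LD_ker2.  Homomorphism `φ : a ↦ (ev a x, ev a y)`, `card ker * card range = m ^ ((n+1)^2)`. It is enough
that `range φ` has at least `m * card (II x y)` elements.  Let `lin u x = 1`, `lin v y = 1`.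
The map `(s, t) ↦ (s * (lin v x)^2 + t, s)` from `ZMod m × II x y` to `ZMod m × ZMod m` is injective
and its values are in the range: `s • ten v v` has values `(s (lin v x)^2, s)`; and for every `t` in
`II x y` there is a matrix with values `(t, 0)` (`Submodule.span_induction`; for `mn x y i j` take
`l = Pi.single i (y j) - Pi.single j (y i)`, `lin l x = mn x y i j`, `lin l y = 0`, matrix `ten l u`).
-/

namespace Pool.Agent.Lib.MP_219881_nt

open Classical

private theorem LD_Ker_cardTen (n m : ℕ) [NeZero m] :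
    Nat.card (Mt n (ZMod m)) = m ^ (n + 1) ^ 2 := by
  show Nat.card (Fin (n + 1) → Fin (n + 1) → ZMod m) = m ^ (n + 1) ^ 2
  rw [Nat.card_fun, Nat.card_fun, Nat.card_zmod, Nat.card_eq_fintype_card,
    Fintype.card_fin, ← pow_mul, ← sq]

theorem LD_ker1 {n : ℕ} (m : ℕ) [NeZero m] (x : Vc n (ZMod m)) (hx : Uni x) :
    Nat.card {a : Mt n (ZMod m) // ev a x = 0} * m = m ^ (n + 1) ^ 2 := by
  obtain ⟨u, hu⟩ := hx
  let φ : Mt n (ZMod m) →+ ZMod m :=
    { toFun := fun a => ev a x
      map_zero' := ev_zero x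
      map_add' := fun a b => ev_add a b x }
  have hsurj : Function.Surjective φ := by
    intro s
    refine ⟨s • ten u u, ?_⟩
    show ev (s • ten u u) x = s
    rw [ev_smul', ev_ten, hu]; ring
  have h1 := AddSubgroup.card_eq_card_quotient_mul_card_addSubgroup φ.ker
  have h2 : Nat.card (Mt n (ZMod m) ⧸ φ.ker) = m := by
    rw [Nat.card_congr (QuotientAddGroup.quotientKerEquivOfSurjective φ hsurj).toEquiv,
      Nat.card_zmod]
  rw [h2, LD_Ker_cardTen] at h1
  have h3 : Nat.card φ.ker = Nat.card {a : Mt n (ZMod m) // ev a x = 0} :=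
    Nat.card_congr (Equiv.subtypeEquivRight fun a => AddMonoidHom.mem_ker)
  rw [← h3, h1, mul_comm]

theorem LD_ker2 {n : ℕ} (m : ℕ) [NeZero m] (x y : Vc n (ZMod m)) (hx : Uni x) (hy : Uni y) :
    Nat.card {a : Mt n (ZMod m) // ev a x = 0 ∧ ev a y = 0} * (m * Nat.card (II x y))
      ≤ m ^ (n + 1) ^ 2 := by
  obtain ⟨u, hu⟩ := hx
  obtain ⟨v, hv⟩ := hy
  let φ : Mt n (ZMod m) →+ ZMod m × ZMod m :=
    { toFun := fun a => (ev a x, ev a y)
      map_zero' := by rw [ev_zero, ev_zero]; rfl
      map_add' := fun a b => by rw [ev_add, ev_add]; rfl }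
  have hI : ∀ t ∈ II x y, ∃ a : Mt n (ZMod m), ev a x = t ∧ ev a y = 0 := by
    intro t ht
    unfold II at ht
    induction ht using Submodule.span_induction with
    | mem t ht =>
      obtain ⟨⟨i, j⟩, rfl⟩ := ht
      refine ⟨ten (Pi.single i (y j) - Pi.single j (y i)) u, ?_, ?_⟩
      · have h1 : lin (Pi.single i (y j) - Pi.single j (y i)) x = mn x y i j := by
          rw [lin_sub]
          have e1 : lin (Pi.single i (y j)) x = y j * x i := by
            simp [lin, Pi.single_apply]
          have e2 : lin (Pi.single j (y i)) x = y i * x j := by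
            simp [lin, Pi.single_apply]
          rw [e1, e2, mn]; ring
        rw [ev_ten, h1, hu]; ring
      · have h1 : lin (Pi.single i (y j) - Pi.single j (y i)) y = 0 := by
          rw [lin_sub]
          have e1 : lin (Pi.single i (y j)) y = y j * y i := by
            simp [lin, Pi.single_apply]
          have e2 : lin (Pi.single j (y i)) y = y i * y j := by
            simp [lin, Pi.single_apply]
          rw [e1, e2]; ring
        rw [ev_ten, h1]; ring
    | zero => exact ⟨0, ev_zero x, ev_zero y⟩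
    | add s t _ _ hs ht =>
      obtain ⟨a, ha, ha'⟩ := hs
      obtain ⟨b, hb, hb'⟩ := ht
      exact ⟨a + b, by rw [ev_add, ha, hb], by rw [ev_add, ha', hb', add_zero]⟩
    | smul c t _ ht =>
      obtain ⟨a, ha, ha'⟩ := ht
      exact ⟨c • a, by rw [ev_smul', ha]; rfl, by rw [ev_smul', ha', mul_zero]⟩
  have h1 := AddSubgroup.card_eq_card_quotient_mul_card_addSubgroup φ.ker
  have h2 : Nat.card (Mt n (ZMod m) ⧸ φ.ker) = Nat.card φ.range :=
    Nat.card_congr (QuotientAddGroup.quotientKerEquivRange φ).toEquiv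
  have h3 : Nat.card φ.ker = Nat.card {a : Mt n (ZMod m) // ev a x = 0 ∧ ev a y = 0} :=
    Nat.card_congr (Equiv.subtypeEquivRight fun a => by
      rw [AddMonoidHom.mem_ker]
      exact Prod.mk_eq_zero)
  have h4 : m * Nat.card (II x y) ≤ Nat.card φ.range := by
    let f : ZMod m × II x y → φ.range := fun q =>
      ⟨(q.1 * lin v x ^ 2 + q.2.1, q.1), by
        obtain ⟨a, ha, ha'⟩ := hI q.2.1 q.2.2
        refine ⟨q.1 • ten v v + a, ?_⟩
        show (ev (q.1 • ten v v + a) x, ev (q.1 • ten v v + a) y) = _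
        rw [ev_add, ev_add, ev_smul', ev_smul', ev_ten, ev_ten, ha, ha', hv]
        refine Prod.ext ?_ ?_
        · show q.1 * (lin v x * lin v x) + q.2.1 = q.1 * lin v x ^ 2 + q.2.1
          ring
        · show q.1 * (1 * 1) + 0 = q.1
          ring⟩
    have hf : Function.Injective f := by
      rintro ⟨s, t⟩ ⟨s', t'⟩ h
      have h5 : (s * lin v x ^ 2 + t.1, s) = (s' * lin v x ^ 2 + t'.1, s') :=
        congrArg Subtype.val h
      have h6 : s = s' := congrArg Prod.snd h5
      have h7 : s * lin v x ^ 2 + t.1 = s' * lin v x ^ 2 + t'.1 := congrArg Prod.fst h5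
      subst h6
      have h8 : t = t' := Subtype.ext (add_left_cancel h7)
      subst h8
      rfl
    have h9 := Nat.card_le_card_of_injective f hf
    rw [Nat.card_prod, Nat.card_zmod] at h9
    exact h9
  rw [h2, h3, LD_Ker_cardTen] at h1
  rw [h1, mul_comm]
  exact Nat.mul_le_mul_right _ h4

end Pool.Agent.Lib.MP_219881_nt
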