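import Pool.Agent.Lib.MP_219881_nt.LD_Ker
import Pool.Agent.Lib.MP_219881_nt.LD_Uni

/-!
JOB LD_Mom.  (Cubic version with proof: /team-store/MP_1ad228_ntC_LD_Mom.lean; adapt it. LD_Ker, LD_Cnt, LD_Uni
are other jobs.)

`V = (n+1)^2`, `U = Nat.card {x // Uni x}`, `s(a,b) = sm m a b = #{x // Uni x ∧ ev a x = 0 ∧ ev b x = 0}`.

LD_mom1.  `∑_{a,b} s(a,b) = ∑_{x Uni} (#{a // ev a x = 0})^2`, and each `#{..} * m = m^V` (LD_ker1).

LD_mom2.  `∑_{a,b} s(a,b)^2 = ∑_{x Uni} ∑_{y Uni} (#{a // ev a x = 0 ∧ ev a y = 0})^2` and by LD_ker2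
`#{..} ≤ m^V / (m * card (II x y))`. For fixed `x` group `y` by `c = card (II x y)`, a divisor of `m` (LD_cardI):
`∑_y 1 / card (II x y)^2 ≤ ∑_{c ∣ m} (m c^n) / c^2 = m ∑_{c ∣ m} c^(n-2) ≤ m * m^(n-2) (1 + 1/p0)`
(LD_cnty, LD_sq with `s = n - 2 ≥ 2`). So `∑ s^2 ≤ U (m^V)^2 m^(-2) m^(n-1) (1 + 1/p0)`, times `m^3`:
`U (m^V)^2 m^n (1 + 1/p0)`.
-/

namespace Pool.Agent.Lib.MP_219881_nt

open Classical

private theorem LD_Mom_card {n : ℕ} (m : ℕ) [NeZero m] (P : Vc n (ZMod m) → Prop) :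
    (Nat.card {x : Vc n (ZMod m) // P x} : ℝ) =
      ((Finset.univ.filter fun x : Vc n (ZMod m) => P x).card : ℝ) := by
  rw [Nat.card_eq_fintype_card, Fintype.card_subtype]

private theorem LD_Mom_cardT {n : ℕ} (m : ℕ) [NeZero m] (P : Mt n (ZMod m) → Prop) :
    Nat.card {a : Mt n (ZMod m) // P a} =
      (Finset.univ.filter fun a : Mt n (ZMod m) => P a).card := by
  rw [Nat.card_eq_fintype_card, Fintype.card_subtype]

/-- The indicator of `ev a x = 0`. -/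
private noncomputable def LD_Mom_f {n m : ℕ} (a : Mt n (ZMod m)) (x : Vc n (ZMod m)) : ℝ :=
  if ev a x = 0 then 1 else 0

private theorem LD_Mom_sm {n : ℕ} (m : ℕ) [NeZero m] (a b : Mt n (ZMod m)) :
    (sm m a b : ℝ) = ∑ x ∈ Finset.univ.filter (fun x : Vc n (ZMod m) => Uni x),
      LD_Mom_f a x * LD_Mom_f b x := by
  have h0 : ∀ x : Vc n (ZMod m), LD_Mom_f a x * LD_Mom_f b x =
      (if ev a x = 0 ∧ ev b x = 0 then (1 : ℝ) else 0) := by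
    intro x
    unfold LD_Mom_f
    by_cases h : ev a x = 0
    · by_cases h' : ev b x = 0
      · simp [h, h']
      · simp [h, h']
    · simp [h]
  unfold sm
  simp only [h0]
  rw [LD_Mom_card, Finset.sum_boole, Finset.filter_filter]
  refine congrArg _ (congrArg Finset.card ?_)
  ext x
  simp only [Finset.mem_filter]

private theorem LD_Mom_pos (m : ℕ) [NeZero m] : (0 : ℝ) < (m : ℝ) := by
  have : 0 < m := Nat.pos_of_ne_zero (NeZero.ne m)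
  exact_mod_cast this

private theorem LD_Mom_one {n : ℕ} (m : ℕ) [NeZero m] (x : Vc n (ZMod m)) (hx : Uni x) :
    (∑ a : Mt n (ZMod m), LD_Mom_f a x) * (m : ℝ) = (m : ℝ) ^ (n + 1) ^ 2 := by
  have hk := LD_ker1 m x hx
  rw [LD_Mom_cardT] at hk
  unfold LD_Mom_f
  rw [Finset.sum_boole]
  exact_mod_cast hk

private theorem LD_Mom_two {n : ℕ} (m : ℕ) [NeZero m] (x y : Vc n (ZMod m)) (hx : Uni x)
    (hy : Uni y) :
    (∑ a : Mt n (ZMod m), LD_Mom_f a x * LD_Mom_f a y) ^ 2 * (m : ℝ) ^ 3 ≤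
      ((m : ℝ) ^ (n + 1) ^ 2) ^ 2 * (m : ℝ) / (Nat.card (II x y) : ℝ) ^ 2 := by
  have hm := LD_Mom_pos m
  have hc : 0 < Nat.card (II x y) := Nat.card_pos
  have hc' : (0 : ℝ) < (Nat.card (II x y) : ℝ) := by exact_mod_cast hc
  have hk := LD_ker2 m x y hx hy
  rw [LD_Mom_cardT] at hk
  have h1 : ∑ a : Mt n (ZMod m), LD_Mom_f a x * LD_Mom_f a y =
      ((Finset.univ.filter fun a : Mt n (ZMod m) => ev a x = 0 ∧ ev a y = 0).card : ℝ) := by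
    rw [← Finset.sum_boole]
    refine Finset.sum_congr rfl fun a _ => ?_
    unfold LD_Mom_f
    by_cases h : ev a x = 0
    · by_cases h' : ev a y = 0
      · simp [h, h']
      · simp [h, h']
    · simp [h]
  have h2 : ((Finset.univ.filter fun a : Mt n (ZMod m) => ev a x = 0 ∧ ev a y = 0).card : ℝ) *
      ((m : ℝ) * (Nat.card (II x y) : ℝ)) ≤ (m : ℝ) ^ (n + 1) ^ 2 := by
    exact_mod_cast hk
  rw [h1]
  set F : ℝ := ((Finset.univ.filter fun a : Mt n (ZMod m) => ev a x = 0 ∧ ev a y = 0).card : ℝ)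
    with hF
  have hF0 : 0 ≤ F := by rw [hF]; positivity
  have h3 : (F * ((m : ℝ) * (Nat.card (II x y) : ℝ))) ^ 2 ≤ ((m : ℝ) ^ (n + 1) ^ 2) ^ 2 :=
    pow_le_pow_left₀ (by positivity) h2 2
  rw [le_div_iff₀ (by positivity)]
  calc F ^ 2 * (m : ℝ) ^ 3 * (Nat.card (II x y) : ℝ) ^ 2
      = (F * ((m : ℝ) * (Nat.card (II x y) : ℝ))) ^ 2 * (m : ℝ) := by ring
    _ ≤ ((m : ℝ) ^ (n + 1) ^ 2) ^ 2 * (m : ℝ) := mul_le_mul_of_nonneg_right h3 hm.le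

private theorem LD_Mom_row {n : ℕ} (hn : 5 ≤ n) (m : ℕ) [NeZero m] (p0 : ℕ) (hp0 : 1 ≤ p0)
    (hd : ∀ d, d ∣ m → 1 < d → p0 < d) (x : Vc n (ZMod m)) (hx : Uni x) (M : ℝ) (hM : 0 ≤ M) :
    ∑ y ∈ Finset.univ.filter (fun y : Vc n (ZMod m) => Uni y),
      M * (m : ℝ) / (Nat.card (II x y) : ℝ) ^ 2 ≤ M * ((m : ℝ) ^ n * (1 + 1 / p0)) := by
  have hm := LD_Mom_pos m
  have hm0 : m ≠ 0 := NeZero.ne m
  obtain ⟨s, rfl⟩ : ∃ s, n = s + 2 := ⟨n - 2, by omega⟩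
  have hs : 2 ≤ s := by omega
  have h1 : ∑ y ∈ Finset.univ.filter (fun y : Vc (s + 2) (ZMod m) => Uni y),
      M * (m : ℝ) / (Nat.card (II x y) : ℝ) ^ 2 ≤
      ∑ y : Vc (s + 2) (ZMod m), M * (m : ℝ) / (Nat.card (II x y) : ℝ) ^ 2 :=
    Finset.sum_le_sum_of_subset_of_nonneg (Finset.filter_subset _ _)
      (fun y _ _ => by positivity)
  have hmap : ∀ y ∈ (Finset.univ : Finset (Vc (s + 2) (ZMod m))),
      Nat.card (II x y) ∈ m.divisors := by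
    intro y _
    exact Nat.mem_divisors.mpr ⟨(LD_cardI m (II x y)).1, hm0⟩
  rw [← Finset.sum_fiberwise_of_maps_to hmap] at h1
  refine h1.trans ?_
  have h2 : ∀ c ∈ m.divisors,
      ∑ y ∈ Finset.univ.filter (fun y : Vc (s + 2) (ZMod m) => Nat.card (II x y) = c),
        M * (m : ℝ) / (Nat.card (II x y) : ℝ) ^ 2 ≤ M * (m : ℝ) ^ 2 * (c : ℝ) ^ s := by
    intro c hc
    have hcd : c ∣ m := Nat.dvd_of_mem_divisors hc
    have hc0 : 0 < c := Nat.pos_of_mem_divisors hc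
    have hc' : (0 : ℝ) < (c : ℝ) := by exact_mod_cast hc0
    have h3 : ∑ y ∈ Finset.univ.filter (fun y : Vc (s + 2) (ZMod m) => Nat.card (II x y) = c),
        M * (m : ℝ) / (Nat.card (II x y) : ℝ) ^ 2 =
        ∑ y ∈ Finset.univ.filter (fun y : Vc (s + 2) (ZMod m) => Nat.card (II x y) = c),
        M * (m : ℝ) / (c : ℝ) ^ 2 := by
      refine Finset.sum_congr rfl fun y hy => ?_
      rw [(Finset.mem_filter.mp hy).2]
    rw [h3, Finset.sum_const, nsmul_eq_mul]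
    have h4 : ((Finset.univ.filter fun y : Vc (s + 2) (ZMod m) =>
        Nat.card (II x y) = c).card : ℝ) ≤ (m : ℝ) * (c : ℝ) ^ (s + 2) := by
      have := LD_cnty m x hx c hcd
      rw [Nat.card_eq_fintype_card, Fintype.card_subtype] at this
      exact_mod_cast this
    calc ((Finset.univ.filter fun y : Vc (s + 2) (ZMod m) => Nat.card (II x y) = c).card : ℝ) *
          (M * (m : ℝ) / (c : ℝ) ^ 2)
        ≤ ((m : ℝ) * (c : ℝ) ^ (s + 2)) * (M * (m : ℝ) / (c : ℝ) ^ 2) := by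
          exact mul_le_mul_of_nonneg_right h4 (by positivity)
      _ = M * (m : ℝ) ^ 2 * (c : ℝ) ^ s := by
          rw [pow_add]
          field_simp
  refine (Finset.sum_le_sum h2).trans ?_
  rw [← Finset.mul_sum]
  calc M * (m : ℝ) ^ 2 * ∑ c ∈ m.divisors, (c : ℝ) ^ s
      ≤ M * (m : ℝ) ^ 2 * ((m : ℝ) ^ s * (1 + 1 / p0)) :=
        mul_le_mul_of_nonneg_left (LD_sq m p0 hp0 hd s hs) (by positivity)
    _ = _ := by rw [pow_add]; ring

theorem LD_mom1 (n : ℕ) (m : ℕ) [NeZero m] :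
    (∑ ab : Mt n (ZMod m) × Mt n (ZMod m), (sm m ab.1 ab.2 : ℝ)) * (m : ℝ) ^ 2 =
      (Nat.card {x : Vc n (ZMod m) // Uni x} : ℝ) * ((m : ℝ) ^ (n + 1) ^ 2) ^ 2 := by
  have h0 : ∑ ab : Mt n (ZMod m) × Mt n (ZMod m), (sm m ab.1 ab.2 : ℝ) =
      ∑ x ∈ Finset.univ.filter (fun x : Vc n (ZMod m) => Uni x),
        (∑ a : Mt n (ZMod m), LD_Mom_f a x) ^ 2 := by
    calc ∑ ab : Mt n (ZMod m) × Mt n (ZMod m), (sm m ab.1 ab.2 : ℝ)
        = ∑ ab : Mt n (ZMod m) × Mt n (ZMod m),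
            ∑ x ∈ Finset.univ.filter (fun x : Vc n (ZMod m) => Uni x),
              LD_Mom_f ab.1 x * LD_Mom_f ab.2 x :=
          Finset.sum_congr rfl fun ab _ => LD_Mom_sm m ab.1 ab.2
      _ = ∑ x ∈ Finset.univ.filter (fun x : Vc n (ZMod m) => Uni x),
            ∑ ab : Mt n (ZMod m) × Mt n (ZMod m), LD_Mom_f ab.1 x * LD_Mom_f ab.2 x :=
          Finset.sum_comm
      _ = _ := by
          refine Finset.sum_congr rfl fun x _ => ?_
          rw [pow_two, Finset.sum_mul_sum, Fintype.sum_prod_type]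
  rw [h0, Finset.sum_mul]
  have h1 : ∀ x ∈ Finset.univ.filter (fun x : Vc n (ZMod m) => Uni x),
      (∑ a : Mt n (ZMod m), LD_Mom_f a x) ^ 2 * (m : ℝ) ^ 2 = ((m : ℝ) ^ (n + 1) ^ 2) ^ 2 := by
    intro x hx
    rw [← mul_pow, LD_Mom_one m x (Finset.mem_filter.mp hx).2]
  rw [Finset.sum_congr rfl h1, Finset.sum_const, nsmul_eq_mul, LD_Mom_card]

theorem LD_mom2 (n : ℕ) (hn : 5 ≤ n) (m : ℕ) [NeZero m] (p0 : ℕ) (hp0 : 1 ≤ p0)
    (hd : ∀ d, d ∣ m → 1 < d → p0 < d) :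
    (∑ ab : Mt n (ZMod m) × Mt n (ZMod m), (sm m ab.1 ab.2 : ℝ) ^ 2) * (m : ℝ) ^ 3 ≤
      (Nat.card {x : Vc n (ZMod m) // Uni x} : ℝ) * ((m : ℝ) ^ (n + 1) ^ 2) ^ 2 *
        ((m : ℝ) ^ n * (1 + 1 / p0)) := by
  set S := Finset.univ.filter (fun x : Vc n (ZMod m) => Uni x) with hS
  have h0 : ∑ ab : Mt n (ZMod m) × Mt n (ZMod m), (sm m ab.1 ab.2 : ℝ) ^ 2 =
      ∑ x ∈ S, ∑ y ∈ S, (∑ a : Mt n (ZMod m), LD_Mom_f a x * LD_Mom_f a y) ^ 2 := by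
    calc ∑ ab : Mt n (ZMod m) × Mt n (ZMod m), (sm m ab.1 ab.2 : ℝ) ^ 2
        = ∑ ab : Mt n (ZMod m) × Mt n (ZMod m), ∑ x ∈ S, ∑ y ∈ S,
            (LD_Mom_f ab.1 x * LD_Mom_f ab.1 y) * (LD_Mom_f ab.2 x * LD_Mom_f ab.2 y) := by
          refine Finset.sum_congr rfl fun ab _ => ?_
          rw [LD_Mom_sm, pow_two, Finset.sum_mul_sum]
          refine Finset.sum_congr rfl fun x _ => Finset.sum_congr rfl fun y _ => ?_
          ring
      _ = ∑ x ∈ S, ∑ y ∈ S, ∑ ab : Mt n (ZMod m) × Mt n (ZMod m),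
            (LD_Mom_f ab.1 x * LD_Mom_f ab.1 y) * (LD_Mom_f ab.2 x * LD_Mom_f ab.2 y) := by
          rw [Finset.sum_comm]
          refine Finset.sum_congr rfl fun x _ => ?_
          rw [Finset.sum_comm]
      _ = _ := by
          refine Finset.sum_congr rfl fun x _ => Finset.sum_congr rfl fun y _ => ?_
          rw [pow_two, Finset.sum_mul_sum, Fintype.sum_prod_type]
  rw [h0]
  calc (∑ x ∈ S, ∑ y ∈ S, (∑ a : Mt n (ZMod m), LD_Mom_f a x * LD_Mom_f a y) ^ 2) * (m : ℝ) ^ 3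
      = ∑ x ∈ S, ∑ y ∈ S,
          (∑ a : Mt n (ZMod m), LD_Mom_f a x * LD_Mom_f a y) ^ 2 * (m : ℝ) ^ 3 := by
        rw [Finset.sum_mul]
        refine Finset.sum_congr rfl fun x _ => ?_
        rw [Finset.sum_mul]
    _ ≤ ∑ x ∈ S, ∑ y ∈ S,
          ((m : ℝ) ^ (n + 1) ^ 2) ^ 2 * (m : ℝ) / (Nat.card (II x y) : ℝ) ^ 2 := by
        refine Finset.sum_le_sum fun x hx => Finset.sum_le_sum fun y hy => ?_
        exact LD_Mom_two m x y (Finset.mem_filter.mp hx).2 (Finset.mem_filter.mp hy).2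
    _ ≤ ∑ x ∈ S, ((m : ℝ) ^ (n + 1) ^ 2) ^ 2 * ((m : ℝ) ^ n * (1 + 1 / p0)) := by
        refine Finset.sum_le_sum fun x hx => ?_
        exact LD_Mom_row hn m p0 hp0 hd x (Finset.mem_filter.mp hx).2 _ (by positivity)
    _ = _ := by rw [Finset.sum_const, nsmul_eq_mul, LD_Mom_card]; ring

end Pool.Agent.Lib.MP_219881_nt
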