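import Pool.Agent.Lib.MP_219881_nt.LD_Base

/-!
JOB LD_Norm.  Normalisation of a p-adic zero and a good minor.
(First part: cubic version LD_norm in /team-store/MP_1ad228_ntC_LD_Hensel.lean; adapt it.)

LD_norm.  Let `y ≠ 0` be a common zero in `ℚ_[p]^(n+1)`; choose `i` with `‖y i‖` maximal (`> 0`) and divide by
`y i`: `x = y / y i` has all norms `≤ 1` and `x i = 1`, so it comes from `ℤ_[p]`; `ev` is homogeneous
(`ev_scale`); use injectivity of the coercion `ℤ_[p] → ℚ_[p]` (`ev_map`, `PadicInt.Coe.ringHom`).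

LD_minor.  Put `u j = dev (cm ℤ_[p] a) x j`, `v j = dev (cm ℤ_[p] b) x j` in `ℤ_[p]`. Reduction mod `p^e`:
`PadicInt.toZModPow e` (kernel = multiples of `p^e`), `dev_map`, `ev_map`; the reduced `x` has `i`-th coordinate
1 and is a common zero. For every `t : ℤ_[p]` (with reduction `t mod p^e`) `hex` gives `j ≠ i` with
`¬ p^e ∣ u j + t v j`, and `j' ≠ i` with `¬ p^e ∣ t u j' + v j'`.
Among all `u j, v j` (`j ≠ i`) choose one of maximal norm; it is not divisible by `p^e` (`t = 0`).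
If it is `u j1`: `v j1 = -lam * u j1` with `lam ∈ ℤ_[p]` (norm of `v j1` at most the norm of `u j1 ≠ 0`); take
`j2 ≠ i` with `¬ p^e ∣ lam u j2 + v j2`. Then `u j1 * (lam u j2 + v j2) = u j1 v j2 - v j1 u j2` is the minor
`(j1, j2)`; if `p^(2e-1)` divides it then `p^e` divides one of the factors (norms: `‖u j1‖ ≥ p^(-(e-1))`,
`‖lam u j2 + v j2‖ ≥ p^(-(e-1))`, so the product has norm `≥ p^(-(2e-2)) > p^(-(2e-1))`;
`PadicInt.norm_le_pow_iff_mem_span_pow`, `PadicInt.norm_lt_pow_iff_norm_le_pow_sub_one`...).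
`j1 ≠ j2` because the minor is not 0. If it is `v j1`: symmetric (`u j1 = -lam v j1`,
`¬ p^e ∣ u j2 + lam v j2`, `v j1 (u j2 + lam v j2) = v j1 u j2 - u j1 v j2`).
-/

namespace Pool.Agent.Lib.MP_219881_nt

open Classical

private theorem LD_Norm_cmmap {n : ℕ} {R S : Type*} [CommRing R] [CommRing S] (f : R →+* S)
    (a : Mt n ℤ) : (fun i j => f (cm R a i j)) = cm S a := by
  funext i j
  simp [cm]

private theorem LD_Norm_ev {n : ℕ} {R S : Type*} [CommRing R] [CommRing S] (f : R →+* S)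
    (a : Mt n ℤ) (x : Vc n R) : ev (cm S a) (fun i => f (x i)) = f (ev (cm R a) x) := by
  rw [← ev_map f (cm R a) x, LD_Norm_cmmap]

private theorem LD_Norm_dev {n : ℕ} {R S : Type*} [CommRing R] [CommRing S] (f : R →+* S)
    (a : Mt n ℤ) (x : Vc n R) (j : Fin (n + 1)) :
    dev (cm S a) (fun i => f (x i)) j = f (dev (cm R a) x j) := by
  rw [← dev_map f (cm R a) x, LD_Norm_cmmap]

private theorem LD_Norm_mul (p : ℕ) [Fact p.Prime] (e : ℕ) (z w : ℤ_[p])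
    (hz : ¬ (p : ℤ_[p]) ^ e ∣ z) (hw : ¬ (p : ℤ_[p]) ^ e ∣ w) :
    ¬ (p : ℤ_[p]) ^ (2 * e - 1) ∣ z * w := by
  rw [← emultiplicity_lt_iff_not_dvd] at hz hw ⊢
  rw [emultiplicity_mul PadicInt.prime_p]
  obtain ⟨m, hm⟩ := ENat.ne_top_iff_exists.1 (ne_top_of_lt hz)
  obtain ⟨k, hk⟩ := ENat.ne_top_iff_exists.1 (ne_top_of_lt hw)
  rw [← hm] at hz ⊢
  rw [← hk] at hw ⊢
  have h1 : m < e := by exact_mod_cast hz
  have h2 : k < e := by exact_mod_cast hw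
  have h3 : m + k < 2 * e - 1 := by omega
  exact_mod_cast h3

private theorem LD_Norm_core {n : ℕ} (p : ℕ) [Fact p.Prime] (e : ℕ) (u v : Vc n ℤ_[p])
    (i : Fin (n + 1)) (hB : ∀ t : ℤ_[p], ∃ j, j ≠ i ∧ ¬ (p : ℤ_[p]) ^ e ∣ t * u j + v j)
    (j : Fin (n + 1)) (hji : j ≠ i) (hj : ¬ (p : ℤ_[p]) ^ e ∣ u j) (hd : u j ∣ v j) :
    ∃ j k : Fin (n + 1), j ≠ i ∧ k ≠ i ∧ j ≠ k ∧
      ¬ ((p : ℤ_[p]) ^ (2 * e - 1) ∣ u j * v k - u k * v j) := by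
  obtain ⟨c, hc⟩ := hd
  obtain ⟨k, hki, hk⟩ := hB (-c)
  refine ⟨j, k, hji, hki, ?_, ?_⟩
  · rintro rfl
    apply hk
    rw [hc]
    have h0 : -c * u j + u j * c = 0 := by ring
    rw [h0]
    exact dvd_zero _
  · have h1 := LD_Norm_mul p e _ _ hj hk
    have h2 : u j * v k - u k * v j = u j * (-c * u k + v k) := by
      rw [hc]
      ring
    rw [h2]
    exact h1

theorem LD_norm {n : ℕ} (p : ℕ) [Fact p.Prime] (a b : Mt n ℤ)
    (h : ∃ x : Vc n ℚ_[p], x ≠ 0 ∧ ev (cm ℚ_[p] a) x = 0 ∧ ev (cm ℚ_[p] b) x = 0) :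
    ∃ (x : Vc n ℤ_[p]) (i : Fin (n + 1)), x i = 1 ∧ ev (cm ℤ_[p] a) x = 0 ∧
      ev (cm ℤ_[p] b) x = 0 := by
  obtain ⟨y, hy0, hya, hyb⟩ := h
  obtain ⟨i, hi⟩ := Finite.exists_max (fun k => ‖y k‖)
  have hyi : y i ≠ 0 := by
    intro h0
    apply hy0
    funext k
    have h1 := hi k
    simp only [h0, norm_zero] at h1
    exact norm_le_zero_iff.1 h1
  have hn : ∀ k, ‖(y i)⁻¹ * y k‖ ≤ 1 := by
    intro k
    rw [norm_mul, norm_inv, inv_mul_le_iff₀ (norm_pos_iff.2 hyi), mul_one]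
    exact hi k
  have hkey : ∀ c : Mt n ℤ, ev (cm ℚ_[p] c) y = 0 →
      ev (cm ℤ_[p] c) (fun k => (⟨(y i)⁻¹ * y k, hn k⟩ : ℤ_[p])) = 0 := by
    intro c hc
    have h1 : ((ev (cm ℤ_[p] c) (fun k => (⟨(y i)⁻¹ * y k, hn k⟩ : ℤ_[p])) : ℤ_[p]) : ℚ_[p])
        = 0 := by
      have h2 := LD_Norm_ev (PadicInt.Coe.ringHom (p := p)) c
        (fun k => (⟨(y i)⁻¹ * y k, hn k⟩ : ℤ_[p]))
      have h3 : (fun k => PadicInt.Coe.ringHom (p := p) (⟨(y i)⁻¹ * y k, hn k⟩ : ℤ_[p]))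
          = fun k => (y i)⁻¹ * y k := rfl
      rw [h3, ev_scale, hc, mul_zero] at h2
      exact h2.symm
    exact Subtype.ext h1
  refine ⟨fun k => ⟨(y i)⁻¹ * y k, hn k⟩, i, ?_, hkey a hya, hkey b hyb⟩
  apply Subtype.ext
  show (y i)⁻¹ * y i = ((1 : ℤ_[p]) : ℚ_[p])
  rw [inv_mul_cancel₀ hyi]
  rfl

theorem LD_minor {n : ℕ} (p : ℕ) [Fact p.Prime] (e : ℕ) (he : 1 ≤ e) (a b : Mt n ℤ)
    (x : Vc n ℤ_[p]) (i : Fin (n + 1)) (hi : x i = 1) (ha : ev (cm ℤ_[p] a) x = 0)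
    (hb : ev (cm ℤ_[p] b) x = 0)
    (hex : ¬ Exc (p ^ e) (cm (ZMod (p ^ e)) a) (cm (ZMod (p ^ e)) b)) :
    ∃ j k : Fin (n + 1), j ≠ i ∧ k ≠ i ∧ j ≠ k ∧
      ¬ ((p : ℤ_[p]) ^ (2 * e - 1) ∣ dev (cm ℤ_[p] a) x j * dev (cm ℤ_[p] b) x k
        - dev (cm ℤ_[p] a) x k * dev (cm ℤ_[p] b) x j) := by
  have hdv : ∀ z : ℤ_[p], (p : ℤ_[p]) ^ e ∣ z → PadicInt.toZModPow e z = 0 := by
    intro z hz
    rw [← RingHom.mem_ker, PadicInt.ker_toZModPow]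
    exact Ideal.mem_span_singleton.2 hz
  have hea : ev (cm (ZMod (p ^ e)) a) (fun k => PadicInt.toZModPow e (x k)) = 0 := by
    rw [LD_Norm_ev (PadicInt.toZModPow (p := p) e) a x, ha, map_zero]
  have heb : ev (cm (ZMod (p ^ e)) b) (fun k => PadicInt.toZModPow e (x k)) = 0 := by
    rw [LD_Norm_ev (PadicInt.toZModPow (p := p) e) b x, hb, map_zero]
  have hxi : PadicInt.toZModPow e (x i) = 1 := by rw [hi, map_one]
  have hA : ∀ t : ℤ_[p], ∃ j, j ≠ i ∧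
      ¬ (p : ℤ_[p]) ^ e ∣ t * dev (cm ℤ_[p] b) x j + dev (cm ℤ_[p] a) x j := by
    intro t
    by_contra hcon
    push Not at hcon
    refine hex ⟨fun k => PadicInt.toZModPow e (x k), i, PadicInt.toZModPow e t, hxi, hea, heb,
      Or.inl fun j hj => ?_⟩
    rw [LD_Norm_dev (PadicInt.toZModPow (p := p) e) a x, LD_Norm_dev (PadicInt.toZModPow (p := p) e) b x]
    have h1 := hdv _ (hcon j hj)
    rw [map_add, map_mul] at h1
    rw [add_comm]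
    exact h1
  have hB : ∀ t : ℤ_[p], ∃ j, j ≠ i ∧
      ¬ (p : ℤ_[p]) ^ e ∣ t * dev (cm ℤ_[p] a) x j + dev (cm ℤ_[p] b) x j := by
    intro t
    by_contra hcon
    push Not at hcon
    refine hex ⟨fun k => PadicInt.toZModPow e (x k), i, PadicInt.toZModPow e t, hxi, hea, heb,
      Or.inr fun j hj => ?_⟩
    rw [LD_Norm_dev (PadicInt.toZModPow (p := p) e) a x, LD_Norm_dev (PadicInt.toZModPow (p := p) e) b x]
    have h1 := hdv _ (hcon j hj)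
    rw [map_add, map_mul] at h1
    exact h1
  obtain ⟨j0, hj0i, hj0⟩ := hA 0
  rw [zero_mul, zero_add] at hj0
  rcases ValuationRing.dvd_total (dev (cm ℤ_[p] a) x j0) (dev (cm ℤ_[p] b) x j0) with hd | hd
  · exact LD_Norm_core p e (fun j => dev (cm ℤ_[p] a) x j) (fun j => dev (cm ℤ_[p] b) x j) i hB
      j0 hj0i hj0 hd
  · obtain ⟨j, k, h1, h2, h3, h4⟩ := LD_Norm_core p e (fun j => dev (cm ℤ_[p] b) x j)
      (fun j => dev (cm ℤ_[p] a) x j) i hA j0 hj0i (fun h => hj0 (h.trans hd)) hd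
    refine ⟨j, k, h1, h2, h3, fun h5 => h4 ?_⟩
    have h6 : dev (cm ℤ_[p] b) x j * dev (cm ℤ_[p] a) x k -
        dev (cm ℤ_[p] b) x k * dev (cm ℤ_[p] a) x j =
        -(dev (cm ℤ_[p] a) x j * dev (cm ℤ_[p] b) x k
          - dev (cm ℤ_[p] a) x k * dev (cm ℤ_[p] b) x j) := by ring
    show (p : ℤ_[p]) ^ (2 * e - 1) ∣ dev (cm ℤ_[p] b) x j * dev (cm ℤ_[p] a) x k -
        dev (cm ℤ_[p] b) x k * dev (cm ℤ_[p] a) x j
    rw [h6]
    exact (dvd_neg).2 h5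

end Pool.Agent.Lib.MP_219881_nt
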