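import Pool.Agent.Lib.MP_219881_nt.Basic

/-!
JOB Round.  Rounding lemma.  (Cubic version with proof: /team-store/MP_1ad228_ntC_Round.lean; adapt it.)

PROOF.  `m t = ⌊r t⌋`. Then `a - ∑ m_t c_t = b + ∑ (r_t - ⌊r_t⌋) c_t` entrywise, and
`0 ≤ r_t - ⌊r_t⌋ < 1`.
-/

namespace Pool.Agent.Lib.MP_219881_nt

open Classical

theorem roundLem {n : ℕ} {ι : Type} [Fintype ι] (N : ℕ) (a : Mt n ℤ) (b : Mt n ℚ) (β : ℚ)
    (hb : ∀ i j, |b i j| ≤ β) (c : ι → Mt n ℤ) (hc : ∀ t i j, |c t i j| ≤ (N : ℤ))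
    (r : ι → ℚ) (h : ∀ i j, (a i j : ℚ) - b i j = ∑ t, r t * (c t i j : ℚ)) :
    ∃ m : ι → ℤ, ∀ i j,
      (|((a i j - ∑ t, m t * c t i j : ℤ) : ℚ)|) ≤ β + (Fintype.card ι : ℚ) * N := by
  refine ⟨fun t => ⌊r t⌋, fun i j => ?_⟩
  have e : ((a i j - ∑ t, ⌊r t⌋ * c t i j : ℤ) : ℚ)
      = b i j + ∑ t, (r t - (⌊r t⌋ : ℚ)) * (c t i j : ℚ) := by
    have h1 : ∑ t, (r t - (⌊r t⌋ : ℚ)) * (c t i j : ℚ)
        = ∑ t, r t * (c t i j : ℚ) - ∑ t, (⌊r t⌋ : ℚ) * (c t i j : ℚ) := by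
      rw [← Finset.sum_sub_distrib]
      exact Finset.sum_congr rfl fun t _ => by ring
    rw [h1, ← h i j]
    push_cast
    ring
  rw [e]
  have h2 : |∑ t, (r t - (⌊r t⌋ : ℚ)) * (c t i j : ℚ)| ≤ (Fintype.card ι : ℚ) * N := by
    calc |∑ t, (r t - (⌊r t⌋ : ℚ)) * (c t i j : ℚ)|
        ≤ ∑ t, |(r t - (⌊r t⌋ : ℚ)) * (c t i j : ℚ)| := Finset.abs_sum_le_sum_abs _ _
      _ ≤ ∑ _t : ι, (N : ℚ) := by
          refine Finset.sum_le_sum fun t _ => ?_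
          rw [abs_mul]
          have h3 : |r t - (⌊r t⌋ : ℚ)| ≤ 1 := by
            rw [abs_of_nonneg (sub_nonneg.mpr (Int.floor_le (r t)))]
            have := Int.lt_floor_add_one (r t)
            linarith
          have h4 : |(c t i j : ℚ)| ≤ (N : ℚ) := by
            have h5 := hc t i j
            have h6 : ((|c t i j| : ℤ) : ℚ) ≤ ((N : ℤ) : ℚ) := by exact_mod_cast h5
            rw [Int.cast_abs] at h6
            exact_mod_cast h6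
          calc |r t - (⌊r t⌋ : ℚ)| * |(c t i j : ℚ)| ≤ 1 * (N : ℚ) :=
                mul_le_mul h3 h4 (abs_nonneg _) zero_le_one
            _ = N := one_mul _
      _ = (Fintype.card ι : ℚ) * N := by
          rw [Finset.sum_const, Finset.card_univ, nsmul_eq_mul]
  calc |b i j + ∑ t, (r t - (⌊r t⌋ : ℚ)) * (c t i j : ℚ)|
      ≤ |b i j| + |∑ t, (r t - (⌊r t⌋ : ℚ)) * (c t i j : ℚ)| := abs_add_le _ _
    _ ≤ β + (Fintype.card ι : ℚ) * N := add_le_add (hb i j) h2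

end Pool.Agent.Lib.MP_219881_nt
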