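import Pool.Agent.Lib.MP_219881_nt.PerpSpan

/-!
JOB Span2.  Matrices vanishing at two non proportional `H`-good points are spanned by `2 n ^ 2` short
integer matrices.  (Cubic version with proof: /team-store/MP_1ad228_ntC_Span2.lean; adapt it.)

PROOF.  Let `f` be the short vectors of `x`, `g` those of `y`. Index `t = (slot, s, s')`:
`c t = f_s ⊗ g_s'` for slot 0, `g_s' ⊗ f_s` for slot 1 (`ten`). By `ev_ten` it vanishes at `x` and at `y`;
entries at most `H * H`.
Spanning: take `j` with `D := mn x y o j ≠ 0`; rational vectors `p = (y_j e_o - y_o e_j)/D`,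
`r = (-x_j e_o + x_o e_j)/D`: `p(x) = 1, p(y) = 0, r(x) = 0, r(y) = 1`. For `i` put `P_i = x_i p`,
`R_i = y_i r`, `h_i = e_i - P_i - R_i` (kills `x` and `y`), `α_i = P_i + h_i` (kills `y`),
`β_i = R_i + h_i` (kills `x`). Identity of matrices:
  `e_i⊗e_j = P_i⊗P_j + R_i⊗R_j + P_i⊗β_j + β_i⊗α_j + h_i⊗R_j`.
Each of the last three terms has a factor killing `x` in one slot and a factor killing `y` in the other
slot, so it lies in the rational span of the casts of the `c t` (by `perpSpan` for `x` and for `y`; work with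
the `Submodule ℚ (Mt n ℚ)` spanned by `cm ℚ (c t)`). Multiply by `b_ij` and sum: the first terms give
`ev b x • p⊗p = 0` and `ev b y • r⊗r = 0`.
-/

namespace Pool.Agent.Lib.MP_219881_nt

open Classical

private def span2_A {n : ℕ} (v : Vc n ℚ) : Vc n ℚ →ₗ[ℚ] Mt n ℚ where
  toFun u := ten u v
  map_add' a b := by funext i j; simp only [ten, Pi.add_apply]; ring
  map_smul' r a := by
    funext i j
    simp only [ten, Pi.smul_apply, smul_eq_mul, RingHom.id_apply]
    ring

private def span2_B {n : ℕ} (u : Vc n ℚ) : Vc n ℚ →ₗ[ℚ] Mt n ℚ where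
  toFun v := ten u v
  map_add' a b := by funext i j; simp only [ten, Pi.add_apply]; ring
  map_smul' r a := by
    funext i j
    simp only [ten, Pi.smul_apply, smul_eq_mul, RingHom.id_apply]
    ring

private theorem span2_mem {n : ℕ} (S : Submodule ℚ (Mt n ℚ)) {A B : Set (Vc n ℚ)}
    (h : ∀ a ∈ A, ∀ b ∈ B, ten a b ∈ S) {u v : Vc n ℚ}
    (hu : u ∈ Submodule.span ℚ A) (hv : v ∈ Submodule.span ℚ B) :
    ten u v ∈ S := by
  have h3 : ∀ a ∈ A, ten a v ∈ S := by
    intro a ha
    have h2 : Submodule.span ℚ B ≤ S.comap (span2_B a) :=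
      Submodule.span_le.2 fun b hb => h a ha b hb
    exact h2 hv
  have h2 : Submodule.span ℚ A ≤ S.comap (span2_A v) :=
    Submodule.span_le.2 fun a ha => h3 a ha
  exact h2 hu

private theorem span2_perp {n : ℕ} (x : Vc n ℤ) (hx : x ≠ 0) (f : Fin n → Vc n ℤ)
    (hf : LinearIndependent ℤ f) (h0 : ∀ s, lin (f s) x = 0) {u : Vc n ℚ}
    (hu : lin u (cv ℚ x) = 0) :
    u ∈ Submodule.span ℚ (Set.range fun s : Fin n => cv ℚ (f s)) := by
  obtain ⟨t, ht⟩ := perpSpan x hx f hf h0 u hu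
  have h1 : u = ∑ s, t s • cv ℚ (f s) := by
    funext i
    rw [ht i, Finset.sum_apply]
    rfl
  rw [h1]
  exact Submodule.sum_mem _ fun s _ => Submodule.smul_mem _ _ (Submodule.subset_span ⟨s, rfl⟩)

private theorem span2_cm {n : ℕ} (u v : Vc n ℤ) :
    cm ℚ (ten u v) = ten (cv ℚ u) (cv ℚ v) := by
  funext i j
  simp [cm, ten, cv]

private theorem span2_sum {n : ℕ} (b : Mt n ℚ) :
    b = ∑ i, ∑ j, b i j • ten (Pi.single i 1) (Pi.single j 1) := by
  funext i j
  simp [Finset.sum_apply, Pi.smul_apply, ten, Pi.single_apply]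

private def span2_c {n : ℕ} (f g : Fin n → Vc n ℤ) (t : Fin 2 × Fin n × Fin n) : Mt n ℤ :=
  (![ten (f t.2.1) (g t.2.2), ten (g t.2.2) (f t.2.1)] : Fin 2 → Mt n ℤ) t.1

private theorem span2_le {H : ℕ} {a b : ℤ} (ha : |a| ≤ (H : ℤ)) (hb : |b| ≤ (H : ℤ)) :
    |a * b| ≤ (H : ℤ) ^ 2 := by
  rw [abs_mul]
  calc |a| * |b| ≤ H * H := by gcongr
    _ = (H : ℤ) ^ 2 := by ring

theorem span2 {n : ℕ} (H : ℕ) (o : Fin (n + 1)) (x y : Vc n ℤ) (hxy : ∃ j, mn x y o j ≠ 0)
    (hx : HGood H x) (hy : HGood H y) :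
    ∃ c : (Fin 2 × Fin n × Fin n) → Mt n ℤ, (∀ t, ev (c t) x = 0) ∧
      (∀ t, ev (c t) y = 0) ∧ (∀ t i j, |c t i j| ≤ (H : ℤ) ^ 2) ∧
      ∀ b : Mt n ℚ, ev b (cv ℚ x) = 0 → ev b (cv ℚ y) = 0 →
        ∃ r : (Fin 2 × Fin n × Fin n) → ℚ,
          ∀ i j, b i j = ∑ t, r t * (c t i j : ℚ) := by
  obtain ⟨f, hf, hf0, hfH⟩ := hx
  obtain ⟨g, hg, hg0, hgH⟩ := hy
  obtain ⟨j0, hj0⟩ := hxy
  have hx0 : x ≠ 0 := by
    intro h
    apply hj0
    simp [mn, h]
  have hy0 : y ≠ 0 := by
    intro h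
    apply hj0
    simp [mn, h]
  refine ⟨span2_c f g, ?_, ?_, ?_, ?_⟩
  · rintro ⟨a, s, s'⟩
    fin_cases a
    · show ev (ten (f s) (g s')) x = 0
      rw [ev_ten, hf0]
      ring
    · show ev (ten (g s') (f s)) x = 0
      rw [ev_ten, hf0]
      ring
  · rintro ⟨a, s, s'⟩
    fin_cases a
    · show ev (ten (f s) (g s')) y = 0
      rw [ev_ten, hg0]
      ring
    · show ev (ten (g s') (f s)) y = 0
      rw [ev_ten, hg0]
      ring
  · rintro ⟨a, s, s'⟩ i₁ i₂
    fin_cases a
    · show |f s i₁ * g s' i₂| ≤ (H : ℤ) ^ 2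
      exact span2_le (hfH s i₁) (hgH s' i₂)
    · show |g s' i₁ * f s i₂| ≤ (H : ℤ) ^ 2
      exact span2_le (hgH s' i₁) (hfH s i₂)
  · intro b hbx hby
    let S : Submodule ℚ (Mt n ℚ) := Submodule.span ℚ (Set.range fun t => cm ℚ (span2_c f g t))
    have m0 : ∀ u v : Vc n ℚ, lin u (cv ℚ x) = 0 → lin v (cv ℚ y) = 0 → ten u v ∈ S := by
      intro u v hu hv
      refine span2_mem S ?_ (span2_perp x hx0 f hf hf0 hu) (span2_perp y hy0 g hg hg0 hv)
      rintro _ ⟨s, rfl⟩ _ ⟨s', rfl⟩
      refine Submodule.subset_span ⟨(0, s, s'), ?_⟩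
      show cm ℚ (ten (f s) (g s')) = _
      rw [span2_cm]
    have m1 : ∀ u v : Vc n ℚ, lin u (cv ℚ y) = 0 → lin v (cv ℚ x) = 0 → ten u v ∈ S := by
      intro u v hu hv
      refine span2_mem S ?_ (span2_perp y hy0 g hg hg0 hu) (span2_perp x hx0 f hf hf0 hv)
      rintro _ ⟨s', rfl⟩ _ ⟨s, rfl⟩
      refine Submodule.subset_span ⟨(1, s, s'), ?_⟩
      show cm ℚ (ten (g s') (f s)) = _
      rw [span2_cm]
    let X : Vc n ℚ := cv ℚ x
    let Y : Vc n ℚ := cv ℚ y
    let e : Fin (n + 1) → Vc n ℚ := fun i => Pi.single i 1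
    let D : ℚ := X o * Y j0 - X j0 * Y o
    have hD : D ≠ 0 := by
      have h1 : ((mn x y o j0 : ℤ) : ℚ) ≠ 0 := by exact_mod_cast hj0
      simpa [mn, D, X, Y, cv] using h1
    let p : Vc n ℚ := D⁻¹ • (Y j0 • e o - Y o • e j0)
    let r : Vc n ℚ := D⁻¹ • (X o • e j0 - X j0 • e o)
    have hpx : lin p X = 1 := by
      show lin (D⁻¹ • (Y j0 • e o - Y o • e j0)) X = 1
      rw [lin_smul, lin_sub, lin_smul, lin_smul, lin_single, lin_single]
      have h1 : Y j0 * X o - Y o * X j0 = D := by ring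
      rw [h1, inv_mul_cancel₀ hD]
    have hpy : lin p Y = 0 := by
      show lin (D⁻¹ • (Y j0 • e o - Y o • e j0)) Y = 0
      rw [lin_smul, lin_sub, lin_smul, lin_smul, lin_single, lin_single]
      ring
    have hrx : lin r X = 0 := by
      show lin (D⁻¹ • (X o • e j0 - X j0 • e o)) X = 0
      rw [lin_smul, lin_sub, lin_smul, lin_smul, lin_single, lin_single]
      ring
    have hry : lin r Y = 1 := by
      show lin (D⁻¹ • (X o • e j0 - X j0 • e o)) Y = 1
      rw [lin_smul, lin_sub, lin_smul, lin_smul, lin_single, lin_single]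
      exact inv_mul_cancel₀ hD
    let P : Fin (n + 1) → Vc n ℚ := fun i => X i • p
    let R : Fin (n + 1) → Vc n ℚ := fun i => Y i • r
    let h : Fin (n + 1) → Vc n ℚ := fun i => e i - P i - R i
    let α : Fin (n + 1) → Vc n ℚ := fun i => P i + h i
    let β : Fin (n + 1) → Vc n ℚ := fun i => R i + h i
    have kPy : ∀ i, lin (P i) Y = 0 := by
      intro i
      show lin (X i • p) Y = 0
      rw [lin_smul, hpy, mul_zero]
    have kRx : ∀ i, lin (R i) X = 0 := by
      intro i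
      show lin (Y i • r) X = 0
      rw [lin_smul, hrx, mul_zero]
    have khx : ∀ i, lin (h i) X = 0 := by
      intro i
      show lin (e i - X i • p - R i) X = 0
      rw [lin_sub, lin_sub, kRx, lin_smul, hpx, lin_single]
      ring
    have khy : ∀ i, lin (h i) Y = 0 := by
      intro i
      show lin (e i - P i - Y i • r) Y = 0
      rw [lin_sub, lin_sub, kPy, lin_smul, hry, lin_single]
      ring
    have kαy : ∀ i, lin (α i) Y = 0 := by
      intro i
      show lin (P i + h i) Y = 0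
      rw [lin_add, kPy, khy, add_zero]
    have kβx : ∀ i, lin (β i) X = 0 := by
      intro i
      show lin (R i + h i) X = 0
      rw [lin_add, kRx, khx, add_zero]
    have hid : ∀ i j, ten (e i) (e j) = (X i * X j) • ten p p +
        ((Y i * Y j) • ten r r + (ten (P i) (β j) + (ten (β i) (α j) + ten (h i) (R j)))) := by
      intro i j
      funext a b'
      simp only [ten, h, α, β, P, R, Pi.add_apply, Pi.smul_apply, Pi.sub_apply, smul_eq_mul]
      ring
    have hb2 : b - ev b X • ten p p - ev b Y • ten r r ∈ S := by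
      have e1 : b - ev b X • ten p p - ev b Y • ten r r =
          ∑ i, ∑ j, b i j • (ten (P i) (β j) + (ten (β i) (α j) + ten (h i) (R j))) := by
        have e2 : b = ∑ i, ∑ j, b i j • ten (e i) (e j) := span2_sum b
        have e3 : ev b X • ten p p = ∑ i, ∑ j, b i j • (X i * X j) • ten p p := by
          unfold ev
          simp only [Finset.sum_smul, mul_smul]
        have e4 : ev b Y • ten r r = ∑ i, ∑ j, b i j • (Y i * Y j) • ten r r := by
          unfold ev
          simp only [Finset.sum_smul, mul_smul]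
        rw [e3, e4]
        refine (congrArg (fun z => z - (∑ i, ∑ j, b i j • (X i * X j) • ten p p) -
          ∑ i, ∑ j, b i j • (Y i * Y j) • ten r r) e2).trans ?_
        show (∑ i, ∑ j, b i j • ten (e i) (e j)) -
          (∑ i, ∑ j, b i j • (X i * X j) • ten p p) -
          ∑ i, ∑ j, b i j • (Y i * Y j) • ten r r = _
        rw [← Finset.sum_sub_distrib, ← Finset.sum_sub_distrib]
        refine Finset.sum_congr rfl fun i _ => ?_
        rw [← Finset.sum_sub_distrib, ← Finset.sum_sub_distrib]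
        refine Finset.sum_congr rfl fun j _ => ?_
        rw [hid, smul_add, add_sub_cancel_left, smul_add, add_sub_cancel_left]
      rw [e1]
      refine Submodule.sum_mem _ fun i _ => Submodule.sum_mem _ fun j _ =>
        Submodule.smul_mem _ _ ?_
      exact Submodule.add_mem _ (m1 _ _ (kPy i) (kβx j)) (Submodule.add_mem _
        (m0 _ _ (kβx i) (kαy j)) (m1 _ _ (khy i) (kRx j)))
    have hb3 : b ∈ S := by
      have e4 : ev b X = 0 := hbx
      have e5 : ev b Y = 0 := hby
      rw [e4, e5, zero_smul, zero_smul, sub_zero, sub_zero] at hb2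
      exact hb2
    obtain ⟨t, ht⟩ := (Submodule.mem_span_range_iff_exists_fun ℚ).1 hb3
    refine ⟨t, fun i j => ?_⟩
    rw [← ht]
    simp only [Finset.sum_apply, Pi.smul_apply, smul_eq_mul, cm]

end Pool.Agent.Lib.MP_219881_nt
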