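import Pool.Agent.Lib.MP_219881_nt.Span1
import Pool.Agent.Lib.MP_219881_nt.Span2
import Pool.Agent.Lib.MP_219881_nt.Round

/-!
JOB LL.  Short integer matrices with given values (paper section 1).
(Cubic version with proof: /team-store/MP_1ad228_ntC_LL.lean; adapt it.)

PROOF.  LL1: `span1` gives the integer matrices `c t`; the rational matrix `cm ℚ a - b` vanishes at `x`
(`ev_sub`, `ev_cm`), so it is `∑ r_t c_t`; `roundLem` with `N = H`, card of the index type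
`2 * n * (n + 1)`, gives `a' = a - ∑ m_t c_t`, whose value at `x` is that of `a`
(`ev_sub`, `ev_sum`, `ev_smul`). LL2: the same with `span2`, `N = H^2`, card `2 * n * n`.
-/

namespace Pool.Agent.Lib.MP_219881_nt

open Classical

private theorem ll_ev_sub_sum {n : ℕ} {ι : Type} [Fintype ι] (a : Mt n ℤ) (c : ι → Mt n ℤ)
    (m : ι → ℤ) (z : Vc n ℤ) (hc : ∀ t, ev (c t) z = 0) :
    ev (fun i j => a i j - ∑ t, m t * c t i j) z = ev a z := by
  have e : (fun i j => a i j - ∑ t, m t * c t i j) = a - ∑ t, m t • c t := by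
    funext i j
    simp only [Pi.sub_apply, Finset.sum_apply, Pi.smul_apply, smul_eq_mul]
  rw [e, ev_sub, ev_sum]
  simp only [ev_smul', hc, mul_zero, Finset.sum_const_zero, sub_zero]

private theorem ll_vanish {n : ℕ} (a : Mt n ℤ) (b : Mt n ℚ) (z : Vc n ℤ)
    (he : ((ev a z : ℤ) : ℚ) = ev b (cv ℚ z)) : ev (cm ℚ a - b) (cv ℚ z) = 0 := by
  rw [ev_sub, ev_cm, he, sub_self]

theorem LL1 {n : ℕ} (H : ℕ) (o : Fin (n + 1)) (x : Vc n ℤ) (hxo : x o ≠ 0) (hx : HGood H x)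
    (a : Mt n ℤ) (b : Mt n ℚ) (β : ℚ) (hb : ∀ i j, |b i j| ≤ β)
    (he : ((ev a x : ℤ) : ℚ) = ev b (cv ℚ x)) :
    ∃ a' : Mt n ℤ, ev a' x = ev a x ∧ ∀ i j, |(a' i j : ℚ)| ≤ β + 2 * n * (n + 1) * H := by
  obtain ⟨c, hc1, hc2, hc3⟩ := span1 H o x hxo hx
  obtain ⟨r, hr⟩ := hc3 (cm ℚ a - b) (ll_vanish a b x he)
  obtain ⟨m, hm⟩ := roundLem H a b β hb c hc2 r (fun i j => by
    have := hr i j
    simpa [cm] using this)
  refine ⟨fun i j => a i j - ∑ t, m t * c t i j, ll_ev_sub_sum a c m x hc1, fun i j => ?_⟩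
  have h1 := hm i j
  have h2 : (Fintype.card (Fin 2 × Fin n × Fin (n + 1)) : ℚ) = 2 * n * (n + 1) := by
    simp only [Fintype.card_prod, Fintype.card_fin]
    push_cast
    ring
  rw [h2] at h1
  exact h1

theorem LL2 {n : ℕ} (H : ℕ) (o : Fin (n + 1)) (x y : Vc n ℤ) (hxy : ∃ j, mn x y o j ≠ 0)
    (hx : HGood H x) (hy : HGood H y) (a : Mt n ℤ) (b : Mt n ℚ) (β : ℚ)
    (hb : ∀ i j, |b i j| ≤ β) (he : ((ev a x : ℤ) : ℚ) = ev b (cv ℚ x))
    (he' : ((ev a y : ℤ) : ℚ) = ev b (cv ℚ y)) :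
    ∃ a' : Mt n ℤ, ev a' x = ev a x ∧ ev a' y = ev a y ∧
      ∀ i j, |(a' i j : ℚ)| ≤ β + 2 * (n : ℚ) ^ 2 * (H : ℚ) ^ 2 := by
  obtain ⟨c, hc1, hc1', hc2, hc3⟩ := span2 H o x y hxy hx hy
  obtain ⟨r, hr⟩ := hc3 (cm ℚ a - b) (ll_vanish a b x he) (ll_vanish a b y he')
  obtain ⟨m, hm⟩ := roundLem (H ^ 2) a b β hb c (fun t i j => by
    have := hc2 t i j
    push_cast
    exact this) r (fun i j => by
    have := hr i j
    simpa [cm] using this)
  refine ⟨fun i j => a i j - ∑ t, m t * c t i j, ll_ev_sub_sum a c m x hc1,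
    ll_ev_sub_sum a c m y hc1', fun i j => ?_⟩
  have h1 := hm i j
  have h2 : (Fintype.card (Fin 2 × Fin n × Fin n) : ℚ) = 2 * (n : ℚ) ^ 2 := by
    simp only [Fintype.card_prod, Fintype.card_fin]
    push_cast
    ring
  rw [h2] at h1
  have h3 : ((H ^ 2 : ℕ) : ℚ) = (H : ℚ) ^ 2 := by push_cast; rfl
  rw [h3] at h1
  exact h1

end Pool.Agent.Lib.MP_219881_nt
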