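import Pool.Agent.Lib.MP_219881_nt.LL
import Pool.Agent.Lib.MP_219881_nt.GGfacts

/-!
JOB Pre.  Short integer matrices with given values at test points, explicit bounds.
(Cubic version with proof: /team-store/MP_1ad228_ntC_Pre.lean; adapt it.)

PROOF.  `pre1`: `LL1`, `b = (ev a x / x_o^2) e_o⊗e_o` (entry `(o,o)` only): `ev b x = ev a x`;
`1/x_o ≤ q/B`.
`pre2`: let `j` be as in `exists_Del` (`Del_pos`), `Δ = mn x y o j`, `m = ev a x`, `m' = ev a y`,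
`s = m - m' x_o^2 / y_o^2`. `b = (m'/y_o^2) e_o⊗e_o + (s/(Δ x_o)) (y_j e_o - y_o e_j)⊗e_o`
(rational matrix: entry `(o,o)` is `m'/y_o^2 + s y_j/(Δ x_o)`, entry `(j,o)` is `-s y_o/(Δ x_o)`,
all others 0; or use `ten` and `ev_add`, `ev_ten`). The linear form `(y_j e_o - y_o e_j)` has value `Δ`
at `x` and 0 at `y`. So `ev b y = m'`, `ev b x = m' x_o^2/y_o^2 + s = m`. Entries:
`|m'|/y_o^2 ≤ |m'| q^2/B^2` and `|s| max(|y_j|,|y_o|)/(|Δ| x_o) ≤ |s| B/(Del * (B/q)) = |s| q/Del`.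
Then `LL2`. The statements are over ℝ: take `β` rational (all quantities are rational) and cast at the end.
-/

namespace Pool.Agent.Lib.MP_219881_nt

open Classical

/-- the matrix with the single entry `c` at `(o, o)` -/
private theorem Pre_single {n : ℕ} {R : Type*} [CommRing R] (o : Fin (n + 1)) (c : R) (x : Vc n R) :
    ev (c • ten (Pi.single o 1) (Pi.single o 1) : Mt n R) x = c * x o ^ 2 := by
  rw [ev_smul', ev_ten, lin_single]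
  ring

private theorem Pre_sg {n : ℕ} (o i : Fin (n + 1)) : |(Pi.single o 1 : Vc n ℚ) i| ≤ 1 := by
  by_cases h : i = o
  · subst h
    rw [Pi.single_eq_same, abs_one]
  · rw [Pi.single_eq_of_ne h, abs_zero]
    exact zero_le_one

private theorem Pre_single_le {n : ℕ} (o : Fin (n + 1)) (c β : ℚ) (hc : |c| ≤ β)
    (i j : Fin (n + 1)) :
    |(c • ten (Pi.single o 1) (Pi.single o 1) : Mt n ℚ) i j| ≤ β := by
  have hβ : 0 ≤ β := (abs_nonneg c).trans hc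
  show |c * ((Pi.single o 1 : Vc n ℚ) i * (Pi.single o 1 : Vc n ℚ) j)| ≤ β
  have h2 : |(Pi.single o 1 : Vc n ℚ) i * (Pi.single o 1 : Vc n ℚ) j| ≤ 1 := by
    rw [abs_mul]
    exact mul_le_one₀ (Pre_sg o i) (abs_nonneg _) (Pre_sg o j)
  rw [abs_mul]
  calc |c| * _ ≤ β * 1 := mul_le_mul hc h2 (abs_nonneg _) hβ
    _ = β := mul_one β

private theorem Pre_inv {n B H q : ℕ} {o : Fin (n + 1)} (hB : 1 ≤ B) {x : Vc n ℤ}
    (hx : x ∈ GG B H q o) :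
    0 < (x o : ℚ) ∧ 0 < (B : ℚ) ∧ 1 / (x o : ℚ) ≤ (q : ℚ) / (B : ℚ) := by
  have h0 : 0 < (x o : ℚ) := by exact_mod_cast GG_pos hB hx
  have hg0 : (0 : ℚ) < B := by exact_mod_cast hB
  refine ⟨h0, hg0, ?_⟩
  rw [div_le_div_iff₀ h0 hg0, one_mul]
  exact_mod_cast GG_pivot hx

private theorem Pre_inv2 {n B H q : ℕ} {o : Fin (n + 1)} (hB : 1 ≤ B) {x : Vc n ℤ}
    (hx : x ∈ GG B H q o) (m : ℚ) :
    |m / (x o : ℚ) ^ 2| ≤ |m| * (q : ℚ) ^ 2 / (B : ℚ) ^ 2 := by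
  obtain ⟨h0, hg0, h1⟩ := Pre_inv hB hx
  have h2 : |m / (x o : ℚ) ^ 2| = |m| * (1 / (x o : ℚ)) ^ 2 := by
    rw [abs_div, abs_of_pos (pow_pos h0 2)]
    field_simp
  rw [h2]
  calc |m| * (1 / (x o : ℚ)) ^ 2 ≤ |m| * ((q : ℚ) / (B : ℚ)) ^ 2 := by
        gcongr
    _ = |m| * (q : ℚ) ^ 2 / (B : ℚ) ^ 2 := by
        rw [div_pow, mul_div_assoc]

theorem pre1 {n : ℕ} (B H q : ℕ) (o : Fin (n + 1)) (hB : 1 ≤ B) (hq : 1 ≤ q) (x : Vc n ℤ)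
    (hx : x ∈ GG B H q o) (a : Mt n ℤ) :
    ∃ a' : Mt n ℤ, ev a' x = ev a x ∧ ∀ i j,
      |(a' i j : ℝ)| ≤ |((ev a x : ℤ) : ℝ)| * (q : ℝ) ^ 2 / (B : ℝ) ^ 2
        + 2 * n * (n + 1) * (H : ℝ) := by
  obtain ⟨h0, hg0, h1⟩ := Pre_inv hB hx
  obtain ⟨c, hc⟩ : ∃ c : ℚ, c = ((ev a x : ℤ) : ℚ) / (x o : ℚ) ^ 2 := ⟨_, rfl⟩
  have hcb : |c| ≤ |((ev a x : ℤ) : ℚ)| * (q : ℚ) ^ 2 / (B : ℚ) ^ 2 := by
    rw [hc]
    exact Pre_inv2 hB hx _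
  obtain ⟨a', ha1, ha2⟩ := LL1 H o x (GG_pos hB hx).ne' (GG_good hx) a
    (c • ten (Pi.single o 1) (Pi.single o 1)) _ (Pre_single_le o c _ hcb)
    (by
      rw [Pre_single, hc]
      show _ = _ * (x o : ℚ) ^ 2
      field_simp)
  refine ⟨a', ha1, fun i j => ?_⟩
  have h3 := ha2 i j
  have h4 : ((|(a' i j : ℚ)| : ℚ) : ℝ) ≤ ((|((ev a x : ℤ) : ℚ)| * (q : ℚ) ^ 2 / (B : ℚ) ^ 2 +
      2 * n * (n + 1) * (H : ℚ) : ℚ) : ℝ) := by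
    exact_mod_cast h3
  push_cast at h4
  exact h4

theorem pre2 {n : ℕ} (B H q : ℕ) (o : Fin (n + 1)) (hB : 1 ≤ B) (hq : 1 ≤ q) (x y : Vc n ℤ)
    (hx : x ∈ GG B H q o) (hy : y ∈ GG B H q o) (hxy : x ≠ y) (a : Mt n ℤ) :
    ∃ a' : Mt n ℤ, ev a' x = ev a x ∧ ev a' y = ev a y ∧ ∀ i j,
      |(a' i j : ℝ)| ≤ |((ev a y : ℤ) : ℝ)| * (q : ℝ) ^ 2 / (B : ℝ) ^ 2
        + |((ev a x : ℤ) : ℝ) - ((ev a y : ℤ) : ℝ) * (x o : ℝ) ^ 2 / (y o : ℝ) ^ 2| * (q : ℝ) /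
            (Del o x y : ℝ)
        + 2 * (n : ℝ) ^ 2 * (H : ℝ) ^ 2 := by
  obtain ⟨hx0, hg0, hx1⟩ := Pre_inv hB hx
  obtain ⟨hy0, -, hy1⟩ := Pre_inv hB hy
  have hDp := Del_pos hB hx hy hxy
  obtain ⟨j, hj1, hjne, hjD⟩ := exists_Del o x y hDp
  obtain ⟨m, hm⟩ : ∃ m : ℚ, m = ((ev a x : ℤ) : ℚ) := ⟨_, rfl⟩
  obtain ⟨m', hm'⟩ : ∃ m' : ℚ, m' = ((ev a y : ℤ) : ℚ) := ⟨_, rfl⟩
  obtain ⟨Δ, hΔ⟩ : ∃ Δ : ℚ, Δ = ((mn x y o j : ℤ) : ℚ) := ⟨_, rfl⟩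
  have hΔ0 : Δ ≠ 0 := by
    rw [hΔ]
    exact_mod_cast hjne
  have hΔe : Δ = (x o : ℚ) * (y j : ℚ) - (x j : ℚ) * (y o : ℚ) := by
    rw [hΔ, mn]
    push_cast
    rfl
  have hΔa : |Δ| = (Del o x y : ℚ) := by
    rw [hΔ]
    exact_mod_cast congrArg (fun z : ℤ => (z : ℚ)) hjD
  have hD0 : (0 : ℚ) < (Del o x y : ℚ) := by exact_mod_cast hDp
  obtain ⟨s, hs⟩ : ∃ s : ℚ, s = m - m' * (x o : ℚ) ^ 2 / (y o : ℚ) ^ 2 := ⟨_, rfl⟩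
  obtain ⟨c, hc⟩ : ∃ c : ℚ, c = m' / (y o : ℚ) ^ 2 := ⟨_, rfl⟩
  obtain ⟨e, he⟩ : ∃ e : ℚ, e = s / (Δ * (x o : ℚ)) := ⟨_, rfl⟩
  have hcb : |c| ≤ |m'| * (q : ℚ) ^ 2 / (B : ℚ) ^ 2 := by
    rw [hc]
    exact Pre_inv2 hB hy _
  -- the linear form
  obtain ⟨u, hu⟩ : ∃ u : Vc n ℚ, u = (y j : ℚ) • (Pi.single o 1 : Vc n ℚ) -
      (y o : ℚ) • (Pi.single j 1 : Vc n ℚ) := ⟨_, rfl⟩
  have hux : lin u (cv ℚ x) = Δ := by
    rw [hu, lin_sub, lin_smul, lin_smul, lin_single, lin_single, hΔe]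
    show (y j : ℚ) * (x o : ℚ) - (y o : ℚ) * (x j : ℚ) = _
    ring
  have huy : lin u (cv ℚ y) = 0 := by
    rw [hu, lin_sub, lin_smul, lin_smul, lin_single, lin_single]
    show (y j : ℚ) * (y o : ℚ) - (y o : ℚ) * (y j : ℚ) = _
    ring
  have hub : ∀ i, |u i| ≤ (B : ℚ) := by
    intro i
    have hyj : |(y j : ℚ)| ≤ (B : ℚ) := by exact_mod_cast GG_le hy j
    have hy1' : |(y o : ℚ)| ≤ (B : ℚ) := by exact_mod_cast GG_le hy o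
    rw [hu]
    show |(y j : ℚ) * (Pi.single o 1 : Vc n ℚ) i - (y o : ℚ) * (Pi.single j 1 : Vc n ℚ) i| ≤ _
    by_cases h1 : i = o
    · subst h1
      rw [Pi.single_eq_same, Pi.single_eq_of_ne hj1.symm, mul_one, mul_zero, sub_zero]
      exact hyj
    · rw [Pi.single_eq_of_ne h1, mul_zero, zero_sub, abs_neg]
      by_cases h2 : i = j
      · subst h2
        rw [Pi.single_eq_same, mul_one]
        exact hy1'
      · rw [Pi.single_eq_of_ne h2, mul_zero, abs_zero]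
        exact hg0.le
  have heb : |e| * (B : ℚ) ≤ |s| * (q : ℚ) / (Del o x y : ℚ) := by
    have h2 : |e| = |s| / (Del o x y : ℚ) * (1 / (x o : ℚ)) := by
      rw [he, abs_div, abs_mul, hΔa, abs_of_pos hx0]
      field_simp
    rw [h2]
    calc |s| / (Del o x y : ℚ) * (1 / (x o : ℚ)) * (B : ℚ)
        ≤ |s| / (Del o x y : ℚ) * ((q : ℚ) / (B : ℚ)) * (B : ℚ) := by
          gcongr
      _ = |s| * (q : ℚ) / (Del o x y : ℚ) := by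
          field_simp
  obtain ⟨b, hb⟩ : ∃ b : Mt n ℚ, b = c • ten (Pi.single o 1) (Pi.single o 1) +
      e • ten u (Pi.single o 1) := ⟨_, rfl⟩
  have hbx : ev b (cv ℚ x) = m := by
    rw [hb, ev_add, Pre_single, ev_smul', ev_ten, lin_single, hux]
    show c * (x o : ℚ) ^ 2 + e * (Δ * (x o : ℚ)) = m
    rw [he, hc, hs]
    field_simp
    ring
  have hby : ev b (cv ℚ y) = m' := by
    rw [hb, ev_add, Pre_single, ev_smul', ev_ten, huy]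
    show c * (y o : ℚ) ^ 2 + e * (0 * _) = m'
    rw [hc]
    field_simp
    ring
  have hbb : ∀ i k, |b i k| ≤ |m'| * (q : ℚ) ^ 2 / (B : ℚ) ^ 2 +
      |s| * (q : ℚ) / (Del o x y : ℚ) := by
    intro i k
    have h1 := Pre_single_le o c _ hcb i k
    have h2 : |(e • ten u (Pi.single o 1) : Mt n ℚ) i k| ≤
        |s| * (q : ℚ) / (Del o x y : ℚ) := by
      show |e * (u i * (Pi.single o 1 : Vc n ℚ) k)| ≤ _
      rw [abs_mul, abs_mul]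
      refine le_trans ?_ heb
      refine mul_le_mul_of_nonneg_left ?_ (abs_nonneg _)
      calc |u i| * |(Pi.single o 1 : Vc n ℚ) k|
          ≤ (B : ℚ) * 1 := mul_le_mul (hub i) (Pre_sg o k) (abs_nonneg _) hg0.le
        _ = _ := by ring
    rw [hb]
    exact (abs_add_le _ _).trans (add_le_add h1 h2)
  obtain ⟨a', ha1, ha2, ha3⟩ := LL2 H o x y ⟨j, hjne⟩ (GG_good hx) (GG_good hy) a b _ hbb
    (by rw [hbx, hm]) (by rw [hby, hm'])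
  refine ⟨a', ha1, ha2, fun i k => ?_⟩
  have h3 := ha3 i k
  rw [hs, hm, hm'] at h3
  have h4 : ((|(a' i k : ℚ)| : ℚ) : ℝ) ≤ ((|((ev a y : ℤ) : ℚ)| * (q : ℚ) ^ 2 / (B : ℚ) ^ 2 +
      |((ev a x : ℤ) : ℚ) - ((ev a y : ℤ) : ℚ) * (x o : ℚ) ^ 2 / (y o : ℚ) ^ 2| * (q : ℚ) /
        (Del o x y : ℚ) + 2 * (n : ℚ) ^ 2 * (H : ℚ) ^ 2 : ℚ) : ℝ) := by
    exact_mod_cast h3
  push_cast at h4
  exact h4

end Pool.Agent.Lib.MP_219881_nt
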