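import Pool.Agent.Lib.MP_219881_nt.Basic

/-! Definitions for the real place (paper section 9). -/

namespace Pool.Agent.Lib.MP_219881_nt

open Classical

/-- Triples of indices. -/
abbrev Tr (n : ℕ) := Fin (n + 1) × Fin (n + 1) × Fin (n + 1)

/-- The sorted version of a triple. -/
def srt {n : ℕ} (t : Tr n) : Tr n :=
  (min (min t.1 t.2.1) t.2.2,
    max (min t.1 t.2.1) (min (max t.1 t.2.1) t.2.2),
    max (max t.1 t.2.1) t.2.2)

/-- The matrix of cubic relations of a pair of matrices (rows: `v_t = v_(srt t)` for unsorted `t`;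
`x_i F_a` for `t = (i,i,i)`; `x_j` times the Jacobian minor `(i,k)` for sorted `t = (i,j,k)`, `i < k`). -/
noncomputable def Mm {n : ℕ} {R : Type*} [CommRing R] (a b : Mt n R) : Matrix (Tr n) (Tr n) R :=
  fun t s =>
    if srt t ≠ t then (if s = t then 1 else 0) - (if s = srt t then 1 else 0)
    else if t.1 = t.2.2 then (if s.1 = t.1 then a s.2.1 s.2.2 else 0)
    else (if s.1 = t.2.1 then
      (a t.1 s.2.1 + a s.2.1 t.1) * (b t.2.2 s.2.2 + b s.2.2 t.2.2)
        - (a t.2.2 s.2.1 + a s.2.1 t.2.2) * (b t.1 s.2.2 + b s.2.2 t.1) else 0)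

/-- The determinant of the matrix of cubic relations. -/
noncomputable def Phi {n : ℕ} {R : Type*} [CommRing R] (a b : Mt n R) : R := (Mm a b).det

/-- Index set of the entries of a pair of matrices. -/
abbrev Kp (n : ℕ) := Bool × Fin (n + 1) × Fin (n + 1)

/-- First matrix of the pair with entries `ω`. -/
def pa {n : ℕ} {R : Type*} (ω : Kp n → R) : Mt n R := fun i j => ω (false, i, j)

/-- Second matrix of the pair with entries `ω`. -/
def pb {n : ℕ} {R : Type*} (ω : Kp n → R) : Mt n R := fun i j => ω (true, i, j)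

/-- The identity matrix. -/
def m0 {n : ℕ} (R : Type*) [CommRing R] : Mt n R := fun i j => if i = j then 1 else 0

/-- The diagonal matrix with entries `0, 1, ..., n`. -/
def m1 {n : ℕ} (R : Type*) [CommRing R] : Mt n R := fun i j => if i = j then ((i : ℕ) : R) else 0

end Pool.Agent.Lib.MP_219881_nt
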