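import Pool.Agent.Lib.MP_219881_nt.RP_Phi

/-!
JOB RP_Null.  The zero set of `Phi` is a closed null set (paper section 9 (b)).

`closed`: `ω ↦ Phi (pa ω) (pb ω)` is continuous: `Continuous.matrix_det`, `continuous_matrix`/`continuous_pi`, the entries of `Mm` are
continuous in `ω` (`split_ifs`, `fun_prop`; the conditions of the `if`s do not depend on `ω`).

`null`: use `MeasureTheory.ae_mem_of_ae_add_linearMap_mem L volume volume` (Mathlib.MeasureTheory.Measure.Haar.Disintegration, used in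
Mathlib.Analysis.Calculus.Rademacher `ae_lineDifferentiableAt`) with `L : ℝ →ₗ[ℝ] (Kp n → ℝ)`, `L t = t • v`, where `v` is the vector with
`pa v = m0 ℝ`, `pb v = m1 ℝ`, and the measurable set `s = {ω | Phi (pa ω) (pb ω) ≠ 0}` (open).
It is enough that for every `ω` the set `T = {t : ℝ | Phi (pa (ω + t • v)) (pb (ω + t • v)) = 0}` is finite (finite sets have measure 0).
Let `P = Phi (fun i j => X * C (pa ω i j) + C (m0 ℝ i j)) (fun i j => X * C (pb ω i j) + C (m1 ℝ i j)) : Polynomial ℝ`. By `Phi_map` with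
`Polynomial.evalRingHom s` its value at `s` is `Phi (s * pa ω + m0) (s * pb ω + m1)`; at `s = 0` it is `Phi m0 m1 ≠ 0` (`Phi_base`), so `P ≠ 0` and
`P` has finitely many roots. For `t ≠ 0`: `pa (ω + t • v) = t * (t⁻¹ * pa ω + m0)`, so by `Phi_smul` `t ∈ T` iff `P` vanishes at `t⁻¹`. So
`T ⊆ {0} ∪ (fun s => s⁻¹) '' {roots of P}`.
-/

namespace Pool.Agent.Lib.MP_219881_nt

open Classical

private theorem RP_Null_cont (n : ℕ) : Continuous fun ω : Kp n → ℝ => Phi (pa ω) (pb ω) := by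
  unfold Phi
  refine Continuous.matrix_det ?_
  refine continuous_matrix fun t s => ?_
  unfold Mm pa pb
  split_ifs <;> fun_prop

theorem closedZ (n : ℕ) : IsClosed {ω : Kp n → ℝ | Phi (pa ω) (pb ω) = 0} :=
  isClosed_eq (RP_Null_cont n) continuous_const

private theorem RP_Null_fin {n : ℕ} (ω v : Kp n → ℝ) (hva : ∀ i j, pa v i j = m0 ℝ i j)
    (hvb : ∀ i j, pb v i j = m1 ℝ i j) :
    {t : ℝ | Phi (pa (ω + t • v)) (pb (ω + t • v)) = 0}.Finite := by
  let P : Polynomial ℝ :=
    Phi (fun i j => Polynomial.X * Polynomial.C (pa ω i j) + Polynomial.C (m0 ℝ i j))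
      (fun i j => Polynomial.X * Polynomial.C (pb ω i j) + Polynomial.C (m1 ℝ i j))
  have heval : ∀ s : ℝ, P.eval s = Phi (fun i j => s * pa ω i j + m0 ℝ i j)
      (fun i j => s * pb ω i j + m1 ℝ i j) := by
    intro s
    have h1 := Phi_map (Polynomial.evalRingHom s)
      (fun i j => Polynomial.X * Polynomial.C (pa ω i j) + Polynomial.C (m0 ℝ i j))
      (fun i j => Polynomial.X * Polynomial.C (pb ω i j) + Polynomial.C (m1 ℝ i j))
    simp only [Polynomial.coe_evalRingHom, Polynomial.eval_add, Polynomial.eval_mul,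
      Polynomial.eval_X, Polynomial.eval_C] at h1
    exact h1.symm
  have hP : P ≠ 0 := by
    intro h0
    have h1 := heval 0
    rw [h0, Polynomial.eval_zero] at h1
    simp only [zero_mul, zero_add] at h1
    exact Phi_base n ℝ h1.symm
  refine ((Set.finite_singleton (0 : ℝ)).union
    ((Polynomial.finite_setOfPred_isRoot hP).image fun s => s⁻¹)).subset fun t ht => ?_
  by_cases h0 : t = 0
  · exact Or.inl h0
  · refine Or.inr ⟨t⁻¹, ?_, inv_inv t⟩
    have h1 : Phi (pa (ω + t • v)) (pb (ω + t • v)) = 0 := ht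
    have h2 : pa (ω + t • v) = fun i j => t * (t⁻¹ * pa ω i j + m0 ℝ i j) := by
      funext i j
      rw [← hva i j, mul_add, mul_inv_cancel_left₀ h0]
      rfl
    have h3 : pb (ω + t • v) = fun i j => t * (t⁻¹ * pb ω i j + m1 ℝ i j) := by
      funext i j
      rw [← hvb i j, mul_add, mul_inv_cancel_left₀ h0]
      rfl
    rw [h2, h3, Phi_smul t h0 (fun i j => t⁻¹ * pa ω i j + m0 ℝ i j)
      (fun i j => t⁻¹ * pb ω i j + m1 ℝ i j)] at h1
    show P.eval t⁻¹ = 0
    rw [heval]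
    exact h1

theorem nullZ (n : ℕ) :
    MeasureTheory.volume {ω : Kp n → ℝ | Phi (pa ω) (pb ω) = 0} = 0 := by
  let v : Kp n → ℝ := fun s => if s.1 = true then m1 ℝ s.2.1 s.2.2 else m0 ℝ s.2.1 s.2.2
  have hva : ∀ i j, pa v i j = m0 ℝ i j := fun i j => by simp [pa, v]
  have hvb : ∀ i j, pb v i j = m1 ℝ i j := fun i j => by simp [pb, v]
  have hm : MeasurableSet {ω : Kp n → ℝ | ¬ Phi (pa ω) (pb ω) = 0} :=
    (closedZ n).isOpen_compl.measurableSet
  have h := MeasureTheory.ae_mem_of_ae_add_linearMap_mem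
    (LinearMap.toSpanSingleton ℝ (Kp n → ℝ) v) (MeasureTheory.volume : MeasureTheory.Measure ℝ)
    (MeasureTheory.volume : MeasureTheory.Measure (Kp n → ℝ)) hm (by
      intro ω
      rw [MeasureTheory.ae_iff]
      have h1 : {t : ℝ | ¬ (ω + (LinearMap.toSpanSingleton ℝ (Kp n → ℝ) v) t ∈
          {ω : Kp n → ℝ | ¬ Phi (pa ω) (pb ω) = 0})} ⊆
          {t : ℝ | Phi (pa (ω + t • v)) (pb (ω + t • v)) = 0} := by
        intro t ht
        exact not_not.1 ht
      exact MeasureTheory.measure_mono_null h1 ((RP_Null_fin ω v hva hvb).measure_zero _))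
  rw [MeasureTheory.ae_iff] at h
  have h2 : {ω : Kp n → ℝ | Phi (pa ω) (pb ω) = 0} ⊆
      {a : Kp n → ℝ | ¬ a ∈ {ω : Kp n → ℝ | ¬ Phi (pa ω) (pb ω) = 0}} := by
    intro ω hω
    exact not_not.2 hω
  exact MeasureTheory.measure_mono_null h2 h

end Pool.Agent.Lib.MP_219881_nt
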