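import Pool.Agent.Lib.MP_219881_nt.RP_Defs

/-!
JOB RP_Phi.  The determinant `Phi` (paper section 9 (a)).

`Phi_map`: `Matrix.det` commutes with ring homomorphisms (`RingHom.map_det`); the entries of `Mm` are
built from those of `a, b` by `0, 1, +, -, *` and `if`: `(Mm a b).map f = Mm (f ∘ a) (f ∘ b)`
(`Matrix.ext`, `apply_ite`, `map_sub`, ... or `split_ifs <;> simp`).

`Phi_sing`: let `v t = x t.1 * x t.2.1 * x t.2.2` (`v ≠ 0` because `x i ≠ 0` gives `v (i,i,i) = x_i^3 ≠ 0`).
Then `(Mm a b).mulVec v = 0`: row `t` unsorted: `v t - v (srt t) = 0`, because `srt t` is a permutation of `t`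
(the product of the three numbers is symmetric; case split with `le_total` on the three pairs, then
`min_eq_left`.. and `ring`). Row `t = (i,j,k)` sorted with `i = k`: `∑_s [s.1 = i] a s.2.1 s.2.2 x_(s.1) x_(s.2.1) x_(s.2.2)
= x_i * ev a x = 0` (`Fintype.sum_prod_type`). Row `t = (i,j,k)`, `i ≠ k`: the sum over `s = (j,l,l')` is
`x_j * ((∑_l (a i l + a l i) x_l) * (∑_l' (b k l' + b l' k) x_l') - (∑_l (a k l + a l k) x_l) (∑_l' (b i l' + b l' i) x_l'))
= x_j * (dev a x i * dev b x k - dev a x k * dev b x i) = 0`.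
Conclude with `Matrix.exists_mulVec_eq_zero_iff` (a field is a domain).

`Phi_base`: if the determinant vanishes there is `v ≠ 0` with `(Mm m0 m1).mulVec v = 0`
(`Matrix.exists_mulVec_eq_zero_iff`). The unsorted rows give `v t = v (srt t)`, so `v` is symmetric: `v (j,i,k) =
v (i,j,k)` etc. (all have the same `srt`; also for sorted `t` trivially `v t = v (srt t)`).
Sorted `t = (i,j,k)` with `i ≠ k` (so `i < k`): the row is `∑_s`, only `s = (j,i,k)` and `s = (j,k,i)` contribute:
`(m0 i l + m0 l i) = 2 [l = i]`, `(m1 k l' + m1 l' k) = 2 k [l' = k]`: value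
`4 k v (j,i,k) - 4 i v (j,k,i) = 4 (k - i) v (i,j,k)`, so `v (i,j,k) = 0` (characteristic zero, `k ≠ i` as natural numbers).
Sorted `t = (i,i,i)`: `∑_l v (i,l,l) = 0`, and for `l ≠ i` the triple `(i,l,l)` has `srt` with distinct first and last
entry, so `v (i,l,l) = v (srt (i,l,l)) = 0` by the previous case; hence `v (i,i,i) = 0`. So `v = 0`, contradiction.

`Phi_smul`: `t ≠ 0`. `Phi (t a) (t b) = 0` iff there is `v ≠ 0` in the kernel of `Mm (t a) (t b)`; each row of
`Mm (t a) (t b)` is `1`, `t` or `t^2` times the row of `Mm a b`, so the kernels are equal.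
-/

namespace Pool.Agent.Lib.MP_219881_nt

open Classical

private theorem RP_Phi_row {n : ℕ} {R : Type*} [CommRing R] (a b : Mt n R) (v : Tr n → R)
    (i j k : Fin (n + 1)) : (Mm a b).mulVec v (i, j, k) =
      if srt (i, j, k) ≠ (i, j, k) then v (i, j, k) - v (srt (i, j, k))
      else if i = k then ∑ l, ∑ l', a l l' * v (i, l, l')
      else ∑ l, ∑ l', ((a i l + a l i) * (b k l' + b l' k) -
        (a k l + a l k) * (b i l' + b l' i)) * v (j, l, l') := by
  unfold Mm Matrix.mulVec dotProduct
  by_cases h : srt (i, j, k) ≠ (i, j, k)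
  · simp only [if_pos h, sub_mul, Finset.sum_sub_distrib, ite_mul, one_mul, zero_mul,
      Finset.sum_ite_eq', Finset.mem_univ, if_true]
  · simp only [if_neg h]
    by_cases h2 : i = k
    · simp only [if_pos h2, Fintype.sum_prod_type, ite_mul, zero_mul]
      rw [Finset.sum_eq_single i]
      · simp only [if_true]
      · intro l _ hl
        simp only [if_neg hl, Finset.sum_const_zero]
      · intro hi
        exact absurd (Finset.mem_univ i) hi
    · simp only [if_neg h2, Fintype.sum_prod_type, ite_mul, zero_mul]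
      rw [Finset.sum_eq_single j]
      · simp only [if_true]
      · intro l _ hl
        simp only [if_neg hl, Finset.sum_const_zero]
      · intro hi
        exact absurd (Finset.mem_univ j) hi

private theorem RP_Phi_cases {n : ℕ} (a b c : Fin (n + 1)) :
    (srt (a, b, c) = (a, b, c) ∧ a ≤ b ∧ b ≤ c) ∨ (srt (a, b, c) = (a, c, b) ∧ a ≤ c ∧ c ≤ b) ∨
    (srt (a, b, c) = (c, a, b) ∧ c ≤ a ∧ a ≤ b) ∨ (srt (a, b, c) = (b, a, c) ∧ b ≤ a ∧ a ≤ c) ∨
    (srt (a, b, c) = (b, c, a) ∧ b ≤ c ∧ c ≤ a) ∨ (srt (a, b, c) = (c, b, a) ∧ c ≤ b ∧ b ≤ a) := by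
  rcases le_total a b with h1 | h1
  · rcases le_total b c with h2 | h2
    · left
      refine ⟨?_, h1, h2⟩
      simp only [srt, min_eq_left h1, max_eq_right h1, min_eq_left (h1.trans h2), min_eq_left h2,
        max_eq_right h2]
    · rcases le_total a c with h3 | h3
      · right; left
        refine ⟨?_, h3, h2⟩
        simp only [srt, min_eq_left h1, max_eq_right h1, min_eq_left h3, min_eq_right h2,
          max_eq_left h2, max_eq_right h3]
      · right; right; left
        refine ⟨?_, h3, h1⟩
        simp only [srt, min_eq_left h1, max_eq_right h1, min_eq_right h3, min_eq_right h2,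
          max_eq_left h2, max_eq_left h3]
  · rcases le_total b c with h2 | h2
    · rcases le_total a c with h3 | h3
      · right; right; right; left
        refine ⟨?_, h1, h3⟩
        simp only [srt, min_eq_right h1, max_eq_left h1, min_eq_left h2, min_eq_left h3,
          max_eq_right h1, max_eq_right h3]
      · right; right; right; right; left
        refine ⟨?_, h2, h3⟩
        simp only [srt, min_eq_right h1, max_eq_left h1, min_eq_left h2, min_eq_right h3,
          max_eq_right h2, max_eq_left h3]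
    · right; right; right; right; right
      refine ⟨?_, h2, h1⟩
      simp only [srt, min_eq_right h1, max_eq_left h1, min_eq_right h2, min_eq_right (h2.trans h1),
        max_eq_left h2, max_eq_left (h2.trans h1)]

private theorem RP_Phi_sorted {n : ℕ} {a b c : Fin (n + 1)} (h1 : a ≤ b) (h2 : b ≤ c) :
    srt (a, b, c) = (a, b, c) := by
  simp only [srt, min_eq_left h1, max_eq_right h1, min_eq_left (h1.trans h2), min_eq_left h2,
    max_eq_right h2]

private theorem RP_Phi_jik {n : ℕ} {i j k : Fin (n + 1)} (h1 : i ≤ j) (h2 : j ≤ k) :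
    srt (j, i, k) = (i, j, k) := by
  simp only [srt, min_eq_right h1, max_eq_left h1, min_eq_left (h1.trans h2), min_eq_left h2,
    max_eq_right h1, max_eq_right h2]

private theorem RP_Phi_jki {n : ℕ} {i j k : Fin (n + 1)} (h1 : i ≤ j) (h2 : j ≤ k) :
    srt (j, k, i) = (i, j, k) := by
  simp only [srt, min_eq_left h2, max_eq_right h2, min_eq_right h1, min_eq_right (h1.trans h2),
    max_eq_left h1, max_eq_left (h1.trans h2)]

private theorem RP_Phi_srt {n : ℕ} (t : Tr n) :
    ∃ a b c : Fin (n + 1), srt t = (a, b, c) ∧ a ≤ b ∧ b ≤ c := by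
  obtain ⟨a, b, c⟩ := t
  rcases RP_Phi_cases a b c with h | h | h | h | h | h
  · exact ⟨_, _, _, h.1, h.2.1, h.2.2⟩
  · exact ⟨_, _, _, h.1, h.2.1, h.2.2⟩
  · exact ⟨_, _, _, h.1, h.2.1, h.2.2⟩
  · exact ⟨_, _, _, h.1, h.2.1, h.2.2⟩
  · exact ⟨_, _, _, h.1, h.2.1, h.2.2⟩
  · exact ⟨_, _, _, h.1, h.2.1, h.2.2⟩

private theorem RP_Phi_prod {n : ℕ} {R : Type*} [CommRing R] (x : Vc n R) (a b c : Fin (n + 1)) :
    x (srt (a, b, c)).1 * x (srt (a, b, c)).2.1 * x (srt (a, b, c)).2.2 = x a * x b * x c := by
  rcases RP_Phi_cases a b c with h | h | h | h | h | h <;> rw [h.1] <;> simp only <;> ring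

private theorem RP_Phi_dev {n : ℕ} {R : Type*} [CommRing R] (a b : Mt n R) (x : Vc n R)
    (i j k : Fin (n + 1)) :
    ∑ l, ∑ l', ((a i l + a l i) * (b k l' + b l' k) -
        (a k l + a l k) * (b i l' + b l' i)) * (x j * x l * x l') =
      x j * (dev a x i * dev b x k - dev a x k * dev b x i) := by
  unfold dev
  rw [Finset.sum_mul_sum, Finset.sum_mul_sum, ← Finset.sum_sub_distrib, Finset.mul_sum]
  refine Finset.sum_congr rfl fun l _ => ?_
  rw [← Finset.sum_sub_distrib, Finset.mul_sum]
  refine Finset.sum_congr rfl fun l' _ => ?_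
  ring

theorem Phi_map {n : ℕ} {R S : Type*} [CommRing R] [CommRing S] (f : R →+* S) (a b : Mt n R) :
    Phi (fun i j => f (a i j)) (fun i j => f (b i j)) = f (Phi a b) := by
  unfold Phi
  rw [RingHom.map_det]
  congr 1
  ext t s
  unfold Mm
  rw [RingHom.mapMatrix_apply, Matrix.map_apply]
  split_ifs <;> simp

theorem Phi_sing {n : ℕ} {K : Type*} [Field K] (a b : Mt n K) (x : Vc n K) (hx : x ≠ 0)
    (ha : ev a x = 0) (h : ∀ i k, dev a x i * dev b x k = dev a x k * dev b x i) :
    Phi a b = 0 := by
  unfold Phi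
  refine Matrix.exists_mulVec_eq_zero_iff.1 ⟨fun t => x t.1 * x t.2.1 * x t.2.2, ?_, ?_⟩
  · obtain ⟨i, hi⟩ := Function.ne_iff.1 hx
    intro h0
    have h1 := congrFun h0 (i, i, i)
    simp only [Pi.zero_apply, mul_eq_zero] at h1
    have h2 : x i ≠ 0 := hi
    tauto
  · funext t
    obtain ⟨i, j, k⟩ := t
    rw [RP_Phi_row]
    split_ifs with h1 h2
    · show x i * x j * x k - _ = (0 : K)
      rw [RP_Phi_prod, sub_self]
    · show ∑ l, ∑ l', a l l' * (x i * x l * x l') = (0 : K)
      have h3 : ∑ l, ∑ l', a l l' * (x i * x l * x l') = x i * ev a x := by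
        unfold ev
        rw [Finset.mul_sum]
        refine Finset.sum_congr rfl fun l _ => ?_
        rw [Finset.mul_sum]
        refine Finset.sum_congr rfl fun l' _ => ?_
        ring
      rw [h3, ha, mul_zero]
    · have h3 := RP_Phi_dev a b x i j k
      rw [h i k, sub_self, mul_zero] at h3
      exact h3

theorem Phi_base (n : ℕ) (K : Type*) [Field K] [CharZero K] :
    Phi (m0 K : Mt n K) (m1 K : Mt n K) ≠ 0 := by
  unfold Phi
  intro hdet
  obtain ⟨v, hv, hM⟩ := Matrix.exists_mulVec_eq_zero_iff.2 hdet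
  have hrow : ∀ i j k, (Mm (m0 K : Mt n K) (m1 K : Mt n K)).mulVec v (i, j, k) = 0 := fun i j k =>
    congrFun hM (i, j, k)
  have hsym : ∀ t, v t = v (srt t) := by
    intro t
    obtain ⟨i, j, k⟩ := t
    by_cases h : srt (i, j, k) = (i, j, k)
    · rw [h]
    · have h1 := hrow i j k
      rw [RP_Phi_row, if_pos h] at h1
      exact sub_eq_zero.1 h1
  have hne : ∀ i j k : Fin (n + 1), i ≤ j → j ≤ k → i ≠ k → v (i, j, k) = 0 := by
    intro i j k h1 h2 h3
    have h4 := hrow i j k
    rw [RP_Phi_row, if_neg (not_not.2 (RP_Phi_sorted h1 h2)), if_neg h3] at h4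
    have h5 : ∑ l, ∑ l', (((m0 K : Mt n K) i l + (m0 K : Mt n K) l i) *
          ((m1 K : Mt n K) k l' + (m1 K : Mt n K) l' k) -
        ((m0 K : Mt n K) k l + (m0 K : Mt n K) l k) *
          ((m1 K : Mt n K) i l' + (m1 K : Mt n K) l' i)) * v (j, l, l') =
        4 * ((k : ℕ) : K) * v (j, i, k) - 4 * ((i : ℕ) : K) * v (j, k, i) := by
      have e1 : ∀ p q : Fin (n + 1), (m0 K : Mt n K) p q + (m0 K : Mt n K) q p =
          if q = p then 2 else 0 := by
        intro p q
        unfold m0
        by_cases hpq : q = p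
        · subst hpq
          rw [if_pos rfl, if_pos rfl]
          norm_num
        · rw [if_neg hpq, if_neg hpq, if_neg (Ne.symm hpq), add_zero]
      have e2 : ∀ p q : Fin (n + 1), (m1 K : Mt n K) p q + (m1 K : Mt n K) q p =
          if q = p then 2 * ((p : ℕ) : K) else 0 := by
        intro p q
        unfold m1
        by_cases hpq : q = p
        · subst hpq
          rw [if_pos rfl, if_pos rfl, two_mul]
        · rw [if_neg hpq, if_neg hpq, if_neg (Ne.symm hpq), add_zero]
      simp only [e1, e2, sub_mul, Finset.sum_sub_distrib]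
      congr 1
      · simp only [ite_mul, mul_ite, zero_mul, mul_zero, Finset.sum_ite_eq', Finset.mem_univ,
          if_true]
        ring
      · simp only [ite_mul, mul_ite, zero_mul, mul_zero, Finset.sum_ite_eq', Finset.mem_univ,
          if_true]
        ring
    rw [h5, hsym (j, i, k), hsym (j, k, i), RP_Phi_jik h1 h2, RP_Phi_jki h1 h2] at h4
    have h6 : (4 * (((k : ℕ) : K) - ((i : ℕ) : K))) * v (i, j, k) = 0 := by
      rw [← h4]
      ring
    rcases mul_eq_zero.1 h6 with h7 | h7
    · exfalso
      rcases mul_eq_zero.1 h7 with h8 | h8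
      · norm_num at h8
      · have h9 : ((k : ℕ) : K) = ((i : ℕ) : K) := sub_eq_zero.1 h8
        exact h3 (Fin.ext (Nat.cast_injective h9).symm)
    · exact h7
  have hii : ∀ i : Fin (n + 1), v (i, i, i) = 0 := by
    intro i
    have h4 := hrow i i i
    rw [RP_Phi_row, if_neg (not_not.2 (RP_Phi_sorted le_rfl le_rfl)), if_pos rfl] at h4
    have h5 : ∑ l, ∑ l', (m0 K : Mt n K) l l' * v (i, l, l') = v (i, i, i) := by
      rw [Finset.sum_eq_single i]
      · rw [Finset.sum_eq_single i]
        · unfold m0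
          rw [if_pos rfl, one_mul]
        · intro l' _ hl'
          unfold m0
          rw [if_neg (Ne.symm hl'), zero_mul]
        · intro hi
          exact absurd (Finset.mem_univ i) hi
      · intro l _ hl
        rw [Finset.sum_eq_single l]
        · have h6 : v (i, l, l) = 0 := by
            rcases le_total i l with h7 | h7
            · exact hne i l l h7 le_rfl (Ne.symm hl)
            · have h8 : srt (i, l, l) = (l, l, i) := by
                simp only [srt, min_eq_right h7, max_eq_left h7, min_self, max_self]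
              rw [hsym, h8]
              exact hne l l i le_rfl h7 hl
          rw [h6, mul_zero]
        · intro l' _ hl'
          unfold m0
          rw [if_neg (Ne.symm hl'), zero_mul]
        · intro hi
          exact absurd (Finset.mem_univ l) hi
      · intro hi
        exact absurd (Finset.mem_univ i) hi
    rw [← h5]
    exact h4
  apply hv
  funext t
  rw [hsym]
  obtain ⟨i, j, k, h1, h2, h3⟩ := RP_Phi_srt t
  rw [h1]
  by_cases hik : i = k
  · subst hik
    have h4 : i = j := le_antisymm h2 h3
    subst h4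
    exact hii i
  · exact hne i j k h2 h3 hik

theorem Phi_smul {n : ℕ} {K : Type*} [Field K] (t : K) (ht : t ≠ 0) (a b : Mt n K) :
    Phi (fun i j => t * a i j) (fun i j => t * b i j) = 0 ↔ Phi a b = 0 := by
  unfold Phi
  have h1 : Mm (fun i j => t * a i j) (fun i j => t * b i j) =
      Matrix.of fun r s => (if srt r ≠ r then 1 else if r.1 = r.2.2 then t else t ^ 2) * Mm a b r s := by
    ext r s
    rw [Matrix.of_apply]
    unfold Mm
    by_cases h1 : srt r ≠ r
    · rw [if_pos h1, if_pos h1, if_pos h1, one_mul]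
    · rw [if_neg h1, if_neg h1, if_neg h1]
      by_cases h2 : r.1 = r.2.2
      · rw [if_pos h2, if_pos h2, if_pos h2]
        split_ifs
        · rfl
        · rw [mul_zero]
      · rw [if_neg h2, if_neg h2, if_neg h2]
        split_ifs
        · ring
        · rw [mul_zero]
  rw [h1, Matrix.det_mul_column, mul_eq_zero]
  constructor
  · rintro (h | h)
    · exfalso
      obtain ⟨r, -, hr⟩ := Finset.prod_eq_zero_iff.1 h
      split_ifs at hr
      · exact one_ne_zero hr
      · exact ht hr
      · exact pow_ne_zero 2 ht hr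
    · exact h
  · intro h
    exact Or.inr h

end Pool.Agent.Lib.MP_219881_nt
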