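import Pool.Agent.Lib.MP_219881_nt.PerpSpan

/-!
JOB Span1.  Matrices vanishing at an `H`-good point are spanned by `2 n (n+1)` short integer matrices.
(Cubic version with proof: /team-store/MP_1ad228_ntC_Span1.lean; adapt it, 2 slots instead of 3.)

PROOF.  Let `f` be the short vectors of `HGood H x`. Index `t = (slot, s, j)`; the matrix
`c t` is `f_s ⊗ e_j` for slot 0, `e_j ⊗ f_s` for slot 1 (`ten`, `e_j = Pi.single j 1`). By `ev_ten` it
vanishes at `x`; its entries are entries of `f_s` or 0.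
Spanning: `p = e_o / x_o` (rational vector), `h_i = e_i - x_i p`, so `lin h_i x = 0`, hence by
`perpSpan` `h_i` is a rational combination of the `f_s`. For every `b`: `b = ∑ b_ij e_i⊗e_j`, and
  `e_i⊗e_j = x_i x_j p⊗p + h_i⊗e_j + x_i p⊗h_j`.
Summing, the first terms give `ev b x • p⊗p = 0`, the others lie in the rational span of the casts of
the `c t` (work with the `Submodule ℚ (Mt n ℚ)` spanned by `cm ℚ (c t)`: it contains `h⊗v`, `v⊗h`
for all rational `v` and all `h` with `lin h x = 0`; expand `h` in the `f_s` and `v` in the `e_j`). At the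
end turn membership in the span of a finite family into coefficients
(`Submodule.mem_span_range_iff_exists_fun`).
-/

namespace Pool.Agent.Lib.MP_219881_nt

open Classical

private def span1_A {n : ℕ} (v : Vc n ℚ) : (Vc n ℚ) →ₗ[ℚ] Mt n ℚ where
  toFun u := ten u v
  map_add' a b := by funext i j; simp only [ten, Pi.add_apply]; ring
  map_smul' r a := by
    funext i j
    simp only [ten, Pi.smul_apply, smul_eq_mul, RingHom.id_apply]
    ring

private def span1_B {n : ℕ} (u : Vc n ℚ) : (Vc n ℚ) →ₗ[ℚ] Mt n ℚ where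
  toFun v := ten u v
  map_add' a b := by funext i j; simp only [ten, Pi.add_apply]; ring
  map_smul' r a := by
    funext i j
    simp only [ten, Pi.smul_apply, smul_eq_mul, RingHom.id_apply]
    ring

private theorem span1_mem {n : ℕ} (S : Submodule ℚ (Mt n ℚ)) {A B : Set (Vc n ℚ)}
    (h : ∀ a ∈ A, ∀ b ∈ B, ten a b ∈ S) {u v : Vc n ℚ}
    (hu : u ∈ Submodule.span ℚ A) (hv : v ∈ Submodule.span ℚ B) : ten u v ∈ S := by
  have h3 : ∀ a ∈ A, ten a v ∈ S := by
    intro a ha
    have h2 : Submodule.span ℚ B ≤ S.comap (span1_B a) :=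
      Submodule.span_le.2 fun b hb => h a ha b hb
    exact h2 hv
  have h2 : Submodule.span ℚ A ≤ S.comap (span1_A v) :=
    Submodule.span_le.2 fun a ha => h3 a ha
  exact h2 hu

private theorem span1_top {n : ℕ} (v : Vc n ℚ) :
    v ∈ Submodule.span ℚ (Set.range fun j : Fin (n + 1) => (Pi.single j 1 : Vc n ℚ)) := by
  have h := (Pi.basisFun ℚ (Fin (n + 1))).span_eq
  have h2 : (Set.range fun j : Fin (n + 1) => (Pi.single j 1 : Vc n ℚ)) =
      Set.range (Pi.basisFun ℚ (Fin (n + 1))) := by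
    congr 1
    funext j
    rw [Pi.basisFun_apply]
  rw [h2, h]
  trivial

private theorem span1_perp {n : ℕ} (x : Vc n ℤ) (hx : x ≠ 0) (f : Fin n → Vc n ℤ)
    (hf : LinearIndependent ℤ f) (h0 : ∀ s, lin (f s) x = 0) {u : Vc n ℚ}
    (hu : lin u (cv ℚ x) = 0) :
    u ∈ Submodule.span ℚ (Set.range fun s : Fin n => cv ℚ (f s)) := by
  obtain ⟨t, ht⟩ := perpSpan x hx f hf h0 u hu
  have h1 : u = ∑ s, t s • cv ℚ (f s) := by
    funext i
    rw [ht i, Finset.sum_apply]
    rfl
  rw [h1]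
  exact Submodule.sum_mem _ fun s _ => Submodule.smul_mem _ _ (Submodule.subset_span ⟨s, rfl⟩)

private theorem span1_ct {n : ℕ} (u v : Vc n ℤ) :
    cm ℚ (ten u v) = ten (cv ℚ u) (cv ℚ v) := by
  funext i j
  simp [cm, ten, cv]

private theorem span1_cvs {n : ℕ} (j : Fin (n + 1)) :
    cv ℚ (Pi.single j 1 : Vc n ℤ) = Pi.single j 1 := by
  funext i
  simp only [cv, Pi.single_apply]
  split_ifs <;> simp

private theorem span1_sum {n : ℕ} (b : Mt n ℚ) :
    b = ∑ i, ∑ j, b i j • ten (Pi.single i 1) (Pi.single j 1) := by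
  funext i j
  simp [Finset.sum_apply, Pi.smul_apply, ten, Pi.single_apply]

private def span1_c {n : ℕ} (f : Fin n → Vc n ℤ) (t : Fin 2 × Fin n × Fin (n + 1)) : Mt n ℤ :=
  (![ten (f t.2.1) (Pi.single t.2.2 1),
    ten (Pi.single t.2.2 1) (f t.2.1)] : Fin 2 → Mt n ℤ) t.1

private theorem span1_le {H : ℕ} {a b : ℤ} (ha : |a| ≤ (H : ℤ)) (hb : |b| ≤ 1) :
    |a * b| ≤ (H : ℤ) := by
  rw [abs_mul]
  calc |a| * |b| ≤ H * 1 := by gcongr
    _ = H := by ring

private theorem span1_e {n : ℕ} (i j : Fin (n + 1)) : |(Pi.single i 1 : Vc n ℤ) j| ≤ 1 := by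
  rw [Pi.single_apply]
  split_ifs <;> simp

theorem span1 {n : ℕ} (H : ℕ) (o : Fin (n + 1)) (x : Vc n ℤ) (hxo : x o ≠ 0) (hx : HGood H x) :
    ∃ c : (Fin 2 × Fin n × Fin (n + 1)) → Mt n ℤ, (∀ t, ev (c t) x = 0) ∧
      (∀ t i j, |c t i j| ≤ (H : ℤ)) ∧
      ∀ b : Mt n ℚ, ev b (cv ℚ x) = 0 →
        ∃ r : (Fin 2 × Fin n × Fin (n + 1)) → ℚ,
          ∀ i j, b i j = ∑ t, r t * (c t i j : ℚ) := by
  obtain ⟨f, hf, h0, hH⟩ := hx
  have hx0 : x ≠ 0 := fun h => hxo (by rw [h]; rfl)
  refine ⟨span1_c f, ?_, ?_, ?_⟩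
  · rintro ⟨a, s, j⟩
    fin_cases a
    · show ev (ten (f s) (Pi.single j 1)) x = 0
      rw [ev_ten, h0]
      ring
    · show ev (ten (Pi.single j 1) (f s)) x = 0
      rw [ev_ten, h0]
      ring
  · rintro ⟨a, s, j⟩ i' j'
    fin_cases a
    · show |f s i' * (Pi.single j 1 : Vc n ℤ) j'| ≤ (H : ℤ)
      exact span1_le (hH s i') (span1_e j j')
    · show |(Pi.single j 1 : Vc n ℤ) i' * f s j'| ≤ (H : ℤ)
      rw [mul_comm ((Pi.single j 1 : Vc n ℤ) i')]
      exact span1_le (hH s j') (span1_e j i')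
  · intro b hb
    let S : Submodule ℚ (Mt n ℚ) := Submodule.span ℚ (Set.range fun t => cm ℚ (span1_c f t))
    have hx1' : (x o : ℚ) ≠ 0 := by exact_mod_cast hxo
    have m1 : ∀ h v : Vc n ℚ, lin h (cv ℚ x) = 0 → ten h v ∈ S := by
      intro h v hh
      refine span1_mem S ?_ (span1_perp x hx0 f hf h0 hh) (span1_top v)
      rintro _ ⟨s, rfl⟩ _ ⟨j, rfl⟩
      refine Submodule.subset_span ⟨(0, s, j), ?_⟩
      show cm ℚ (ten (f s) (Pi.single j 1)) = _
      rw [span1_ct, span1_cvs]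
    have m2 : ∀ h v : Vc n ℚ, lin h (cv ℚ x) = 0 → ten v h ∈ S := by
      intro h v hh
      refine span1_mem S ?_ (span1_top v) (span1_perp x hx0 f hf h0 hh)
      rintro _ ⟨j, rfl⟩ _ ⟨s, rfl⟩
      refine Submodule.subset_span ⟨(1, s, j), ?_⟩
      show cm ℚ (ten (Pi.single j 1) (f s)) = _
      rw [span1_ct, span1_cvs]
    let X : Vc n ℚ := cv ℚ x
    let e : Fin (n + 1) → Vc n ℚ := fun i => Pi.single i 1
    let p : Vc n ℚ := (X o)⁻¹ • e o
    let h : Fin (n + 1) → Vc n ℚ := fun i => e i - X i • p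
    have hp : lin p X = 1 := by
      show lin ((X o)⁻¹ • e o) X = 1
      rw [lin_smul, lin_single]
      exact inv_mul_cancel₀ hx1'
    have hh : ∀ i, lin (h i) X = 0 := by
      intro i
      show lin (e i - X i • p) X = 0
      rw [lin_sub, lin_smul, hp, lin_single]
      ring
    have hid : ∀ i j, ten (e i) (e j) = (X i * X j) • ten p p +
        (ten (h i) (e j) + X i • ten p (h j)) := by
      intro i j
      funext a b'
      simp only [ten, h, Pi.add_apply, Pi.smul_apply, Pi.sub_apply, smul_eq_mul]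
      ring
    have hb2 : b - ev b X • ten p p ∈ S := by
      have e1 : b - ev b X • ten p p = ∑ i, ∑ j, b i j • (ten (h i) (e j) +
          X i • ten p (h j)) := by
        have e2 : b = ∑ i, ∑ j, b i j • ten (e i) (e j) := span1_sum b
        have e3 : ev b X • ten p p = ∑ i, ∑ j, b i j • (X i * X j) • ten p p := by
          unfold ev
          simp only [Finset.sum_smul, mul_smul]
        rw [e3]
        refine (congrArg (fun y => y - ∑ i, ∑ j, b i j • (X i * X j) • ten p p)
          e2).trans ?_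
        show (∑ i, ∑ j, b i j • ten (e i) (e j)) -
          ∑ i, ∑ j, b i j • (X i * X j) • ten p p = _
        rw [← Finset.sum_sub_distrib]
        refine Finset.sum_congr rfl fun i _ => ?_
        rw [← Finset.sum_sub_distrib]
        refine Finset.sum_congr rfl fun j _ => ?_
        rw [hid, smul_add, add_sub_cancel_left]
      rw [e1]
      refine Submodule.sum_mem _ fun i _ => Submodule.sum_mem _ fun j _ =>
        Submodule.smul_mem _ _ ?_
      exact Submodule.add_mem _ (m1 _ _ (hh i)) (Submodule.smul_mem _ _ (m2 _ _ (hh j)))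
    have hb3 : b ∈ S := by
      have e4 : ev b X = 0 := hb
      rw [e4, zero_smul, sub_zero] at hb2
      exact hb2
    obtain ⟨r, hr⟩ := (Submodule.mem_span_range_iff_exists_fun ℚ).1 hb3
    refine ⟨r, fun i j => ?_⟩
    rw [← hr]
    simp only [Finset.sum_apply, Pi.smul_apply, smul_eq_mul, cm]

end Pool.Agent.Lib.MP_219881_nt
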